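import Pool.Agent.Lib_MP_1c78a5_ghost.Defs

/-!
# Piece GKERN: the integral defining the logarithm of the double sine function
-/

open Complex MeasureTheory Set Filter Topology
open scoped Real ComplexConjugate

namespace Ghost

theorem GKERN_csinh_sub (w : ℂ) : ‖Complex.sinh w - w‖ ≤ ‖w‖ ^ 3 * Real.exp ‖w‖ := by
  have h1 := Complex.norm_exp_sub_sum_le_norm_mul_exp w 3
  have h2 := Complex.norm_exp_sub_sum_le_norm_mul_exp (-w) 3
  simp only [Finset.sum_range_succ, Finset.sum_range_zero, norm_neg] at h1 h2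
  have e : Complex.sinh w - w =
      ((Complex.exp w - (0 + w ^ 0 / ((0).factorial : ℂ) + w ^ 1 / ((1).factorial : ℂ) +
        w ^ 2 / ((2).factorial : ℂ))) -
      (Complex.exp (-w) - (0 + (-w) ^ 0 / ((0).factorial : ℂ) + (-w) ^ 1 / ((1).factorial : ℂ) +
        (-w) ^ 2 / ((2).factorial : ℂ)))) / 2 := by
    rw [Complex.sinh]
    simp [Nat.factorial]
    ring
  rw [e, norm_div]
  have h3 := norm_sub_le (Complex.exp w - (0 + w ^ 0 / ((0).factorial : ℂ) +
        w ^ 1 / ((1).factorial : ℂ) + w ^ 2 / ((2).factorial : ℂ)))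
      (Complex.exp (-w) - (0 + (-w) ^ 0 / ((0).factorial : ℂ) + (-w) ^ 1 / ((1).factorial : ℂ) +
        (-w) ^ 2 / ((2).factorial : ℂ)))
  have h4 : ‖(2 : ℂ)‖ = 2 := by norm_num
  rw [h4, div_le_iff₀ (by norm_num : (0 : ℝ) < 2)]
  linarith

theorem GKERN_csinh (w : ℂ) : ‖Complex.sinh w‖ ≤ ‖w‖ * Real.exp ‖w‖ := by
  have h1 := Complex.norm_exp_sub_sum_le_norm_mul_exp w 1
  have h2 := Complex.norm_exp_sub_sum_le_norm_mul_exp (-w) 1
  simp only [Finset.sum_range_succ, Finset.sum_range_zero, norm_neg] at h1 h2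
  have e : Complex.sinh w =
      ((Complex.exp w - (0 + w ^ 0 / ((0).factorial : ℂ))) -
      (Complex.exp (-w) - (0 + (-w) ^ 0 / ((0).factorial : ℂ)))) / 2 := by
    rw [Complex.sinh]
    simp
  rw [e, norm_div]
  have h3 := norm_sub_le (Complex.exp w - (0 + w ^ 0 / ((0).factorial : ℂ)))
      (Complex.exp (-w) - (0 + (-w) ^ 0 / ((0).factorial : ℂ)))
  have h4 : ‖(2 : ℂ)‖ = 2 := by norm_num
  rw [h4, div_le_iff₀ (by norm_num : (0 : ℝ) < 2)]
  rw [pow_one] at h1 h2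
  linarith

theorem GKERN_ccosh_sub (w : ℂ) : ‖Complex.cosh w - 1‖ ≤ ‖w‖ ^ 2 * Real.exp ‖w‖ := by
  have h1 := Complex.norm_exp_sub_sum_le_norm_mul_exp w 2
  have h2 := Complex.norm_exp_sub_sum_le_norm_mul_exp (-w) 2
  simp only [Finset.sum_range_succ, Finset.sum_range_zero, norm_neg] at h1 h2
  have e : Complex.cosh w - 1 =
      ((Complex.exp w - (0 + w ^ 0 / ((0).factorial : ℂ) + w ^ 1 / ((1).factorial : ℂ))) +
      (Complex.exp (-w) - (0 + (-w) ^ 0 / ((0).factorial : ℂ) +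
        (-w) ^ 1 / ((1).factorial : ℂ)))) / 2 := by
    rw [Complex.cosh]
    simp
    ring
  rw [e, norm_div]
  have h3 := norm_add_le (Complex.exp w - (0 + w ^ 0 / ((0).factorial : ℂ) +
        w ^ 1 / ((1).factorial : ℂ)))
      (Complex.exp (-w) - (0 + (-w) ^ 0 / ((0).factorial : ℂ) + (-w) ^ 1 / ((1).factorial : ℂ)))
  have h4 : ‖(2 : ℂ)‖ = 2 := by norm_num
  rw [h4, div_le_iff₀ (by norm_num : (0 : ℝ) < 2)]
  linarith

theorem GKERN_sinh_sub (u : ℝ) (hu : 0 ≤ u) : |Real.sinh u - u| ≤ u ^ 3 * Real.exp u := by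
  have h := GKERN_csinh_sub (u : ℂ)
  rw [← Complex.ofReal_sinh, ← Complex.ofReal_sub, Complex.norm_real, Complex.norm_real,
    Real.norm_eq_abs, Real.norm_eq_abs, abs_of_nonneg hu] at h
  exact h

theorem GKERN_sinh (u : ℝ) (hu : 0 ≤ u) : Real.sinh u ≤ u * Real.exp u := by
  have h := GKERN_csinh (u : ℂ)
  rw [← Complex.ofReal_sinh, Complex.norm_real, Complex.norm_real,
    Real.norm_eq_abs, Real.norm_eq_abs, abs_of_nonneg hu] at h
  exact (le_abs_self _).trans h

/-- Exponential bound of the hyperbolic cosine. -/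
theorem GKERN_ccosh (w : ℂ) : ‖Complex.cosh w‖ ≤ Real.exp |w.re| := by
  rw [Complex.cosh, norm_div]
  have h4 : ‖(2 : ℂ)‖ = 2 := by norm_num
  rw [h4, div_le_iff₀ (by norm_num : (0 : ℝ) < 2)]
  have h1 := norm_add_le (Complex.exp w) (Complex.exp (-w))
  rw [Complex.norm_exp, Complex.norm_exp, Complex.neg_re] at h1
  have h2 : Real.exp w.re ≤ Real.exp |w.re| := Real.exp_le_exp.2 (le_abs_self _)
  have h3 : Real.exp (-w.re) ≤ Real.exp |w.re| := Real.exp_le_exp.2 (neg_le_abs _)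
  linarith

/-- `1 / s - 1 / t²` is bounded near zero. -/
theorem GKERN_inv_sub (P : Par) : ∃ C : ℝ, 0 ≤ C ∧ ∀ t : ℝ, 0 < t → t ≤ 1 →
    |1 / (Real.sinh (P.b * t) * Real.sinh (P.o * t)) - 1 / t ^ 2| ≤ C := by
  have hb := P.hb
  have ho := P.ho
  have hbo := P.hbo
  refine ⟨P.b ^ 3 * Real.exp P.b * (P.o * Real.exp P.o) + P.b * (P.o ^ 3 * Real.exp P.o),
    by positivity, ?_⟩
  intro t ht ht1
  have hbt : 0 < P.b * t := mul_pos hb ht
  have hot : 0 < P.o * t := mul_pos ho ht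
  have s1 : P.b * t ≤ Real.sinh (P.b * t) := Real.self_le_sinh_iff.2 hbt.le
  have s2 : P.o * t ≤ Real.sinh (P.o * t) := Real.self_le_sinh_iff.2 hot.le
  have hs1 : 0 < Real.sinh (P.b * t) := lt_of_lt_of_le hbt s1
  have hs2 : 0 < Real.sinh (P.o * t) := lt_of_lt_of_le hot s2
  have hst : t ^ 2 ≤ Real.sinh (P.b * t) * Real.sinh (P.o * t) := by
    have h := mul_le_mul s1 s2 hot.le hs1.le
    have e : P.b * t * (P.o * t) = t ^ 2 := by linear_combination t ^ 2 * hbo
    linarith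
  have ht2 : 0 < t ^ 2 := by positivity
  have hs0 : 0 < Real.sinh (P.b * t) * Real.sinh (P.o * t) := mul_pos hs1 hs2
  have eb : Real.exp (P.b * t) ≤ Real.exp P.b := Real.exp_le_exp.2 (by nlinarith)
  have eo : Real.exp (P.o * t) ≤ Real.exp P.o := Real.exp_le_exp.2 (by nlinarith)
  have d1 : Real.sinh (P.b * t) - P.b * t ≤ P.b ^ 3 * t ^ 3 * Real.exp P.b := by
    have h := (le_abs_self _).trans (GKERN_sinh_sub (P.b * t) hbt.le)
    have h2 : (P.b * t) ^ 3 * Real.exp (P.b * t) ≤ (P.b * t) ^ 3 * Real.exp P.b :=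
      mul_le_mul_of_nonneg_left eb (by positivity)
    calc _ ≤ _ := h
      _ ≤ _ := h2
      _ = _ := by ring
  have d2 : Real.sinh (P.o * t) - P.o * t ≤ P.o ^ 3 * t ^ 3 * Real.exp P.o := by
    have h := (le_abs_self _).trans (GKERN_sinh_sub (P.o * t) hot.le)
    have h2 : (P.o * t) ^ 3 * Real.exp (P.o * t) ≤ (P.o * t) ^ 3 * Real.exp P.o :=
      mul_le_mul_of_nonneg_left eo (by positivity)
    calc _ ≤ _ := h
      _ ≤ _ := h2
      _ = _ := by ring
  have d3 : Real.sinh (P.o * t) ≤ P.o * t * Real.exp P.o := by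
    have h := GKERN_sinh (P.o * t) hot.le
    have h2 : P.o * t * Real.exp (P.o * t) ≤ P.o * t * Real.exp P.o :=
      mul_le_mul_of_nonneg_left eo hot.le
    linarith
  have hdiff : Real.sinh (P.b * t) * Real.sinh (P.o * t) - t ^ 2 ≤
      (P.b ^ 3 * Real.exp P.b * (P.o * Real.exp P.o) + P.b * (P.o ^ 3 * Real.exp P.o)) * t ^ 4 := by
    have e : Real.sinh (P.b * t) * Real.sinh (P.o * t) - t ^ 2 =
        (Real.sinh (P.b * t) - P.b * t) * Real.sinh (P.o * t) +
          P.b * t * (Real.sinh (P.o * t) - P.o * t) := by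
      linear_combination (t ^ 2) * hbo
    have h1 : (Real.sinh (P.b * t) - P.b * t) * Real.sinh (P.o * t) ≤
        (P.b ^ 3 * t ^ 3 * Real.exp P.b) * (P.o * t * Real.exp P.o) :=
      mul_le_mul d1 d3 hs2.le (by positivity)
    have h2 : P.b * t * (Real.sinh (P.o * t) - P.o * t) ≤
        P.b * t * (P.o ^ 3 * t ^ 3 * Real.exp P.o) :=
      mul_le_mul_of_nonneg_left d2 hbt.le
    rw [e]
    calc _ ≤ _ := add_le_add h1 h2
      _ = _ := by ring
  rw [abs_le]
  have key : 1 / t ^ 2 - 1 / (Real.sinh (P.b * t) * Real.sinh (P.o * t)) ≤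
      P.b ^ 3 * Real.exp P.b * (P.o * Real.exp P.o) + P.b * (P.o ^ 3 * Real.exp P.o) := by
    rw [div_sub_div _ _ ht2.ne' hs0.ne', div_le_iff₀ (mul_pos ht2 hs0)]
    have h3 : (P.b ^ 3 * Real.exp P.b * (P.o * Real.exp P.o) + P.b * (P.o ^ 3 * Real.exp P.o)) *
        t ^ 4 ≤
        (P.b ^ 3 * Real.exp P.b * (P.o * Real.exp P.o) + P.b * (P.o ^ 3 * Real.exp P.o)) *
        (t ^ 2 * (Real.sinh (P.b * t) * Real.sinh (P.o * t))) := by
      apply mul_le_mul_of_nonneg_left _ (by positivity)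
      nlinarith
    linarith
  have key2 : 1 / (Real.sinh (P.b * t) * Real.sinh (P.o * t)) ≤ 1 / t ^ 2 :=
    one_div_le_one_div_of_le ht2 hst
  have hC : 0 ≤ P.b ^ 3 * Real.exp P.b * (P.o * Real.exp P.o) + P.b * (P.o ^ 3 * Real.exp P.o) := by
    positivity
  constructor <;> linarith

/-- Exponential lower bound of `sinh`. -/
theorem GKERN_sinh_lower {u t : ℝ} (hu : 0 < u) (ht : 1 ≤ t) :
    (1 - Real.exp (-2 * u)) / 2 * Real.exp (u * t) ≤ Real.sinh (u * t) := by
  rw [Real.sinh_eq]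
  have h1 : Real.exp (-(u * t)) ≤ Real.exp (-2 * u) * Real.exp (u * t) := by
    rw [← Real.exp_add]
    apply Real.exp_le_exp.2
    nlinarith
  linarith

theorem GKERN_alg (A B E x y : ℝ) (h : A * B ≠ 0) :
    E * x * y = (A * B)⁻¹ * E * (A * x * (B * y)) := by
  have : (A * B)⁻¹ * E * (A * x * (B * y)) = ((A * B)⁻¹ * (A * B)) * (E * x * y) := by ring
  rw [this, inv_mul_cancel₀ h, one_mul]

/-- The dominating function. -/
noncomputable def GKERN_B (C κ δ : ℝ) (t : ℝ) : ℝ :=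
  if t ≤ 1 then C else κ * Real.exp (-δ * t) + 1 / t ^ 2

theorem GKERN_B_integrable (C κ : ℝ) {δ : ℝ} (hδ : 0 < δ) :
    IntegrableOn (GKERN_B C κ δ) (Ioi 0) := by
  have hsplit : Ioi (0 : ℝ) = Ioc 0 1 ∪ Ioi 1 := (Ioc_union_Ioi_eq_Ioi zero_le_one).symm
  rw [hsplit]
  apply IntegrableOn.union
  · have h : IntegrableOn (fun _ : ℝ => C) (Ioc 0 1) :=
      integrableOn_const (by simp) 
    refine h.congr_fun ?_ measurableSet_Ioc
    intro t ht
    simp [GKERN_B, ht.2]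
  · have h1 : IntegrableOn (fun t : ℝ => κ * Real.exp (-δ * t)) (Ioi 1) :=
      (integrableOn_exp_mul_Ioi (by linarith : -δ < 0) 1).const_mul κ
    have h2 : IntegrableOn (fun t : ℝ => 1 / t ^ 2) (Ioi 1) := by
      have h := integrableOn_Ioi_rpow_of_lt (by norm_num : (-2 : ℝ) < -1) (zero_lt_one)
      refine h.congr_fun ?_ measurableSet_Ioi
      intro t ht
      have ht0 : (0 : ℝ) < t := lt_trans zero_lt_one ht
      show t ^ (-2 : ℝ) = 1 / t ^ 2
      rw [Real.rpow_neg ht0.le, one_div]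
      norm_cast
    have h3 := h1.add h2
    refine h3.congr_fun ?_ measurableSet_Ioi
    intro t ht
    have ht1 : ¬ t ≤ 1 := not_le.2 ht
    simp [GKERN_B, ht1]

/-- Bound of the derivative of the kernel. -/
theorem GKERN_bound (P : Par) (R ρ : ℝ) (hR : 0 ≤ R) : ∃ C κ : ℝ, 0 ≤ C ∧ 0 ≤ κ ∧
    ∀ c : ℂ, ‖c‖ ≤ R → |c.re| ≤ ρ → ∀ t : ℝ, 0 < t →
      ‖Complex.cosh (c * t) / (Real.sinh (P.b * t) * Real.sinh (P.o * t)) - 1 / (t : ℂ) ^ 2‖ ≤
        GKERN_B C κ (P.Q - ρ) t := by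
  obtain ⟨C₀, hC₀, hC⟩ := GKERN_inv_sub P
  have hb := P.hb
  have ho := P.ho
  have hbo := P.hbo
  have hk1 : 0 < (1 - Real.exp (-2 * P.b)) / 2 := by
    have : Real.exp (-2 * P.b) < 1 := by
      rw [Real.exp_lt_one_iff]; linarith
    linarith
  have hk2 : 0 < (1 - Real.exp (-2 * P.o)) / 2 := by
    have : Real.exp (-2 * P.o) < 1 := by
      rw [Real.exp_lt_one_iff]; linarith
    linarith
  refine ⟨R ^ 2 * Real.exp R + C₀,
    ((1 - Real.exp (-2 * P.b)) / 2 * ((1 - Real.exp (-2 * P.o)) / 2))⁻¹, by positivity,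
    (inv_pos.2 (mul_pos hk1 hk2)).le, ?_⟩
  intro c hcR hcρ t ht
  have hbt : 0 < P.b * t := mul_pos hb ht
  have hot : 0 < P.o * t := mul_pos ho ht
  have s1 : P.b * t ≤ Real.sinh (P.b * t) := Real.self_le_sinh_iff.2 hbt.le
  have s2 : P.o * t ≤ Real.sinh (P.o * t) := Real.self_le_sinh_iff.2 hot.le
  have hs1 : 0 < Real.sinh (P.b * t) := lt_of_lt_of_le hbt s1
  have hs2 : 0 < Real.sinh (P.o * t) := lt_of_lt_of_le hot s2
  have hst : t ^ 2 ≤ Real.sinh (P.b * t) * Real.sinh (P.o * t) := by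
    have h := mul_le_mul s1 s2 hot.le hs1.le
    have e : P.b * t * (P.o * t) = t ^ 2 := by linear_combination t ^ 2 * hbo
    linarith
  have ht2 : 0 < t ^ 2 := by positivity
  have hs0 : 0 < Real.sinh (P.b * t) * Real.sinh (P.o * t) := mul_pos hs1 hs2
  have hnt : ‖(t : ℂ)‖ = t := by rw [Complex.norm_real, Real.norm_eq_abs, abs_of_pos ht]
  have hns : ‖((Real.sinh (P.b * t) : ℂ) * (Real.sinh (P.o * t) : ℂ))‖ =
      Real.sinh (P.b * t) * Real.sinh (P.o * t) := by
    rw [← Complex.ofReal_mul, Complex.norm_real, Real.norm_eq_abs, abs_of_pos hs0]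
  by_cases ht1 : t ≤ 1
  · rw [GKERN_B, if_pos ht1]
    have e : Complex.cosh (c * t) / (Real.sinh (P.b * t) * Real.sinh (P.o * t)) - 1 / (t : ℂ) ^ 2 =
        (Complex.cosh (c * t) - 1) / (Real.sinh (P.b * t) * Real.sinh (P.o * t)) +
        ((1 / (Real.sinh (P.b * t) * Real.sinh (P.o * t)) - 1 / t ^ 2 : ℝ) : ℂ) := by
      push_cast
      ring
    rw [e]
    refine (norm_add_le _ _).trans (add_le_add ?_ ?_)
    · rw [norm_div, hns, div_le_iff₀ hs0]
      have h1 := GKERN_ccosh_sub (c * t)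
      rw [norm_mul, hnt] at h1
      have h2 : ‖c‖ * t ≤ R := by
        calc ‖c‖ * t ≤ R * 1 := mul_le_mul hcR ht1 ht.le hR
          _ = R := mul_one R
      have h3 : (‖c‖ * t) ^ 2 * Real.exp (‖c‖ * t) ≤ (R * t) ^ 2 * Real.exp R := by
        apply mul_le_mul _ (Real.exp_le_exp.2 h2) (Real.exp_pos _).le (by positivity)
        apply pow_le_pow_left₀ (by positivity)
        exact mul_le_mul_of_nonneg_right hcR ht.le
      have h4 : (R * t) ^ 2 * Real.exp R ≤
          R ^ 2 * Real.exp R * (Real.sinh (P.b * t) * Real.sinh (P.o * t)) := by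
        have : R ^ 2 * Real.exp R * t ^ 2 ≤
            R ^ 2 * Real.exp R * (Real.sinh (P.b * t) * Real.sinh (P.o * t)) :=
          mul_le_mul_of_nonneg_left hst (by positivity)
        calc (R * t) ^ 2 * Real.exp R = R ^ 2 * Real.exp R * t ^ 2 := by ring
          _ ≤ _ := this
      linarith
    · rw [Complex.norm_real, Real.norm_eq_abs]
      exact hC t ht ht1
  · rw [GKERN_B, if_neg ht1]
    have ht1' : 1 ≤ t := (not_le.1 ht1).le
    refine (norm_sub_le _ _).trans (add_le_add ?_ ?_)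
    · rw [norm_div, hns, div_le_iff₀ hs0]
      have h1 := GKERN_ccosh (c * t)
      have h2 : |(c * t).re| ≤ ρ * t := by
        have : (c * (t : ℂ)).re = c.re * t := by simp
        rw [this, abs_mul, abs_of_pos ht]
        exact mul_le_mul_of_nonneg_right hcρ ht.le
      have h3 : Real.exp |(c * t).re| ≤ Real.exp (ρ * t) := Real.exp_le_exp.2 h2
      have l1 := GKERN_sinh_lower hb ht1'
      have l2 := GKERN_sinh_lower ho ht1'
      have h4 : ((1 - Real.exp (-2 * P.b)) / 2 * Real.exp (P.b * t)) *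
          ((1 - Real.exp (-2 * P.o)) / 2 * Real.exp (P.o * t)) ≤
          Real.sinh (P.b * t) * Real.sinh (P.o * t) :=
        mul_le_mul l1 l2 (by positivity) hs1.le
      have h5 : Real.exp (ρ * t) =
          ((1 - Real.exp (-2 * P.b)) / 2 * ((1 - Real.exp (-2 * P.o)) / 2))⁻¹ *
          Real.exp (-(P.Q - ρ) * t) *
          (((1 - Real.exp (-2 * P.b)) / 2 * Real.exp (P.b * t)) *
          ((1 - Real.exp (-2 * P.o)) / 2 * Real.exp (P.o * t))) := by
        have e1 : Real.exp (-(P.Q - ρ) * t) * Real.exp (P.b * t) * Real.exp (P.o * t) =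
            Real.exp (ρ * t) := by
          rw [← Real.exp_add, ← Real.exp_add]
          congr 1
          unfold Par.Q
          ring
        rw [← e1]
        exact GKERN_alg _ _ _ _ _ (mul_pos hk1 hk2).ne'
      have h6 : ((1 - Real.exp (-2 * P.b)) / 2 * ((1 - Real.exp (-2 * P.o)) / 2))⁻¹ *
          Real.exp (-(P.Q - ρ) * t) *
          (((1 - Real.exp (-2 * P.b)) / 2 * Real.exp (P.b * t)) *
          ((1 - Real.exp (-2 * P.o)) / 2 * Real.exp (P.o * t))) ≤
          ((1 - Real.exp (-2 * P.b)) / 2 * ((1 - Real.exp (-2 * P.o)) / 2))⁻¹ *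
          Real.exp (-(P.Q - ρ) * t) * (Real.sinh (P.b * t) * Real.sinh (P.o * t)) :=
        mul_le_mul_of_nonneg_left h4
          (mul_nonneg (inv_pos.2 (mul_pos hk1 hk2)).le (Real.exp_pos _).le)
      linarith
    · rw [norm_div, norm_pow, hnt]
      simp

/-- The derivative of the kernel in `x`. -/
theorem GKERN_hasDerivAt (P : Par) (x : ℂ) {t : ℝ} (ht : 0 < t) :
    HasDerivAt (fun x => kern P x t)
      (Complex.cosh ((2 * x - P.Q) * t) / (Real.sinh (P.b * t) * Real.sinh (P.o * t)) -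
        1 / (t : ℂ) ^ 2) x := by
  have hs1 : 0 < Real.sinh (P.b * t) := Real.sinh_pos_iff.2 (mul_pos P.hb ht)
  have hs2 : 0 < Real.sinh (P.o * t) := Real.sinh_pos_iff.2 (mul_pos P.ho ht)
  have h1 : HasDerivAt (fun x : ℂ => (2 * x - P.Q) * (t : ℂ)) (2 * 1 * (t : ℂ)) x :=
    (((hasDerivAt_id x).const_mul (2 : ℂ)).sub_const (P.Q : ℂ)).mul_const (t : ℂ)
  have h2 := (Complex.hasDerivAt_sinh ((2 * x - P.Q) * (t : ℂ))).comp x h1
  have h3 : HasDerivAt (fun x : ℂ => (2 * x - P.Q) / (2 * (t : ℂ))) (2 * 1 / (2 * (t : ℂ))) x :=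
    (((hasDerivAt_id x).const_mul (2 : ℂ)).sub_const (P.Q : ℂ)).div_const _
  have h4 := ((h2.div_const (2 * (Real.sinh (P.b * t) : ℂ) * (Real.sinh (P.o * t) : ℂ))).sub
    h3).div_const (t : ℂ)
  refine HasDerivAt.congr_deriv (f' := _) h4 ?_
  have ht' : (t : ℂ) ≠ 0 := by exact_mod_cast ht.ne'
  have hs1' : (Real.sinh (P.b * t) : ℂ) ≠ 0 := by exact_mod_cast hs1.ne'
  have hs2' : (Real.sinh (P.o * t) : ℂ) ≠ 0 := by exact_mod_cast hs2.ne'
  field_simp

theorem GKERN_measurable (P : Par) (x : ℂ) :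
    AEStronglyMeasurable (kern P x) (volume.restrict (Ioi 0)) := by
  have h : ContinuousOn (kern P x) (Ioi 0) := by
    intro t ht
    have ht0 : (0 : ℝ) < t := ht
    have hs1 : 0 < Real.sinh (P.b * t) := Real.sinh_pos_iff.2 (mul_pos P.hb ht0)
    have hs2 : 0 < Real.sinh (P.o * t) := Real.sinh_pos_iff.2 (mul_pos P.ho ht0)
    have ht' : (t : ℂ) ≠ 0 := by exact_mod_cast ht0.ne'
    have hs1' : (Real.sinh (P.b * t) : ℂ) ≠ 0 := by exact_mod_cast hs1.ne'
    have hs2' : (Real.sinh (P.o * t) : ℂ) ≠ 0 := by exact_mod_cast hs2.ne'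
    apply ContinuousAt.continuousWithinAt
    unfold kern
    have c0 : ContinuousAt (fun t : ℝ => (t : ℂ)) t := Complex.continuous_ofReal.continuousAt
    have c1 : ContinuousAt (fun t : ℝ => (Real.sinh (P.b * t) : ℂ)) t :=
      (Complex.continuous_ofReal.comp (Real.continuous_sinh.comp
        (continuous_const.mul continuous_id))).continuousAt
    have c2 : ContinuousAt (fun t : ℝ => (Real.sinh (P.o * t) : ℂ)) t :=
      (Complex.continuous_ofReal.comp (Real.continuous_sinh.comp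
        (continuous_const.mul continuous_id))).continuousAt
    have c3 : ContinuousAt (fun t : ℝ => Complex.sinh ((2 * x - P.Q) * (t : ℂ))) t :=
      (Complex.continuous_sinh.comp (continuous_const.mul Complex.continuous_ofReal)).continuousAt
    refine ((c3.div ((continuousAt_const.mul c1).mul c2) ?_).sub
      (continuousAt_const.div (continuousAt_const.mul c0) ?_)).div c0 ht'
    · exact mul_ne_zero (mul_ne_zero two_ne_zero hs1') hs2'
    · exact mul_ne_zero two_ne_zero ht'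
  exact h.aestronglyMeasurable measurableSet_Ioi

theorem GKERN_deriv_measurable (P : Par) (x : ℂ) :
    AEStronglyMeasurable (fun t : ℝ =>
      Complex.cosh ((2 * x - P.Q) * t) / (Real.sinh (P.b * t) * Real.sinh (P.o * t)) -
        1 / (t : ℂ) ^ 2) (volume.restrict (Ioi 0)) := by
  have h : ContinuousOn (fun t : ℝ =>
      Complex.cosh ((2 * x - P.Q) * t) / (Real.sinh (P.b * t) * Real.sinh (P.o * t)) -
        1 / (t : ℂ) ^ 2) (Ioi 0) := by
    intro t ht
    have ht0 : (0 : ℝ) < t := ht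
    have hs1 : 0 < Real.sinh (P.b * t) := Real.sinh_pos_iff.2 (mul_pos P.hb ht0)
    have hs2 : 0 < Real.sinh (P.o * t) := Real.sinh_pos_iff.2 (mul_pos P.ho ht0)
    have ht' : (t : ℂ) ≠ 0 := by exact_mod_cast ht0.ne'
    have hs1' : (Real.sinh (P.b * t) : ℂ) ≠ 0 := by exact_mod_cast hs1.ne'
    have hs2' : (Real.sinh (P.o * t) : ℂ) ≠ 0 := by exact_mod_cast hs2.ne'
    apply ContinuousAt.continuousWithinAt
    have c0 : ContinuousAt (fun t : ℝ => (t : ℂ)) t := Complex.continuous_ofReal.continuousAt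
    have c1 : ContinuousAt (fun t : ℝ => (Real.sinh (P.b * t) : ℂ)) t :=
      (Complex.continuous_ofReal.comp (Real.continuous_sinh.comp
        (continuous_const.mul continuous_id))).continuousAt
    have c2 : ContinuousAt (fun t : ℝ => (Real.sinh (P.o * t) : ℂ)) t :=
      (Complex.continuous_ofReal.comp (Real.continuous_sinh.comp
        (continuous_const.mul continuous_id))).continuousAt
    have c3 : ContinuousAt (fun t : ℝ => Complex.cosh ((2 * x - P.Q) * (t : ℂ))) t :=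
      (Complex.continuous_cosh.comp (continuous_const.mul Complex.continuous_ofReal)).continuousAt
    exact (c3.div (c1.mul c2) (mul_ne_zero hs1' hs2')).sub
      (continuousAt_const.div (c0.pow 2) (pow_ne_zero 2 ht'))
  exact h.aestronglyMeasurable measurableSet_Ioi

/-- Bound of the kernel. -/
theorem GKERN_kern_le (P : Par) {R ρ C κ : ℝ} (hR : 0 ≤ R) (hρ : 0 ≤ ρ)
    (hB : ∀ c : ℂ, ‖c‖ ≤ R → |c.re| ≤ ρ → ∀ t : ℝ, 0 < t →
      ‖Complex.cosh (c * t) / (Real.sinh (P.b * t) * Real.sinh (P.o * t)) - 1 / (t : ℂ) ^ 2‖ ≤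
        GKERN_B C κ (P.Q - ρ) t) {x : ℂ} (h1 : ‖2 * x - P.Q‖ ≤ R) (h2 : |(2 * x - P.Q).re| ≤ ρ)
    {t : ℝ} (ht : 0 < t) :
    ‖kern P x t‖ ≤ R * GKERN_B C κ (P.Q - ρ) t := by
  have hconv : Convex ℝ {x : ℂ | ‖2 * x - P.Q‖ ≤ R ∧ |(2 * x - P.Q).re| ≤ ρ} := by
    intro u hu v hv α β hα hβ hαβ
    have e : 2 * (α • u + β • v) - (P.Q : ℂ) = α • (2 * u - P.Q) + β • (2 * v - P.Q) := by
      simp only [Complex.real_smul]
      have : (α : ℂ) + β = 1 := by exact_mod_cast hαβ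
      linear_combination (P.Q : ℂ) * this
    refine ⟨?_, ?_⟩
    · rw [e]
      calc _ ≤ ‖α • (2 * u - (P.Q : ℂ))‖ + ‖β • (2 * v - (P.Q : ℂ))‖ := norm_add_le _ _
        _ = α * ‖2 * u - (P.Q : ℂ)‖ + β * ‖2 * v - (P.Q : ℂ)‖ := by
            rw [norm_smul, norm_smul, Real.norm_eq_abs, Real.norm_eq_abs, abs_of_nonneg hα,
              abs_of_nonneg hβ]
        _ ≤ α * R + β * R := add_le_add (mul_le_mul_of_nonneg_left hu.1 hα)
            (mul_le_mul_of_nonneg_left hv.1 hβ)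
        _ = R := by rw [← add_mul, hαβ, one_mul]
    · rw [e]
      have e2 : (α • (2 * u - (P.Q : ℂ)) + β • (2 * v - (P.Q : ℂ))).re =
          α * (2 * u - (P.Q : ℂ)).re + β * (2 * v - (P.Q : ℂ)).re := by
        simp only [Complex.add_re, Complex.smul_re, smul_eq_mul]
      rw [e2]
      calc _ ≤ |α * (2 * u - (P.Q : ℂ)).re| + |β * (2 * v - (P.Q : ℂ)).re| := abs_add_le _ _
        _ = α * |(2 * u - (P.Q : ℂ)).re| + β * |(2 * v - (P.Q : ℂ)).re| := by
            rw [abs_mul, abs_mul, abs_of_nonneg hα, abs_of_nonneg hβ]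
        _ ≤ α * ρ + β * ρ := add_le_add (mul_le_mul_of_nonneg_left hu.2 hα)
            (mul_le_mul_of_nonneg_left hv.2 hβ)
        _ = ρ := by rw [← add_mul, hαβ, one_mul]
  have hc : ((P.Q : ℂ) / 2) ∈ {x : ℂ | ‖2 * x - P.Q‖ ≤ R ∧ |(2 * x - P.Q).re| ≤ ρ} := by
    have : 2 * ((P.Q : ℂ) / 2) - P.Q = 0 := by ring
    constructor
    · rw [this, norm_zero]; exact hR
    · rw [this, Complex.zero_re, abs_zero]; exact hρ
  have hx : x ∈ {x : ℂ | ‖2 * x - P.Q‖ ≤ R ∧ |(2 * x - P.Q).re| ≤ ρ} := ⟨h1, h2⟩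
  have hB0 : 0 ≤ GKERN_B C κ (P.Q - ρ) t := (norm_nonneg _).trans (hB _ h1 h2 t ht)
  have hmv := hconv.norm_image_sub_le_of_norm_hasDerivWithin_le (f := fun x => kern P x t)
    (f' := fun x => Complex.cosh ((2 * x - P.Q) * t) /
      (Real.sinh (P.b * t) * Real.sinh (P.o * t)) - 1 / (t : ℂ) ^ 2)
    (C := GKERN_B C κ (P.Q - ρ) t)
    (fun u _ => (GKERN_hasDerivAt P u ht).hasDerivWithinAt)
    (fun u hu => hB _ hu.1 hu.2 t ht) hc hx
  have h0 : kern P ((P.Q : ℂ) / 2) t = 0 := by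
    unfold kern
    have : 2 * ((P.Q : ℂ) / 2) - P.Q = 0 := by ring
    rw [this]
    simp
  simp only [h0, sub_zero] at hmv
  have h3 : ‖x - (P.Q : ℂ) / 2‖ ≤ R := by
    have : x - (P.Q : ℂ) / 2 = (2 * x - P.Q) / 2 := by ring
    rw [this, norm_div]
    have h4 : ‖(2 : ℂ)‖ = 2 := by norm_num
    rw [h4]
    have := norm_nonneg (2 * x - (P.Q : ℂ))
    linarith
  calc _ ≤ _ := hmv
    _ ≤ GKERN_B C κ (P.Q - ρ) t * R := mul_le_mul_of_nonneg_left h3 hB0
    _ = _ := mul_comm _ _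

/-- The kernel is integrable for `0 < re x < Q`.

Proof. Put `c = 2 x - Q`, `|re c| < Q`, `s t = sinh (b t) sinh (o t)`. The kernel is
`(sinh (c t) / s t - c / t) / (2 t) = (t sinh (c t) - c s t) / (2 t ^ 2 s t)`. For `0 < t ≤ 1`:
`|sinh (c t) - c t| ≤ C t ^ 3`, and since `b o = 1`, `|s t - t ^ 2| ≤ C t ^ 4`, so the numerator is
`O (t ^ 4)`; the denominator is at least `2 t ^ 4` (`sinh u ≥ u` and `b o = 1`). For `t ≥ 1`:
`|sinh (c t)| ≤ exp (|re c| t)`, `s t ≥ κ exp (Q t)` with `κ > 0`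
(`sinh (u t) ≥ exp (u t) (1 - exp (-2 u)) / 2` for `t ≥ 1`), so the first term decreases exponentially, and
the second is `c / (2 t ^ 2)`. -/
theorem kern_integrable (P : Par) {x : ℂ} (h0 : 0 < x.re) (h1 : x.re < P.Q) :
    IntegrableOn (kern P x) (Ioi 0) := by
  have hre : (2 * x - (P.Q : ℂ)).re = 2 * x.re - P.Q := by simp
  have hρ : |(2 * x - (P.Q : ℂ)).re| < P.Q := by
    rw [hre, abs_lt]
    constructor <;> linarith
  obtain ⟨C, κ, hC, hκ, hB⟩ := GKERN_bound P ‖2 * x - (P.Q : ℂ)‖ |(2 * x - (P.Q : ℂ)).re|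
    (norm_nonneg _)
  have hI : IntegrableOn (fun t => ‖2 * x - (P.Q : ℂ)‖ *
      GKERN_B C κ (P.Q - |(2 * x - (P.Q : ℂ)).re|) t) (Ioi 0) :=
    (GKERN_B_integrable C κ (by linarith)).const_mul _
  refine Integrable.mono' hI (GKERN_measurable P x) ?_
  rw [ae_restrict_iff' measurableSet_Ioi]
  refine Filter.Eventually.of_forall ?_
  intro t ht
  exact GKERN_kern_le P (norm_nonneg _) (abs_nonneg _) hB le_rfl le_rfl ht

/-- `II P` is differentiable in the strip.

Proof. `hasDerivAt_integral_of_dominated_loc_of_deriv_le`; the derivative of the kernel in `x` is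
`cosh (c t) / s t - 1 / t ^ 2` (notation of `kern_integrable`), which on a small ball (with
`|re c| ≤ ρ < Q`, `|c| ≤ R`) is dominated near `0` by
`|cosh (c t) - 1| / s t + |1 / s t - 1 / t ^ 2| ≤ C` and for `t ≥ 1` by `C exp (-(Q - ρ) t) + 1 / t ^ 2`. -/
theorem II_differentiableAt (P : Par) {x : ℂ} (h0 : 0 < x.re) (h1 : x.re < P.Q) :
    DifferentiableAt ℂ (II P) x := by
  set r : ℝ := min x.re (P.Q - x.re) / 2 with hr
  have hmin : 0 < min x.re (P.Q - x.re) := lt_min h0 (by linarith)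
  have hr0 : 0 < r := by rw [hr]; linarith
  have hr1 : 2 * r ≤ x.re := by rw [hr]; linarith [min_le_left x.re (P.Q - x.re)]
  have hr2 : 2 * r ≤ P.Q - x.re := by rw [hr]; linarith [min_le_right x.re (P.Q - x.re)]
  obtain ⟨C, κ, hC, hκ, hB⟩ := GKERN_bound P (‖2 * x - (P.Q : ℂ)‖ + 2 * r) (P.Q - 2 * r)
    (by positivity)
  have hball : ∀ y ∈ Metric.ball x r, ‖2 * y - (P.Q : ℂ)‖ ≤ ‖2 * x - (P.Q : ℂ)‖ + 2 * r ∧
      |(2 * y - (P.Q : ℂ)).re| ≤ P.Q - 2 * r := by
    intro y hy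
    rw [Metric.mem_ball, dist_eq_norm] at hy
    constructor
    · have e : 2 * y - (P.Q : ℂ) = (2 * x - P.Q) + 2 * (y - x) := by ring
      rw [e]
      refine (norm_add_le _ _).trans ?_
      rw [norm_mul]
      have h4 : ‖(2 : ℂ)‖ = 2 := by norm_num
      rw [h4]
      linarith
    · have h3 : |(y - x).re| ≤ ‖y - x‖ := Complex.abs_re_le_norm _
      rw [Complex.sub_re] at h3
      have h5 := abs_le.1 (h3.trans hy.le)
      have hre : (2 * y - (P.Q : ℂ)).re = 2 * y.re - P.Q := by simp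
      rw [hre, abs_le]
      constructor <;> linarith [h5.1, h5.2]
  have hI : IntegrableOn (GKERN_B C κ (P.Q - (P.Q - 2 * r))) (Ioi 0) :=
    GKERN_B_integrable C κ (by linarith)
  have h := hasDerivAt_integral_of_dominated_loc_of_deriv_le
    (μ := volume.restrict (Ioi (0 : ℝ))) (F := fun x t => kern P x t)
    (F' := fun (x : ℂ) (t : ℝ) => Complex.cosh ((2 * x - P.Q) * t) /
      (Real.sinh (P.b * t) * Real.sinh (P.o * t)) - 1 / (t : ℂ) ^ 2)
    (bound := GKERN_B C κ (P.Q - (P.Q - 2 * r)))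
    (x₀ := x) (Metric.ball_mem_nhds x hr0)
    (Filter.Eventually.of_forall fun y => GKERN_measurable P y)
    (kern_integrable P h0 h1) (GKERN_deriv_measurable P x)
    (by
      rw [ae_restrict_iff' measurableSet_Ioi]
      refine Filter.Eventually.of_forall ?_
      intro t ht y hy
      exact hB _ (hball y hy).1 (hball y hy).2 t ht)
    hI
    (by
      rw [ae_restrict_iff' measurableSet_Ioi]
      refine Filter.Eventually.of_forall ?_
      intro t ht y _
      exact GKERN_hasDerivAt P y ht)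
  exact h.2.differentiableAt

end Ghost
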