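import Pool.Agent.Lib_MP_1c78a5_ghost.GExtB
import Pool.Agent.Lib_MP_1c78a5_ghost.GKern

/-!
# Piece GDIFF: the double sine function is differentiable outside its poles
-/

open Complex MeasureTheory Set Filter Topology
open scoped Real ComplexConjugate

namespace Ghost

/-- The defining property of the number of shifts. -/
theorem GDIFF_shiftN_spec (P : Par) (x : ℂ) :
    0 < x.re - (shiftN P x : ℝ) * P.b ∧ x.re - (shiftN P x : ℝ) * P.b ≤ P.b := by
  have h1 := Int.ceil_lt_add_one (x.re / P.b)
  have h2 := Int.le_ceil (x.re / P.b)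
  have hb := P.hb
  unfold shiftN
  push_cast
  constructor
  · have h3 : ((⌈x.re / P.b⌉ : ℝ) - 1) * P.b < x.re := by
      rw [← lt_div_iff₀ hb]
      linarith
    linarith
  · have h3 : x.re ≤ (⌈x.re / P.b⌉ : ℝ) * P.b := by
      rw [← div_le_iff₀ hb]
      exact h2
    linarith

theorem GDIFF_shiftN_eq (P : Par) {x : ℂ} {M : ℤ} (h0 : 0 < x.re - (M : ℝ) * P.b)
    (h1 : x.re - (M : ℝ) * P.b ≤ P.b) : shiftN P x = M := by
  have hb := P.hb
  have h2 : ⌈x.re / P.b⌉ = M + 1 := by
    rw [Int.ceil_eq_iff]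
    push_cast
    constructor
    · rw [lt_div_iff₀ hb]
      linarith
    · rw [div_le_iff₀ hb]
      linarith
  unfold shiftN
  omega

theorem GDIFF_sb_ne (P : Par) {w : ℂ} (h0 : 0 < w.re) (h1 : w.re < P.o) : sb P w ≠ 0 := by
  intro h
  unfold sb at h
  have h2 : Complex.sin (π * P.b * w) = 0 := by
    rcases mul_eq_zero.1 h with h | h
    · norm_num at h
    · exact h
  rw [Complex.sin_eq_zero_iff] at h2
  obtain ⟨k, hk⟩ := h2
  have h3 := congrArg Complex.re hk
  have h4 : (π * P.b * w : ℂ).re = π * P.b * w.re := by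
    rw [← Complex.ofReal_mul, Complex.re_ofReal_mul]
  rw [h4] at h3
  have h5 : ((k : ℂ) * (π : ℂ)).re = k * π := by
    rw [← Complex.ofReal_intCast, ← Complex.ofReal_mul, Complex.ofReal_re]
  rw [h5] at h3
  have h6 : P.b * w.re = k := by
    have hpi := Real.pi_pos
    have h7 : π * (P.b * w.re) = π * k := by linarith
    exact mul_left_cancel₀ hpi.ne' h7
  have h8 : 0 < P.b * w.re := mul_pos P.hb h0
  have h9 : P.b * w.re < 1 := by
    rw [← P.hbo]
    exact mul_lt_mul_of_pos_left h1 P.hb
  rw [h6] at h8 h9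
  have h10 : (0 : ℤ) < k := by exact_mod_cast h8
  have h11 : k < (1 : ℤ) := by exact_mod_cast h9
  omega

theorem GDIFF_sb_diff (P : Par) (f : ℂ → ℂ) {x : ℂ} (hf : DifferentiableAt ℂ f x) :
    DifferentiableAt ℂ (fun x' => sb P (f x')) x := by
  unfold sb
  exact ((hf.const_mul _).csin).const_mul _

theorem GDIFF_cocyc (P : Par) {x : ℂ} (hx : ¬ Pole P x) (M : ℤ)
    (hM : x.re - (M : ℝ) * P.b ≤ P.b) :
    DifferentiableAt ℂ (fun x' => cocyc P x' M) x := by
  rcases M with n | n
  · have h : (fun x' => cocyc P x' (Int.ofNat n)) =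
        fun x' => ∏ j ∈ Finset.range n, sb P (x' - ((j : ℂ) + 1) * P.b) := rfl
    rw [h]
    refine DifferentiableAt.fun_finsetProd fun j _ => ?_
    exact GDIFF_sb_diff P _ (differentiableAt_id.sub_const _)
  · have h : (fun x' => cocyc P x' (Int.negSucc n)) =
        fun x' => (∏ j ∈ Finset.range (n + 1), sb P (x' + (j : ℂ) * P.b))⁻¹ := rfl
    rw [h]
    refine DifferentiableAt.fun_inv ?_ ?_
    · refine DifferentiableAt.fun_finsetProd fun j _ => ?_
      exact GDIFF_sb_diff P _ (differentiableAt_id.add_const _)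
    · rw [Finset.prod_ne_zero_iff]
      intro j hj
      have hj' : j ≤ n := by
        have := Finset.mem_range.1 hj
        omega
      refine sb_ne_zero P ?_ ?_
      · rintro ⟨m, k, h3⟩
        refine hx ⟨m + j, k, ?_⟩
        push_cast
        linear_combination h3
      · have h4 : (x + (j : ℂ) * P.b).re = x.re + j * P.b := by simp
        rw [h4]
        have h5 : ((Int.negSucc n : ℤ) : ℝ) = -((n : ℝ) + 1) := by
          rw [Int.cast_negSucc]
          push_cast
          ring
        rw [h5] at hM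
        have h6 : (j : ℝ) * P.b ≤ n * P.b :=
          mul_le_mul_of_nonneg_right (by exact_mod_cast hj') P.hb.le
        linarith

/-- `G` is differentiable at every point which is not a pole (`o < b`).

Proof. Let `M = shiftN x`, `y = x - M b`, `0 < re y ≤ b < Q`. Claim: near `x`,
`G x' = G0 (x' - M b) * cocyc x' M`; the right side is differentiable at `x`: `G0 = exp (- II)` and
`II_differentiableAt`, and `cocyc x' M` is a product of sines for `M ≥ 0` and the inverse of
`∏_{j < n + 1} sb (x' + j b)`, `M = -(n + 1)`, for `M < 0`, where `sb (x + j b) ≠ 0` at `x` because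
`re (x + j b) ≤ 0` and `x + j b` is not a pole (`sb_ne_zero`; if `x + j b` is a pole so is `x`).
Proof of the claim: for `0 < re (x' - M b) ≤ b` the number of shifts of `x'` is `M`. For
`b < re (x' - M b) < Q` (only relevant if `re y = b`) the number of shifts is `M + 1`, and
`G x' = G0 (x' - (M + 1) b) cocyc x' (M + 1) = G0 (x' - (M + 1) b) sb (x' - (M + 1) b) cocyc x' M =
G0 (x' - M b) cocyc x' M` by `cocyc_succ` and `G0_add_b` (`0 < re (x' - (M + 1) b) < o`); the sine
in `cocyc_succ` is not zero: `sb w = 0` implies `w = k o`, impossible for `0 < re w < o`. -/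
theorem G_differentiableAt (P : Par) (hbo : P.o < P.b) {x : ℂ} (hx : ¬ Pole P x) :
    DifferentiableAt ℂ (G P) x := by
  have hb := P.hb
  have ho := P.ho
  obtain ⟨M, hM⟩ : ∃ M : ℤ, M = shiftN P x := ⟨_, rfl⟩
  have hspec := GDIFF_shiftN_spec P x
  rw [← hM] at hspec
  obtain ⟨hs0, hs1⟩ := hspec
  have hre : ∀ (z : ℂ) (N : ℤ), (z - (N : ℂ) * P.b).re = z.re - (N : ℝ) * P.b := by
    intro z N
    rw [Complex.sub_re, ← Complex.ofReal_intCast, ← Complex.ofReal_mul, Complex.ofReal_re]
  have hQ : P.Q = P.b + P.o := rfl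
  -- differentiability of the local expression
  have hH : DifferentiableAt ℂ (fun x' => G0 P (x' - (M : ℂ) * P.b) * cocyc P x' M) x := by
    refine DifferentiableAt.mul ?_ (GDIFF_cocyc P hx M hs1)
    have h1 : DifferentiableAt ℂ (II P) (x - (M : ℂ) * P.b) := by
      refine II_differentiableAt P ?_ ?_
      · rw [hre]; exact hs0
      · rw [hre, hQ]; linarith
    have h2 : DifferentiableAt ℂ (fun x' : ℂ => II P (x' - (M : ℂ) * P.b)) x :=
      DifferentiableAt.comp (f := fun x' : ℂ => x' - (M : ℂ) * P.b) x h1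
        (differentiableAt_id.sub_const _)
    exact h2.neg.cexp
  refine hH.congr_of_eventuallyEq ?_
  have hopen : IsOpen {z : ℂ | 0 < z.re - (M : ℝ) * P.b ∧ z.re - (M : ℝ) * P.b < P.Q} := by
    refine IsOpen.inter ?_ ?_
    · exact isOpen_lt continuous_const (Complex.continuous_re.sub continuous_const)
    · exact isOpen_lt (Complex.continuous_re.sub continuous_const) continuous_const
  have hmem : x ∈ {z : ℂ | 0 < z.re - (M : ℝ) * P.b ∧ z.re - (M : ℝ) * P.b < P.Q} :=
    ⟨hs0, by rw [hQ]; linarith⟩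
  filter_upwards [hopen.mem_nhds hmem] with z hz
  obtain ⟨hz0, hz1⟩ := hz
  rw [hQ] at hz1
  by_cases hzb : z.re - (M : ℝ) * P.b ≤ P.b
  · have h1 : shiftN P z = M := GDIFF_shiftN_eq P hz0 hzb
    unfold G
    rw [h1]
  · push Not at hzb
    have h1 : shiftN P z = M + 1 := by
      refine GDIFF_shiftN_eq P ?_ ?_
      · push_cast; linarith
      · push_cast; linarith
    obtain ⟨w, hw⟩ : ∃ w : ℂ, w = z - ((M : ℂ) + 1) * P.b := ⟨_, rfl⟩
    have hwre : w.re = z.re - ((M : ℝ) + 1) * P.b := by
      have h2 := hre z (M + 1)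
      push_cast at h2
      rw [hw, h2]
    have hw0 : 0 < w.re := by rw [hwre]; linarith
    have hw1 : w.re < P.o := by rw [hwre]; linarith
    have h2 := cocyc_succ P z M (fun _ => by rw [← hw]; exact GDIFF_sb_ne P hw0 hw1)
    have h3 := G0_add_b P hw0 hw1
    have h4 : w + P.b = z - (M : ℂ) * P.b := by rw [hw]; ring
    unfold G
    rw [h1, h2]
    push_cast
    rw [← hw, ← h4, h3]
    ring

end Ghost
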