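import Pool.Agent.Lib_MP_1c78a5_ghost.GExtB

/-!
# Piece GREF: reflection formula, conjugation, zeros
-/

open Complex MeasureTheory Set Filter Topology
open scoped Real ComplexConjugate

namespace Ghost

private theorem GREF_sb_conj (P : Par) (x : ℂ) : sb P (conj x) = conj (sb P x) := by
  unfold sb
  rw [map_mul, ← Complex.sin_conj, map_mul, map_mul, Complex.conj_ofReal, Complex.conj_ofReal,
    Complex.conj_ofNat]

private theorem GREF_cocyc_conj (P : Par) (x : ℂ) (M : ℤ) :
    cocyc P (conj x) M = conj (cocyc P x M) := by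
  cases M with
  | ofNat n =>
    simp only [cocyc]
    rw [map_prod]
    refine Finset.prod_congr rfl fun j _ => ?_
    rw [← GREF_sb_conj]
    congr 1
    simp
  | negSucc n =>
    simp only [cocyc]
    rw [map_inv₀, map_prod]
    congr 1
    refine Finset.prod_congr rfl fun j _ => ?_
    rw [← GREF_sb_conj]
    congr 1
    simp

/-- `shiftN (conj x) = shiftN x`, `sb (conj x) = conj (sb x)`, `G0_conj`. -/
theorem G_conj (P : Par) (x : ℂ) : G P (conj x) = conj (G P x) := by
  have h : shiftN P (conj x) = shiftN P x := by simp [shiftN]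
  unfold G
  rw [h, map_mul, ← G0_conj, GREF_cocyc_conj]
  congr 2
  simp

private theorem GREF_sb_refl (P : Par) (x : ℂ) : sb P (P.Q - x - P.b) = sb P x := by
  unfold sb
  have hbo : (P.b : ℂ) * (P.o : ℂ) = 1 := by exact_mod_cast P.hbo
  have h : (π : ℂ) * P.b * (P.Q - x - P.b) = π - π * P.b * x := by
    have hQ : (P.Q : ℂ) = P.b + P.o := by simp [Par.Q]
    rw [hQ]
    linear_combination (π : ℂ) * hbo
  rw [h, Complex.sin_pi_sub]

private theorem GREF_step (P : Par) {x : ℂ} (h1 : ¬ Pole P x) (h2 : ¬ Pole P (P.Q - (x + P.b))) :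
    G P (x + P.b) * G P (P.Q - (x + P.b)) = G P x * G P (P.Q - x) := by
  have e1 := G_add_b P h1
  have e2 := G_add_b P h2
  have h3 : (P.Q : ℂ) - (x + P.b) + P.b = P.Q - x := by ring
  have h4 : (P.Q : ℂ) - (x + P.b) = P.Q - x - P.b := by ring
  rw [h3, h4, GREF_sb_refl] at e2
  rw [e1, e2, h4]
  ring

private theorem GREF_pole_sub (P : Par) {x : ℂ} (h : Pole P (x + P.b)) : Pole P x := by
  obtain ⟨m, n, h⟩ := h
  refine ⟨m + 1, n, ?_⟩
  have : x = x + P.b - P.b := by ring
  rw [this, h]
  push_cast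
  ring

private theorem GREF_ind (P : Par) (hbo : P.o < P.b) (n : ℕ) : ∀ x : ℂ, 0 < x.re →
    x.re ≤ (n + 1) * P.b → ¬ Pole P (P.Q - x) → G P x * G P (P.Q - x) = 1 := by
  induction n with
  | zero =>
    intro x h0 h1 _
    have hb := P.hb
    have ho := P.ho
    have hQ : P.Q = P.b + P.o := rfl
    have h1' : x.re ≤ P.b := by simpa using h1
    rw [G_eq_G0 P hbo h0 (by rw [hQ]; linarith),
      G_eq_G0 P hbo (by simp [hQ]; linarith) (by simp [hQ]; linarith)]
    exact G0_reflect P x
  | succ n ih =>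
    intro x h0 h1 h2
    have hb := P.hb
    by_cases hx : x.re ≤ (n + 1) * P.b
    · exact ih x h0 hx h2
    · push Not at hx
      push_cast at h1
      have hn : (0 : ℝ) ≤ n * P.b := mul_nonneg (Nat.cast_nonneg _) hb.le
      have hre : (x - P.b).re = x.re - P.b := by simp
      have e0 : x - P.b + P.b = x := by ring
      have h5 := ih (x - P.b) (by rw [hre]; linarith) (by rw [hre]; linarith) (by
        intro h
        apply h2
        apply GREF_pole_sub
        have : (P.Q : ℂ) - x + P.b = P.Q - (x - P.b) := by ring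
        rw [this]
        exact h)
      have h6 := GREF_step P (x := x - P.b) (not_pole_of_re_pos P (by rw [hre]; linarith))
        (by rw [e0]; exact h2)
      rw [e0] at h6
      rw [h6, h5]

/-- `G x G (Q - x) = 1` if `x` and `Q - x` are not poles (`o < b`).

Proof. Put `F x = G x G (Q - x)`. If `x` and `Q - x - b` are not poles, then
`F (x + b) = sb x G x G (Q - x - b)` and `G (Q - x) = sb (Q - x - b) G (Q - x - b)` with
`sb (Q - x - b) = 2 sin (π b (o - x)) = 2 sin (π - π b x) = sb x`, so `F (x + b) = F x`. By induction on the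
number `|shiftN x|` of shifts one reduces to `0 < re x ≤ b < Q`, where `G = G0` and `G0_reflect`
applies. (For `re x > b`: `x - b` is not a pole since `re (x - b) > 0`, and `Q - (x - b)` is not a pole,
otherwise `Q - x` would be one. For `re x ≤ 0`: `x + b` is not a pole, otherwise `x` would be one, and
`Q - (x + b)` has positive real part.) -/
theorem G_reflect (P : Par) (hbo : P.o < P.b) {x : ℂ} (h1 : ¬ Pole P x)
    (h2 : ¬ Pole P (P.Q - x)) : G P x * G P (P.Q - x) = 1 := by
  have hb := P.hb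
  have ho := P.ho
  have hex : ∀ r : ℝ, ∃ n : ℕ, r ≤ (n + 1) * P.b := by
    intro r
    obtain ⟨n, hn⟩ := exists_nat_ge (r / P.b)
    refine ⟨n, ?_⟩
    rw [div_le_iff₀ hb] at hn
    nlinarith
  by_cases hx : 0 < x.re
  · obtain ⟨n, hn⟩ := hex x.re
    exact GREF_ind P hbo n x hx hn h2
  · obtain ⟨n, hn⟩ := hex ((P.Q : ℂ) - x).re
    have e0 : (P.Q : ℂ) - (P.Q - x) = x := by ring
    have h := GREF_ind P hbo n (P.Q - x) (by
      have hQ : P.Q = P.b + P.o := rfl
      simp [hQ]
      linarith) hn (by rw [e0]; exact h1)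
    rw [e0] at h
    rw [mul_comm]
    exact h

theorem G_ne_zero (P : Par) (hbo : P.o < P.b) {x : ℂ} (h1 : ¬ Pole P x)
    (h2 : ¬ Pole P (P.Q - x)) : G P x ≠ 0 := by
  intro h
  have := G_reflect P hbo h1 h2
  rw [h, zero_mul] at this
  exact zero_ne_one this

theorem G_ne_zero_strip (P : Par) (hbo : P.o < P.b) {x : ℂ} (h0 : 0 < x.re) (h1 : x.re < P.Q) :
    G P x ≠ 0 := by
  rw [G_eq_G0 P hbo h0 h1]
  exact G0_ne_zero P x

/-- `G` is real and positive on `(0, Q)`. -/
theorem G_pos (P : Par) (hbo : P.o < P.b) {x : ℝ} (h0 : 0 < x) (h1 : x < P.Q) :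
    ∃ y : ℝ, 0 < y ∧ G P x = y := by
  rw [G_eq_G0 P hbo (by simpa using h0) (by simpa using h1)]
  exact G0_real P x

end Ghost
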