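import Pool.Agent.Lib_MP_1c78a5_ghost.GExtO
import Pool.Agent.Lib_MP_1c78a5_ghost.GDiff
import Pool.Agent.Lib_MP_1c78a5_ghost.GRef

/-!
# Piece GVAL: the value at `b` and the residue at `0`
-/

open Complex MeasureTheory Set Filter Topology
open scoped Real ComplexConjugate

namespace Ghost

private theorem GVAL_not_pole (P : Par) (hbo : P.o < P.b) :
    ∀ᶠ z : ℂ in 𝓝[≠] 0, ¬ Pole P z := by
  have h1 : ∀ᶠ z : ℂ in 𝓝[≠] 0, ‖z‖ < P.o := by
    have h2 : ∀ᶠ z : ℂ in 𝓝 0, ‖z‖ < P.o := by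
      have := (continuous_norm (E := ℂ)).tendsto 0
      rw [norm_zero] at this
      exact this.eventually (gt_mem_nhds P.ho)
    exact h2.filter_mono nhdsWithin_le_nhds
  filter_upwards [h1, self_mem_nhdsWithin] with z hz hz0
  rintro ⟨m, n, h⟩
  have hb := P.hb
  have ho := P.ho
  have h3 : ‖z‖ = (m : ℝ) * P.b + n * P.o := by
    rw [h, norm_neg]
    have h4 : ((m : ℂ) * P.b + (n : ℂ) * P.o) = (((m : ℝ) * P.b + n * P.o : ℝ) : ℂ) := by
      push_cast
      ring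
    rw [h4, Complex.norm_real, Real.norm_of_nonneg (by positivity)]
  rw [h3] at hz
  rcases Nat.eq_zero_or_pos m with hm | hm
  · rcases Nat.eq_zero_or_pos n with hn | hn
    · subst hm; subst hn
      apply hz0
      rw [h]
      simp
    · have h5 : (1 : ℝ) ≤ n := by exact_mod_cast hn
      have h6 : (0 : ℝ) ≤ (m : ℝ) * P.b := by positivity
      nlinarith
  · have h5 : (1 : ℝ) ≤ m := by exact_mod_cast hm
    have h6 : (0 : ℝ) ≤ (n : ℝ) * P.o := by positivity
    nlinarith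

private theorem GVAL_sin_lim (c : ℝ) :
    Tendsto (fun z : ℂ => 2 * Complex.sin (π * c * z) / z) (𝓝[≠] 0) (𝓝 (2 * π * c)) := by
  have h1 : HasDerivAt (fun z : ℂ => 2 * Complex.sin (π * c * z))
      (2 * (Complex.cos (π * c * 0) * (π * c * 1))) 0 := by
    have h2 : HasDerivAt (fun z : ℂ => (π : ℂ) * c * z) (π * c * 1) 0 :=
      (hasDerivAt_id (0 : ℂ)).const_mul _
    exact (h2.csin).const_mul 2
  rw [hasDerivAt_iff_tendsto_slope] at h1
  have e1 : (2 * (Complex.cos (π * c * 0) * (π * c * 1)) : ℂ) = 2 * π * c := by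
    rw [mul_zero, Complex.cos_zero]
    ring
  rw [e1] at h1
  refine h1.congr fun z => ?_
  rw [slope_def_field]
  simp

private theorem GVAL_lim (P : Par) (hbo : P.o < P.b) (c : ℝ) (hc : 0 < c)
    (hshift : ∀ z : ℂ, ¬ Pole P z → G P (z + c) = 2 * Complex.sin (π * c * z) * G P z) :
    Tendsto (fun z : ℂ => z * G P z) (𝓝[≠] 0) (𝓝 (G P c / (2 * π * c))) := by
  have hpi : (π : ℂ) ≠ 0 := by exact_mod_cast Real.pi_pos.ne'
  have hc0 : (c : ℂ) ≠ 0 := by exact_mod_cast hc.ne'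
  have hne : (2 * π * c : ℂ) ≠ 0 := mul_ne_zero (mul_ne_zero two_ne_zero hpi) hc0
  have h1 := GVAL_sin_lim c
  have hcont : ContinuousAt (G P) (c : ℂ) :=
    (G_differentiableAt P hbo (not_pole_of_re_pos P (by simpa using hc))).continuousAt
  have h2 : Tendsto (fun z : ℂ => G P (z + c)) (𝓝[≠] 0) (𝓝 (G P c)) := by
    have h3 : Tendsto (fun z : ℂ => z + (c : ℂ)) (𝓝 0) (𝓝 (c : ℂ)) := by
      have : Continuous fun z : ℂ => z + (c : ℂ) := by fun_prop
      have h4 := this.tendsto 0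
      rwa [zero_add] at h4
    exact (hcont.tendsto.comp h3).mono_left nhdsWithin_le_nhds
  have h5 := h2.div h1 hne
  refine h5.congr' ?_
  have h6 : ∀ᶠ z : ℂ in 𝓝[≠] 0, 2 * Complex.sin (π * c * z) / z ≠ 0 :=
    h1.eventually_ne hne
  filter_upwards [GVAL_not_pole P hbo, h6, self_mem_nhdsWithin] with z hz hz2 hz0
  have hz0' : z ≠ 0 := hz0
  have hs : 2 * Complex.sin (π * c * z) ≠ 0 := by
    intro h
    apply hz2
    rw [h, zero_div]
  change G P (z + c) / (2 * Complex.sin (π * c * z) / z) = z * G P z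
  rw [hshift z hz, div_div_eq_mul_div]
  generalize 2 * Complex.sin (π * c * z) = s at hs ⊢
  field_simp

private theorem GVAL_lim_b (P : Par) (hbo : P.o < P.b) :
    Tendsto (fun z : ℂ => z * G P z) (𝓝[≠] 0) (𝓝 (G P P.b / (2 * π * P.b))) :=
  GVAL_lim P hbo P.b P.hb fun z hz => by rw [G_add_b P hz]; rfl

private theorem GVAL_lim_o (P : Par) (hbo : P.o < P.b) :
    Tendsto (fun z : ℂ => z * G P z) (𝓝[≠] 0) (𝓝 (G P P.o / (2 * π * P.o))) :=
  GVAL_lim P hbo P.o P.ho fun z hz => by rw [G_add_o P hbo hz]; rfl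

/-- `G b = b`.

Proof. For small `z ≠ 0` (not a pole: the only pole in `|z| < o` is `0`), `G (z + b) = sb z G z` and
`G (z + o) = so z G z`. So `z G z = (z / sb z) G (z + b) → G b / (2 π b)` and also
`z G z → G o / (2 π o)` (`G` is continuous at `b` and `o`). So `G b / b = G o / o`. Since
`G b G o = G b G (Q - b) = 1`, `(G b) ^ 2 = b / o = b ^ 2`, and `G b` is real and positive (`G_pos`). -/
theorem G_b (P : Par) (hbo : P.o < P.b) : G P P.b = P.b := by
  have hb := P.hb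
  have ho := P.ho
  have hpi : (π : ℂ) ≠ 0 := by exact_mod_cast Real.pi_pos.ne'
  have hb0 : (P.b : ℂ) ≠ 0 := by exact_mod_cast hb.ne'
  have ho0 : (P.o : ℂ) ≠ 0 := by exact_mod_cast ho.ne'
  have h1 := tendsto_nhds_unique (GVAL_lim_b P hbo) (GVAL_lim_o P hbo)
  have h2 : G P P.b * P.o = G P P.o * P.b := by
    field_simp at h1
    linear_combination h1
  have hQ : P.Q = P.b + P.o := rfl
  have h3 : G P P.b * G P (P.Q - P.b) = 1 := by
    refine G_reflect P hbo (not_pole_of_re_pos P (by simpa using hb))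
      (not_pole_of_re_pos P ?_)
    rw [hQ]
    simpa using ho
  have h4 : (P.Q : ℂ) - P.b = P.o := by
    rw [hQ]
    push_cast
    ring
  rw [h4] at h3
  obtain ⟨y, hy0, hy⟩ := G_pos P hbo hb (by rw [hQ]; linarith)
  have hbo' : (P.b : ℂ) * P.o = 1 := by
    rw [← Complex.ofReal_mul, P.hbo, Complex.ofReal_one]
  rw [hy] at h2 h3 ⊢
  have h5 : (y : ℂ) ^ 2 = (P.b : ℂ) ^ 2 := by
    have e1 : (y : ℂ) ^ 2 * P.o = P.b := by
      calc (y : ℂ) ^ 2 * P.o = y * (y * P.o) := by ring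
        _ = (y * G P P.o) * P.b := by rw [h2]; ring
        _ = P.b := by rw [h3, one_mul]
    calc (y : ℂ) ^ 2 = (y : ℂ) ^ 2 * (P.b * P.o) := by rw [hbo', mul_one]
      _ = ((y : ℂ) ^ 2 * P.o) * P.b := by ring
      _ = (P.b : ℂ) ^ 2 := by rw [e1]; ring
  have h6 : y ^ 2 = P.b ^ 2 := by exact_mod_cast h5
  have h7 : y = P.b := by
    have := (sq_eq_sq₀ hy0.le hb.le).1 h6
    exact this
  rw [h7]

/-- `z G z → 1 / (2 π)` as `z → 0`. -/
theorem G_zero_lim (P : Par) (hbo : P.o < P.b) :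
    Tendsto (fun z : ℂ => z * G P z) (𝓝[≠] 0) (𝓝 (1 / (2 * π))) := by
  have h1 := GVAL_lim_b P hbo
  rw [G_b P hbo] at h1
  have hb0 : (P.b : ℂ) ≠ 0 := by exact_mod_cast P.hb.ne'
  have h2 : (P.b : ℂ) / (2 * π * P.b) = 1 / (2 * π) := by
    field_simp
  rwa [h2] at h1

end Ghost
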