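import Pool.Agent.Lib_MP_1c78a5_ghost.BRat
import Pool.Agent.Lib_MP_1c78a5_ghost.GVal

/-!
# Piece BCONST: the beta integral
-/

open Complex MeasureTheory Set Filter Topology
open scoped Real ComplexConjugate

namespace Ghost

theorem BCONST_conj_e (z : ℂ) : conj (e z) = e (-(conj z)) := by
  unfold e
  rw [← Complex.exp_conj]
  congr 1
  simp only [map_mul, Complex.conj_I, Complex.conj_ofReal, map_ofNat]
  ring

theorem BCONST_e_add (z w : ℂ) : e (z + w) = e z * e w := by
  unfold e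
  rw [← Complex.exp_add]
  ring_nf

theorem BCONST_norm_e (z : ℂ) : ‖e z‖ = Real.exp (-(2 * π * z.im)) := by
  unfold e
  rw [Complex.norm_exp]
  congr 1
  simp

/-- Behaviour of the integrand at `- i ∞`: with `u = Q / 2 - α` and `f x = G (α + x) G (α - x)`,
`f (- i s) e (- i s u) → |r| ^ 2` as `s → +∞`, where `r` is the constant of `G_asymp`.

Proof. `φ y = (y ^ 2 - Q y) / 4` satisfies `φ (α + x) - φ (α - x) = α x - Q x / 2 = - u x`. For `x = - i s`:
`G (α - x) = G (α + i s)` with `im → +∞`: `G (α - x) e (φ (α - x)) → r`. For the other factor,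
`α + x = α - i s = conj (conj α + i s)` and `G (conj y) = conj (G y)`, `conj (e (φ y)) = e (- φ (conj y))`, so
`G (α + x) e (- φ (α + x)) → conj r`. So `f x e (φ (α - x) - φ (α + x)) = f x e (u x) → |r| ^ 2`. -/
theorem Ib_tail {P : Par} {d : ℕ} (hU : P.IsUnit d) : ∃ K : ℝ, 0 < K ∧ ∀ α : ℂ, 0 < α.re →
    Tendsto (fun s : ℝ => G P (α - s * I) * G P (α + s * I) *
      e ((P.Q / 2 - α) * (-(s * I)))) atTop (𝓝 (K : ℂ)) := by
  obtain ⟨r, hr, hG⟩ := G_asymp hU
  refine ⟨Complex.normSq r, Complex.normSq_pos.2 hr, ?_⟩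
  intro α _
  have key : ∀ β : ℂ, Tendsto (fun s : ℝ => G P (β + s * I) *
      e (((β + s * I) ^ 2 - P.Q * (β + s * I)) / 4)) atTop (𝓝 r) := by
    intro β
    rw [Metric.tendsto_atTop]
    intro ε hε
    obtain ⟨T0, hT0⟩ := hG ε hε
    refine ⟨T0 - β.im, fun s hs => ?_⟩
    rw [dist_eq_norm]
    refine hT0 _ ?_
    have : (β + s * I).im = β.im + s := by simp
    rw [this]
    linarith
  have h1 := key α
  have h2 := (Complex.continuous_conj.tendsto r).comp (key (conj α))
  have h3 := h1.mul h2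
  rw [Complex.mul_conj] at h3
  refine h3.congr fun s => ?_
  simp only [Function.comp_apply]
  rw [map_mul, BCONST_conj_e, ← G_conj]
  have hc : conj (conj α + s * I) = α - s * I := by
    simp only [map_add, map_mul, Complex.conj_conj, Complex.conj_I, Complex.conj_ofReal]
    ring
  have hc2 : conj (((conj α + s * I) ^ 2 - P.Q * (conj α + s * I)) / 4) =
      ((α - s * I) ^ 2 - P.Q * (α - s * I)) / 4 := by
    simp only [map_div₀, map_sub, map_pow, map_mul, hc, Complex.conj_ofReal, map_ofNat]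
  rw [hc, hc2]
  have he : e ((P.Q / 2 - α) * (-(s * I))) =
      e (((α + s * I) ^ 2 - P.Q * (α + s * I)) / 4) *
        e (-(((α - s * I) ^ 2 - P.Q * (α - s * I)) / 4)) := by
    rw [← BCONST_e_add]
    congr 1
    ring
  rw [he]
  ring

/-- Abelian limit. -/
theorem BCONST_abel (F : ℝ → ℂ) (hF : Continuous F) (C : ℝ) (hC : ∀ s : ℝ, 0 ≤ s → ‖F s‖ ≤ C)
    (K : ℂ) (hK : Tendsto F atTop (𝓝 K)) :
    Tendsto (fun ε : ℝ => (ε : ℂ) * ∫ s in Ioi (0 : ℝ), F s * Real.exp (-(2 * π * ε * s)))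
      (𝓝[>] 0) (𝓝 (K / (2 * π))) := by
  have h1 : Tendsto (fun ε : ℝ => ∫ t in Ioi (0 : ℝ), F (ε⁻¹ * t) * Real.exp (-(2 * π * t)))
      (𝓝[>] 0) (𝓝 (∫ t in Ioi (0 : ℝ), K * (Real.exp (-(2 * π * t)) : ℝ))) := by
    refine tendsto_integral_filter_of_dominated_convergence
      (fun t => C * Real.exp (-(2 * π) * t)) ?_ ?_ ?_ ?_
    · refine Filter.Eventually.of_forall fun ε => ?_
      refine Continuous.aestronglyMeasurable ?_
      fun_prop
    · filter_upwards [self_mem_nhdsWithin] with ε hε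
      filter_upwards [ae_restrict_mem measurableSet_Ioi] with t ht
      rw [norm_mul, Complex.norm_real, Real.norm_eq_abs, abs_of_pos (Real.exp_pos _)]
      have ht0 : (0 : ℝ) ≤ ε⁻¹ * t := mul_nonneg (inv_nonneg.2 (le_of_lt hε)) (le_of_lt ht)
      have h := mul_le_mul_of_nonneg_right (hC _ ht0) (Real.exp_pos (-(2 * π * t))).le
      refine h.trans (le_of_eq ?_)
      ring_nf
    · exact (exp_neg_integrableOn_Ioi 0 (b := 2 * π) (by positivity)).const_mul C
    · filter_upwards [ae_restrict_mem measurableSet_Ioi] with t ht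
      refine Tendsto.mul_const _ ?_
      refine hK.comp ?_
      exact (tendsto_inv_nhdsGT_zero).atTop_mul_const ht
  have h2 : ∫ t in Ioi (0 : ℝ), K * (Real.exp (-(2 * π * t)) : ℝ) = K / (2 * π) := by
    rw [integral_const_mul]
    have h3 := integral_exp_mul_complex_Ioi (a := -(2 * π)) (by simp [Real.pi_pos]) 0
    have h4 : (fun t : ℝ => ((Real.exp (-(2 * π * t)) : ℝ) : ℂ)) =
        fun t : ℝ => Complex.exp (-(2 * π) * t) := by
      funext t
      push_cast
      congr 1
      ring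
    rw [h4, h3]
    simp
    ring
  rw [h2] at h1
  refine h1.congr' ?_
  filter_upwards [self_mem_nhdsWithin] with ε hε
  have hε0 : (0 : ℝ) < ε := hε
  have h5 := integral_comp_mul_left_Ioi
    (fun s : ℝ => F s * (Real.exp (-(2 * π * ε * s)) : ℝ)) 0 (inv_pos.2 hε0)
  rw [mul_zero, inv_inv, Complex.real_smul] at h5
  rw [← h5]
  refine integral_congr_ae (Filter.Eventually.of_forall fun t => ?_)
  simp only
  congr 3
  field_simp

/-- The beta integral with one positive constant `K`.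

Proof. Let `α` be as in the statement, `u = Q / 2 - α`, `c` the constant of `Ib_ratio`, `K` the constant of
`Ib_tail`. Take `w = u - ε` with real `ε → 0+` (`|re w| < Q / 2 - re α` for small `ε > 0`). (1) `ε Ib α (u - ε) →
K / (2 π)`: the part `σ ≥ 0` of the integral stays bounded (at `σ > 0` the integrand is at most
`C exp (-2 π (Q / 2 - re α) σ - 2 π (re u - ε) σ)`), and with `σ = - s`, `s > 0`, the integrand is
`F s exp (-2 π ε s)` where `F s = f (- i s) e (u (- i s)) → K` is bounded and continuous; and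
`ε ∫_0^∞ F s exp (-2 π ε s) ds → K / (2 π)` (substitute `s = t / ε`, dominated convergence).
(2) `ε G ε → 1 / (2 π)` (`G_zero_lim`), `G (2 u - ε) → G (2 u) = G (Q - 2 α)`, and
`G (2 α) G (Q - 2 α) = 1`. So `c G (Q - 2 α) / (2 π) = K / (2 π)`, i.e. `c = K G (2 α)`. -/
theorem beta {P : Par} {d : ℕ} (hU : P.IsUnit d) : ∃ K : ℝ, 0 < K ∧ ∀ α w : ℂ, 0 < α.re →
    α.re < P.o / 2 → |w.re| < P.Q / 2 - α.re →
      Ib P α w = K * G P (2 * α) * G P (P.Q / 2 - α + w) * G P (P.Q / 2 - α - w) := by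
  obtain ⟨K, hK, htail⟩ := Ib_tail hU
  refine ⟨K, hK, ?_⟩
  intro α w h0 h1 hw
  have hb := P.hb
  have ho := P.ho
  have hub := hU.hub
  have hbo' : P.b * P.o = 1 := P.hbo
  have hob : P.o < P.b := by nlinarith
  have hQ : P.Q = P.b + P.o := rfl
  have hρ : 0 < P.Q / 2 - α.re := by rw [hQ]; linarith
  obtain ⟨c, hc⟩ := Ib_ratio hU h0 h1
  obtain ⟨C, hC0, hC⟩ := Ib_bound hU h0 (by linarith : α.re < P.Q / 2)
  set u : ℂ := P.Q / 2 - α with hu
  have hure : u.re = P.Q / 2 - α.re := by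
    rw [hu]
    simp
  have hρ' : 0 < u.re := by rw [hure]; exact hρ
  suffices hcK : c = K * G P (2 * α) by
    rw [hc w hw, hcK]
  have hπ : (0 : ℝ) < π := Real.pi_pos
  -- the function `F`
  have hGc : ∀ f : ℝ → ℂ, Continuous f → (∀ s, 0 < (f s).re) →
      Continuous (fun s => G P (f s)) := by
    intro f hf hpos
    rw [continuous_iff_continuousAt]
    intro s
    exact ContinuousAt.comp (g := G P)
      (G_differentiableAt P hob (not_pole_of_re_pos P (hpos s))).continuousAt hf.continuousAt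
  have hec : Continuous e := by
    unfold e
    fun_prop
  obtain ⟨F, hF⟩ : ∃ F : ℝ → ℂ, F = fun s : ℝ => G P (α - s * I) * G P (α + s * I) *
    e (u * (-(s * I))) := ⟨_, rfl⟩
  have hFc : Continuous F := by
    rw [hF]
    refine ((hGc _ (by fun_prop) fun s => ?_).mul (hGc _ (by fun_prop) fun s => ?_)).mul
      (hec.comp (by fun_prop))
    · simpa using h0
    · simpa using h0
  have hFb : ∀ s : ℝ, 0 ≤ s → ‖F s‖ ≤ C := by
    intro s hs
    have h2 := hC s
    have h3 : ‖e (u * (-(s * I)))‖ = Real.exp (2 * π * (P.Q / 2 - α.re) * |s|) := by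
      rw [BCONST_norm_e, abs_of_nonneg hs, ← hure]
      congr 1
      simp
      ring
    rw [hF]
    simp only
    rw [norm_mul, h3, mul_comm (G P (α - s * I))]
    refine (mul_le_mul_of_nonneg_right h2 (Real.exp_pos _).le).trans (le_of_eq ?_)
    rw [mul_assoc, ← Real.exp_add]
    have : -(2 * π * (P.Q / 2 - α.re)) * |s| + 2 * π * (P.Q / 2 - α.re) * |s| = 0 := by ring
    rw [this, Real.exp_zero, mul_one]
  have hFlim : Tendsto F atTop (𝓝 (K : ℂ)) := by
    rw [hF]
    exact htail α h0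
  have hA := BCONST_abel F hFc C hFb K hFlim
  -- the eventual identity
  obtain ⟨R, hR⟩ : ∃ R : ℝ → ℂ, R = fun ε : ℝ => ∫ σ in Ioi (0 : ℝ),
    G P (α + σ * I) * G P (α - σ * I) * e ((u - ε) * (σ * I)) := ⟨_, rfl⟩
  have hev : ∀ᶠ ε : ℝ in 𝓝[>] 0, 0 < ε ∧ ε < u.re := by
    filter_upwards [Ioo_mem_nhdsGT hρ'] with ε hε
    exact hε
  have hstrip : ∀ ε : ℝ, 0 < ε → ε < u.re → |(u - ε : ℂ).re| < P.Q / 2 - α.re := by
    intro ε hε hε'
    have : (u - ε : ℂ).re = u.re - ε := by simp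
    rw [this, abs_of_pos (by linarith), ← hure]
    linarith
  have hsplit : ∀ ε : ℝ, 0 < ε → ε < u.re → Ib P α (u - ε) =
      (∫ s in Ioi (0 : ℝ), F s * Real.exp (-(2 * π * ε * s))) + R ε := by
    intro ε hε hε'
    have hint := Ib_integrable hU h0 (by linarith : α.re < P.Q / 2) (hstrip ε hε hε')
    have h2 := intervalIntegral.integral_Iic_add_Ioi (b := (0 : ℝ)) hint.integrableOn
      hint.integrableOn
    have h3 := integral_comp_neg_Ioi (0 : ℝ)
      (fun σ : ℝ => G P (α + σ * I) * G P (α - σ * I) * e ((u - ε) * (σ * I)))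
    rw [neg_zero] at h3
    unfold Ib
    rw [← h2, ← h3, hR]
    congr 1
    refine integral_congr_ae (Filter.Eventually.of_forall fun s => ?_)
    simp only
    rw [hF]
    simp only
    have h4 : α + ((-s : ℝ) : ℂ) * I = α - s * I := by push_cast; ring
    have h5 : α - ((-s : ℝ) : ℂ) * I = α + s * I := by push_cast; ring
    have h6 : (u - ε) * (((-s : ℝ) : ℂ) * I) = u * (-(s * I)) + ε * s * I := by push_cast; ring
    have h7 : e (ε * s * I) = ((Real.exp (-(2 * π * ε * s)) : ℝ) : ℂ) := by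
      unfold e
      push_cast
      congr 1
      linear_combination (2 * (π : ℂ) * ε * s) * I_sq
    rw [h4, h5, h6, BCONST_e_add, h7]
    ring
  have hRb : ∀ ε : ℝ, 0 < ε → ε < u.re →
      ‖R ε‖ ≤ ∫ σ in Ioi (0 : ℝ), C * Real.exp (-(2 * π * (P.Q / 2 - α.re)) * σ) := by
    intro ε hε hε'
    rw [hR]
    refine norm_integral_le_of_norm_le
      ((exp_neg_integrableOn_Ioi 0 (b := 2 * π * (P.Q / 2 - α.re)) (by positivity)).const_mul C) ?_
    filter_upwards [ae_restrict_mem measurableSet_Ioi] with σ hσ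
    have hσ0 : (0 : ℝ) < σ := hσ
    rw [norm_mul]
    have h2 := hC σ
    rw [abs_of_pos hσ0] at h2
    have h3 : ‖e ((u - ε) * (σ * I))‖ ≤ 1 := by
      rw [BCONST_norm_e, Real.exp_le_one_iff]
      have h4 : ((u - ε) * (σ * I) : ℂ).im = (u.re - ε) * σ := by simp
      rw [h4]
      have : 0 ≤ (u.re - ε) * σ := mul_nonneg (by linarith) hσ0.le
      have h5 : 0 ≤ 2 * π * ((u.re - ε) * σ) := by positivity
      linarith
    calc _ ≤ C * Real.exp (-(2 * π * (P.Q / 2 - α.re)) * σ) * 1 :=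
          mul_le_mul h2 h3 (norm_nonneg _) (by positivity)
      _ = _ := mul_one _
  have hR0 : Tendsto (fun ε : ℝ => (ε : ℂ) * R ε) (𝓝[>] 0) (𝓝 0) := by
    refine squeeze_zero_norm' (a := fun ε : ℝ => ε *
      ∫ σ in Ioi (0 : ℝ), C * Real.exp (-(2 * π * (P.Q / 2 - α.re)) * σ)) ?_ ?_
    · filter_upwards [hev] with ε hε
      rw [norm_mul, Complex.norm_real, Real.norm_eq_abs, abs_of_pos hε.1]
      exact mul_le_mul_of_nonneg_left (hRb ε hε.1 hε.2) hε.1.le
    · have h2 : Tendsto (fun ε : ℝ => ε) (𝓝[>] 0) (𝓝 0) := tendsto_nhdsWithin_of_tendsto_nhds tendsto_id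
      have h3 := h2.mul_const (∫ σ in Ioi (0 : ℝ), C * Real.exp (-(2 * π * (P.Q / 2 - α.re)) * σ))
      rw [zero_mul] at h3
      exact h3
  have hT1 : Tendsto (fun ε : ℝ => (ε : ℂ) * Ib P α (u - ε)) (𝓝[>] 0) (𝓝 (K / (2 * π))) := by
    have h2 := hA.add hR0
    rw [add_zero] at h2
    refine h2.congr' ?_
    filter_upwards [hev] with ε hε
    rw [hsplit ε hε.1 hε.2]
    ring
  have hT2 : Tendsto (fun ε : ℝ => (ε : ℂ) * Ib P α (u - ε)) (𝓝[>] 0)
      (𝓝 (c * G P (2 * u) * (1 / (2 * π)))) := by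
    have h2 : Tendsto (fun ε : ℝ => ((ε : ℂ))) (𝓝[>] 0) (𝓝[≠] 0) := by
      rw [tendsto_nhdsWithin_iff]
      refine ⟨?_, ?_⟩
      · have : Tendsto (fun ε : ℝ => ((ε : ℂ))) (𝓝 0) (𝓝 ((0 : ℝ) : ℂ)) :=
          Complex.continuous_ofReal.tendsto 0
        rw [Complex.ofReal_zero] at this
        exact this.mono_left nhdsWithin_le_nhds
      · filter_upwards [self_mem_nhdsWithin] with ε hε
        have : (ε : ℝ) ≠ 0 := ne_of_gt hε
        simpa using this
    have h3 := (G_zero_lim P hob).comp h2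
    have h4 : Tendsto (fun ε : ℝ => G P (u + (u - ε))) (𝓝[>] 0) (𝓝 (G P (2 * u))) := by
      have hpos : 0 < (2 * u : ℂ).re := by
        have : (2 * u : ℂ).re = 2 * u.re := by simp
        rw [this]
        linarith
      have h5 : ContinuousAt (G P) (2 * u) :=
        (G_differentiableAt P hob (not_pole_of_re_pos P hpos)).continuousAt
      have h6 : Tendsto (fun ε : ℝ => (u + (u - ε) : ℂ)) (𝓝[>] 0) (𝓝 (2 * u)) := by
        have h7 : Continuous (fun ε : ℝ => (u + (u - ε) : ℂ)) := by fun_prop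
        have h8 := h7.tendsto 0
        have h9 : (u + (u - ((0 : ℝ) : ℂ)) : ℂ) = 2 * u := by push_cast; ring
        rw [h9] at h8
        exact h8.mono_left nhdsWithin_le_nhds
      exact h5.tendsto.comp h6
    have h10 := (h4.const_mul c).mul h3
    refine h10.congr' ?_
    filter_upwards [hev] with ε hε
    rw [hc _ (hstrip ε hε.1 hε.2)]
    simp only [Function.comp_apply]
    have h11 : u - (u - (ε : ℂ)) = ε := by ring
    rw [h11]
    ring
  have hne : (𝓝[>] (0 : ℝ)).NeBot := inferInstance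
  have heq := tendsto_nhds_unique hT1 hT2
  have hπC : (2 * (π : ℂ)) ≠ 0 := by
    have : (π : ℂ) ≠ 0 := by exact_mod_cast hπ.ne'
    simpa using this
  have hKc : (K : ℂ) = c * G P (2 * u) := by
    field_simp at heq
    linear_combination heq
  have h2u : 2 * u = P.Q - 2 * α := by rw [hu]; ring
  have href : G P (2 * α) * G P (P.Q - 2 * α) = 1 := by
    refine G_reflect P hob (not_pole_of_re_pos P ?_) (not_pole_of_re_pos P ?_)
    · have : (2 * α : ℂ).re = 2 * α.re := by simp
      rw [this]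
      linarith
    · rw [← h2u]
      have : (2 * u : ℂ).re = 2 * u.re := by simp
      rw [this]
      linarith
  rw [hKc, h2u]
  linear_combination (-c) * href

end Ghost
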