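import Pool.Agent.Lib_MP_1c78a5_ghost.GBd

/-!
# Piece BINT: the beta integral, convergence
-/

open Complex MeasureTheory Set Filter Topology
open scoped Real ComplexConjugate

namespace Ghost

/-- The beta integral. -/
noncomputable def Ib (P : Par) (α w : ℂ) : ℂ :=
  ∫ σ : ℝ, G P (α + σ * I) * G P (α - σ * I) * e (w * (σ * I))

/-- `exp (-k |σ|)` is integrable for `k > 0`. -/
theorem BINT_exp_abs {k : ℝ} (hk : 0 < k) : Integrable (fun σ : ℝ => Real.exp (-k * |σ|)) := by
  have h1 : IntegrableOn (fun σ : ℝ => Real.exp (-k * |σ|)) (Ioi 0) := by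
    refine (integrableOn_exp_mul_Ioi (a := -k) (by linarith) 0).congr_fun ?_ measurableSet_Ioi
    intro σ hσ
    simp only [mem_Ioi] at hσ
    simp only [abs_of_pos hσ]
  have h2 : IntegrableOn (fun σ : ℝ => Real.exp (-k * |σ|)) (Iic 0) := by
    refine (integrableOn_exp_mul_Iic (a := k) hk 0).congr_fun ?_ measurableSet_Iic
    intro σ hσ
    simp only [mem_Iic] at hσ
    simp only [abs_of_nonpos hσ]
    congr 1
    ring
  have h3 := h2.union h1
  rw [Iic_union_Ioi, integrableOn_univ] at h3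
  exact h3

theorem BINT_o_lt_b {P : Par} {d : ℕ} (hU : P.IsUnit d) : P.o < P.b := by
  have h1 := hU.hub
  have h2 := P.hbo
  have h3 := P.ho
  nlinarith

/-- The product is continuous. -/
theorem BINT_cont {P : Par} {d : ℕ} (hU : P.IsUnit d) {α : ℂ} (h0 : 0 < α.re) :
    Continuous (fun σ : ℝ => G P (α + σ * I) * G P (α - σ * I)) := by
  have hG : ∀ x : ℂ, 0 < x.re → ContinuousAt (G P) x := fun x hx =>
    (G_differentiableAt P (BINT_o_lt_b hU) (not_pole_of_re_pos P hx)).continuousAt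
  rw [continuous_iff_continuousAt]
  intro σ
  refine ContinuousAt.mul ?_ ?_
  · refine ContinuousAt.comp (f := fun σ : ℝ => α + σ * I) (g := G P) (hG _ ?_) ?_
    · simpa using h0
    · exact (by fun_prop : Continuous (fun σ : ℝ => α + σ * I)).continuousAt
  · refine ContinuousAt.comp (f := fun σ : ℝ => α - σ * I) (g := G P) (hG _ ?_) ?_
    · simpa using h0
    · exact (by fun_prop : Continuous (fun σ : ℝ => α - σ * I)).continuousAt

theorem BINT_norm_e (w : ℂ) (σ : ℝ) :
    ‖e (w * (σ * I))‖ = Real.exp (-(2 * π * σ * w.re)) := by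
  unfold e
  rw [Complex.norm_exp]
  congr 1
  simp
  ring

theorem BINT_norm_e_le {w : ℂ} {r : ℝ} (hw : |w.re| ≤ r) (σ : ℝ) :
    ‖e (w * (σ * I))‖ ≤ Real.exp (2 * π * r * |σ|) := by
  rw [BINT_norm_e]
  apply Real.exp_le_exp.2
  have h1 : -(σ * w.re) ≤ r * |σ| := by
    calc -(σ * w.re) ≤ |σ * w.re| := neg_le_abs _
      _ = |w.re| * |σ| := by rw [abs_mul, mul_comm]
      _ ≤ r * |σ| := by gcongr
  have hpi := Real.pi_pos
  nlinarith

/-- Exponential decay of the integrand.

Proof. For `|σ| ≥ |im α| + 1` both `α + i σ` and `α - i σ` have imaginary part of absolute value at least `1`,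
and by `G_bound` (`t0 = 1`) the product is at most
`C ^ 2 exp (π (|im α + σ| + |im α - σ|) (re α - Q / 2)) ≤ C ^ 2 exp (-2 π (Q / 2 - re α) |σ|)` because
`|im α + σ| + |im α - σ| ≥ 2 |σ|`. For `|σ| ≤ |im α| + 1` the product is continuous (`re α > 0`: no
poles), hence bounded. -/
theorem Ib_bound {P : Par} {d : ℕ} (hU : P.IsUnit d) {α : ℂ} (h0 : 0 < α.re)
    (h1 : α.re < P.Q / 2) : ∃ C : ℝ, 0 < C ∧ ∀ σ : ℝ,
      ‖G P (α + σ * I) * G P (α - σ * I)‖ ≤ C * Real.exp (-(2 * π * (P.Q / 2 - α.re)) * |σ|) := by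
  obtain ⟨C, hC, hGb⟩ := G_bound hU (t0 := 1) one_pos
  have hpi := Real.pi_pos
  obtain ⟨κ, hκ⟩ : ∃ κ : ℝ, κ = P.Q / 2 - α.re := ⟨_, rfl⟩
  have hκ0 : 0 < κ := by rw [hκ]; linarith
  obtain ⟨S, hS⟩ : ∃ S : ℝ, S = |α.im| + 1 := ⟨_, rfl⟩
  have hS0 : 0 < S := by rw [hS]; positivity
  obtain ⟨M, hM⟩ := (isCompact_Icc (a := -S) (b := S)).exists_bound_of_continuousOn
    (BINT_cont hU h0).continuousOn
  have hM0 : 0 ≤ M := (norm_nonneg _).trans (hM 0 ⟨by linarith, by linarith⟩)
  rw [← hκ]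
  refine ⟨C ^ 2 + M * Real.exp (2 * π * κ * S), by positivity, ?_⟩
  intro σ
  rcases le_or_gt S |σ| with h | h
  · -- large σ
    have e1 : (α + σ * I).im = α.im + σ := by simp
    have e2 : (α - σ * I).im = α.im - σ := by simp
    have e3 : (α + σ * I).re = α.re := by simp
    have e4 : (α - σ * I).re = α.re := by simp
    have a1 : 1 ≤ |α.im + σ| := by
      have : |σ| ≤ |α.im + σ| + |α.im| := by
        calc |σ| = |(α.im + σ) - α.im| := by congr 1; ring
          _ ≤ |α.im + σ| + |α.im| := abs_sub _ _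
      rw [hS] at h
      linarith
    have a2 : 1 ≤ |α.im - σ| := by
      have : |σ| ≤ |α.im - σ| + |α.im| := by
        calc |σ| = |α.im - (α.im - σ)| := by congr 1; ring
          _ ≤ |α.im| + |α.im - σ| := abs_sub _ _
          _ = |α.im - σ| + |α.im| := add_comm _ _
      rw [hS] at h
      linarith
    have a3 : 2 * |σ| ≤ |α.im + σ| + |α.im - σ| := by
      calc 2 * |σ| = |(α.im + σ) - (α.im - σ)| := by
            rw [show (α.im + σ) - (α.im - σ) = 2 * σ by ring, abs_mul, abs_two]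
        _ ≤ |α.im + σ| + |α.im - σ| := abs_sub _ _
    have b1 := hGb (α + σ * I) (by rw [e1]; exact a1)
    have b2 := hGb (α - σ * I) (by rw [e2]; exact a2)
    rw [e1, e3] at b1
    rw [e2, e4] at b2
    rw [norm_mul]
    have e5 : α.re - P.Q / 2 = -κ := by rw [hκ]; ring
    rw [e5] at b1 b2
    calc ‖G P (α + σ * I)‖ * ‖G P (α - σ * I)‖
        ≤ (C * Real.exp (π * |α.im + σ| * (-κ))) * (C * Real.exp (π * |α.im - σ| * (-κ))) := by
          gcongr
      _ = C ^ 2 * Real.exp (-(π * κ) * (|α.im + σ| + |α.im - σ|)) := by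
          rw [show -(π * κ) * (|α.im + σ| + |α.im - σ|)
            = π * |α.im + σ| * (-κ) + π * |α.im - σ| * (-κ) by ring, Real.exp_add]
          ring
      _ ≤ C ^ 2 * Real.exp (-(2 * π * κ) * |σ|) := by
          refine mul_le_mul_of_nonneg_left (Real.exp_le_exp.2 ?_) (by positivity)
          have : 0 < π * κ := mul_pos hpi hκ0
          nlinarith
      _ ≤ (C ^ 2 + M * Real.exp (2 * π * κ * S)) * Real.exp (-(2 * π * κ) * |σ|) := by
          gcongr
          have : 0 ≤ M * Real.exp (2 * π * κ * S) := by positivity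
          linarith
  · have h1 := hM σ (abs_le.1 h.le)
    calc ‖G P (α + σ * I) * G P (α - σ * I)‖ ≤ M := h1
      _ = M * 1 := (mul_one _).symm
      _ ≤ M * (Real.exp (2 * π * κ * S) * Real.exp (-(2 * π * κ) * |σ|)) := by
          gcongr
          rw [← Real.exp_add]
          apply Real.one_le_exp
          have : 0 < 2 * π * κ := by positivity
          nlinarith
      _ = (M * Real.exp (2 * π * κ * S)) * Real.exp (-(2 * π * κ) * |σ|) := by ring
      _ ≤ (C ^ 2 + M * Real.exp (2 * π * κ * S)) * Real.exp (-(2 * π * κ) * |σ|) := by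
          gcongr
          have : 0 ≤ C ^ 2 := by positivity
          linarith

/-- `‖e (w (σ i))‖ = exp (-2 π σ re w)`. -/
theorem Ib_integrable {P : Par} {d : ℕ} (hU : P.IsUnit d) {α : ℂ} (h0 : 0 < α.re)
    (h1 : α.re < P.Q / 2) {w : ℂ} (hw : |w.re| < P.Q / 2 - α.re) :
    Integrable (fun σ : ℝ => G P (α + σ * I) * G P (α - σ * I) * e (w * (σ * I))) := by
  obtain ⟨C, hC, hb⟩ := Ib_bound hU h0 h1
  have hpi := Real.pi_pos
  have hk : 0 < 2 * π * (P.Q / 2 - α.re - |w.re|) := by
    have : 0 < P.Q / 2 - α.re - |w.re| := by linarith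
    positivity
  refine ((BINT_exp_abs hk).const_mul C).mono' ?_ ?_
  · refine Continuous.aestronglyMeasurable ?_
    refine (BINT_cont hU h0).mul ?_
    unfold e
    fun_prop
  · filter_upwards with σ
    rw [norm_mul]
    calc ‖G P (α + σ * I) * G P (α - σ * I)‖ * ‖e (w * (σ * I))‖
        ≤ (C * Real.exp (-(2 * π * (P.Q / 2 - α.re)) * |σ|)) * Real.exp (2 * π * |w.re| * |σ|) :=
          mul_le_mul (hb σ) (BINT_norm_e_le le_rfl σ) (norm_nonneg _) (by positivity)
      _ = C * Real.exp (-(2 * π * (P.Q / 2 - α.re - |w.re|)) * |σ|) := by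
          rw [mul_assoc, ← Real.exp_add]
          congr 2
          ring

/-- Differentiation under the integral sign. -/
theorem Ib_differentiableAt {P : Par} {d : ℕ} (hU : P.IsUnit d) {α : ℂ} (h0 : 0 < α.re)
    (h1 : α.re < P.Q / 2) {w : ℂ} (hw : |w.re| < P.Q / 2 - α.re) :
    DifferentiableAt ℂ (Ib P α) w := by
  obtain ⟨C, hC, hb⟩ := Ib_bound hU h0 h1
  have hpi := Real.pi_pos
  obtain ⟨r, hr1, hr2⟩ := exists_between hw
  have hδ : 0 < P.Q / 2 - α.re - r := by linarith
  obtain ⟨δ, hδe⟩ : ∃ δ : ℝ, δ = π * (P.Q / 2 - α.re - r) := ⟨_, rfl⟩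
  have hδ0 : 0 < δ := by rw [hδe]; positivity
  have hs : {z : ℂ | |z.re| < r} ∈ 𝓝 w := by
    have ho : IsOpen {z : ℂ | |z.re| < r} :=
      isOpen_lt (Complex.continuous_re.abs) continuous_const
    exact ho.mem_nhds hr1
  have hcont : ∀ z : ℂ, Continuous (fun σ : ℝ => G P (α + σ * I) * G P (α - σ * I) * e (z * (σ * I))) := by
    intro z
    refine (BINT_cont hU h0).mul ?_
    unfold e
    fun_prop
  have key := hasDerivAt_integral_of_dominated_loc_of_deriv_le (μ := (volume : Measure ℝ))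
    (F := fun (z : ℂ) (σ : ℝ) => G P (α + σ * I) * G P (α - σ * I) * e (z * (σ * I)))
    (F' := fun (z : ℂ) (σ : ℝ) => G P (α + σ * I) * G P (α - σ * I) *
      (e (z * (σ * I)) * (2 * π * I * (σ * I)))) (x₀ := w)
    (bound := fun σ => (C * (2 * π / δ)) * Real.exp (-δ * |σ|)) hs ?_ ?_ ?_ ?_ ?_ ?_
  · exact key.2.differentiableAt
  · exact Eventually.of_forall fun z => (hcont z).aestronglyMeasurable
  · exact Ib_integrable hU h0 h1 hw
  · refine Continuous.aestronglyMeasurable ?_
    refine (BINT_cont hU h0).mul ?_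
    unfold e
    fun_prop
  · filter_upwards with σ
    intro z hz
    have hz' : |z.re| ≤ r := le_of_lt hz
    rw [norm_mul (G P (α + σ * I) * G P (α - σ * I)), norm_mul (e (z * (σ * I)))]
    have e1 : ‖(2 * π * I * (σ * I) : ℂ)‖ = 2 * π * |σ| := by
      rw [norm_mul, norm_mul, norm_mul, norm_mul, Complex.norm_I, Complex.norm_real,
        Complex.norm_real, Real.norm_eq_abs, Real.norm_eq_abs, abs_of_pos hpi]
      norm_num
    rw [e1]
    have e2 : |σ| ≤ 1 / δ * Real.exp (δ * |σ|) := by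
      have := Real.add_one_le_exp (δ * |σ|)
      rw [one_div, inv_mul_eq_div, le_div_iff₀ hδ0]
      linarith
    calc ‖G P (α + σ * I) * G P (α - σ * I)‖ * (‖e (z * (σ * I))‖ * (2 * π * |σ|))
        ≤ (C * Real.exp (-(2 * π * (P.Q / 2 - α.re)) * |σ|)) *
          (Real.exp (2 * π * r * |σ|) * (2 * π * (1 / δ * Real.exp (δ * |σ|)))) := by
          refine mul_le_mul (hb σ) ?_ (by positivity) (by positivity)
          refine mul_le_mul (BINT_norm_e_le hz' σ) ?_ (by positivity) (by positivity)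
          gcongr
      _ = (C * (2 * π / δ)) * (Real.exp (-(2 * π * (P.Q / 2 - α.re)) * |σ|) *
          (Real.exp (2 * π * r * |σ|) * Real.exp (δ * |σ|))) := by ring
      _ = (C * (2 * π / δ)) * Real.exp (-δ * |σ|) := by
          rw [← Real.exp_add, ← Real.exp_add]
          congr 2
          rw [hδe]
          ring
  · exact (BINT_exp_abs hδ0).const_mul _
  · filter_upwards with σ
    intro z _
    have h3 : HasDerivAt (fun z : ℂ => e (z * (σ * I))) (e (z * (σ * I)) * (2 * π * I * (σ * I))) z := by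
      unfold e
      have h4 : HasDerivAt (fun z : ℂ => 2 * π * I * (z * (σ * I))) (2 * π * I * (σ * I)) z := by
        have := ((hasDerivAt_id z).mul_const ((σ : ℂ) * I)).const_mul (2 * π * I)
        simpa using this
      exact h4.cexp
    exact h3.const_mul _

end Ghost
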