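import Pool.Agent.Lib_MP_1c78a5_ghost.Dio

/-!
# Piece BSTRIP: a doubly periodic function on a strip is constant
-/

open Complex MeasureTheory Set Filter Topology
open scoped Real ComplexConjugate

namespace Ghost

/-- iterated first period inside the strip -/
theorem BSTRIP_iter {b ρ : ℝ} (hb : 0 < b) {q : ℂ → ℂ}
    (h1 : ∀ w : ℂ, |w.re| < ρ → |(w + b).re| < ρ → q (w + b) = q w) (k : ℕ) :
    ∀ z : ℂ, |z.re| < ρ → |(z + (k : ℂ) * b).re| < ρ → q (z + (k : ℂ) * b) = q z := by
  have hre : ∀ (z : ℂ) (k : ℕ), (z + (k : ℂ) * b).re = z.re + k * b := by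
    intro z k
    simp
  induction k with
  | zero => intro z _ _; simp
  | succ k ih =>
    intro z hz hz'
    rw [hre] at hz'
    push_cast at hz'
    have h2 : |(z + (k : ℂ) * b).re| < ρ := by
      rw [hre]
      rw [abs_lt] at hz hz' ⊢
      have : 0 ≤ (k : ℝ) * b := by positivity
      constructor
      · linarith
      · linarith
    have h3 : z + ((k + 1 : ℕ) : ℂ) * b = (z + (k : ℂ) * b) + b := by
      push_cast; ring
    rw [h3, h1 _ h2, ih z hz h2]
    rw [add_assoc]
    have h4 : ((k : ℂ) * b + b) = ((k + 1 : ℕ) : ℂ) * b := by push_cast; ring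
    rw [h4, hre]
    push_cast
    exact hz'

/-- the same for integer multiples -/
theorem BSTRIP_int {b ρ : ℝ} (hb : 0 < b) {q : ℂ → ℂ}
    (h1 : ∀ w : ℂ, |w.re| < ρ → |(w + b).re| < ρ → q (w + b) = q w) (w : ℂ) (m n : ℤ)
    (hm : |(w - (m : ℂ) * b).re| < ρ) (hn : |(w - (n : ℂ) * b).re| < ρ) :
    q (w - (m : ℂ) * b) = q (w - (n : ℂ) * b) := by
  have key : ∀ m n : ℤ, m ≤ n → |(w - (m : ℂ) * b).re| < ρ → |(w - (n : ℂ) * b).re| < ρ →
      q (w - (m : ℂ) * b) = q (w - (n : ℂ) * b) := by
    intro m n hmn hm hn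
    obtain ⟨k, hk⟩ := Int.le.dest hmn
    have h2 : w - (m : ℂ) * b = (w - (n : ℂ) * b) + (k : ℂ) * b := by
      rw [← hk]; push_cast; ring
    rw [h2] at hm ⊢
    exact BSTRIP_iter hb h1 k _ hn hm
  rcases le_total m n with h | h
  · exact key m n h hm hn
  · exact (key n m h hn hm).symm

/-- Proof. Let `S = {|re w| < ρ}` with `b / 2 < ρ`. For every `w` let `n w = round (re w / b)` and
`q' w = q (w - n w b)`; `|re (w - n w b)| ≤ b / 2 < ρ`. By `h1`, for every `w` and every integer `n` with
`w - n b ∈ S` one has `q' w = q (w - n b)` (two such integers differ by less than `2 ρ / b`; the points between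
also lie in `S`; induction with `h1`). So `q'` is locally of the form `q (w - n b)` with a fixed `n`, hence
differentiable on `ℂ`, and `q' (w + b) = q' w`, `q' = q` on `S`. On the open set `{|re w| < ρ - o}`
(nonempty: `ρ > b / 2 > o / 2`... if `ρ ≤ o` use the points `w` with `w` and `w + o` in `S`, i.e.
`-ρ < re w < ρ - o`, a nonempty open set as `2 ρ > b > o`) `q' (w + o) = q' w` by `h2`, so by the identity
theorem on all of `ℂ`. So for every `w` the continuous function `s ↦ q' (w + s)` of the real variable `s` is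
invariant under the dense subgroup generated by `b` and `o` (`dense_periods`), so it is constant; the derivative
of `q'` is zero everywhere and `q'` is constant. -/
theorem strip_const {P : Par} {d : ℕ} (hU : P.IsUnit d) {ρ : ℝ} (hρ : P.b / 2 < ρ) {q : ℂ → ℂ}
    (hq : ∀ w : ℂ, |w.re| < ρ → DifferentiableAt ℂ q w)
    (h1 : ∀ w : ℂ, |w.re| < ρ → |(w + P.b).re| < ρ → q (w + P.b) = q w)
    (h2 : ∀ w : ℂ, |w.re| < ρ → |(w + P.o).re| < ρ → q (w + P.o) = q w)
    {w w' : ℂ} (hw : |w.re| < ρ) (hw' : |w'.re| < ρ) : q w = q w' := by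
  obtain ⟨b, hbdef⟩ : ∃ b : ℝ, b = P.b := ⟨_, rfl⟩
  obtain ⟨o, hodef⟩ : ∃ o : ℝ, o = P.o := ⟨_, rfl⟩
  have hb : 0 < b := by rw [hbdef]; exact P.hb
  have ho : 0 < o := by rw [hodef]; exact P.ho
  have hob : o < b := by rw [hodef, hbdef]; exact o_lt_b hU
  rw [← hbdef] at hρ h1
  rw [← hodef] at h2
  have hfact : ∀ (w : ℂ) (n : ℤ), |(w - (n : ℂ) * b).re| < ρ →
      q (w - ((round (w.re / b) : ℤ) : ℂ) * b) = q (w - (n : ℂ) * b) := by
    intro w n hn
    refine BSTRIP_int hb h1 w _ n ?_ hn
    have h3 := abs_sub_round (w.re / b)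
    have h4 : (w - ((round (w.re / b) : ℤ) : ℂ) * b).re = (w.re / b - round (w.re / b)) * b := by
      simp
      field_simp
    rw [h4, abs_mul, abs_of_pos hb]
    nlinarith
  obtain ⟨q', hq'⟩ : ∃ q' : ℂ → ℂ, q' = fun w => q (w - ((round (w.re / b) : ℤ) : ℂ) * b) :=
    ⟨_, rfl⟩
  have hq'n : ∀ (w : ℂ) (n : ℤ), |(w - (n : ℂ) * b).re| < ρ → q' w = q (w - (n : ℂ) * b) := by
    intro w n hn
    rw [hq']
    exact hfact w n hn
  have hround : ∀ w : ℂ, |(w - ((round (w.re / b) : ℤ) : ℂ) * b).re| < ρ := by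
    intro w
    have h3 := abs_sub_round (w.re / b)
    have h4 : (w - ((round (w.re / b) : ℤ) : ℂ) * b).re = (w.re / b - round (w.re / b)) * b := by
      simp
      field_simp
    rw [h4, abs_mul, abs_of_pos hb]
    nlinarith
  have hq'S : ∀ w : ℂ, |w.re| < ρ → q' w = q w := by
    intro w hw
    have := hq'n w 0 (by simpa using hw)
    simpa using this
  -- differentiability
  have hdiff : Differentiable ℂ q' := by
    intro w
    obtain ⟨n, hn⟩ : ∃ n : ℤ, n = round (w.re / b) := ⟨_, rfl⟩
    have hwn : |(w - (n : ℂ) * b).re| < ρ := by rw [hn]; exact hround w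
    have hopen : IsOpen {z : ℂ | |(z - (n : ℂ) * b).re| < ρ} := by
      apply isOpen_lt _ continuous_const
      exact (Complex.continuous_re.comp (continuous_id.sub continuous_const)).abs
    have hev : q' =ᶠ[𝓝 w] fun z => q (z - (n : ℂ) * b) := by
      filter_upwards [hopen.mem_nhds hwn] with z hz
      exact hq'n z n hz
    have hd : DifferentiableAt ℂ (fun z => q (z - (n : ℂ) * b)) w := by
      have h5 := hq (w - (n : ℂ) * b) hwn
      exact DifferentiableAt.comp w h5 (differentiableAt_id.sub_const _)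
    exact hd.congr_of_eventuallyEq hev
  -- periods
  have hper1 : ∀ w : ℂ, q' (w + b) = q' w := by
    intro w
    have h3 := hround w
    rw [hq'n w _ h3]
    have h4 : w - ((round (w.re / b) : ℤ) : ℂ) * b
        = (w + b) - ((round (w.re / b) + 1 : ℤ) : ℂ) * b := by push_cast; ring
    rw [h4] at h3 ⊢
    exact hq'n (w + b) _ h3
  have hper2 : ∀ w : ℂ, q' (w + o) = q' w := by
    have han : AnalyticOnNhd ℂ q' univ := fun z _ => hdiff.analyticAt z
    have han2 : AnalyticOnNhd ℂ (fun w => q' (w + o)) univ := fun z _ =>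
      (hdiff.comp (differentiable_id.add_const (o : ℂ))).analyticAt z
    have hev : (fun w => q' (w + o)) =ᶠ[𝓝 (-((o / 2 : ℝ) : ℂ))] q' := by
      have hopen : IsOpen {z : ℂ | |z.re| < ρ ∧ |(z + o).re| < ρ} := by
        apply IsOpen.inter
        · exact isOpen_lt Complex.continuous_re.abs continuous_const
        · exact isOpen_lt (Complex.continuous_re.comp (continuous_id.add continuous_const)).abs
            continuous_const
      have hmem : (-((o / 2 : ℝ) : ℂ)) ∈ {z : ℂ | |z.re| < ρ ∧ |(z + o).re| < ρ} := by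
        constructor
        · have e1 : (-((o / 2 : ℝ) : ℂ)).re = -(o / 2) := by simp
          rw [e1, abs_neg, abs_of_pos (by linarith)]
          linarith
        · have e1 : (-((o / 2 : ℝ) : ℂ) + o).re = o / 2 := by
            rw [Complex.add_re, Complex.neg_re, Complex.ofReal_re, Complex.ofReal_re]; ring
          rw [e1, abs_of_pos (by linarith)]
          linarith
      filter_upwards [hopen.mem_nhds hmem] with z hz
      rw [hq'S z hz.1, hq'S (z + o) hz.2]
      exact h2 z hz.1 hz.2
    intro w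
    exact congrFun (han2.eq_of_eventuallyEq han hev) w
  have hall : ∀ (w : ℂ) (s : ℝ), q' (w + s) = q' w := by
    have hsub : ∀ s ∈ (AddSubgroup.closure {P.b, P.o} : AddSubgroup ℝ), ∀ w : ℂ,
        q' (w + s) = q' w := by
      intro s hs
      induction hs using AddSubgroup.closure_induction with
      | mem x hx =>
        rcases hx with hx | hx
        · rw [hx, ← hbdef]; exact hper1
        · rw [Set.mem_singleton_iff] at hx
          rw [hx, ← hodef]; exact hper2
      | zero => intro w; simp
      | add x y _ _ hx hy =>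
        intro w
        have : w + ((x + y : ℝ) : ℂ) = (w + x) + y := by push_cast; ring
        rw [this, hy, hx]
      | neg x _ hx =>
        intro w
        have h3 := hx (w + ((-x : ℝ) : ℂ))
        have : w + ((-x : ℝ) : ℂ) + x = w := by push_cast; ring
        rw [this] at h3
        exact h3.symm
    intro w s
    have hc1 : Continuous fun s : ℝ => q' (w + s) :=
      hdiff.continuous.comp (continuous_const.add Complex.continuous_ofReal)
    have hc2 : Continuous fun _ : ℝ => q' w := continuous_const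
    have := Continuous.ext_on (dense_periods hU) hc1 hc2 (fun s hs => hsub s hs w)
    exact congrFun this s
  have hder : ∀ w : ℂ, deriv q' w = 0 := by
    intro w
    have h3 : HasDerivAt q' (deriv q' w) (w + ((0 : ℝ) : ℂ)) := by
      have : w + ((0 : ℝ) : ℂ) = w := by simp
      rw [this]
      exact (hdiff w).hasDerivAt
    have h4 : HasDerivAt (fun s : ℝ => w + (s : ℂ)) 1 0 := by
      have := (Complex.ofRealCLM.hasDerivAt (x := (0 : ℝ))).const_add w
      simpa using this
    have h5 : HasDerivAt (fun s : ℝ => q' (w + (s : ℂ))) (deriv q' w * 1) 0 :=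
      HasDerivAt.comp (𝕜 := ℝ) (h₂ := q') (h := fun s : ℝ => w + (s : ℂ)) 0 h3 h4
    have h6 : (fun s : ℝ => q' (w + (s : ℂ))) = fun _ => q' w := by
      funext s; exact hall w s
    rw [h6] at h5
    have h7 := h5.unique (hasDerivAt_const (0 : ℝ) (q' w))
    simpa using h7
  have hconst := is_const_of_deriv_eq_zero hdiff hder w w'
  rw [hq'S w hw, hq'S w' hw'] at hconst
  exact hconst

end Ghost
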