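import Pool.Agent.Lib_MP_1c78a5_ghost.BRec
import Pool.Agent.Lib_MP_1c78a5_ghost.BStrip

/-!
# Piece BRAT: the beta integral up to a factor independent of `w`
-/

open Complex MeasureTheory Set Filter Topology
open scoped Real ComplexConjugate

namespace Ghost

theorem BRAT_aux {A B g1 g2 g1' g2' cp cm : ℂ} (hrec : cp * B = cm * A)
    (h1 : g1' = 2 * cm * g1) (h2 : g2 = 2 * cp * g2') (n1 : g1 ≠ 0) (n2 : g2 ≠ 0)
    (n1' : g1' ≠ 0) (n2' : g2' ≠ 0) : B / (g1' * g2') = A / (g1 * g2) := by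
  rw [div_eq_div_iff (mul_ne_zero n1' n2') (mul_ne_zero n1 n2), h1, h2]
  linear_combination (2 * g1 * g2') * hrec

theorem BRAT_sin (x : ℂ) : Complex.sin (π / 2 + x) = Complex.cos x := by
  rw [add_comm]; exact Complex.sin_add_pi_div_two x

theorem BRAT_sin' (x : ℂ) : Complex.sin (π / 2 - x) = Complex.cos x :=
  Complex.sin_pi_div_two_sub x

/-- Proof. Let `ρ = Q / 2 - re α > b / 2` and, for `|re w| < ρ`,
`q w = Ib α w / (G (Q / 2 - α + w) G (Q / 2 - α - w))`. The arguments of `G` have real part in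
`(0, 2 ρ)`, contained in `(0, Q)`, so the denominator is not zero (`G_ne_zero_strip`) and `q` is differentiable
(`Ib_differentiableAt`, `G_differentiableAt`). Claim: `q (w + b) = q w` if `w` and `w + b` are in the strip
`|re| < ρ`. Let `w'' = w + b / 2`; then `|re w''| < ρ - b / 2` and `Ib_rec_b` reads
`cos (π b (w'' + α)) Ib (w + b) = cos (π b (w'' - α)) Ib w`. With `u = Q / 2 - α`: `b (u - b / 2) = 1 / 2 - b α`, so
`G (u + w'' + b / 2) = sb (u + w'' - b / 2) G (u + w'' - b / 2)` with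
`sb (u + w'' - b / 2) = 2 sin (π / 2 + π b (w'' - α)) = 2 cos (π b (w'' - α))`, and
`G (u - w'' + b / 2) = sb (u - w'' - b / 2) G (u - w'' - b / 2)` with
`sb (u - w'' - b / 2) = 2 cos (π b (w'' + α))`. All values of `G` here are nonzero, so the cosines are nonzero
and the claim follows. The same for `o` with `Ib_rec_o`. Conclude with `strip_const`
(`q w = q 0` for all `w`). -/
theorem Ib_ratio {P : Par} {d : ℕ} (hU : P.IsUnit d) {α : ℂ} (h0 : 0 < α.re)
    (h1 : α.re < P.o / 2) : ∃ c : ℂ, ∀ w : ℂ, |w.re| < P.Q / 2 - α.re →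
      Ib P α w = c * G P (P.Q / 2 - α + w) * G P (P.Q / 2 - α - w) := by
  have hbo : P.o < P.b := by
    have h := hU.hub
    have h2 := P.hbo
    have h3 := P.ho
    have h4 : P.o < 1 := by
      by_contra hc
      push Not at hc
      nlinarith
    linarith
  have hb := P.hb
  have ho := P.ho
  have hQ : P.Q = P.b + P.o := rfl
  have hboC : (P.b : ℂ) * P.o = 1 := by exact_mod_cast P.hbo
  have hQC : (P.Q : ℂ) = P.b + P.o := by rw [hQ]; push_cast; ring
  obtain ⟨ρ, hρ⟩ : ∃ ρ : ℝ, ρ = P.Q / 2 - α.re := ⟨_, rfl⟩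
  have hρb : P.b / 2 < ρ := by rw [hρ, hQ]; linarith
  have hαQ : α.re < P.Q / 2 := by rw [hQ]; linarith
  have hre1 : ∀ w : ℂ, ((P.Q : ℂ) / 2 - α + w).re = ρ + w.re := by
    intro w
    have : ((P.Q : ℂ) / 2).re = P.Q / 2 := by
      have h : ((P.Q : ℂ) / 2) = ((P.Q / 2 : ℝ) : ℂ) := by push_cast; ring
      rw [h, Complex.ofReal_re]
    rw [Complex.add_re, Complex.sub_re, this, hρ]
  have hre2 : ∀ w : ℂ, ((P.Q : ℂ) / 2 - α - w).re = ρ - w.re := by
    intro w
    have h := hre1 (-w)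
    rw [← sub_eq_add_neg, Complex.neg_re] at h
    rw [h]; ring
  have h2ρ : 2 * ρ < P.Q := by rw [hρ]; linarith
  have hn1 : ∀ w : ℂ, |w.re| < ρ → G P ((P.Q : ℂ) / 2 - α + w) ≠ 0 := by
    intro w hw
    have hw' := abs_lt.1 hw
    refine G_ne_zero_strip P hbo ?_ ?_
    · rw [hre1]; linarith
    · rw [hre1]; linarith
  have hn2 : ∀ w : ℂ, |w.re| < ρ → G P ((P.Q : ℂ) / 2 - α - w) ≠ 0 := by
    intro w hw
    have hw' := abs_lt.1 hw
    refine G_ne_zero_strip P hbo ?_ ?_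
    · rw [hre2]; linarith
    · rw [hre2]; linarith
  have hp1 : ∀ w : ℂ, |w.re| < ρ → ¬ Pole P ((P.Q : ℂ) / 2 - α + w) := by
    intro w hw
    have hw' := abs_lt.1 hw
    refine not_pole_of_re_pos P ?_
    rw [hre1]; linarith
  have hp2 : ∀ w : ℂ, |w.re| < ρ → ¬ Pole P ((P.Q : ℂ) / 2 - α - w) := by
    intro w hw
    have hw' := abs_lt.1 hw
    refine not_pole_of_re_pos P ?_
    rw [hre2]; linarith
  let q : ℂ → ℂ := fun w =>
    Ib P α w / (G P ((P.Q : ℂ) / 2 - α + w) * G P ((P.Q : ℂ) / 2 - α - w))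
  have hq : ∀ w : ℂ, |w.re| < ρ → DifferentiableAt ℂ q w := by
    intro w hw
    have d1 : DifferentiableAt ℂ (fun w : ℂ => G P ((P.Q : ℂ) / 2 - α + w)) w :=
      DifferentiableAt.comp (f := fun w : ℂ => (P.Q : ℂ) / 2 - α + w) w
        (G_differentiableAt P hbo (hp1 w hw)) (differentiableAt_id.const_add _)
    have d2 : DifferentiableAt ℂ (fun w : ℂ => G P ((P.Q : ℂ) / 2 - α - w)) w :=
      DifferentiableAt.comp (f := fun w : ℂ => (P.Q : ℂ) / 2 - α - w) w
        (G_differentiableAt P hbo (hp2 w hw)) (differentiableAt_id.const_sub _)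
    exact (Ib_differentiableAt hU h0 hαQ (by rw [← hρ]; exact hw)).div (d1.mul d2)
      (mul_ne_zero (hn1 w hw) (hn2 w hw))
  have hshift : ∀ (w : ℂ) (t : ℝ), (w + t).re = w.re + t := by
    intro w t
    rw [Complex.add_re, Complex.ofReal_re]
  have hb1 : ∀ w : ℂ, |w.re| < ρ → |(w + P.b).re| < ρ → q (w + P.b) = q w := by
    intro w hw hw2
    have hw' := abs_lt.1 hw
    have hw2' := abs_lt.1 hw2
    rw [hshift] at hw2'
    have hs := Ib_rec_b hU h0 h1 (w := w + P.b / 2) (by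
      have e : (w + (P.b : ℂ) / 2).re = w.re + P.b / 2 := by
        have h := hshift w (P.b / 2)
        push_cast at h
        exact h
      rw [e, abs_lt]
      constructor
      · linarith
      · linarith)
    have e1 : w + (P.b : ℂ) / 2 + P.b / 2 = w + P.b := by ring
    have e2 : w + (P.b : ℂ) / 2 - P.b / 2 = w := by ring
    rw [e1, e2] at hs
    refine BRAT_aux hs ?_ ?_ (hn1 w hw) (hn2 w hw) (hn1 _ hw2) (hn2 _ hw2)
    · have e3 : (P.Q : ℂ) / 2 - α + (w + P.b) = ((P.Q : ℂ) / 2 - α + w) + P.b := by ring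
      rw [e3, G_add_b P (hp1 w hw)]
      unfold sb
      have e4 : (π : ℂ) * P.b * ((P.Q : ℂ) / 2 - α + w) =
          π / 2 + π * P.b * (w + P.b / 2 - α) := by
        rw [hQC]
        linear_combination (π / 2 : ℂ) * hboC
      rw [e4, BRAT_sin]
    · have e3 : (P.Q : ℂ) / 2 - α - w = ((P.Q : ℂ) / 2 - α - (w + P.b)) + P.b := by ring
      rw [e3, G_add_b P (hp2 _ hw2)]
      unfold sb
      have e4 : (π : ℂ) * P.b * ((P.Q : ℂ) / 2 - α - (w + P.b)) =
          π / 2 - π * P.b * (w + P.b / 2 + α) := by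
        rw [hQC]
        linear_combination (π / 2 : ℂ) * hboC
      rw [e4, BRAT_sin']
  have ho1 : ∀ w : ℂ, |w.re| < ρ → |(w + P.o).re| < ρ → q (w + P.o) = q w := by
    intro w hw hw2
    have hw' := abs_lt.1 hw
    have hw2' := abs_lt.1 hw2
    rw [hshift] at hw2'
    have hs := Ib_rec_o hU h0 h1 (w := w + P.o / 2) (by
      have e : (w + (P.o : ℂ) / 2).re = w.re + P.o / 2 := by
        have h := hshift w (P.o / 2)
        push_cast at h
        exact h
      rw [e, abs_lt]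
      constructor
      · linarith
      · linarith)
    have e1 : w + (P.o : ℂ) / 2 + P.o / 2 = w + P.o := by ring
    have e2 : w + (P.o : ℂ) / 2 - P.o / 2 = w := by ring
    rw [e1, e2] at hs
    refine BRAT_aux hs ?_ ?_ (hn1 w hw) (hn2 w hw) (hn1 _ hw2) (hn2 _ hw2)
    · have e3 : (P.Q : ℂ) / 2 - α + (w + P.o) = ((P.Q : ℂ) / 2 - α + w) + P.o := by ring
      rw [e3, G_add_o P hbo (hp1 w hw)]
      unfold so
      have e4 : (π : ℂ) * P.o * ((P.Q : ℂ) / 2 - α + w) =
          π / 2 + π * P.o * (w + P.o / 2 - α) := by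
        rw [hQC]
        linear_combination (π / 2 : ℂ) * hboC
      rw [e4, BRAT_sin]
    · have e3 : (P.Q : ℂ) / 2 - α - w = ((P.Q : ℂ) / 2 - α - (w + P.o)) + P.o := by ring
      rw [e3, G_add_o P hbo (hp2 _ hw2)]
      unfold so
      have e4 : (π : ℂ) * P.o * ((P.Q : ℂ) / 2 - α - (w + P.o)) =
          π / 2 - π * P.o * (w + P.o / 2 + α) := by
        rw [hQC]
        linear_combination (π / 2 : ℂ) * hboC
      rw [e4, BRAT_sin']
  refine ⟨q 0, ?_⟩
  intro w hw
  rw [← hρ] at hw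
  have h00 : |(0 : ℂ).re| < ρ := by
    rw [Complex.zero_re, abs_zero]
    linarith
  have hc := strip_const hU hρb hq hb1 ho1 hw h00
  rw [← hc]
  have hne := mul_ne_zero (hn1 w hw) (hn2 w hw)
  change Ib P α w = Ib P α w / (G P ((P.Q : ℂ) / 2 - α + w) * G P ((P.Q : ℂ) / 2 - α - w)) *
    G P ((P.Q : ℂ) / 2 - α + w) * G P ((P.Q : ℂ) / 2 - α - w)
  rw [mul_assoc, div_mul_cancel₀ _ hne]

end Ghost
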