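import Pool.Agent.Lib_MP_1c78a5_ghost.CRect

/-!
# Piece CSHIFT: Cauchy for rectangles
-/

open Complex MeasureTheory Set Filter Topology
open scoped Real ComplexConjugate

namespace Ghost

theorem CSHIFT_rect {f : ℂ → ℂ} {σ σ' a b : ℝ} (hσ : σ ≤ σ') (hab : a ≤ b)
    (hd : ∀ z : ℂ, σ ≤ z.re → z.re ≤ σ' → a ≤ z.im → z.im ≤ b → DifferentiableAt ℂ f z) :
    (∫ x in σ..σ', f ((x : ℂ) + a * I)) - (∫ x in σ..σ', f ((x : ℂ) + b * I)) +
      I * (∫ y in a..b, f ((σ' : ℂ) + y * I)) - I * (∫ y in a..b, f ((σ : ℂ) + y * I)) = 0 := by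
  have h := Complex.integral_boundary_rect_eq_zero_of_differentiableOn f ((σ : ℂ) + a * I)
    ((σ' : ℂ) + b * I) (by
      intro z hz
      have e1 : ((σ : ℂ) + a * I).re = σ := by simp
      have e2 : ((σ' : ℂ) + b * I).re = σ' := by simp
      have e3 : ((σ : ℂ) + a * I).im = a := by simp
      have e4 : ((σ' : ℂ) + b * I).im = b := by simp
      rw [e1, e2, e3, e4, uIcc_of_le hσ, uIcc_of_le hab] at hz
      exact (hd z hz.1.1 hz.1.2 hz.2.1 hz.2.2).differentiableWithinAt)
  have e1 : ((σ : ℂ) + a * I).re = σ := by simp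
  have e2 : ((σ' : ℂ) + b * I).re = σ' := by simp
  have e3 : ((σ : ℂ) + a * I).im = a := by simp
  have e4 : ((σ' : ℂ) + b * I).im = b := by simp
  rw [e1, e2, e3, e4] at h
  exact h

theorem CSHIFT_integrable {f : ℝ → ℂ} {A c : ℝ} (hc : 0 < c) (hf : Continuous f)
    (hb : ∀ y, ‖f y‖ ≤ A * Real.exp (-c * |y|)) : Integrable f := by
  have h1 : IntegrableOn f (Ioi 0) := by
    refine Integrable.mono' ((exp_neg_integrableOn_Ioi 0 hc).const_mul A)
      hf.aestronglyMeasurable ?_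
    refine (ae_restrict_iff' measurableSet_Ioi).2 (Eventually.of_forall fun y hy => ?_)
    have := hb y
    rwa [abs_of_pos (mem_Ioi.1 hy)] at this
  have h2 : IntegrableOn (fun y => f (-y)) (Ioi 0) := by
    refine Integrable.mono' ((exp_neg_integrableOn_Ioi 0 hc).const_mul A)
      (hf.comp continuous_neg).aestronglyMeasurable ?_
    refine (ae_restrict_iff' measurableSet_Ioi).2 (Eventually.of_forall fun y hy => ?_)
    have := hb (-y)
    rwa [abs_neg, abs_of_pos (mem_Ioi.1 hy)] at this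
  have h3 : IntegrableOn f (Iio 0) := by
    have h4 := (Measure.measurePreserving_neg (volume : Measure ℝ)).integrableOn_comp_preimage
      measurableEmbedding_neg (f := f) (s := Iio 0)
    rw [← h4]
    have h6 : (Neg.neg ⁻¹' Iio (0 : ℝ)) = Ioi 0 := by
      ext y
      simp
    rw [h6]
    exact h2
  have h4 : IntegrableOn f (Iic 0) := by
    rw [integrableOn_Iic_iff_integrableOn_Iio]
    exact h3
  rw [← integrableOn_univ, ← Iic_union_Ioi (a := (0 : ℝ))]
  exact h4.union h1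

/-- Moving the vertical part when there are no singularities between: the difference is the integral over
the boundary of the rectangle (`Complex.integral_boundary_rect_eq_zero_of_differentiableOn`). -/
theorem LInt_shift {f : ℂ → ℂ} {σ σ' T : ℝ} (hσ : σ ≤ σ') (hT : 0 < T)
    (hd : ∀ z : ℂ, σ ≤ z.re → z.re ≤ σ' → |z.im| ≤ T → DifferentiableAt ℂ f z)
    (h1 : IntegrableOn (fun x : ℝ => f ((x : ℂ) - T * I)) (Iic σ'))
    (h2 : IntegrableOn (fun x : ℝ => f ((x : ℂ) + T * I)) (Iic σ')) :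
    LInt f σ' T = LInt f σ T := by
  have h := CSHIFT_rect (f := f) hσ (a := -T) (b := T) (by linarith)
    (fun z ha hb hc he => hd z ha hb (abs_le.2 ⟨hc, he⟩))
  have e1 := intervalIntegral.integral_Iic_sub_Iic (h1.mono_set (Iic_subset_Iic.2 hσ)) h1
  have e2 := intervalIntegral.integral_Iic_sub_Iic (h2.mono_set (Iic_subset_Iic.2 hσ)) h2
  have e3 : ∀ x : ℝ, (x : ℂ) + ((-T : ℝ) : ℂ) * I = (x : ℂ) - T * I := by
    intro x
    push_cast
    ring
  simp only [e3] at h
  rw [← e1, ← e2] at h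
  unfold LInt
  linear_combination h

theorem RInt_shift {f : ℂ → ℂ} {σ σ' T : ℝ} (hσ : σ ≤ σ') (hT : 0 < T)
    (hd : ∀ z : ℂ, σ ≤ z.re → z.re ≤ σ' → |z.im| ≤ T → DifferentiableAt ℂ f z)
    (h1 : IntegrableOn (fun x : ℝ => f ((x : ℂ) - T * I)) (Ioi σ))
    (h2 : IntegrableOn (fun x : ℝ => f ((x : ℂ) + T * I)) (Ioi σ)) :
    RInt f σ' T = RInt f σ T := by
  have h := CSHIFT_rect (f := f) hσ (a := -T) (b := T) (by linarith)
    (fun z ha hb hc he => hd z ha hb (abs_le.2 ⟨hc, he⟩))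
  have e1 := intervalIntegral.integral_Ioi_sub_Ioi h1 hσ
  have e2 := intervalIntegral.integral_Ioi_sub_Ioi h2 hσ
  have e3 : ∀ x : ℝ, (x : ℂ) + ((-T : ℝ) : ℂ) * I = (x : ℂ) - T * I := by
    intro x
    push_cast
    ring
  simp only [e3] at h
  rw [← e1, ← e2] at h
  unfold RInt
  linear_combination h

/-- Vertical lines: integrals over two vertical lines are equal if the function is differentiable in the
closed strip between and decreases exponentially (rectangles `[σ, σ'] × [-T, T]`, `T → ∞`). -/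
theorem vertical_shift {f : ℂ → ℂ} {σ σ' A c : ℝ} (hσ : σ ≤ σ') (hc : 0 < c)
    (hd : ∀ z : ℂ, σ ≤ z.re → z.re ≤ σ' → DifferentiableAt ℂ f z)
    (hb : ∀ z : ℂ, σ ≤ z.re → z.re ≤ σ' → ‖f z‖ ≤ A * Real.exp (-c * |z.im|)) :
    ∫ y : ℝ, f ((σ : ℂ) + y * I) = ∫ y : ℝ, f ((σ' : ℂ) + y * I) := by
  have hre : ∀ s y : ℝ, ((s : ℂ) + y * I).re = s := fun s y => by simp
  have him : ∀ s y : ℝ, ((s : ℂ) + y * I).im = y := fun s y => by simp
  have hint : ∀ s : ℝ, σ ≤ s → s ≤ σ' → Integrable (fun y : ℝ => f ((s : ℂ) + y * I)) := by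
    intro s h1 h2
    refine CSHIFT_integrable hc ?_ (A := A) ?_
    · rw [continuous_iff_continuousAt]
      intro y
      have h3 : ContinuousAt f ((s : ℂ) + y * I) :=
        (hd _ (by rw [hre]; exact h1) (by rw [hre]; exact h2)).continuousAt
      have h4 : ContinuousAt (fun y : ℝ => (s : ℂ) + y * I) y := by fun_prop
      exact ContinuousAt.comp (f := fun y : ℝ => (s : ℂ) + y * I) h3 h4
    · intro y
      have := hb ((s : ℂ) + y * I) (by rw [hre]; exact h1) (by rw [hre]; exact h2)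
      rwa [him] at this
  have t1 := intervalIntegral_tendsto_integral (hint σ le_rfl hσ) tendsto_neg_atTop_atBot tendsto_id
  have t2 := intervalIntegral_tendsto_integral (hint σ' hσ le_rfl) tendsto_neg_atTop_atBot
    tendsto_id
  have hrect : ∀ T : ℝ, 0 < T →
      (∫ x in σ..σ', f ((x : ℂ) + ((-T : ℝ) : ℂ) * I)) - (∫ x in σ..σ', f ((x : ℂ) + T * I)) +
      I * (∫ y in (-T)..T, f ((σ' : ℂ) + y * I)) -
      I * (∫ y in (-T)..T, f ((σ : ℂ) + y * I)) = 0 := fun T hT =>
    CSHIFT_rect hσ (by linarith) (fun z ha hb _ _ => hd z ha hb)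
  have hbd : ∀ s T : ℝ, |s| = T → ‖∫ x in σ..σ', f ((x : ℂ) + s * I)‖ ≤
      A * Real.exp (-c * T) * (σ' - σ) := by
    intro s T hs
    have := intervalIntegral.norm_integral_le_of_norm_le_const (a := σ) (b := σ')
      (f := fun x : ℝ => f ((x : ℂ) + s * I)) (C := A * Real.exp (-c * T)) (by
        intro x hx
        rw [uIoc_of_le hσ] at hx
        have h1 := hb ((x : ℂ) + s * I) (by rw [hre]; exact hx.1.le) (by rw [hre]; exact hx.2)
        rwa [him, hs] at h1)
    rwa [abs_of_nonneg (by linarith)] at this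
  have hexp : Tendsto (fun T : ℝ => A * Real.exp (-c * T) * (σ' - σ)) atTop (𝓝 0) := by
    have h1 : Tendsto (fun T : ℝ => Real.exp (-c * T)) atTop (𝓝 0) := by
      refine Real.tendsto_exp_atBot.comp ?_
      exact tendsto_id.const_mul_atTop_of_neg (by linarith)
    have h2 := (h1.const_mul A).mul_const (σ' - σ)
    simpa using h2
  have u1 : Tendsto (fun T : ℝ => ∫ x in σ..σ', f ((x : ℂ) + ((-T : ℝ) : ℂ) * I)) atTop (𝓝 0) := by
    refine squeeze_zero_norm' ?_ hexp
    filter_upwards [eventually_gt_atTop 0] with T hT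
    exact hbd (-T) T (by rw [abs_neg, abs_of_pos hT])
  have u2 : Tendsto (fun T : ℝ => ∫ x in σ..σ', f ((x : ℂ) + (T : ℂ) * I)) atTop (𝓝 0) := by
    refine squeeze_zero_norm' ?_ hexp
    filter_upwards [eventually_gt_atTop 0] with T hT
    exact hbd T T (abs_of_pos hT)
  have hlim := ((u1.sub u2).add (t2.const_mul I)).sub (t1.const_mul I)
  have hz : Tendsto (fun _ : ℝ => (0 : ℂ)) atTop
      (𝓝 (0 - 0 + I * (∫ y : ℝ, f ((σ' : ℂ) + y * I)) - I * ∫ y : ℝ, f ((σ : ℂ) + y * I))) := by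
    refine hlim.congr' ?_
    filter_upwards [eventually_gt_atTop 0] with T hT
    exact hrect T hT
  have h0 := tendsto_nhds_unique hz tendsto_const_nhds
  have hI : I * ((∫ y : ℝ, f ((σ : ℂ) + y * I)) - ∫ y : ℝ, f ((σ' : ℂ) + y * I)) = 0 := by
    linear_combination -h0
  rcases mul_eq_zero.1 hI with h | h
  · exact absurd h I_ne_zero
  · exact sub_eq_zero.1 h

end Ghost
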