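import Pool.Agent.Lib_MP_1c78a5_ghost.BInt
import Pool.Agent.Lib_MP_1c78a5_ghost.CShift

/-!
# Piece BREC: the beta integral, recursions
-/

open Complex MeasureTheory Set Filter Topology
open scoped Real ComplexConjugate

namespace Ghost

theorem BREC_ob {P : Par} {d : ℕ} (hU : P.IsUnit d) : P.o < P.b := by
  have h1 := hU.hub
  have h2 := P.hbo
  have h3 := P.ho
  by_contra hc
  push Not at hc
  nlinarith

theorem BREC_diff {P : Par} (hbo : P.o < P.b) {α : ℂ} (h0 : 0 < α.re) {h : ℝ} {w z : ℂ}
    (hz0 : 0 ≤ z.re) (hz1 : z.re ≤ h) :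
    DifferentiableAt ℂ (fun x : ℂ => G P (α + x) * G P (α + h - x) * e (w * x)) z := by
  have h1 : DifferentiableAt ℂ (fun x : ℂ => G P (α + x)) z := by
    have h2 : DifferentiableAt ℂ (G P) (α + z) :=
      G_differentiableAt P hbo (not_pole_of_re_pos P (by rw [Complex.add_re]; linarith))
    exact DifferentiableAt.comp (f := fun x : ℂ => α + x) z h2 (by fun_prop)
  have h3 : DifferentiableAt ℂ (fun x : ℂ => G P (α + h - x)) z := by
    have h2 : DifferentiableAt ℂ (G P) (α + h - z) :=
      G_differentiableAt P hbo (not_pole_of_re_pos P (by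
        rw [Complex.sub_re, Complex.add_re, Complex.ofReal_re]; linarith))
    exact DifferentiableAt.comp (f := fun x : ℂ => α + h - x) z h2 (by fun_prop)
  have h4 : DifferentiableAt ℂ (fun x : ℂ => e (w * x)) z := by
    unfold e
    fun_prop
  exact (h1.mul h3).mul h4

theorem BREC_norm_e (w z : ℂ) :
    ‖e (w * z)‖ = Real.exp (-(2 * π * (w.re * z.im + w.im * z.re))) := by
  unfold e
  rw [Complex.norm_exp]
  congr 1
  simp [Complex.mul_re, Complex.mul_im]

theorem BREC_bound {P : Par} {d : ℕ} (hU : P.IsUnit d) {α : ℂ} (h0 : 0 < α.re) {h : ℝ}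
    (hh : 0 < h) (w : ℂ) : ∃ A : ℝ, ∀ z : ℂ, 0 ≤ z.re → z.re ≤ h →
      ‖G P (α + z) * G P (α + h - z) * e (w * z)‖ ≤
        A * Real.exp (-(π * (P.Q - h - 2 * α.re - 2 * |w.re|)) * |z.im|) := by
  obtain ⟨C, hC, hG⟩ := G_bound hU one_pos
  have hbo := BREC_ob hU
  obtain ⟨c, hc⟩ : ∃ c, c = π * (P.Q - h - 2 * α.re - 2 * |w.re|) := ⟨_, rfl⟩
  rw [← hc]
  set M : ℝ := |α.im| + 1 with hM
  -- compact part
  have hK : IsCompact (Set.Icc 0 h ×ℂ Set.Icc (-M) M) := isCompact_Icc.reProdIm isCompact_Icc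
  obtain ⟨A1, hA1⟩ := hK.exists_bound_of_continuousOn
    (f := fun x : ℂ => G P (α + x) * G P (α + h - x) * e (w * x)) (by
      intro z hz
      rw [Complex.mem_reProdIm] at hz
      exact (BREC_diff hbo h0 hz.1.1 hz.1.2).continuousAt.continuousWithinAt)
  have hA1' : 0 ≤ A1 := by
    have hz : (0 : ℂ) ∈ Set.Icc 0 h ×ℂ Set.Icc (-M) M := by
      rw [Complex.mem_reProdIm]
      have : 0 ≤ M := by rw [hM]; positivity
      simp only [Complex.zero_re, Complex.zero_im, Set.mem_Icc]
      exact ⟨⟨le_refl _, hh.le⟩, by linarith, this⟩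
    exact (norm_nonneg _).trans (hA1 0 hz)
  set A2 : ℝ := C ^ 2 * Real.exp (π * |α.im| * h + 2 * π * |w.im| * h) with hA2
  refine ⟨A1 * Real.exp (|c| * M) + A2, ?_⟩
  intro z hz0 hz1
  have hexp := Real.exp_pos (-c * |z.im|)
  by_cases hz : |z.im| ≤ M
  · have h1 := hA1 z (by
      rw [Complex.mem_reProdIm]
      exact ⟨⟨hz0, hz1⟩, abs_le.1 hz⟩)
    have h2 : 1 ≤ Real.exp (|c| * M) * Real.exp (-c * |z.im|) := by
      rw [← Real.exp_add, Real.one_le_exp_iff]
      have h3 : c * |z.im| ≤ |c| * M :=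
        (mul_le_mul_of_nonneg_right (le_abs_self c) (abs_nonneg _)).trans
          (mul_le_mul_of_nonneg_left hz (abs_nonneg c))
      linarith
    have h3 : A1 ≤ A1 * (Real.exp (|c| * M) * Real.exp (-c * |z.im|)) :=
      le_mul_of_one_le_right hA1' h2
    have h4 : 0 ≤ A2 * Real.exp (-c * |z.im|) := by positivity
    calc _ ≤ A1 := h1
      _ ≤ _ := by rw [add_mul, mul_assoc]; linarith
  · push Not at hz
    have e1 : (α + z).im = α.im + z.im := Complex.add_im _ _
    have e2 : (α + h - z).im = α.im - z.im := by simp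
    have e3 : (α + z).re = α.re + z.re := Complex.add_re _ _
    have e4 : (α + h - z).re = α.re + h - z.re := by simp
    have hb1 : 1 ≤ |(α + z).im| := by
      rw [e1]
      have := abs_sub_abs_le_abs_sub z.im (-α.im)
      rw [abs_neg, sub_neg_eq_add] at this
      rw [add_comm]
      linarith
    have hb2 : 1 ≤ |(α + h - z).im| := by
      rw [e2]
      have := abs_sub_abs_le_abs_sub z.im α.im
      rw [abs_sub_comm]
      linarith
    have g1 := hG _ hb1
    have g2 := hG _ hb2
    rw [e1, e3] at g1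
    rw [e2, e4] at g2
    rw [norm_mul, norm_mul, BREC_norm_e]
    have hpi := Real.pi_pos
    have key : π * |α.im + z.im| * (α.re + z.re - P.Q / 2) +
        π * |α.im - z.im| * (α.re + h - z.re - P.Q / 2) +
        -(2 * π * (w.re * z.im + w.im * z.re)) ≤
        (π * |α.im| * h + 2 * π * |w.im| * h) + -c * |z.im| := by
      have hw1 : -(w.re * z.im) ≤ |w.re| * |z.im| := by
        rw [← abs_mul]; exact neg_le_abs _
      have hw2 : -(w.im * z.re) ≤ |w.im| * h := by
        have h5 : -(w.im * z.re) ≤ |w.im| * |z.re| := by rw [← abs_mul]; exact neg_le_abs _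
        have h6 : |z.re| ≤ h := by rw [abs_of_nonneg hz0]; exact hz1
        exact h5.trans (mul_le_mul_of_nonneg_left h6 (abs_nonneg _))
      have hs : |α.im + z.im| * (α.re + z.re - P.Q / 2) +
          |α.im - z.im| * (α.re + h - z.re - P.Q / 2) ≤
          |z.im| * (2 * α.re + h - P.Q) + |α.im| * h := by
        have h8 : |α.im| ≤ |z.im| := by linarith
        rcases abs_cases z.im with ⟨hz2, hz3⟩ | ⟨hz2, hz3⟩
        · have h9 := abs_le.1 (h8.trans (le_of_eq hz2))
          rw [abs_of_nonneg (by linarith : 0 ≤ α.im + z.im),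
            abs_of_nonpos (by linarith : α.im - z.im ≤ 0), hz2]
          have h10 : α.im * (2 * z.re - h) ≤ |α.im| * h := by
            have h11 : |2 * z.re - h| ≤ h := by rw [abs_le]; constructor <;> linarith
            calc α.im * (2 * z.re - h) ≤ |α.im * (2 * z.re - h)| := le_abs_self _
              _ = |α.im| * |2 * z.re - h| := abs_mul _ _
              _ ≤ _ := mul_le_mul_of_nonneg_left h11 (abs_nonneg _)
          nlinarith [h10]
        · have h9 := abs_le.1 (h8.trans (le_of_eq hz2))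
          rw [abs_of_nonpos (by linarith : α.im + z.im ≤ 0),
            abs_of_nonneg (by linarith : 0 ≤ α.im - z.im), hz2]
          have h10 : -(α.im * (2 * z.re - h)) ≤ |α.im| * h := by
            have h11 : |2 * z.re - h| ≤ h := by rw [abs_le]; constructor <;> linarith
            calc -(α.im * (2 * z.re - h)) ≤ |α.im * (2 * z.re - h)| := neg_le_abs _
              _ = |α.im| * |2 * z.re - h| := abs_mul _ _
              _ ≤ _ := mul_le_mul_of_nonneg_left h11 (abs_nonneg _)
          nlinarith [h10]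
      have hs2 := mul_le_mul_of_nonneg_left hs hpi.le
      have hw1' := mul_le_mul_of_nonneg_left hw1 hpi.le
      have hw2' := mul_le_mul_of_nonneg_left hw2 hpi.le
      rw [hc]
      nlinarith [hs2, hw1', hw2']
    have h12 : ‖G P (α + z)‖ * ‖G P (α + h - z)‖ *
        Real.exp (-(2 * π * (w.re * z.im + w.im * z.re))) ≤
        A2 * Real.exp (-c * |z.im|) := by
      calc _ ≤ (C * Real.exp (π * |α.im + z.im| * (α.re + z.re - P.Q / 2))) *
            (C * Real.exp (π * |α.im - z.im| * (α.re + h - z.re - P.Q / 2))) *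
            Real.exp (-(2 * π * (w.re * z.im + w.im * z.re))) := by gcongr
        _ = C ^ 2 * Real.exp (π * |α.im + z.im| * (α.re + z.re - P.Q / 2) +
            π * |α.im - z.im| * (α.re + h - z.re - P.Q / 2) +
            -(2 * π * (w.re * z.im + w.im * z.re))) := by
              rw [Real.exp_add, Real.exp_add]; ring
        _ ≤ C ^ 2 * Real.exp ((π * |α.im| * h + 2 * π * |w.im| * h) + -c * |z.im|) := by
              gcongr
        _ = _ := by rw [hA2, Real.exp_add]; ring
    have h13 : 0 ≤ A1 * Real.exp (|c| * M) * Real.exp (-c * |z.im|) := by positivity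
    rw [add_mul]
    linarith

/-- The shifted integrals agree. -/
theorem BREC_shift {P : Par} {d : ℕ} (hU : P.IsUnit d) {α : ℂ} (h0 : 0 < α.re) {h : ℝ}
    (hh : 0 < h) {w : ℂ} (hw : 0 < P.Q - h - 2 * α.re - 2 * |w.re|) :
    ∫ σ : ℝ, G P (α + σ * I) * G P (α + h - σ * I) * e (w * (σ * I)) =
      ∫ σ : ℝ, G P (α + h + σ * I) * G P (α - σ * I) * e (w * (h + σ * I)) := by
  obtain ⟨A, hA⟩ := BREC_bound hU h0 hh w
  have h1 := vertical_shift (f := fun x : ℂ => G P (α + x) * G P (α + h - x) * e (w * x))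
    (σ := 0) (σ' := h) (A := A) hh.le (mul_pos Real.pi_pos hw)
    (fun z hz0 hz1 => BREC_diff (BREC_ob hU) h0 hz0 hz1) hA
  simp only [Complex.ofReal_zero, zero_add] at h1
  rw [h1]
  congr 1
  funext σ
  have e1 : α + ((h : ℂ) + σ * I) = α + h + σ * I := by ring
  have e2 : α + (h : ℂ) - (h + σ * I) = α - σ * I := by ring
  rw [e1, e2]

theorem BREC_e_add (x y : ℂ) : e (x + y) = e x * e y := by
  unfold e
  rw [← Complex.exp_add]
  congr 1
  ring

theorem BREC_sin (c y : ℂ) : 2 * Complex.sin (π * c * y) = -I * (e (c * y / 2) - e (-(c * y / 2))) := by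
  unfold e
  rw [Complex.sin]
  have h1 : -(π * c * y) * I = 2 * π * I * -(c * y / 2) := by ring
  have h2 : (π * c * y) * I = 2 * π * I * (c * y / 2) := by ring
  rw [h1, h2]
  ring

theorem BREC_cos (c y : ℂ) : 2 * Complex.cos (π * c * y) = e (c * y / 2) + e (-(c * y / 2)) := by
  unfold e
  rw [Complex.cos]
  have h1 : -(π * c * y) * I = 2 * π * I * -(c * y / 2) := by ring
  have h2 : (π * c * y) * I = 2 * π * I * (c * y / 2) := by ring
  rw [h1, h2]
  ring

/-- The general recursion. -/
theorem BREC_main {P : Par} {d : ℕ} (hU : P.IsUnit d) {α : ℂ} (h0 : 0 < α.re)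
    {h : ℝ} (hh : 0 < h) (hadd : ∀ x : ℂ, ¬ Pole P x →
      G P (x + h) = 2 * Complex.sin (π * h * x) * G P x)
    {w : ℂ} (hw : |w.re| < P.Q / 2 - α.re - h / 2) :
    Complex.cos (π * h * (w + α)) * Ib P α (w + h / 2) =
      Complex.cos (π * h * (w - α)) * Ib P α (w - h / 2) := by
  have hw0 := abs_nonneg w.re
  have h1 : α.re < P.Q / 2 := by linarith
  have hwl := (abs_lt.1 hw).1
  have hwr := (abs_lt.1 hw).2
  have hp : |(w + h / 2).re| < P.Q / 2 - α.re := by
    have e1 : (w + h / 2).re = w.re + h / 2 := by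
      rw [Complex.add_re]
      congr 1
      rw [← Complex.ofReal_ofNat, ← Complex.ofReal_div, Complex.ofReal_re]
    rw [e1, abs_lt]
    constructor <;> linarith
  have hm : |(w - h / 2).re| < P.Q / 2 - α.re := by
    have e1 : (w - h / 2).re = w.re - h / 2 := by
      rw [Complex.sub_re]
      congr 1
      rw [← Complex.ofReal_ofNat, ← Complex.ofReal_div, Complex.ofReal_re]
    rw [e1, abs_lt]
    constructor <;> linarith
  have ip := Ib_integrable hU h0 h1 hp
  have im := Ib_integrable hU h0 h1 hm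
  have hs := BREC_shift hU h0 hh (w := w) (by linarith)
  -- left side
  have hl : ∀ σ : ℝ, G P (α + σ * I) * G P (α + h - σ * I) * e (w * (σ * I)) =
      (-I * e (h * α / 2)) * (G P (α + σ * I) * G P (α - σ * I) * e ((w - h / 2) * (σ * I))) -
      (-I * e (-(h * α / 2))) * (G P (α + σ * I) * G P (α - σ * I) * e ((w + h / 2) * (σ * I))) := by
    intro σ
    have e1 : α + (h : ℂ) - σ * I = (α - σ * I) + h := by ring
    have hnp : ¬ Pole P (α - σ * I) := not_pole_of_re_pos P (by
      simp only [Complex.sub_re, Complex.mul_re, Complex.ofReal_re, Complex.I_re, Complex.ofReal_im,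
        Complex.I_im]
      linarith)
    rw [e1, hadd _ hnp, BREC_sin]
    have e2 : e ((w - h / 2) * (σ * I)) = e (w * (σ * I)) * e (-(h * (σ * I) / 2)) := by
      rw [← BREC_e_add]; congr 1; ring
    have e3 : e ((w + h / 2) * (σ * I)) = e (w * (σ * I)) * e (h * (σ * I) / 2) := by
      rw [← BREC_e_add]; congr 1; ring
    have e4 : e (h * (α - σ * I) / 2) = e (h * α / 2) * e (-(h * (σ * I) / 2)) := by
      rw [← BREC_e_add]; congr 1; ring
    have e5 : e (-(h * (α - σ * I) / 2)) = e (-(h * α / 2)) * e (h * (σ * I) / 2) := by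
      rw [← BREC_e_add]; congr 1; ring
    rw [e2, e3, e4, e5]
    ring
  have hr : ∀ σ : ℝ, G P (α + h + σ * I) * G P (α - σ * I) * e (w * (h + σ * I)) =
      e (w * h) * ((-I * e (h * α / 2)) * (G P (α + σ * I) * G P (α - σ * I) * e ((w + h / 2) * (σ * I))) -
      (-I * e (-(h * α / 2))) * (G P (α + σ * I) * G P (α - σ * I) * e ((w - h / 2) * (σ * I)))) := by
    intro σ
    have e1 : α + (h : ℂ) + σ * I = (α + σ * I) + h := by ring
    have hnp : ¬ Pole P (α + σ * I) := not_pole_of_re_pos P (by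
      simp only [Complex.add_re, Complex.mul_re, Complex.ofReal_re, Complex.I_re, Complex.ofReal_im,
        Complex.I_im]
      linarith)
    rw [e1, hadd _ hnp, BREC_sin]
    have e0 : e (w * (h + σ * I)) = e (w * h) * e (w * (σ * I)) := by
      rw [← BREC_e_add]; congr 1; ring
    have e2 : e ((w - h / 2) * (σ * I)) = e (w * (σ * I)) * e (-(h * (σ * I) / 2)) := by
      rw [← BREC_e_add]; congr 1; ring
    have e3 : e ((w + h / 2) * (σ * I)) = e (w * (σ * I)) * e (h * (σ * I) / 2) := by
      rw [← BREC_e_add]; congr 1; ring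
    have e4 : e (h * (α + σ * I) / 2) = e (h * α / 2) * e (h * (σ * I) / 2) := by
      rw [← BREC_e_add]; congr 1; ring
    have e5 : e (-(h * (α + σ * I) / 2)) = e (-(h * α / 2)) * e (-(h * (σ * I) / 2)) := by
      rw [← BREC_e_add]; congr 1; ring
    rw [e0, e2, e3, e4, e5]
    ring
  simp only [hl, hr] at hs
  rw [integral_sub (im.const_mul _) (ip.const_mul _), integral_const_mul, integral_const_mul,
    integral_const_mul, integral_sub (ip.const_mul _) (im.const_mul _), integral_const_mul,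
    integral_const_mul] at hs
  have hs' : (-I * e (h * α / 2)) * Ib P α (w - h / 2) - (-I * e (-(h * α / 2))) * Ib P α (w + h / 2) =
      e (w * h) * ((-I * e (h * α / 2)) * Ib P α (w + h / 2) -
        (-I * e (-(h * α / 2))) * Ib P α (w - h / 2)) := hs
  have c1 := BREC_cos h (w + α)
  have c2 := BREC_cos h (w - α)
  have hI : (I : ℂ) ≠ 0 := Complex.I_ne_zero
  have f1 : e (h * (w + α) / 2) = e (-(w * h / 2)) * e (w * h) * e (h * α / 2) := by
    rw [← BREC_e_add, ← BREC_e_add]; congr 1; ring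
  have f2 : e (-(h * (w + α) / 2)) = e (-(w * h / 2)) * e (-(h * α / 2)) := by
    rw [← BREC_e_add]; congr 1; ring
  have f3 : e (h * (w - α) / 2) = e (-(w * h / 2)) * e (w * h) * e (-(h * α / 2)) := by
    rw [← BREC_e_add, ← BREC_e_add]; congr 1; ring
  have f4 : e (-(h * (w - α) / 2)) = e (-(w * h / 2)) * e (h * α / 2) := by
    rw [← BREC_e_add]; congr 1; ring
  rw [f1, f2] at c1
  rw [f3, f4] at c2
  have h2 : 2 * (Complex.cos (π * h * (w + α)) * Ib P α (w + h / 2) -
      Complex.cos (π * h * (w - α)) * Ib P α (w - h / 2)) * I = 0 := by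
    linear_combination (Ib P α (w + h / 2) * I) * c1 - (Ib P α (w - h / 2) * I) * c2 +
      (e (-(w * h / 2))) * hs'
  have h3 := (mul_eq_zero.1 h2).resolve_right hI
  have h4 := (mul_eq_zero.1 h3).resolve_left (by norm_num)
  exact sub_eq_zero.1 h4

/-- Recursion in `w` with step `b`.

Proof. Let `k x = G (α + x) G (α + b - x) e (w x)`. It is differentiable for `- re α < re x < re α + b` (the
arguments have positive real part), in particular for `0 ≤ re x ≤ b`, and for `|im x|` large
`‖k x‖ ≤ C exp (π |im x| (2 re α + b - Q) + 2 π |re w| |im x| + C')` by `G_bound` (the factor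
`exp (2 π |im w| b)` from `e (w x)` is bounded), where
`2 re α + b - Q = 2 re α - o < 0` and `2 |re w| < o - 2 re α = 2 (Q / 2 - re α - b / 2)`; near the real axis it is
bounded by continuity on compact sets. So by `vertical_shift` the integrals of `k` over `re x = 0` and
`re x = b` agree. On `re x = 0`: `k x = sb (α - x) f x e (w x)` with `f x = G (α + x) G (α - x)`
(`G_add_b`); on `re x = b`, `x = b + x0`: `k x = sb (α + x0) f x0 e (w x0) e (w b)`. So
`∫ sb (α - x) f x e (w x) = e (w b) ∫ sb (α + x) f x e (w x)` over `x = i σ`. Insert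
`sb y = - i (e (b y / 2) - e (- b y / 2))`:
`e (b α / 2) Ib (w - b / 2) - e (- b α / 2) Ib (w + b / 2) =
e (w b) (e (b α / 2) Ib (w + b / 2) - e (- b α / 2) Ib (w - b / 2))`; collect terms and multiply by
`e (- w b / 2)`. All four integrals converge (`Ib_integrable`, `|re (w ± b / 2)| < Q / 2 - re α`). -/
theorem Ib_rec_b {P : Par} {d : ℕ} (hU : P.IsUnit d) {α : ℂ} (h0 : 0 < α.re)
    (h1 : α.re < P.o / 2) {w : ℂ} (hw : |w.re| < P.Q / 2 - α.re - P.b / 2) :
    Complex.cos (π * P.b * (w + α)) * Ib P α (w + P.b / 2) =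
      Complex.cos (π * P.b * (w - α)) * Ib P α (w - P.b / 2) := by
  exact BREC_main hU h0 P.hb (fun x hx => G_add_b P hx) hw

/-- The same with step `o` (`k x = G (α + x) G (α + o - x) e (w x)`, `G_add_o`,
`2 re α + o - Q = 2 re α - b < 0`). -/
theorem Ib_rec_o {P : Par} {d : ℕ} (hU : P.IsUnit d) {α : ℂ} (h0 : 0 < α.re)
    (h1 : α.re < P.o / 2) {w : ℂ} (hw : |w.re| < P.Q / 2 - α.re - P.o / 2) :
    Complex.cos (π * P.o * (w + α)) * Ib P α (w + P.o / 2) =
      Complex.cos (π * P.o * (w - α)) * Ib P α (w - P.o / 2) := by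
  exact BREC_main hU h0 P.ho (fun x hx => G_add_o P (BREC_ob hU) hx) hw

end Ghost
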