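import Pool.Agent.Lib_MP_1c78a5_ghost.CRect

/-!
# Piece CPAR: contour integrals of `g X e (w X)` are differentiable in `w`
-/

open Complex MeasureTheory Set Filter Topology
open scoped Real ComplexConjugate

namespace Ghost

theorem CPAR_norm_e (z : ℂ) : ‖e z‖ = Real.exp (-(2 * π * z.im)) := by
  unfold e
  rw [Complex.norm_exp]
  congr 1
  simp

theorem CPAR_e_add (x y : ℂ) : e (x + y) = e x * e y := by
  unfold e
  rw [← Complex.exp_add]
  congr 1
  ring

theorem CPAR_norm_e_le (z : ℂ) : ‖e z‖ ≤ Real.exp (2 * π * ‖z‖) := by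
  rw [CPAR_norm_e]
  apply Real.exp_le_exp.mpr
  have h := Complex.abs_im_le_norm z
  have h2 := neg_abs_le z.im
  have hpi := Real.pi_pos
  nlinarith

theorem CPAR_continuous_e : Continuous e := by
  unfold e
  fun_prop

theorem CPAR_gen (μ : Measure ℝ) (h γ : ℝ → ℂ) (hh : AEStronglyMeasurable h μ) (hγ : Continuous γ)
    (w : ℂ) (δ : ℝ) (hδ : 0 < δ)
    (hi : Integrable (fun x => ‖h x‖ * ‖e (w * γ x)‖ * Real.exp (δ * ‖γ x‖)) μ) :
    Integrable (fun x => h x * e (w * γ x)) μ ∧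
      DifferentiableAt ℂ (fun w => ∫ x, h x * e (w * γ x) ∂μ) w := by
  have hpi := Real.pi_pos
  have hce : ∀ w : ℂ, Continuous (fun x => e (w * γ x)) := fun w =>
    CPAR_continuous_e.comp (continuous_const.mul hγ)
  have hm : ∀ w : ℂ, AEStronglyMeasurable (fun x => h x * e (w * γ x)) μ := fun w =>
    hh.mul (hce w).aestronglyMeasurable
  have hint : Integrable (fun x => h x * e (w * γ x)) μ := by
    refine hi.mono' (hm w) (Filter.Eventually.of_forall fun x => ?_)
    rw [norm_mul]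
    have h1 : 1 ≤ Real.exp (δ * ‖γ x‖) := Real.one_le_exp (by positivity)
    have h2 : 0 ≤ ‖h x‖ * ‖e (w * γ x)‖ := by positivity
    nlinarith
  refine ⟨hint, ?_⟩
  set ε := δ / (4 * π) with hε
  have hε0 : 0 < ε := by positivity
  have hεδ : 4 * π * ε = δ := by rw [hε]; field_simp
  have key := hasDerivAt_integral_of_dominated_loc_of_deriv_le (μ := μ)
    (F := fun (w : ℂ) (x : ℝ) => h x * e (w * γ x))
    (F' := fun (w : ℂ) (x : ℝ) => h x * ((2 * π * I * γ x) * e (w * γ x)))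
    (x₀ := w) (s := Metric.ball w ε)
    (bound := fun x => (1 / ε) * (‖h x‖ * ‖e (w * γ x)‖ * Real.exp (δ * ‖γ x‖)))
    (Metric.ball_mem_nhds w hε0) (Filter.Eventually.of_forall hm) hint
    (hh.mul (((continuous_const.mul hγ).mul (hce w)).aestronglyMeasurable))
    (Filter.Eventually.of_forall fun x w' hw' => ?_) (hi.const_mul _)
    (Filter.Eventually.of_forall fun x w' _ => ?_)
  · exact key.2.differentiableAt
  · have hd : ‖w' - w‖ < ε := by rwa [mem_ball_iff_norm] at hw'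
    have e1 : w' * γ x = w * γ x + (w' - w) * γ x := by ring
    rw [e1, CPAR_e_add]
    have n1 : ‖e ((w' - w) * γ x)‖ ≤ Real.exp (2 * π * (ε * ‖γ x‖)) := by
      refine (CPAR_norm_e_le _).trans (Real.exp_le_exp.mpr ?_)
      rw [norm_mul]
      have : ‖w' - w‖ * ‖γ x‖ ≤ ε * ‖γ x‖ := by gcongr
      nlinarith
    have n2 : 2 * π * ‖γ x‖ ≤ (1 / ε) * Real.exp (2 * π * (ε * ‖γ x‖)) := by
      have := Real.add_one_le_exp (2 * π * (ε * ‖γ x‖))
      rw [one_div, inv_mul_eq_div, le_div_iff₀ hε0]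
      nlinarith
    have n3 : Real.exp (2 * π * (ε * ‖γ x‖)) * Real.exp (2 * π * (ε * ‖γ x‖)) =
        Real.exp (δ * ‖γ x‖) := by
      rw [← Real.exp_add, ← hεδ]; congr 1; ring
    have n4 : ‖(2 * (π : ℂ) * I * γ x)‖ = 2 * π * ‖γ x‖ := by
      rw [norm_mul, norm_mul, norm_mul, Complex.norm_I, Complex.norm_real, Real.norm_eq_abs,
        abs_of_pos hpi]
      simp
    rw [norm_mul (h x), norm_mul (2 * (π : ℂ) * I * γ x), norm_mul (e (w * γ x)), n4]
    calc ‖h x‖ * (2 * π * ‖γ x‖ * (‖e (w * γ x)‖ * ‖e ((w' - w) * γ x)‖))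
        ≤ ‖h x‖ * (((1 / ε) * Real.exp (2 * π * (ε * ‖γ x‖))) *
          (‖e (w * γ x)‖ * Real.exp (2 * π * (ε * ‖γ x‖)))) := by gcongr
      _ = (1 / ε) * (‖h x‖ * ‖e (w * γ x)‖ *
          (Real.exp (2 * π * (ε * ‖γ x‖)) * Real.exp (2 * π * (ε * ‖γ x‖)))) := by ring
      _ = _ := by rw [n3]
  · refine HasDerivAt.const_mul _ ?_
    unfold e
    have h1 : HasDerivAt (fun w : ℂ => 2 * (π : ℂ) * I * (w * γ x)) (2 * π * I * γ x) w' := by
      have := ((hasDerivAt_id w').mul_const (γ x)).const_mul (2 * (π : ℂ) * I)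
      simpa using this
    have h2 := h1.cexp
    refine h2.congr_deriv ?_
    ring

/-- the horizontal ends on the left -/
theorem CPAR_L (h : ℝ → ℂ) (σ s A κ : ℝ) (w : ℂ) (hw : 2 * π * w.im < κ)
    (hc : ContinuousOn h (Iic σ)) (hb : ∀ x : ℝ, x ≤ σ → ‖h x‖ ≤ A * Real.exp (κ * x)) :
    Integrable (fun x => h x * e (w * ((x : ℂ) + s * I))) (volume.restrict (Iic σ)) ∧
      DifferentiableAt ℂ (fun w => ∫ x in Iic σ, h x * e (w * ((x : ℂ) + s * I))) w := by
  have hpi := Real.pi_pos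
  have hγ : Continuous (fun x : ℝ => (x : ℂ) + s * I) := by fun_prop
  have hm : AEStronglyMeasurable h (volume.restrict (Iic σ)) :=
    hc.aestronglyMeasurable measurableSet_Iic
  set δ := (κ - 2 * π * w.im) / 2 with hδ
  have hδ0 : 0 < δ := by rw [hδ]; linarith
  refine CPAR_gen _ h _ hm hγ w δ hδ0 ?_
  have hI := (integrableOn_exp_mul_Iic (a := κ - 2 * π * w.im - δ) (by rw [hδ]; linarith) σ).const_mul
    (|A| * Real.exp (-(2 * π * (w.re * s)) + δ * (2 * |σ| + |s|)))
  refine Integrable.mono' hI ?_ ?_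
  · refine AEStronglyMeasurable.mul (hm.norm.mul ?_) ?_
    · exact ((CPAR_continuous_e.comp (continuous_const.mul hγ)).norm).aestronglyMeasurable
    · exact (Real.continuous_exp.comp (continuous_const.mul hγ.norm)).aestronglyMeasurable
  · refine (ae_restrict_iff' measurableSet_Iic).mpr (Filter.Eventually.of_forall fun x hx => ?_)
    have hx' : x ≤ σ := hx
    rw [Real.norm_of_nonneg (by positivity)]
    have a1 : ‖(x : ℂ) + s * I‖ ≤ |x| + |s| := by
      refine (norm_add_le _ _).trans ?_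
      rw [norm_mul, Complex.norm_I, mul_one, Complex.norm_real, Complex.norm_real,
        Real.norm_eq_abs, Real.norm_eq_abs]
    have a2 : |x| ≤ -x + 2 * |σ| := by
      rcases le_or_gt x 0 with h0 | h0
      · rw [abs_of_nonpos h0]; have := abs_nonneg σ; linarith
      · rw [abs_of_pos h0]; have := le_abs_self σ; linarith
    have a3 : ‖e (w * ((x : ℂ) + s * I))‖ = Real.exp (-(2 * π * (w.re * s + w.im * x))) := by
      rw [CPAR_norm_e]
      congr 2
      simp
    have a4 : ‖h x‖ ≤ |A| * Real.exp (κ * x) := (hb x hx').trans (by gcongr; exact le_abs_self A)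
    have a5 : Real.exp (δ * ‖(x : ℂ) + s * I‖) ≤ Real.exp (δ * (-x + 2 * |σ| + |s|)) := by
      apply Real.exp_le_exp.mpr
      have : ‖(x : ℂ) + s * I‖ ≤ -x + 2 * |σ| + |s| := by linarith
      gcongr
    rw [a3]
    calc ‖h x‖ * Real.exp (-(2 * π * (w.re * s + w.im * x))) * Real.exp (δ * ‖(x : ℂ) + s * I‖)
        ≤ (|A| * Real.exp (κ * x)) * Real.exp (-(2 * π * (w.re * s + w.im * x))) *
          Real.exp (δ * (-x + 2 * |σ| + |s|)) := by gcongr
      _ = |A| * (Real.exp (κ * x) * Real.exp (-(2 * π * (w.re * s + w.im * x))) *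
          Real.exp (δ * (-x + 2 * |σ| + |s|))) := by ring
      _ = |A| * (Real.exp (-(2 * π * (w.re * s)) + δ * (2 * |σ| + |s|)) *
          Real.exp ((κ - 2 * π * w.im - δ) * x)) := by
            rw [← Real.exp_add, ← Real.exp_add, ← Real.exp_add]
            congr 2
            ring
      _ = _ := by ring

/-- the horizontal ends on the right -/
theorem CPAR_R (h : ℝ → ℂ) (σ s A κ : ℝ) (w : ℂ) (hw : -(2 * π * w.im) < κ)
    (hc : ContinuousOn h (Ici σ)) (hb : ∀ x : ℝ, σ ≤ x → ‖h x‖ ≤ A * Real.exp (-κ * x)) :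
    Integrable (fun x => h x * e (w * ((x : ℂ) + s * I))) (volume.restrict (Ioi σ)) ∧
      DifferentiableAt ℂ (fun w => ∫ x in Ioi σ, h x * e (w * ((x : ℂ) + s * I))) w := by
  have hpi := Real.pi_pos
  have hγ : Continuous (fun x : ℝ => (x : ℂ) + s * I) := by fun_prop
  have hm : AEStronglyMeasurable h (volume.restrict (Ioi σ)) :=
    (hc.mono Ioi_subset_Ici_self).aestronglyMeasurable measurableSet_Ioi
  set δ := (κ + 2 * π * w.im) / 2 with hδ
  have hδ0 : 0 < δ := by rw [hδ]; linarith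
  refine CPAR_gen _ h _ hm hγ w δ hδ0 ?_
  have hI := (integrableOn_exp_mul_Ioi (a := -κ - 2 * π * w.im + δ) (by rw [hδ]; linarith) σ).const_mul
    (|A| * Real.exp (-(2 * π * (w.re * s)) + δ * (2 * |σ| + |s|)))
  refine Integrable.mono' hI ?_ ?_
  · refine AEStronglyMeasurable.mul (hm.norm.mul ?_) ?_
    · exact ((CPAR_continuous_e.comp (continuous_const.mul hγ)).norm).aestronglyMeasurable
    · exact (Real.continuous_exp.comp (continuous_const.mul hγ.norm)).aestronglyMeasurable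
  · refine (ae_restrict_iff' measurableSet_Ioi).mpr (Filter.Eventually.of_forall fun x hx => ?_)
    have hx' : σ ≤ x := le_of_lt hx
    rw [Real.norm_of_nonneg (by positivity)]
    have a1 : ‖(x : ℂ) + s * I‖ ≤ |x| + |s| := by
      refine (norm_add_le _ _).trans ?_
      rw [norm_mul, Complex.norm_I, mul_one, Complex.norm_real, Complex.norm_real,
        Real.norm_eq_abs, Real.norm_eq_abs]
    have a2 : |x| ≤ x + 2 * |σ| := by
      rcases le_or_gt 0 x with h0 | h0
      · rw [abs_of_nonneg h0]; have := abs_nonneg σ; linarith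
      · rw [abs_of_neg h0]; have := neg_abs_le σ; linarith
    have a3 : ‖e (w * ((x : ℂ) + s * I))‖ = Real.exp (-(2 * π * (w.re * s + w.im * x))) := by
      rw [CPAR_norm_e]
      congr 2
      simp
    have a4 : ‖h x‖ ≤ |A| * Real.exp (-κ * x) := (hb x hx').trans (by gcongr; exact le_abs_self A)
    have a5 : Real.exp (δ * ‖(x : ℂ) + s * I‖) ≤ Real.exp (δ * (x + 2 * |σ| + |s|)) := by
      apply Real.exp_le_exp.mpr
      have : ‖(x : ℂ) + s * I‖ ≤ x + 2 * |σ| + |s| := by linarith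
      gcongr
    rw [a3]
    calc ‖h x‖ * Real.exp (-(2 * π * (w.re * s + w.im * x))) * Real.exp (δ * ‖(x : ℂ) + s * I‖)
        ≤ (|A| * Real.exp (-κ * x)) * Real.exp (-(2 * π * (w.re * s + w.im * x))) *
          Real.exp (δ * (x + 2 * |σ| + |s|)) := by gcongr
      _ = |A| * (Real.exp (-κ * x) * Real.exp (-(2 * π * (w.re * s + w.im * x))) *
          Real.exp (δ * (x + 2 * |σ| + |s|))) := by ring
      _ = |A| * (Real.exp (-(2 * π * (w.re * s)) + δ * (2 * |σ| + |s|)) *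
          Real.exp ((-κ - 2 * π * w.im + δ) * x)) := by
            rw [← Real.exp_add, ← Real.exp_add, ← Real.exp_add]
            congr 2
            ring
      _ = _ := by ring

/-- the vertical part -/
theorem CPAR_M (h : ℝ → ℂ) (σ T : ℝ) (hT : 0 < T) (w : ℂ) (hc : ContinuousOn h (Icc (-T) T)) :
    IntervalIntegrable (fun y => h y * e (w * ((σ : ℂ) + y * I))) volume (-T) T ∧
      DifferentiableAt ℂ (fun w => ∫ y in (-T)..T, h y * e (w * ((σ : ℂ) + y * I))) w := by
  have hle : -T ≤ T := by linarith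
  have hγ : Continuous (fun y : ℝ => (σ : ℂ) + y * I) := by fun_prop
  have hm : AEStronglyMeasurable h (volume.restrict (Ioc (-T) T)) :=
    (hc.mono Ioc_subset_Icc_self).aestronglyMeasurable measurableSet_Ioc
  have hci : ContinuousOn (fun y : ℝ => ‖h y‖ * ‖e (w * ((σ : ℂ) + y * I))‖ *
      Real.exp (1 * ‖(σ : ℂ) + y * I‖)) (Icc (-T) T) := by
    refine ContinuousOn.mul (hc.norm.mul ?_) ?_
    · exact ((CPAR_continuous_e.comp (continuous_const.mul hγ)).norm).continuousOn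
    · exact (Real.continuous_exp.comp (continuous_const.mul hγ.norm)).continuousOn
  have hi : IntegrableOn (fun y : ℝ => ‖h y‖ * ‖e (w * ((σ : ℂ) + y * I))‖ *
      Real.exp (1 * ‖(σ : ℂ) + y * I‖)) (Ioc (-T) T) :=
    (hci.integrableOn_compact isCompact_Icc).mono_set Ioc_subset_Icc_self
  have key := CPAR_gen _ h _ hm hγ w 1 one_pos hi
  refine ⟨?_, ?_⟩
  · rw [intervalIntegrable_iff_integrableOn_Ioc_of_le hle]
    exact key.1
  · have e1 : (fun w : ℂ => ∫ y in (-T)..T, h y * e (w * ((σ : ℂ) + y * I))) =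
        fun w : ℂ => ∫ y in Ioc (-T) T, h y * e (w * ((σ : ℂ) + y * I)) := by
      funext w
      rw [intervalIntegral.integral_of_le hle]
    rw [e1]
    exact key.2

/-- `‖e (w X)‖ = exp (-2 π (im w re X + re w im X))`, so on the horizontal ends `|im X| = T`, `re X = x ≤ σ`,
the integrand is at most `A exp ((κ - 2 π im w) x + 2 π |re w| T)` and `κ - 2 π im w > 0`; the derivative in `w`
has an extra factor `2 π i X`. Use `hasDerivAt_integral_of_dominated_loc_of_deriv_le` for the three parts. -/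
theorem LInt_param {g : ℂ → ℂ} {σ T A κ : ℝ} (hT : 0 < T)
    (hmid : ContinuousOn (fun y : ℝ => g ((σ : ℂ) + y * I)) (Icc (-T) T))
    (hlo : ContinuousOn (fun x : ℝ => g ((x : ℂ) - T * I)) (Iic σ))
    (hup : ContinuousOn (fun x : ℝ => g ((x : ℂ) + T * I)) (Iic σ))
    (hb : ∀ x : ℝ, x ≤ σ → ‖g ((x : ℂ) - T * I)‖ ≤ A * Real.exp (κ * x) ∧
      ‖g ((x : ℂ) + T * I)‖ ≤ A * Real.exp (κ * x))
    {w : ℂ} (hw : 2 * π * w.im < κ) :
    LGood (fun X => g X * e (w * X)) σ T ∧
      DifferentiableAt ℂ (fun w : ℂ => LInt (fun X => g X * e (w * X)) σ T) w := by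
  have k1 := CPAR_L (fun x : ℝ => g ((x : ℂ) - T * I)) σ (-T) A κ w hw hlo (fun x hx => (hb x hx).1)
  have k2 := CPAR_L (fun x : ℝ => g ((x : ℂ) + T * I)) σ T A κ w hw hup (fun x hx => (hb x hx).2)
  have k3 := CPAR_M (fun y : ℝ => g ((σ : ℂ) + y * I)) σ T hT w hmid
  have e0 : ∀ x : ℝ, (x : ℂ) + ((-T : ℝ) : ℂ) * I = (x : ℂ) - T * I := by
    intro x; push_cast; ring
  simp only [e0] at k1
  refine ⟨⟨k1.1, k3.1, k2.1⟩, ?_⟩
  unfold LInt
  exact (k1.2.add ((differentiableAt_const I).mul k3.2)).sub k2.2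

/-- Mirror image of `LInt_param`. -/
theorem RInt_param {g : ℂ → ℂ} {σ T A κ : ℝ} (hT : 0 < T)
    (hmid : ContinuousOn (fun y : ℝ => g ((σ : ℂ) + y * I)) (Icc (-T) T))
    (hlo : ContinuousOn (fun x : ℝ => g ((x : ℂ) - T * I)) (Ici σ))
    (hup : ContinuousOn (fun x : ℝ => g ((x : ℂ) + T * I)) (Ici σ))
    (hb : ∀ x : ℝ, σ ≤ x → ‖g ((x : ℂ) - T * I)‖ ≤ A * Real.exp (-κ * x) ∧
      ‖g ((x : ℂ) + T * I)‖ ≤ A * Real.exp (-κ * x))
    {w : ℂ} (hw : -(2 * π * w.im) < κ) :
    RGood (fun X => g X * e (w * X)) σ T ∧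
      DifferentiableAt ℂ (fun w : ℂ => RInt (fun X => g X * e (w * X)) σ T) w := by
  have k1 := CPAR_R (fun x : ℝ => g ((x : ℂ) - T * I)) σ (-T) A κ w hw hlo (fun x hx => (hb x hx).1)
  have k2 := CPAR_R (fun x : ℝ => g ((x : ℂ) + T * I)) σ T A κ w hw hup (fun x hx => (hb x hx).2)
  have k3 := CPAR_M (fun y : ℝ => g ((σ : ℂ) + y * I)) σ T hT w hmid
  have e0 : ∀ x : ℝ, (x : ℂ) + ((-T : ℝ) : ℂ) * I = (x : ℂ) - T * I := by
    intro x; push_cast; ring
  simp only [e0] at k1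
  refine ⟨⟨k1.1, k3.1, k2.1⟩, ?_⟩
  unfold RInt
  exact (k1.2.neg.add ((differentiableAt_const I).mul k3.2)).add k2.2

end Ghost
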