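import Pool.Agent.Lib_MP_1c78a5_ghost.Defs

/-!
# Piece CRECT: elementary properties of the contour integrals
-/

open Complex MeasureTheory Set Filter Topology
open scoped Real ComplexConjugate

namespace Ghost

/-- All three parts of `LInt f σ T` are integrable. -/
structure LGood (f : ℂ → ℂ) (σ T : ℝ) : Prop where
  lo : IntegrableOn (fun x : ℝ => f ((x : ℂ) - T * I)) (Iic σ)
  mid : IntervalIntegrable (fun y : ℝ => f ((σ : ℂ) + y * I)) volume (-T) T
  up : IntegrableOn (fun x : ℝ => f ((x : ℂ) + T * I)) (Iic σ)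

/-- All three parts of `RInt f σ T` are integrable. -/
structure RGood (f : ℂ → ℂ) (σ T : ℝ) : Prop where
  lo : IntegrableOn (fun x : ℝ => f ((x : ℂ) - T * I)) (Ioi σ)
  mid : IntervalIntegrable (fun y : ℝ => f ((σ : ℂ) + y * I)) volume (-T) T
  up : IntegrableOn (fun x : ℝ => f ((x : ℂ) + T * I)) (Ioi σ)

theorem LInt_add {f g : ℂ → ℂ} {σ T : ℝ} (hf : LGood f σ T) (hg : LGood g σ T) :
    LInt (fun z => f z + g z) σ T = LInt f σ T + LInt g σ T := by
  unfold LInt
  rw [integral_add hf.lo hg.lo, integral_add hf.up hg.up,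
    intervalIntegral.integral_add hf.mid hg.mid]
  ring

theorem LInt_sub {f g : ℂ → ℂ} {σ T : ℝ} (hf : LGood f σ T) (hg : LGood g σ T) :
    LInt (fun z => f z - g z) σ T = LInt f σ T - LInt g σ T := by
  unfold LInt
  rw [integral_sub hf.lo hg.lo, integral_sub hf.up hg.up,
    intervalIntegral.integral_sub hf.mid hg.mid]
  ring

theorem LInt_const_mul (c : ℂ) (f : ℂ → ℂ) (σ T : ℝ) :
    LInt (fun z => c * f z) σ T = c * LInt f σ T := by
  unfold LInt
  rw [integral_const_mul, integral_const_mul, intervalIntegral.integral_const_mul]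
  ring

theorem RInt_sub {f g : ℂ → ℂ} {σ T : ℝ} (hf : RGood f σ T) (hg : RGood g σ T) :
    RInt (fun z => f z - g z) σ T = RInt f σ T - RInt g σ T := by
  unfold RInt
  rw [integral_sub hf.lo hg.lo, integral_sub hf.up hg.up,
    intervalIntegral.integral_sub hf.mid hg.mid]
  ring

theorem RInt_const_mul (c : ℂ) (f : ℂ → ℂ) (σ T : ℝ) :
    RInt (fun z => c * f z) σ T = c * RInt f σ T := by
  unfold RInt
  rw [integral_const_mul, integral_const_mul, intervalIntegral.integral_const_mul]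
  ring

/-- Equality of the integrands on the contour. -/
theorem LInt_congr {f g : ℂ → ℂ} {σ T : ℝ} (hT : 0 < T)
    (h : ∀ z : ℂ, (z.re ≤ σ ∧ |z.im| = T) ∨ (z.re = σ ∧ |z.im| ≤ T) → f z = g z) :
    LInt f σ T = LInt g σ T := by
  have h1 : ∫ x in Iic σ, f ((x : ℂ) - T * I) = ∫ x in Iic σ, g ((x : ℂ) - T * I) := by
    refine setIntegral_congr_fun measurableSet_Iic fun x hx => h _ (Or.inl ⟨?_, ?_⟩)
    · simpa using hx
    · simp [abs_of_pos hT]
  have h2 : ∫ x in Iic σ, f ((x : ℂ) + T * I) = ∫ x in Iic σ, g ((x : ℂ) + T * I) := by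
    refine setIntegral_congr_fun measurableSet_Iic fun x hx => h _ (Or.inl ⟨?_, ?_⟩)
    · simpa using hx
    · simp [abs_of_pos hT]
  have h3 : ∫ y in (-T)..T, f ((σ : ℂ) + y * I) = ∫ y in (-T)..T, g ((σ : ℂ) + y * I) := by
    refine intervalIntegral.integral_congr fun y hy => h _ (Or.inr ⟨?_, ?_⟩)
    · simp
    · rw [uIcc_of_le (by linarith)] at hy
      have h4 : ((σ : ℂ) + y * I).im = y := by simp
      rw [h4]
      exact abs_le.2 hy
  unfold LInt
  rw [h1, h2, h3]

theorem RInt_congr {f g : ℂ → ℂ} {σ T : ℝ} (hT : 0 < T)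
    (h : ∀ z : ℂ, (σ ≤ z.re ∧ |z.im| = T) ∨ (z.re = σ ∧ |z.im| ≤ T) → f z = g z) :
    RInt f σ T = RInt g σ T := by
  have h1 : ∫ x in Ioi σ, f ((x : ℂ) - T * I) = ∫ x in Ioi σ, g ((x : ℂ) - T * I) := by
    refine setIntegral_congr_fun measurableSet_Ioi fun x hx => h _ (Or.inl ⟨?_, ?_⟩)
    · simpa using (mem_Ioi.1 hx).le
    · simp [abs_of_pos hT]
  have h2 : ∫ x in Ioi σ, f ((x : ℂ) + T * I) = ∫ x in Ioi σ, g ((x : ℂ) + T * I) := by
    refine setIntegral_congr_fun measurableSet_Ioi fun x hx => h _ (Or.inl ⟨?_, ?_⟩)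
    · simpa using (mem_Ioi.1 hx).le
    · simp [abs_of_pos hT]
  have h3 : ∫ y in (-T)..T, f ((σ : ℂ) + y * I) = ∫ y in (-T)..T, g ((σ : ℂ) + y * I) := by
    refine intervalIntegral.integral_congr fun y hy => h _ (Or.inr ⟨?_, ?_⟩)
    · simp
    · rw [uIcc_of_le (by linarith)] at hy
      have h4 : ((σ : ℂ) + y * I).im = y := by simp
      rw [h4]
      exact abs_le.2 hy
  unfold RInt
  rw [h1, h2, h3]

theorem CRECT_trans_Iic (g : ℝ → ℂ) (σ c : ℝ) :
    ∫ x in Iic σ, g (x + c) = ∫ x in Iic (σ + c), g x := by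
  have h := (measurePreserving_add_right volume c).setIntegral_preimage_emb
    (measurableEmbedding_addRight c) g (Iic (σ + c))
  rw [Set.preimage_add_const_Iic, add_sub_cancel_right] at h
  exact h

theorem CRECT_trans_Ioi (g : ℝ → ℂ) (σ c : ℝ) :
    ∫ x in Ioi σ, g (x + c) = ∫ x in Ioi (σ + c), g x := by
  have h := (measurePreserving_add_right volume c).setIntegral_preimage_emb
    (measurableEmbedding_addRight c) g (Ioi (σ + c))
  rw [Set.preimage_add_const_Ioi, add_sub_cancel_right] at h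
  exact h

theorem CRECT_conj_interval (g : ℝ → ℂ) (a b : ℝ) :
    conj (∫ y in a..b, g y) = ∫ y in a..b, conj (g y) := by
  unfold intervalIntegral
  rw [map_sub, ← integral_conj, ← integral_conj]

/-- Translation by a real number (substitution in all three integrals). -/
theorem LInt_translate (f : ℂ → ℂ) (σ T c : ℝ) :
    LInt (fun z => f (z + c)) σ T = LInt f (σ + c) T := by
  have h1 := CRECT_trans_Iic (fun x => f ((x : ℂ) - T * I)) σ c
  have h2 := CRECT_trans_Iic (fun x => f ((x : ℂ) + T * I)) σ c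
  unfold LInt
  rw [← h1, ← h2]
  push_cast
  have e1 : ∀ x : ℝ, (x : ℂ) + c - T * I = (x : ℂ) - T * I + c := fun x => by ring
  have e2 : ∀ x : ℝ, (x : ℂ) + c + T * I = (x : ℂ) + T * I + c := fun x => by ring
  have e3 : ∀ y : ℝ, (σ : ℂ) + c + y * I = (σ : ℂ) + y * I + c := fun y => by ring
  simp only [e1, e2, e3]

theorem RInt_translate (f : ℂ → ℂ) (σ T c : ℝ) :
    RInt (fun z => f (z + c)) σ T = RInt f (σ + c) T := by
  have h1 := CRECT_trans_Ioi (fun x => f ((x : ℂ) - T * I)) σ c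
  have h2 := CRECT_trans_Ioi (fun x => f ((x : ℂ) + T * I)) σ c
  unfold RInt
  rw [← h1, ← h2]
  push_cast
  have e1 : ∀ x : ℝ, (x : ℂ) + c - T * I = (x : ℂ) - T * I + c := fun x => by ring
  have e2 : ∀ x : ℝ, (x : ℂ) + c + T * I = (x : ℂ) + T * I + c := fun x => by ring
  have e3 : ∀ y : ℝ, (σ : ℂ) + c + y * I = (σ : ℂ) + y * I + c := fun y => by ring
  simp only [e1, e2, e3]

/-- Complex conjugation of a contour integral. -/
theorem LInt_conj (f : ℂ → ℂ) (σ T : ℝ) :
    conj (LInt f σ T) = -LInt (fun z => conj (f (conj z))) σ T := by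
  have hc1 : ∀ x : ℝ, conj ((x : ℂ) - T * I) = (x : ℂ) + T * I := by
    intro x
    rw [map_sub, map_mul, conj_ofReal, conj_ofReal, conj_I]
    ring
  have hc2 : ∀ x : ℝ, conj ((x : ℂ) + T * I) = (x : ℂ) - T * I := by
    intro x
    rw [map_add, map_mul, conj_ofReal, conj_ofReal, conj_I]
    ring
  have hc3 : ∀ y : ℝ, conj ((σ : ℂ) + y * I) = (σ : ℂ) + ((-y : ℝ) : ℂ) * I := by
    intro x
    rw [map_add, map_mul, conj_ofReal, conj_ofReal, conj_I]
    push_cast
    ring
  have h3 : ∫ y in (-T)..T, conj (f ((σ : ℂ) + ((-y : ℝ) : ℂ) * I)) =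
      ∫ y in (-T)..T, conj (f ((σ : ℂ) + (y : ℂ) * I)) := by
    have h4 := intervalIntegral.integral_comp_neg (a := -T) (b := T)
      (fun y : ℝ => conj (f ((σ : ℂ) + (y : ℂ) * I)))
    rw [neg_neg] at h4
    exact h4
  unfold LInt
  simp only [hc1, hc2, hc3, map_add, map_sub, map_mul, conj_I]
  rw [h3, CRECT_conj_interval, ← integral_conj, ← integral_conj]
  ring

end Ghost
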