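import Pool.Agent.Lib_MP_1c78a5_ghost.CShift

/-!
# Piece CRES: crossing finitely many simple real poles
-/

open Complex MeasureTheory Set Filter Topology
open scoped Real ComplexConjugate

namespace Ghost

/-- the boundary integral of a rectangle -/
noncomputable def CRES_BR (g : ℂ → ℂ) (σ σ' T : ℝ) : ℂ :=
  (∫ x in σ..σ', g ((x : ℂ) - T * I)) - (∫ x in σ..σ', g ((x : ℂ) + T * I)) +
    I * (∫ y in (-T)..T, g ((σ' : ℂ) + y * I)) - I * (∫ y in (-T)..T, g ((σ : ℂ) + y * I))

/-- the boundary of the rectangle -/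
def CRES_Bd (σ σ' T : ℝ) (z : ℂ) : Prop :=
  (σ ≤ z.re ∧ z.re ≤ σ' ∧ |z.im| = T) ∨ ((z.re = σ ∨ z.re = σ') ∧ |z.im| ≤ T)

theorem CRES_Bd_lo {σ σ' T x : ℝ} (hT : 0 < T) (hx : x ∈ Icc σ σ') :
    CRES_Bd σ σ' T ((x : ℂ) - T * I) := by
  left
  simp [hx.1, hx.2, abs_of_pos hT]

theorem CRES_Bd_up {σ σ' T x : ℝ} (hT : 0 < T) (hx : x ∈ Icc σ σ') :
    CRES_Bd σ σ' T ((x : ℂ) + T * I) := by
  left
  simp [hx.1, hx.2, abs_of_pos hT]

theorem CRES_Bd_right {σ σ' T y : ℝ} (hy : y ∈ Icc (-T) T) :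
    CRES_Bd σ σ' T ((σ' : ℂ) + y * I) := by
  right
  simp [abs_le, hy.1, hy.2]

theorem CRES_Bd_left {σ σ' T y : ℝ} (hy : y ∈ Icc (-T) T) :
    CRES_Bd σ σ' T ((σ : ℂ) + y * I) := by
  right
  simp [abs_le, hy.1, hy.2]

theorem CRES_int {g : ℂ → ℂ} {σ σ' T : ℝ} (hσ : σ < σ') (hT : 0 < T)
    (h : ∀ z, CRES_Bd σ σ' T z → ContinuousAt g z) :
    IntervalIntegrable (fun x : ℝ => g ((x : ℂ) - T * I)) volume σ σ' ∧
    IntervalIntegrable (fun x : ℝ => g ((x : ℂ) + T * I)) volume σ σ' ∧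
    IntervalIntegrable (fun y : ℝ => g ((σ' : ℂ) + y * I)) volume (-T) T ∧
    IntervalIntegrable (fun y : ℝ => g ((σ : ℂ) + y * I)) volume (-T) T := by
  refine ⟨?_, ?_, ?_, ?_⟩
  · refine ContinuousOn.intervalIntegrable fun x hx => ContinuousAt.continuousWithinAt ?_
    rw [uIcc_of_le hσ.le] at hx
    have h1 : ContinuousAt (fun x : ℝ => (x : ℂ) - T * I) x := by fun_prop
    exact ContinuousAt.comp (f := fun x : ℝ => (x : ℂ) - T * I) (h _ (CRES_Bd_lo hT hx)) h1
  · refine ContinuousOn.intervalIntegrable fun x hx => ContinuousAt.continuousWithinAt ?_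
    rw [uIcc_of_le hσ.le] at hx
    have h1 : ContinuousAt (fun x : ℝ => (x : ℂ) + T * I) x := by fun_prop
    exact ContinuousAt.comp (f := fun x : ℝ => (x : ℂ) + T * I) (h _ (CRES_Bd_up hT hx)) h1
  · refine ContinuousOn.intervalIntegrable fun y hy => ContinuousAt.continuousWithinAt ?_
    rw [uIcc_of_le (by linarith)] at hy
    have h1 : ContinuousAt (fun y : ℝ => (σ' : ℂ) + y * I) y := by fun_prop
    exact ContinuousAt.comp (f := fun y : ℝ => (σ' : ℂ) + y * I) (h _ (CRES_Bd_right hy)) h1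
  · refine ContinuousOn.intervalIntegrable fun y hy => ContinuousAt.continuousWithinAt ?_
    rw [uIcc_of_le (by linarith)] at hy
    have h1 : ContinuousAt (fun y : ℝ => (σ : ℂ) + y * I) y := by fun_prop
    exact ContinuousAt.comp (f := fun y : ℝ => (σ : ℂ) + y * I) (h _ (CRES_Bd_left hy)) h1

theorem CRES_BR_add {f g h : ℂ → ℂ} {σ σ' T : ℝ} (hσ : σ < σ') (hT : 0 < T) (c : ℂ)
    (hg : ∀ z, CRES_Bd σ σ' T z → ContinuousAt g z) (hh : ∀ z, CRES_Bd σ σ' T z → ContinuousAt h z)
    (e : ∀ z, CRES_Bd σ σ' T z → f z = g z + c * h z) :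
    CRES_BR f σ σ' T = CRES_BR g σ σ' T + c * CRES_BR h σ σ' T := by
  obtain ⟨g1, g2, g3, g4⟩ := CRES_int hσ hT hg
  obtain ⟨k1, k2, k3, k4⟩ := CRES_int hσ hT hh
  have e1 : ∫ x in σ..σ', f ((x : ℂ) - T * I) = (∫ x in σ..σ', g ((x : ℂ) - T * I)) +
      c * ∫ x in σ..σ', h ((x : ℂ) - T * I) := by
    rw [← intervalIntegral.integral_const_mul, ← intervalIntegral.integral_add g1 (k1.const_mul c)]
    refine intervalIntegral.integral_congr fun x hx => ?_
    rw [uIcc_of_le hσ.le] at hx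
    exact e _ (CRES_Bd_lo hT hx)
  have e2 : ∫ x in σ..σ', f ((x : ℂ) + T * I) = (∫ x in σ..σ', g ((x : ℂ) + T * I)) +
      c * ∫ x in σ..σ', h ((x : ℂ) + T * I) := by
    rw [← intervalIntegral.integral_const_mul, ← intervalIntegral.integral_add g2 (k2.const_mul c)]
    refine intervalIntegral.integral_congr fun x hx => ?_
    rw [uIcc_of_le hσ.le] at hx
    exact e _ (CRES_Bd_up hT hx)
  have e3 : ∫ y in (-T)..T, f ((σ' : ℂ) + y * I) = (∫ y in (-T)..T, g ((σ' : ℂ) + y * I)) +
      c * ∫ y in (-T)..T, h ((σ' : ℂ) + y * I) := by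
    rw [← intervalIntegral.integral_const_mul, ← intervalIntegral.integral_add g3 (k3.const_mul c)]
    refine intervalIntegral.integral_congr fun x hx => ?_
    rw [uIcc_of_le (by linarith)] at hx
    exact e _ (CRES_Bd_right hx)
  have e4 : ∫ y in (-T)..T, f ((σ : ℂ) + y * I) = (∫ y in (-T)..T, g ((σ : ℂ) + y * I)) +
      c * ∫ y in (-T)..T, h ((σ : ℂ) + y * I) := by
    rw [← intervalIntegral.integral_const_mul, ← intervalIntegral.integral_add g4 (k4.const_mul c)]
    refine intervalIntegral.integral_congr fun x hx => ?_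
    rw [uIcc_of_le (by linarith)] at hx
    exact e _ (CRES_Bd_left hx)
  unfold CRES_BR
  rw [e1, e2, e3, e4]
  ring

/-- Cauchy -/
theorem CRES_zero {f : ℂ → ℂ} {σ σ' T : ℝ} (hσ : σ < σ') (hT : 0 < T)
    (hd : ∀ z : ℂ, σ ≤ z.re → z.re ≤ σ' → |z.im| ≤ T → DifferentiableAt ℂ f z) :
    CRES_BR f σ σ' T = 0 := by
  have h := Complex.integral_boundary_rect_eq_zero_of_differentiableOn f ⟨σ, -T⟩ ⟨σ', T⟩ (by
    intro z hz
    rw [Complex.mem_reProdIm] at hz
    simp only [uIcc_of_le hσ.le, uIcc_of_le (show -T ≤ T by linarith)] at hz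
    exact (hd z hz.1.1 hz.1.2 (abs_le.2 hz.2)).differentiableWithinAt)
  simp only [smul_eq_mul, Complex.ofReal_neg, neg_mul] at h
  unfold CRES_BR
  simp only [sub_eq_add_neg] at h ⊢
  exact h

theorem CRES_log_neg {w : ℂ} (hw : 0 < w.im) :
    Complex.log (-w) = Complex.log w - π * I := by
  unfold Complex.log
  rw [Complex.arg_neg_eq_arg_sub_pi_of_im_pos hw, norm_neg]
  push_cast
  ring

theorem CRES_log_neg' {w : ℂ} (hw : w.im < 0) :
    Complex.log (-w) = Complex.log w + π * I := by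
  unfold Complex.log
  rw [Complex.arg_neg_eq_arg_add_pi_of_im_neg hw, norm_neg]
  push_cast
  ring

/-- the primitive on a segment -/
theorem CRES_prim {p q : ℝ} (hpq : p ≤ q) (u : ℝ → ℂ) (v : ℂ) (hu : ∀ x, HasDerivAt u v x)
    (hs : ∀ x ∈ Icc p q, u x ∈ Complex.slitPlane) :
    ∫ x in p..q, v * (u x)⁻¹ = Complex.log (u q) - Complex.log (u p) := by
  have hc : Continuous u := continuous_iff_continuousAt.2 fun x => (hu x).continuousAt
  refine intervalIntegral.integral_eq_sub_of_hasDerivAt (f := fun x => Complex.log (u x))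
    (fun x hx => ?_) ?_
  · rw [uIcc_of_le hpq] at hx
    have h1 := (hu x).clog_real (hs x hx)
    rwa [div_eq_mul_inv] at h1
  · refine ContinuousOn.intervalIntegrable ?_
    rw [uIcc_of_le hpq]
    exact continuousOn_const.mul (hc.continuousOn.inv₀ fun x hx =>
      Complex.slitPlane_ne_zero (hs x hx))

/-- the boundary integral of `1 / (z - s)` -/
theorem CRES_pole {σ σ' T s : ℝ} (hσ : σ < s) (hσ' : s < σ') (hT : 0 < T) :
    CRES_BR (fun z => (z - s)⁻¹) σ σ' T = 2 * π * I := by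
  have hI : I * I = -1 := Complex.I_mul_I
  -- the four sides
  have e1 : ∫ x in σ..σ', ((x : ℂ) - T * I - s)⁻¹ =
      Complex.log ((σ' : ℂ) - T * I - s) - Complex.log ((σ : ℂ) - T * I - s) := by
    have := CRES_prim (p := σ) (q := σ') (by linarith) (fun x : ℝ => (x : ℂ) - T * I - s) 1
      (fun x => ((Complex.ofRealCLM.hasDerivAt (x := x)).sub_const _).sub_const _) (fun x _ => by
        rw [Complex.mem_slitPlane_iff]
        right
        simp [hT.ne'])
    simpa only [one_mul] using this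
  have e2 : ∫ x in σ..σ', ((x : ℂ) + T * I - s)⁻¹ =
      Complex.log ((σ' : ℂ) + T * I - s) - Complex.log ((σ : ℂ) + T * I - s) := by
    have := CRES_prim (p := σ) (q := σ') (by linarith) (fun x : ℝ => (x : ℂ) + T * I - s) 1
      (fun x => ((Complex.ofRealCLM.hasDerivAt (x := x)).add_const _).sub_const _) (fun x _ => by
        rw [Complex.mem_slitPlane_iff]
        right
        simp [hT.ne'])
    simpa only [one_mul] using this
  have e3 : I * ∫ y in (-T)..T, ((σ' : ℂ) + y * I - s)⁻¹ =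
      Complex.log ((σ' : ℂ) + T * I - s) - Complex.log ((σ' : ℂ) - T * I - s) := by
    have := CRES_prim (p := -T) (q := T) (by linarith) (fun y : ℝ => (σ' : ℂ) + y * I - s) I
      (fun x => by
        have h1 := ((Complex.ofRealCLM.hasDerivAt (x := x)).mul_const I)
        simp only [Complex.ofRealCLM_apply, Complex.ofReal_one, one_mul] at h1
        exact (h1.const_add _).sub_const _) (fun x _ => by
        rw [Complex.mem_slitPlane_iff]
        left
        simpa using hσ')
    rw [intervalIntegral.integral_const_mul] at this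
    rw [this]
    simp only [Complex.ofReal_neg, neg_mul, ← sub_eq_add_neg]
  have e4 : I * ∫ y in (-T)..T, ((σ : ℂ) + y * I - s)⁻¹ =
      Complex.log (-((σ : ℂ) + T * I - s)) - Complex.log (-((σ : ℂ) - T * I - s)) := by
    have := CRES_prim (p := -T) (q := T) (by linarith) (fun y : ℝ => -((σ : ℂ) + y * I - s)) (-I)
      (fun x => by
        have h1 := ((Complex.ofRealCLM.hasDerivAt (x := x)).mul_const I)
        simp only [Complex.ofRealCLM_apply, Complex.ofReal_one, one_mul] at h1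
        exact ((h1.const_add _).sub_const _).neg) (fun x _ => by
        rw [Complex.mem_slitPlane_iff]
        left
        simpa using hσ)
    simp only [inv_neg, neg_mul_neg] at this
    rw [intervalIntegral.integral_const_mul] at this
    rw [this]
    simp only [Complex.ofReal_neg, neg_mul, ← sub_eq_add_neg]
  unfold CRES_BR
  rw [e1, e2, e3, e4, CRES_log_neg (w := (σ : ℂ) + T * I - s) (by simp [hT]),
    CRES_log_neg' (w := (σ : ℂ) - T * I - s) (by simp [hT])]
  ring

theorem CRES_BR_residue {σ σ' T : ℝ} (hσ : σ < σ') (hT : 0 < T) (ρ : ℝ → ℂ) (S : Finset ℝ) :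
    ∀ f : ℂ → ℂ, (∀ s ∈ S, σ < s ∧ s < σ') →
    (∀ z : ℂ, σ ≤ z.re → z.re ≤ σ' → |z.im| ≤ T → (∀ s ∈ S, z ≠ (s : ℂ)) →
      DifferentiableAt ℂ f z) →
    (∀ s ∈ S, Tendsto (fun z : ℂ => (z - s) * f z) (𝓝[≠] (s : ℂ)) (𝓝 (ρ s))) →
    CRES_BR f σ σ' T = 2 * π * I * ∑ s ∈ S, ρ s := by
  classical
  induction S using Finset.induction_on with
  | empty =>
    intro f _ hd _
    rw [Finset.sum_empty, mul_zero]
    exact CRES_zero hσ hT fun z h1 h2 h3 => hd z h1 h2 h3 (by simp)
  | insert s0 S hs0 ih =>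
    intro f hS hd hρ
    have hs := hS s0 (Finset.mem_insert_self _ _)
    obtain ⟨u, hu⟩ : ∃ u : ℂ → ℂ, u = Function.update (fun z : ℂ => (z - s0) * f z) s0 (ρ s0) :=
      ⟨_, rfl⟩
    have hune : ∀ z : ℂ, z ≠ s0 → u z = (z - s0) * f z := fun z hz => by
      rw [hu, Function.update_of_ne hz]
    have hus : u s0 = ρ s0 := by rw [hu, Function.update_self]
    have hucont : ContinuousAt u s0 := by
      rw [hu, continuousAt_update_same]
      exact hρ s0 (Finset.mem_insert_self _ _)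
    -- the interior of the rectangle
    have hrect : ∀ᶠ z : ℂ in 𝓝 (s0 : ℂ), σ ≤ z.re ∧ z.re ≤ σ' ∧ |z.im| ≤ T := by
      have h1 : ∀ᶠ z : ℂ in 𝓝 (s0 : ℂ), σ < z.re :=
        Complex.continuous_re.continuousAt.eventually (lt_mem_nhds (by simpa using hs.1))
      have h2 : ∀ᶠ z : ℂ in 𝓝 (s0 : ℂ), z.re < σ' :=
        Complex.continuous_re.continuousAt.eventually (gt_mem_nhds (by simpa using hs.2))
      have h3 : ∀ᶠ z : ℂ in 𝓝 (s0 : ℂ), |z.im| < T :=
        (continuous_abs.comp Complex.continuous_im).continuousAt.eventually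
          (gt_mem_nhds (by simpa using hT))
      filter_upwards [h1, h2, h3] with z a b c
      exact ⟨a.le, b.le, c.le⟩
    have hother : ∀ᶠ z : ℂ in 𝓝 (s0 : ℂ), ∀ s ∈ S, z ≠ (s : ℂ) := by
      rw [Filter.eventually_all_finset]
      intro s hsS
      have hne : (s0 : ℂ) ≠ (s : ℂ) := by
        intro h
        apply hs0
        rw [Complex.ofReal_inj.1 h]
        exact hsS
      exact isOpen_ne.mem_nhds hne
    have hfd : ∀ᶠ z : ℂ in 𝓝[≠] (s0 : ℂ), DifferentiableAt ℂ f z := by
      filter_upwards [hrect.filter_mono nhdsWithin_le_nhds, hother.filter_mono nhdsWithin_le_nhds,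
        self_mem_nhdsWithin] with z h1 h2 h3
      refine hd z h1.1 h1.2.1 h1.2.2 fun s hs => ?_
      rw [Finset.mem_insert] at hs
      rcases hs with rfl | hs
      · exact h3
      · exact h2 s hs
    have hud : ∀ z : ℂ, z ≠ s0 → DifferentiableAt ℂ f z → DifferentiableAt ℂ u z := by
      intro z hz hf
      have h1 : u =ᶠ[𝓝 z] fun z => (z - s0) * f z := by
        filter_upwards [isOpen_ne.mem_nhds hz] with w hw
        exact hune w hw
      exact ((differentiableAt_id.sub_const _).mul hf).congr_of_eventuallyEq h1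
    have hua : AnalyticAt ℂ u s0 := by
      refine Complex.analyticAt_of_differentiable_on_punctured_nhds_of_continuousAt ?_ hucont
      filter_upwards [hfd, self_mem_nhdsWithin] with z h1 h2
      exact hud z h2 h1
    -- the function without the pole
    obtain ⟨g, hg⟩ : ∃ g : ℂ → ℂ, g = dslope u (s0 : ℂ) := ⟨_, rfl⟩
    have hgne : ∀ z : ℂ, z ≠ s0 → g z = f z - ρ s0 * (z - s0)⁻¹ := by
      intro z hz
      have hz' : z - s0 ≠ 0 := sub_ne_zero.2 hz
      rw [hg, dslope_of_ne _ hz, slope_def_field, hune z hz, hus]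
      field_simp
    have hgs : DifferentiableAt ℂ g s0 := by
      obtain ⟨W, hW, hW2⟩ := (hua.eventually_analyticAt).exists_mem
      have h1 : DifferentiableOn ℂ u W := fun z hz => (hW2 z hz).differentiableAt.differentiableWithinAt
      rw [hg]
      exact ((Complex.differentiableOn_dslope hW).2 h1).differentiableAt hW
    have hgd : ∀ z : ℂ, z ≠ s0 → DifferentiableAt ℂ f z → DifferentiableAt ℂ g z := by
      intro z hz hf
      have h1 : g =ᶠ[𝓝 z] fun z => f z - ρ s0 * (z - s0)⁻¹ := by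
        filter_upwards [isOpen_ne.mem_nhds hz] with w hw
        exact hgne w hw
      refine DifferentiableAt.congr_of_eventuallyEq ?_ h1
      have h2 : DifferentiableAt ℂ (fun w : ℂ => (w - s0)⁻¹) z :=
        ((hasDerivAt_id z).sub_const (s0 : ℂ)).differentiableAt.fun_inv (sub_ne_zero.2 hz)
      exact hf.sub (h2.const_mul _)
    have hgd' : ∀ z : ℂ, σ ≤ z.re → z.re ≤ σ' → |z.im| ≤ T → (∀ s ∈ S, z ≠ (s : ℂ)) →
        DifferentiableAt ℂ g z := by
      intro z h1 h2 h3 h4
      by_cases hz : z = s0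
      · rw [hz]; exact hgs
      · refine hgd z hz (hd z h1 h2 h3 fun s hs => ?_)
        rw [Finset.mem_insert] at hs
        rcases hs with rfl | hs
        · exact hz
        · exact h4 s hs
    have hgρ : ∀ s ∈ S, Tendsto (fun z : ℂ => (z - s) * g z) (𝓝[≠] (s : ℂ)) (𝓝 (ρ s)) := by
      intro s hsS
      have hne : (s : ℂ) ≠ (s0 : ℂ) := by
        intro h
        apply hs0
        rw [← Complex.ofReal_inj.1 h]
        exact hsS
      have h1 := hρ s (Finset.mem_insert_of_mem hsS)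
      have h2 : Tendsto (fun z : ℂ => (z - s) * (ρ s0 * (z - s0)⁻¹)) (𝓝[≠] (s : ℂ)) (𝓝 0) := by
        have h3 : ContinuousAt (fun z : ℂ => (z - s) * (ρ s0 * (z - s0)⁻¹)) (s : ℂ) := by
          refine (continuousAt_id.sub continuousAt_const).mul (continuousAt_const.mul ?_)
          exact (continuousAt_id.sub continuousAt_const).inv₀ (sub_ne_zero.2 hne)
        have h4 := h3.tendsto
        simp only [sub_self, zero_mul] at h4
        exact h4.mono_left nhdsWithin_le_nhds
      have h3 := h1.sub h2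
      rw [sub_zero] at h3
      refine h3.congr' ?_
      filter_upwards [(isOpen_ne.mem_nhds hne : {z : ℂ | z ≠ s0} ∈ 𝓝 (s : ℂ)) |>
        mem_nhdsWithin_of_mem_nhds] with z hz
      rw [hgne z hz]
      ring
    have hIH := ih g (fun s hsS => hS s (Finset.mem_insert_of_mem hsS)) hgd' hgρ
    -- the boundary does not meet the real points
    have hbd : ∀ z, CRES_Bd σ σ' T z → ∀ s : ℝ, σ < s → s < σ' → z ≠ (s : ℂ) := by
      rintro z (⟨-, -, h⟩ | ⟨h | h, -⟩) s h1 h2 rfl
      · simp at h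
        linarith
      · simp at h
        linarith
      · simp at h
        linarith
    have hbd2 : ∀ z, CRES_Bd σ σ' T z → σ ≤ z.re ∧ z.re ≤ σ' ∧ |z.im| ≤ T := by
      rintro z (⟨h1, h2, h⟩ | ⟨h | h, h1⟩)
      · exact ⟨h1, h2, h.le⟩
      · exact ⟨h.ge, h.le.trans hσ.le, h1⟩
      · exact ⟨hσ.le.trans h.ge, h.le, h1⟩
    rw [CRES_BR_add hσ hT (ρ s0) (g := g) (h := fun z => (z - s0)⁻¹) ?_ ?_ ?_, hIH,
      CRES_pole hs.1 hs.2 hT, Finset.sum_insert hs0]
    · ring
    · intro z hz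
      obtain ⟨h1, h2, h3⟩ := hbd2 z hz
      exact (hgd' z h1 h2 h3 fun s hsS =>
        hbd z hz s (hS s (Finset.mem_insert_of_mem hsS)).1
          (hS s (Finset.mem_insert_of_mem hsS)).2).continuousAt
    · intro z hz
      have hne := hbd z hz s0 hs.1 hs.2
      exact (continuousAt_id.sub continuousAt_const).inv₀ (sub_ne_zero.2 hne)
    · intro z hz
      have hne := hbd z hz s0 hs.1 hs.2
      show f z = g z + ρ s0 * (z - s0)⁻¹
      rw [hgne z hne]
      ring

/-- Residue theorem for the difference of two `RInt`.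

Proof. The difference is minus the integral of `f` over the boundary of the rectangle
`[σ, σ'] × [-T, T]` (as in `RInt_shift`). The function `g z = f z - ∑_{s ∈ S} ρ s / (z - s)` is
differentiable on the rectangle outside `S`, and `(z - s) g z → 0` at every `s ∈ S`, so its boundary integral
is zero: redefine `g` at the points of `S` by the limit (`Complex.differentiableOn_update_limUnder_of_isLittleO`
or `Complex.analyticAt_of_differentiable_on_punctured_nhds_of_continuousAt`), or use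
`Complex.integral_boundary_rect_eq_zero_of_differentiable_on_off_countable` after making `g` continuous. The
boundary integral of `1 / (z - s)` over a rectangle around the real point `s` is `2 π i`: the integrals over
the two vertical sides give `I ∫_{-T}^{T} (1 / (σ' - s + i y) - 1 / (σ - s + i y)) dy` and the horizontal ones
`∫_{σ}^{σ'} (1 / (x - s - i T) - 1 / (x - s + i T)) dx = ∫ 2 i T / ((x - s) ^ 2 + T ^ 2) dx`; with arctangents the
sum is `2 i (arctan ((σ' - s) / T) + arctan ((s - σ) / T) + arctan (T / (σ' - s)) + arctan (T / (s - σ))) = 2 π i`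
(the odd parts of the vertical integrals vanish; `arctan x + arctan (1 / x) = π / 2` for `x > 0`). -/
theorem RInt_residue {f : ℂ → ℂ} {σ σ' T : ℝ} (hσ : σ < σ') (hT : 0 < T) (S : Finset ℝ)
    (hS : ∀ s ∈ S, σ < s ∧ s < σ') (ρ : ℝ → ℂ)
    (hd : ∀ z : ℂ, σ ≤ z.re → z.re ≤ σ' → |z.im| ≤ T → (∀ s ∈ S, z ≠ (s : ℂ)) →
      DifferentiableAt ℂ f z)
    (hρ : ∀ s ∈ S, Tendsto (fun z : ℂ => (z - s) * f z) (𝓝[≠] (s : ℂ)) (𝓝 (ρ s)))
    (h1 : IntegrableOn (fun x : ℝ => f ((x : ℂ) - T * I)) (Ioi σ))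
    (h2 : IntegrableOn (fun x : ℝ => f ((x : ℂ) + T * I)) (Ioi σ)) :
    RInt f σ T - RInt f σ' T = -(2 * π * I * ∑ s ∈ S, ρ s) := by
  have h := CRES_BR_residue hσ hT ρ S f hS hd hρ
  have k1 : (∫ x in Ioi σ, f ((x : ℂ) - T * I)) - ∫ x in Ioi σ', f ((x : ℂ) - T * I) =
      ∫ x in σ..σ', f ((x : ℂ) - T * I) :=
    (intervalIntegral.integral_Ioi_sub_Ioi h1 hσ.le)
  have k2 : (∫ x in Ioi σ, f ((x : ℂ) + T * I)) - ∫ x in Ioi σ', f ((x : ℂ) + T * I) =
      ∫ x in σ..σ', f ((x : ℂ) + T * I) :=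
    (intervalIntegral.integral_Ioi_sub_Ioi h2 hσ.le)
  rw [← h]
  unfold RInt CRES_BR
  rw [← k1, ← k2]
  ring

end Ghost
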