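import Pool.Agent.Lib_MP_1c78a5_ghost.CShift

/-!
# Piece CVERT: contour integrals with horizontal ends equal integrals over vertical lines
-/

open Complex MeasureTheory Set Filter Topology
open scoped Real ComplexConjugate

namespace Ghost

theorem CVERT_expIoi (a c : ℝ) (hc : 0 < c) (B : ℝ) :
    IntegrableOn (fun y : ℝ => B * Real.exp (-c * y)) (Ioi a) :=
  (exp_neg_integrableOn_Ioi a hc).const_mul B

theorem CVERT_expIic (a c : ℝ) (hc : 0 < c) (B : ℝ) :
    IntegrableOn (fun y : ℝ => B * Real.exp (c * y)) (Iic a) := by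
  have h := (CVERT_expIoi (-a) c hc B)
  have h2 : IntegrableOn (fun y : ℝ => B * Real.exp (-c * y)) (Ici (-a)) :=
    Iff.mpr integrableOn_Ici_iff_integrableOn_Ioi h
  have h3 := ((Measure.measurePreserving_neg (volume : Measure ℝ)).integrableOn_comp_preimage
    (Homeomorph.neg ℝ).measurableEmbedding (f := fun y : ℝ => B * Real.exp (-c * y))
    (s := Ici (-a))).mpr h2
  have e1 : (fun y : ℝ => B * Real.exp (-c * y)) ∘ Neg.neg = fun y => B * Real.exp (c * y) := by
    funext y
    simp only [Function.comp_apply]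
    rw [neg_mul_neg]
  have e2 : Neg.neg ⁻¹' (Ici (-a)) = Iic a := by
    ext y
    simp only [mem_preimage, mem_Ici, mem_Iic, neg_le_neg_iff]
  rw [e1, e2] at h3
  exact h3

theorem CVERT_tend1 (B c D : ℝ) (hc : 0 < c) :
    Tendsto (fun R : ℝ => B * Real.exp (-c * R) * (R + D)) atTop (𝓝 0) := by
  have h1 : Tendsto (fun R : ℝ => Real.exp (-c * R) * R) atTop (𝓝 0) := by
    have h := Real.tendsto_pow_mul_exp_neg_atTop_nhds_zero 1
    have h2 : Tendsto (fun R : ℝ => c * R) atTop atTop := tendsto_id.const_mul_atTop hc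
    have h3 := (h.comp h2).const_mul (1 / c)
    rw [mul_zero] at h3
    refine h3.congr (fun R => ?_)
    simp only [Function.comp_apply, pow_one]
    rw [show -(c * R) = -c * R by ring]
    field_simp
  have h2 : Tendsto (fun R : ℝ => Real.exp (-c * R)) atTop (𝓝 0) := by
    have h2 : Tendsto (fun R : ℝ => c * R) atTop atTop := tendsto_id.const_mul_atTop hc
    have h3 := Real.tendsto_exp_neg_atTop_nhds_zero.comp h2
    refine h3.congr (fun R => ?_)
    simp only [Function.comp_apply, neg_mul]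
  have h4 := ((h1.add (h2.mul_const D)).const_mul B)
  rw [zero_mul, add_zero, mul_zero] at h4
  refine h4.congr (fun R => ?_)
  ring

/-- The integral over the upper left quadrant boundary. -/
theorem CVERT_up {f : ℂ → ℂ} {σ T A c κ : ℝ} (hT : 0 < T) (hc : 0 < c) (hκ : 0 < κ)
    (hA : 0 ≤ A)
    (hd : ∀ z : ℂ, z.re ≤ σ → T ≤ z.im → DifferentiableAt ℂ f z)
    (hb : ∀ z : ℂ, z.re ≤ σ → T ≤ z.im →
      ‖f z‖ ≤ A * Real.exp (-c * z.im + κ * (z.re - σ))) :
    IntegrableOn (fun x : ℝ => f ((x : ℂ) + T * I)) (Iic σ) ∧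
    IntegrableOn (fun y : ℝ => f ((σ : ℂ) + y * I)) (Ioi T) ∧
    (∫ x in Iic σ, f ((x : ℂ) + T * I)) = -(I * ∫ y in Ioi T, f ((σ : ℂ) + y * I)) := by
  have re1 : ∀ x y : ℝ, ((x : ℂ) + y * I).re = x := by intro x y; simp
  have im1 : ∀ x y : ℝ, ((x : ℂ) + y * I).im = y := by intro x y; simp
  have hbd : ∀ x y : ℝ, x ≤ σ → T ≤ y →
      ‖f ((x : ℂ) + y * I)‖ ≤ A * Real.exp (-c * y + κ * (x - σ)) := by
    intro x y hx hy
    have h := hb ((x : ℂ) + y * I) (by rw [re1]; exact hx) (by rw [im1]; exact hy)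
    rw [re1, im1] at h
    exact h
  have hdd : ∀ x y : ℝ, x ≤ σ → T ≤ y → DifferentiableAt ℂ f ((x : ℂ) + y * I) := by
    intro x y hx hy
    exact hd _ (by rw [re1]; exact hx) (by rw [im1]; exact hy)
  have i1 : IntegrableOn (fun x : ℝ => f ((x : ℂ) + T * I)) (Iic σ) := by
    refine Integrable.mono' (CVERT_expIic σ κ hκ (A * Real.exp (-c * T - κ * σ))) ?_ ?_
    · refine ContinuousOn.aestronglyMeasurable ?_ measurableSet_Iic
      intro x hx
      have h1 := (hdd x T hx le_rfl).continuousAt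
      exact (ContinuousAt.comp (f := fun x : ℝ => (x : ℂ) + T * I) h1
        (by fun_prop)).continuousWithinAt
    · rw [ae_restrict_iff' measurableSet_Iic]
      refine Eventually.of_forall (fun x hx => ?_)
      refine (hbd x T hx le_rfl).trans (le_of_eq ?_)
      rw [mul_assoc, ← Real.exp_add]
      congr 2
      ring
  have i2 : IntegrableOn (fun y : ℝ => f ((σ : ℂ) + y * I)) (Ioi T) := by
    refine Integrable.mono' (CVERT_expIoi T c hc A) ?_ ?_
    · refine ContinuousOn.aestronglyMeasurable ?_ measurableSet_Ioi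
      intro y hy
      have h1 := (hdd σ y le_rfl (le_of_lt hy)).continuousAt
      exact (ContinuousAt.comp (f := fun y : ℝ => (σ : ℂ) + y * I) h1
        (by fun_prop)).continuousWithinAt
    · rw [ae_restrict_iff' measurableSet_Ioi]
      refine Eventually.of_forall (fun y hy => ?_)
      refine (hbd σ y le_rfl (le_of_lt hy)).trans (le_of_eq ?_)
      rw [sub_self, mul_zero, add_zero]
  refine ⟨i1, i2, ?_⟩
  have t1 : Tendsto (fun R : ℝ => ∫ x in (-R)..σ, f ((x : ℂ) + T * I)) atTop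
      (𝓝 (∫ x in Iic σ, f ((x : ℂ) + T * I))) :=
    intervalIntegral_tendsto_integral_Iic σ i1 tendsto_neg_atTop_atBot
  have t2 : Tendsto (fun R : ℝ => ∫ y in T..R, f ((σ : ℂ) + y * I)) atTop
      (𝓝 (∫ y in Ioi T, f ((σ : ℂ) + y * I))) :=
    intervalIntegral_tendsto_integral_Ioi T i2 tendsto_id
  have t3 : Tendsto (fun R : ℝ => ∫ x in (-R)..σ, f ((x : ℂ) + R * I)) atTop (𝓝 0) := by
    refine squeeze_zero_norm' (a := fun R : ℝ => A * Real.exp (-c * R) * (R + σ)) ?_
      (CVERT_tend1 A c σ hc)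
    filter_upwards [eventually_ge_atTop T, eventually_ge_atTop (-σ)] with R hR1 hR2
    have h := intervalIntegral.norm_integral_le_of_norm_le_const (a := -R) (b := σ)
      (f := fun x : ℝ => f ((x : ℂ) + R * I)) (C := A * Real.exp (-c * R)) (by
        intro x hx
        rw [uIoc_of_le (by linarith)] at hx
        refine (hbd x R hx.2 hR1).trans ?_
        refine mul_le_mul_of_nonneg_left ?_ hA
        refine Real.exp_le_exp.mpr ?_
        have h5 : κ * (x - σ) ≤ 0 :=
          mul_nonpos_of_nonneg_of_nonpos hκ.le (by linarith [hx.2])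
        linarith)
    refine h.trans (le_of_eq ?_)
    rw [abs_of_nonneg (by linarith)]
    ring
  have t4 : Tendsto (fun R : ℝ => ∫ y in T..R, f (((-R : ℝ) : ℂ) + y * I)) atTop (𝓝 0) := by
    refine squeeze_zero_norm' (a := fun R : ℝ => A * Real.exp (-κ * σ) * Real.exp (-κ * R) *
      (R + (-T))) ?_ (CVERT_tend1 (A * Real.exp (-κ * σ)) κ (-T) hκ)
    filter_upwards [eventually_ge_atTop T, eventually_ge_atTop (-σ)] with R hR1 hR2
    have h := intervalIntegral.norm_integral_le_of_norm_le_const (a := T) (b := R)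
      (f := fun y : ℝ => f (((-R : ℝ) : ℂ) + y * I))
      (C := A * Real.exp (-κ * σ) * Real.exp (-κ * R)) (by
        intro y hy
        rw [uIoc_of_le hR1] at hy
        refine (hbd (-R) y (by linarith) hy.1.le).trans ?_
        rw [mul_assoc, ← Real.exp_add]
        refine mul_le_mul_of_nonneg_left ?_ hA
        refine Real.exp_le_exp.mpr ?_
        have h5 : 0 ≤ c * y := mul_nonneg hc.le (by linarith [hy.1])
        nlinarith)
    refine h.trans (le_of_eq ?_)
    rw [abs_of_nonneg (by linarith)]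
    ring
  have key : ∀ᶠ R : ℝ in atTop,
      (∫ x in (-R)..σ, f ((x : ℂ) + T * I)) - (∫ x in (-R)..σ, f ((x : ℂ) + R * I)) +
        I * (∫ y in T..R, f ((σ : ℂ) + y * I)) -
        I * (∫ y in T..R, f (((-R : ℝ) : ℂ) + y * I)) = 0 := by
    filter_upwards [eventually_ge_atTop T, eventually_ge_atTop (-σ)] with R hR1 hR2
    have h := Complex.integral_boundary_rect_eq_zero_of_differentiableOn f
      (((-R : ℝ) : ℂ) + T * I) ((σ : ℂ) + R * I) (by
        rw [re1, re1, im1, im1]
        intro z hz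
        rw [mem_reProdIm, uIcc_of_le (by linarith), uIcc_of_le hR1] at hz
        exact (hd z hz.1.2 hz.2.1).differentiableWithinAt)
    rw [re1, re1, im1, im1] at h
    simpa only [smul_eq_mul] using h
  have t5 := ((t1.sub t3).add (t2.const_mul I)).sub (t4.const_mul I)
  have t6 := t5.congr' key
  have t7 := tendsto_nhds_unique t6 tendsto_const_nhds
  rw [sub_zero, mul_zero, sub_zero] at t7
  linear_combination t7

/-- The integral over the lower left quadrant boundary. -/
theorem CVERT_lo {f : ℂ → ℂ} {σ T A c κ : ℝ} (hT : 0 < T) (hc : 0 < c) (hκ : 0 < κ)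
    (hA : 0 ≤ A)
    (hd : ∀ z : ℂ, z.re ≤ σ → z.im ≤ -T → DifferentiableAt ℂ f z)
    (hb : ∀ z : ℂ, z.re ≤ σ → z.im ≤ -T →
      ‖f z‖ ≤ A * Real.exp (c * z.im + κ * (z.re - σ))) :
    IntegrableOn (fun x : ℝ => f ((x : ℂ) - T * I)) (Iic σ) ∧
    IntegrableOn (fun y : ℝ => f ((σ : ℂ) + y * I)) (Iic (-T)) ∧
    (∫ x in Iic σ, f ((x : ℂ) - T * I)) = I * ∫ y in Iic (-T), f ((σ : ℂ) + y * I) := by
  have re1 : ∀ x y : ℝ, ((x : ℂ) + y * I).re = x := by intro x y; simp
  have im1 : ∀ x y : ℝ, ((x : ℂ) + y * I).im = y := by intro x y; simp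
  have sg : ∀ x y : ℝ, (x : ℂ) - y * I = (x : ℂ) + ((-y : ℝ) : ℂ) * I := by
    intro x y
    rw [Complex.ofReal_neg]
    ring
  have hbd : ∀ x y : ℝ, x ≤ σ → y ≤ -T →
      ‖f ((x : ℂ) + y * I)‖ ≤ A * Real.exp (c * y + κ * (x - σ)) := by
    intro x y hx hy
    have h := hb ((x : ℂ) + y * I) (by rw [re1]; exact hx) (by rw [im1]; exact hy)
    rw [re1, im1] at h
    exact h
  have hdd : ∀ x y : ℝ, x ≤ σ → y ≤ -T → DifferentiableAt ℂ f ((x : ℂ) + y * I) := by
    intro x y hx hy
    exact hd _ (by rw [re1]; exact hx) (by rw [im1]; exact hy)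
  simp only [sg]
  have i1 : IntegrableOn (fun x : ℝ => f ((x : ℂ) + ((-T : ℝ) : ℂ) * I)) (Iic σ) := by
    refine Integrable.mono' (CVERT_expIic σ κ hκ (A * Real.exp (c * (-T) - κ * σ))) ?_ ?_
    · refine ContinuousOn.aestronglyMeasurable ?_ measurableSet_Iic
      intro x hx
      have h1 := (hdd x (-T) hx le_rfl).continuousAt
      exact (ContinuousAt.comp (f := fun x : ℝ => (x : ℂ) + ((-T : ℝ) : ℂ) * I) h1
        (by fun_prop)).continuousWithinAt
    · rw [ae_restrict_iff' measurableSet_Iic]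
      refine Eventually.of_forall (fun x hx => ?_)
      refine (hbd x (-T) hx le_rfl).trans (le_of_eq ?_)
      rw [mul_assoc, ← Real.exp_add]
      congr 2
      ring
  have i2 : IntegrableOn (fun y : ℝ => f ((σ : ℂ) + y * I)) (Iic (-T)) := by
    refine Integrable.mono' (CVERT_expIic (-T) c hc A) ?_ ?_
    · refine ContinuousOn.aestronglyMeasurable ?_ measurableSet_Iic
      intro y hy
      have h1 := (hdd σ y le_rfl hy).continuousAt
      exact (ContinuousAt.comp (f := fun y : ℝ => (σ : ℂ) + y * I) h1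
        (by fun_prop)).continuousWithinAt
    · rw [ae_restrict_iff' measurableSet_Iic]
      refine Eventually.of_forall (fun y hy => ?_)
      refine (hbd σ y le_rfl hy).trans (le_of_eq ?_)
      rw [sub_self, mul_zero, add_zero]
  refine ⟨i1, i2, ?_⟩
  have t1 : Tendsto (fun R : ℝ => ∫ x in (-R)..σ, f ((x : ℂ) + ((-T : ℝ) : ℂ) * I)) atTop
      (𝓝 (∫ x in Iic σ, f ((x : ℂ) + ((-T : ℝ) : ℂ) * I))) :=
    intervalIntegral_tendsto_integral_Iic σ i1 tendsto_neg_atTop_atBot
  have t2 : Tendsto (fun R : ℝ => ∫ y in (-R)..(-T), f ((σ : ℂ) + y * I)) atTop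
      (𝓝 (∫ y in Iic (-T), f ((σ : ℂ) + y * I))) :=
    intervalIntegral_tendsto_integral_Iic (-T) i2 tendsto_neg_atTop_atBot
  have t3 : Tendsto (fun R : ℝ => ∫ x in (-R)..σ, f ((x : ℂ) + ((-R : ℝ) : ℂ) * I)) atTop
      (𝓝 0) := by
    refine squeeze_zero_norm' (a := fun R : ℝ => A * Real.exp (-c * R) * (R + σ)) ?_
      (CVERT_tend1 A c σ hc)
    filter_upwards [eventually_ge_atTop T, eventually_ge_atTop (-σ)] with R hR1 hR2
    have h := intervalIntegral.norm_integral_le_of_norm_le_const (a := -R) (b := σ)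
      (f := fun x : ℝ => f ((x : ℂ) + ((-R : ℝ) : ℂ) * I)) (C := A * Real.exp (-c * R)) (by
        intro x hx
        rw [uIoc_of_le (by linarith)] at hx
        refine (hbd x (-R) hx.2 (by linarith)).trans ?_
        refine mul_le_mul_of_nonneg_left ?_ hA
        refine Real.exp_le_exp.mpr ?_
        have h5 : κ * (x - σ) ≤ 0 :=
          mul_nonpos_of_nonneg_of_nonpos hκ.le (by linarith [hx.2])
        linarith)
    refine h.trans (le_of_eq ?_)
    rw [abs_of_nonneg (by linarith)]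
    ring
  have t4 : Tendsto (fun R : ℝ => ∫ y in (-R)..(-T), f (((-R : ℝ) : ℂ) + y * I)) atTop
      (𝓝 0) := by
    refine squeeze_zero_norm' (a := fun R : ℝ => A * Real.exp (-κ * σ) * Real.exp (-κ * R) *
      (R + (-T))) ?_ (CVERT_tend1 (A * Real.exp (-κ * σ)) κ (-T) hκ)
    filter_upwards [eventually_ge_atTop T, eventually_ge_atTop (-σ)] with R hR1 hR2
    have h := intervalIntegral.norm_integral_le_of_norm_le_const (a := -R) (b := -T)
      (f := fun y : ℝ => f (((-R : ℝ) : ℂ) + y * I))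
      (C := A * Real.exp (-κ * σ) * Real.exp (-κ * R)) (by
        intro y hy
        rw [uIoc_of_le (by linarith)] at hy
        refine (hbd (-R) y (by linarith) hy.2).trans ?_
        rw [mul_assoc, ← Real.exp_add]
        refine mul_le_mul_of_nonneg_left ?_ hA
        refine Real.exp_le_exp.mpr ?_
        have h5 : c * y ≤ 0 := mul_nonpos_of_nonneg_of_nonpos hc.le (by linarith [hy.2])
        nlinarith)
    refine h.trans (le_of_eq ?_)
    rw [abs_of_nonneg (by linarith)]
    ring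
  have key : ∀ᶠ R : ℝ in atTop,
      (∫ x in (-R)..σ, f ((x : ℂ) + ((-R : ℝ) : ℂ) * I)) -
        (∫ x in (-R)..σ, f ((x : ℂ) + ((-T : ℝ) : ℂ) * I)) +
        I * (∫ y in (-R)..(-T), f ((σ : ℂ) + y * I)) -
        I * (∫ y in (-R)..(-T), f (((-R : ℝ) : ℂ) + y * I)) = 0 := by
    filter_upwards [eventually_ge_atTop T, eventually_ge_atTop (-σ)] with R hR1 hR2
    have h := Complex.integral_boundary_rect_eq_zero_of_differentiableOn f
      (((-R : ℝ) : ℂ) + ((-R : ℝ) : ℂ) * I) ((σ : ℂ) + ((-T : ℝ) : ℂ) * I) (by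
        rw [re1, re1, im1, im1]
        intro z hz
        rw [mem_reProdIm, uIcc_of_le (by linarith), uIcc_of_le (by linarith)] at hz
        exact (hd z hz.1.2 hz.2.2).differentiableWithinAt)
    rw [re1, re1, im1, im1] at h
    simpa only [smul_eq_mul] using h
  have t5 := ((t3.sub t1).add (t2.const_mul I)).sub (t4.const_mul I)
  have t6 := t5.congr' key
  have t7 := tendsto_nhds_unique t6 tendsto_const_nhds
  rw [zero_sub, mul_zero, sub_zero] at t7
  linear_combination -t7

/-- Proof. Upper end: for `X, Y` large the boundary integral of `f` over the rectangle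
`[-X, σ] × [T, Y]` is zero. As `X → ∞` the left side tends to zero (`‖f‖ ≤ A exp (κ (-X - σ))` there), and as
`Y → ∞` the top side tends to zero (`∫_{x ≤ σ} A exp (-c Y + κ (x - σ)) dx = (A / κ) exp (-c Y)`). So
`∫_{x ≤ σ} f (x + i T) dx = - I ∫_{y > T} f (σ + i y) dy`. The lower end in the same way:
`∫_{x ≤ σ} f (x - i T) dx = I ∫_{y < -T} f (σ + i y) dy`. The function `y ↦ f (σ + i y)` is integrable on `ℝ`
(continuous, exponentially decreasing). -/
theorem LInt_eq_vertical {f : ℂ → ℂ} {σ T A c κ : ℝ} (hT : 0 < T) (hc : 0 < c) (hκ : 0 < κ)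
    (hseg : ∀ y : ℝ, |y| ≤ T → DifferentiableAt ℂ f ((σ : ℂ) + y * I))
    (hd : ∀ z : ℂ, z.re ≤ σ → T ≤ |z.im| → DifferentiableAt ℂ f z)
    (hb : ∀ z : ℂ, z.re ≤ σ → T ≤ |z.im| →
      ‖f z‖ ≤ A * Real.exp (-c * |z.im| + κ * (z.re - σ))) :
    Integrable (fun y : ℝ => f ((σ : ℂ) + y * I)) ∧
      LInt f σ T = I * ∫ y : ℝ, f ((σ : ℂ) + y * I) := by
  have hA : 0 ≤ A := by
    have h := hb ((σ : ℂ) + T * I) (by simp) (by simp [abs_of_pos hT])
    have h2 := (norm_nonneg _).trans h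
    by_contra h3
    push Not at h3
    have := mul_neg_of_neg_of_pos h3 (Real.exp_pos (-c * |((σ : ℂ) + T * I).im| +
      κ * (((σ : ℂ) + T * I).re - σ)))
    linarith
  obtain ⟨u1, u2, u3⟩ := CVERT_up (f := f) (σ := σ) (T := T) (A := A) (c := c) (κ := κ)
    hT hc hκ hA
    (fun z h1 h2 => hd z h1 (h2.trans (le_abs_self _)))
    (fun z h1 h2 => by
      have h := hb z h1 (h2.trans (le_abs_self _))
      rw [abs_of_nonneg (by linarith)] at h
      exact h)
  obtain ⟨l1, l2, l3⟩ := CVERT_lo (f := f) (σ := σ) (T := T) (A := A) (c := c) (κ := κ)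
    hT hc hκ hA
    (fun z h1 h2 => hd z h1 (le_abs.mpr (Or.inr (by linarith))))
    (fun z h1 h2 => by
      have h := hb z h1 (le_abs.mpr (Or.inr (by linarith)))
      rw [abs_of_nonpos (by linarith), neg_mul_neg] at h
      exact h)
  have hm : ContinuousOn (fun y : ℝ => f ((σ : ℂ) + y * I)) (Icc (-T) T) := by
    intro y hy
    have h1 := (hseg y (abs_le.mpr hy)).continuousAt
    exact (ContinuousAt.comp (f := fun y : ℝ => (σ : ℂ) + y * I) h1
      (by fun_prop)).continuousWithinAt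
  have hm2 : IntegrableOn (fun y : ℝ => f ((σ : ℂ) + y * I)) (Icc (-T) T) :=
    hm.integrableOn_Icc
  have hioi : IntegrableOn (fun y : ℝ => f ((σ : ℂ) + y * I)) (Ioi (-T)) := by
    have h := (hm2.mono_set Ioc_subset_Icc_self).union u2
    rw [Ioc_union_Ioi_eq_Ioi (by linarith)] at h
    exact h
  have hint : Integrable (fun y : ℝ => f ((σ : ℂ) + y * I)) := by
    have h := l2.union hioi
    rw [Iic_union_Ioi] at h
    exact integrableOn_univ.mp h
  refine ⟨hint, ?_⟩
  have e1 := intervalIntegral.integral_Iic_add_Ioi l2 hioi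
  have e2 := intervalIntegral.integral_interval_add_Ioi hioi u2
  unfold LInt
  rw [u3, l3, ← e1, ← e2]
  ring

/-- Mirror image of `LInt_eq_vertical`. -/
theorem RInt_eq_vertical {f : ℂ → ℂ} {σ T A c κ : ℝ} (hT : 0 < T) (hc : 0 < c) (hκ : 0 < κ)
    (hseg : ∀ y : ℝ, |y| ≤ T → DifferentiableAt ℂ f ((σ : ℂ) + y * I))
    (hd : ∀ z : ℂ, σ ≤ z.re → T ≤ |z.im| → DifferentiableAt ℂ f z)
    (hb : ∀ z : ℂ, σ ≤ z.re → T ≤ |z.im| →
      ‖f z‖ ≤ A * Real.exp (-c * |z.im| - κ * (z.re - σ))) :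
    Integrable (fun y : ℝ => f ((σ : ℂ) + y * I)) ∧
      RInt f σ T = I * ∫ y : ℝ, f ((σ : ℂ) + y * I) := by
  have hdn : ∀ z : ℂ, DifferentiableAt ℂ f (-z) → DifferentiableAt ℂ (fun w => f (-w)) z := by
    intro z hz
    exact DifferentiableAt.comp (f := fun w : ℂ => -w) z hz (differentiable_neg z)
  obtain ⟨m1, m2⟩ := LInt_eq_vertical (f := fun z => f (-z)) (σ := -σ) (T := T) (A := A)
    (c := c) (κ := κ) hT hc hκ
    (fun y hy => by
      refine hdn _ ?_
      have h := hseg (-y) (by rw [abs_neg]; exact hy)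
      have e : -(((-σ : ℝ) : ℂ) + (y : ℂ) * I) = (σ : ℂ) + ((-y : ℝ) : ℂ) * I := by
        push_cast
        ring
      rw [e]
      exact h)
    (fun z h1 h2 => by
      refine hdn _ (hd _ ?_ ?_)
      · rw [Complex.neg_re]; linarith
      · rw [Complex.neg_im, abs_neg]; exact h2)
    (fun z h1 h2 => by
      have h := hb (-z) (by rw [Complex.neg_re]; linarith)
        (by rw [Complex.neg_im, abs_neg]; exact h2)
      rw [Complex.neg_im, abs_neg, Complex.neg_re] at h
      refine h.trans (le_of_eq ?_)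
      congr 2
      ring)
  have e : ∀ y : ℝ, -(((-σ : ℝ) : ℂ) + (y : ℂ) * I) = (σ : ℂ) + ((-y : ℝ) : ℂ) * I := by
    intro y
    push_cast
    ring
  simp only [e] at m1 m2
  have hint : Integrable (fun y : ℝ => f ((σ : ℂ) + y * I)) := by
    have h := m1.comp_neg
    simp only [neg_neg] at h
    exact h
  refine ⟨hint, ?_⟩
  have e3 : ∫ y : ℝ, f ((σ : ℂ) + ((-y : ℝ) : ℂ) * I) = ∫ y : ℝ, f ((σ : ℂ) + (y : ℂ) * I) :=
    integral_neg_eq_self (fun y : ℝ => f ((σ : ℂ) + (y : ℂ) * I)) volume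
  rw [e3] at m2
  rw [← m2]
  unfold LInt RInt
  simp only [e]
  have a1 : ∫ x in Iic (-σ), f (-((x : ℂ) - T * I)) = ∫ x in Ioi σ, f ((x : ℂ) + T * I) := by
    have h := integral_comp_neg_Iic (-σ) (fun x : ℝ => f ((x : ℂ) + T * I))
    rw [neg_neg] at h
    rw [← h]
    refine integral_congr_ae (Eventually.of_forall (fun x => ?_))
    simp only
    congr 1
    push_cast
    ring
  have a2 : ∫ x in Iic (-σ), f (-((x : ℂ) + T * I)) = ∫ x in Ioi σ, f ((x : ℂ) - T * I) := by
    have h := integral_comp_neg_Iic (-σ) (fun x : ℝ => f ((x : ℂ) - T * I))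
    rw [neg_neg] at h
    rw [← h]
    refine integral_congr_ae (Eventually.of_forall (fun x => ?_))
    simp only
    congr 1
    push_cast
    ring
  have a3 : ∫ y in (-T)..T, f ((σ : ℂ) + ((-y : ℝ) : ℂ) * I) =
      ∫ y in (-T)..T, f ((σ : ℂ) + (y : ℂ) * I) := by
    have h := intervalIntegral.integral_comp_neg (a := -T) (b := T)
      (fun y : ℝ => f ((σ : ℂ) + (y : ℂ) * I))
    rw [neg_neg] at h
    exact h
  rw [a1, a2, a3]
  ring

end Ghost
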