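import Mathlib

/-!
# Ghost SICs: definitions

The double sine function `G` with periods `b`, `o = 1 / b`, the functions on the two kinds of
contours, and the notation of the blueprint (see `Blueprint.md`).
-/

open Complex MeasureTheory Set Filter Topology
open scoped Real ComplexConjugate

namespace Ghost

/-- `e x = exp (2 π i x)`. -/
noncomputable def e (x : ℂ) : ℂ := Complex.exp (2 * π * I * x)

/-- The parameters: two positive numbers with product one. -/
structure Par where
  b : ℝ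
  o : ℝ
  hb : 0 < b
  ho : 0 < o
  hbo : b * o = 1

/-- Exchange of the two parameters. -/
def Par.swap (P : Par) : Par := ⟨P.o, P.b, P.ho, P.hb, by rw [mul_comm]; exact P.hbo⟩

/-- `Q = b + o`. -/
noncomputable def Par.Q (P : Par) : ℝ := P.b + P.o

/-- `a = b - o`. -/
noncomputable def Par.a (P : Par) : ℝ := P.b - P.o

/-- `m = a / Q`. -/
noncomputable def Par.m (P : Par) : ℝ := P.a / P.Q

/-- The quadratic unit of dimension `d`. -/
structure Par.IsUnit (P : Par) (d : ℕ) : Prop where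
  hd : 4 ≤ d
  hub : 1 < P.b
  rel : P.b ^ 2 + P.o ^ 2 = (d : ℝ) - 1

/-- `2 sin (π b x)`. -/
noncomputable def sb (P : Par) (x : ℂ) : ℂ := 2 * Complex.sin (π * P.b * x)

/-- `2 sin (π o x)`. -/
noncomputable def so (P : Par) (x : ℂ) : ℂ := 2 * Complex.sin (π * P.o * x)

/-- The logarithmic sine integral. -/
noncomputable def Phi (z : ℂ) : ℂ :=
  ∫ t in Ioi (0 : ℝ), (Complex.cosh ((2 * z - 1) * t) / Real.sinh t - 1 / t) / t

/-- The integrand of the logarithm of the double sine function. -/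
noncomputable def kern (P : Par) (x : ℂ) (t : ℝ) : ℂ :=
  (Complex.sinh ((2 * x - P.Q) * t) / (2 * Real.sinh (P.b * t) * Real.sinh (P.o * t)) -
    (2 * x - P.Q) / (2 * t)) / t

/-- Minus the logarithm of the double sine function, for `0 < re x < Q`. -/
noncomputable def II (P : Par) (x : ℂ) : ℂ := ∫ t in Ioi (0 : ℝ), kern P x t

/-- The double sine function in the strip `0 < re x < Q`. -/
noncomputable def G0 (P : Par) (x : ℂ) : ℂ := Complex.exp (-(II P x))

/-- The number of shifts by `b` which move `x` to the strip `0 < re x ≤ b`. -/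
noncomputable def shiftN (P : Par) (x : ℂ) : ℤ := ⌈x.re / P.b⌉ - 1

/-- The product of sines in the extension of the double sine function. -/
noncomputable def cocyc (P : Par) (x : ℂ) : ℤ → ℂ
  | Int.ofNat n => ∏ j ∈ Finset.range n, sb P (x - ((j : ℂ) + 1) * P.b)
  | Int.negSucc n => (∏ j ∈ Finset.range (n + 1), sb P (x + (j : ℂ) * P.b))⁻¹

/-- The double sine function, normalised by `G (x + b) = 2 sin (π b x) G x`,
`G (x + o) = 2 sin (π o x) G x`, `G x G (Q - x) = 1`. -/
noncomputable def G (P : Par) (x : ℂ) : ℂ :=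
  G0 P (x - (shiftN P x : ℂ) * P.b) * cocyc P x (shiftN P x)

/-- The poles of `G`: the points `-(m b + n o)` with natural numbers `m`, `n`. -/
def Pole (P : Par) (x : ℂ) : Prop := ∃ m n : ℕ, x = -((m : ℂ) * P.b + (n : ℂ) * P.o)

/-- Contour integral: from `-∞ - i T` to `σ - i T`, up to `σ + i T`, and back to `-∞ + i T`. -/
noncomputable def LInt (f : ℂ → ℂ) (σ T : ℝ) : ℂ :=
  (∫ x in Iic σ, f ((x : ℂ) - T * I)) + I * (∫ y in (-T)..T, f ((σ : ℂ) + y * I)) -
    ∫ x in Iic σ, f ((x : ℂ) + T * I)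

/-- Contour integral: from `+∞ - i T` to `σ - i T`, up to `σ + i T`, and to `+∞ + i T`. -/
noncomputable def RInt (f : ℂ → ℂ) (σ T : ℝ) : ℂ :=
  -(∫ x in Ioi σ, f ((x : ℂ) - T * I)) + I * (∫ y in (-T)..T, f ((σ : ℂ) + y * I)) +
    ∫ x in Ioi σ, f ((x : ℂ) + T * I)

/-- `p = (o η - N) / Q`. -/
noncomputable def pN (P : Par) (N : ℤ) (η : ℂ) : ℂ := (P.o * η - N) / P.Q

/-- `r = (b η + N) / Q`. -/
noncomputable def rN (P : Par) (N : ℤ) (η : ℂ) : ℂ := (P.b * η + N) / P.Q

/-- The function `h_N`. -/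
noncomputable def hN (P : Par) (N : ℤ) (η : ℂ) : ℂ :=
  G P (pN P N η + P.b) * G P (rN P N η + P.o) * G P (-η)

/-- The function `R_N`. -/
noncomputable def RN (P : Par) (N : ℤ) (η : ℂ) : ℂ :=
  (-1) ^ N * (G P (pN P N η + P.b) * G P (rN P N η) * G P (P.Q - η))

/-- `ζ = (d η + b N) / Q`. -/
noncomputable def zetaN (P : Par) (d : ℕ) (N : ℤ) (η : ℂ) : ℂ := (d * η + P.b * N) / P.Q

/-- The lattice points `η_j = (Q j - b N) / d`. -/
noncomputable def etaJ (P : Par) (d : ℕ) (N j : ℤ) : ℝ := (P.Q * j - P.b * N) / d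

/-- The real ghost overlaps (times `Q`): `R_N (η_j)`. -/
noncomputable def Rr (P : Par) (d : ℕ) (N j : ℤ) : ℂ := RN P N (etaJ P d N j)

/-- The integrand of `V`. -/
noncomputable def Vf (P : Par) (s : ℝ) (z X : ℂ) : ℂ := G P X * e (s * P.m / 4 * X ^ 2 + z * X)

end Ghost
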