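import Pool.Agent.Lib_MP_1c78a5_ghost.Defs

/-!
# Piece DIO: the quadratic unit is badly approximable
-/

open Complex MeasureTheory Set Filter Topology
open scoped Real ComplexConjugate

namespace Ghost

/-- `b ^ 2` is irrational: it is a root of `X ^ 2 - (d - 1) X + 1` (`o ^ 2 = 1 / b ^ 2`), so
`(2 b ^ 2 - (d - 1)) ^ 2 = (d - 1) ^ 2 - 4`, and
`(d - 2) ^ 2 < (d - 1) ^ 2 - 4 < (d - 1) ^ 2` for `d ≥ 4`, so the right side is not a square of a rational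
number (a rational square root of an integer is an integer). -/
theorem irr_b2 {P : Par} {d : ℕ} (hU : P.IsUnit d) : Irrational (P.b ^ 2) := by
  have hd : (4 : ℝ) ≤ d := by exact_mod_cast hU.hd
  have hx : P.b ^ 2 * P.o ^ 2 = 1 := by rw [← mul_pow, P.hbo, one_pow]
  have hrel := hU.rel
  have hy : (2 * P.b ^ 2 - ((d : ℝ) - 1)) ^ 2 = (((d : ℤ) - 1) ^ 2 - 4 : ℤ) := by
    push_cast
    have h1 : P.o ^ 2 = (d : ℝ) - 1 - P.b ^ 2 := by linarith
    rw [h1] at hx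
    linear_combination -4 * hx
  have hirr : Irrational (2 * P.b ^ 2 - ((d : ℝ) - 1)) := by
    refine irrational_nrt_of_notint_nrt 2 _ hy ?_ (by norm_num)
    rintro ⟨k, hk⟩
    rw [hk] at hy
    have h2 : k ^ 2 = ((d : ℤ) - 1) ^ 2 - 4 := by exact_mod_cast hy
    have hd' : (4 : ℤ) ≤ d := by exact_mod_cast hU.hd
    have h3 : |k| < (d : ℤ) - 1 := abs_lt_of_sq_lt_sq (by linarith) (by linarith)
    have h4 : (d : ℤ) - 2 < |k| := by
      refine lt_of_pow_lt_pow_left₀ 2 (abs_nonneg k) ?_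
      rw [sq_abs]
      nlinarith
    omega
  rintro ⟨q, hq⟩
  apply hirr
  refine ⟨2 * q - ((d : ℚ) - 1), ?_⟩
  push_cast
  rw [hq]

theorem o_lt_b {P : Par} {d : ℕ} (hU : P.IsUnit d) : P.o < P.b := by
  have h1 := hU.hub
  have h2 := P.hbo
  have h3 := P.ho
  nlinarith

/-- `m b + n o = 0` with integers implies `m = n = 0` (multiply by `b`: `m b ^ 2 + n = 0`). -/
theorem int_comb {P : Par} {d : ℕ} (hU : P.IsUnit d) (m n : ℤ)
    (h : (m : ℝ) * P.b + n * P.o = 0) : m = 0 ∧ n = 0 := by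
  have h1 : (m : ℝ) * P.b ^ 2 + n = 0 := by
    have h2 : P.b * ((m : ℝ) * P.b + n * P.o) = 0 := by rw [h, mul_zero]
    have h3 : P.b * ((m : ℝ) * P.b + n * P.o) = m * P.b ^ 2 + n * (P.b * P.o) := by ring
    rw [h3, P.hbo, mul_one] at h2
    exact h2
  have hm : m = 0 := by
    by_contra hm
    have hm' : (m : ℝ) ≠ 0 := by exact_mod_cast hm
    apply irr_b2 hU
    refine ⟨-n / m, ?_⟩
    push_cast
    field_simp
    linarith
  refine ⟨hm, ?_⟩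
  rw [hm] at h1
  simpa using h1

/-- The subgroup of `ℝ` generated by `b` and `o` is dense (`b / o = b ^ 2` is irrational; Mathlib:
`dense_addSubgroupClosure_pair_iff` or similar). -/
theorem dense_periods {P : Par} {d : ℕ} (hU : P.IsUnit d) :
    Dense ((AddSubgroup.closure {P.b, P.o} : AddSubgroup ℝ) : Set ℝ) := by
  rw [dense_addSubgroupClosure_pair_iff]
  have h : P.b / P.o = P.b ^ 2 := by
    rw [div_eq_iff P.ho.ne']
    calc P.b = P.b * (P.b * P.o) := by rw [P.hbo, mul_one]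
      _ = P.b ^ 2 * P.o := by ring
  rw [h]
  exact irr_b2 hU

theorem DIO_norm (θ : ℝ) (m : ℤ) (hm : |θ - m| ≤ 1 / 2) : 4 * |θ - m| ≤ ‖1 - e (θ : ℂ)‖ := by
  have h1 : e (θ : ℂ) = Complex.exp (I * ((2 * π * (θ - m) : ℝ) : ℂ)) := by
    unfold e
    have h2 : (2 : ℂ) * π * I * θ = I * ((2 * π * (θ - m) : ℝ) : ℂ) + m * (2 * π * I) := by
      push_cast
      ring
    rw [h2, Complex.exp_add, Complex.exp_int_mul_two_pi_mul_I, mul_one]
  rw [h1, norm_sub_rev, Complex.norm_exp_I_mul_ofReal_sub_one]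
  have h3 : 2 * π * (θ - m) / 2 = π * (θ - m) := by ring
  rw [h3, Real.norm_eq_abs, abs_mul, abs_two]
  have h4 : 2 / π * |π * (θ - m)| ≤ |Real.sin (π * (θ - m))| := by
    apply Real.mul_abs_le_abs_sin
    rw [abs_mul, abs_of_pos Real.pi_pos]
    have := mul_le_mul_of_nonneg_left hm Real.pi_pos.le
    linarith
  rw [abs_mul, abs_of_pos Real.pi_pos] at h4
  have h5 : 2 / π * (π * |θ - m|) = 2 * |θ - m| := by
    have := Real.pi_ne_zero
    field_simp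
  rw [h5] at h4
  linarith

/-- Lower bound for the small denominators.

Proof. Let `m` be an integer with `|n b ^ 2 - m| ≤ 1 / 2`. The number
`(n b ^ 2 - m) (n o ^ 2 - m) = n ^ 2 - n m (d - 1) + m ^ 2` is an integer, and it is not zero because
`b ^ 2` and `o ^ 2 = d - 1 - b ^ 2` are irrational. So
`|n b ^ 2 - m| ≥ 1 / |n o ^ 2 - m|` and `|n o ^ 2 - m| ≤ |n b ^ 2 - m| + n |b ^ 2 - o ^ 2| ≤ 1 / 2 + n d ≤ 2 n d`.
Finally `‖1 - e θ‖ = 2 |sin (π θ)| = 2 |sin (π (θ - m))| ≥ 4 |θ - m|` if `|θ - m| ≤ 1 / 2`. For `o ^ 2`: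
`e (n o ^ 2) = e (- n b ^ 2)` because `b ^ 2 + o ^ 2` is an integer, so
`‖1 - e (n o ^ 2)‖ = ‖1 - e (n b ^ 2)‖`. So `c = 2 / d` is possible. -/
theorem dioph {P : Par} {d : ℕ} (hU : P.IsUnit d) : ∃ c : ℝ, 0 < c ∧ ∀ n : ℕ, 1 ≤ n →
    c / n ≤ ‖1 - e ((n : ℂ) * (P.b : ℂ) ^ 2)‖ ∧ c / n ≤ ‖1 - e ((n : ℂ) * (P.o : ℂ) ^ 2)‖ := by
  have hd : (4 : ℝ) ≤ d := by exact_mod_cast hU.hd
  have hd0 : (0 : ℝ) < d := by linarith
  refine ⟨4 / d, by positivity, fun n hn => ?_⟩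
  have hn1 : (1 : ℝ) ≤ n := by exact_mod_cast hn
  have hn0 : (0 : ℝ) < n := by linarith
  have hx : P.b ^ 2 * P.o ^ 2 = 1 := by rw [← mul_pow, P.hbo, one_pow]
  have hrel := hU.rel
  have ho : P.o ^ 2 = (d : ℝ) - 1 - P.b ^ 2 := by linarith
  obtain ⟨m, hm⟩ : ∃ m : ℤ, m = round ((n : ℝ) * P.b ^ 2) := ⟨_, rfl⟩
  have hr : |(n : ℝ) * P.b ^ 2 - m| ≤ 1 / 2 := by rw [hm]; exact abs_sub_round _
  have hir := irr_b2 hU
  -- the two factors do not vanish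
  have hx0 : (n : ℝ) * P.b ^ 2 - m ≠ 0 := by
    intro h0
    apply hir
    refine ⟨m / n, ?_⟩
    push_cast
    field_simp
    linarith
  have hy0 : (n : ℝ) * P.o ^ 2 - m ≠ 0 := by
    intro h0
    rw [ho] at h0
    apply hir
    refine ⟨(n * ((d : ℚ) - 1) - m) / n, ?_⟩
    push_cast
    field_simp
    linarith
  have hprod : (1 : ℝ) ≤ |(n : ℝ) * P.b ^ 2 - m| * |(n : ℝ) * P.o ^ 2 - m| := by
    rw [← abs_mul]
    have h1 : ((n : ℝ) * P.b ^ 2 - m) * ((n : ℝ) * P.o ^ 2 - m) =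
        (((n : ℤ) ^ 2 - n * m * ((d : ℤ) - 1) + m ^ 2 : ℤ) : ℝ) := by
      push_cast
      linear_combination (n : ℝ) ^ 2 * hx - (n : ℝ) * m * hrel
    have h2 : (((n : ℤ) ^ 2 - n * m * ((d : ℤ) - 1) + m ^ 2 : ℤ) : ℝ) ≠ 0 := by
      rw [← h1]
      exact mul_ne_zero hx0 hy0
    rw [h1]
    have h3 : ((n : ℤ) ^ 2 - n * m * ((d : ℤ) - 1) + m ^ 2 : ℤ) ≠ 0 := by exact_mod_cast h2
    have h4 := Int.one_le_abs h3
    exact_mod_cast h4
  have hy1 : |(n : ℝ) * P.o ^ 2 - m| ≤ n * d := by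
    have h1 : (n : ℝ) * P.o ^ 2 - m = ((n : ℝ) * P.b ^ 2 - m) + n * (P.o ^ 2 - P.b ^ 2) := by ring
    rw [h1]
    refine (abs_add_le _ _).trans ?_
    have h2 : |(n : ℝ) * (P.o ^ 2 - P.b ^ 2)| ≤ n * ((d : ℝ) - 1) := by
      rw [abs_mul, abs_of_pos hn0]
      refine mul_le_mul_of_nonneg_left ?_ hn0.le
      rw [abs_le]
      have p1 := sq_nonneg P.b
      have p2 := sq_nonneg P.o
      constructor <;> linarith
    linarith
  have hlow : 4 / d / n ≤ 4 * |(n : ℝ) * P.b ^ 2 - m| := by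
    rw [div_div, div_le_iff₀ (by positivity)]
    have h1 : |(n : ℝ) * P.b ^ 2 - m| * |(n : ℝ) * P.o ^ 2 - m| ≤
        |(n : ℝ) * P.b ^ 2 - m| * (n * d) := mul_le_mul_of_nonneg_left hy1 (abs_nonneg _)
    linarith
  constructor
  · have h1 := DIO_norm ((n : ℝ) * P.b ^ 2) m hr
    refine hlow.trans (h1.trans (le_of_eq ?_))
    push_cast
    rfl
  · have h0 : (n : ℝ) * P.o ^ 2 - ((n * ((d : ℤ) - 1) - m : ℤ) : ℝ) =
        -((n : ℝ) * P.b ^ 2 - m) := by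
      push_cast
      rw [ho]
      ring
    have h1 := DIO_norm ((n : ℝ) * P.o ^ 2) (n * ((d : ℤ) - 1) - m) (by
      rw [h0, abs_neg]; exact hr)
    rw [h0, abs_neg] at h1
    refine hlow.trans (h1.trans (le_of_eq ?_))
    push_cast
    rfl

end Ghost
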