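import Pool.Agent.Lib_MP_1c78a5_ghost.FinP

/-!
# The ghost overlaps as products of double sine values in the strip
-/

open Complex MeasureTheory Set Filter Topology
open scoped Real ComplexConjugate

namespace Ghost

/-- The point `(m o + n b) / d`. -/
noncomputable def pt (P : Par) (d : ℕ) (m n : ℤ) : ℝ := (m * P.o + n * P.b) / d

theorem EXPL_add_o {P : Par} {d : ℕ} (hU : P.IsUnit d) (m n : ℤ) :
    pt P d (m + d) n = pt P d m n + P.o := by
  have hd := (d_pos hU).ne'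
  unfold pt
  push_cast
  field_simp
  ring

theorem EXPL_add_b {P : Par} {d : ℕ} (hU : P.IsUnit d) (m n : ℤ) :
    pt P d m (n + d) = pt P d m n + P.b := by
  have hd := (d_pos hU).ne'
  unfold pt
  push_cast
  field_simp
  ring

theorem EXPL_not_lattice {P : Par} {d : ℕ} (hU : P.IsUnit d) {m n : ℤ} (h : ¬ Sing d m n)
    (k l : ℤ) : pt P d m n ≠ k * P.b + l * P.o := by
  have hd := d_pos hU
  intro hp
  apply h
  unfold pt at hp
  rw [div_eq_iff hd.ne'] at hp
  have h1 := int_comb hU (d * k - n) (d * l - m) (by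
    push_cast
    linear_combination -hp)
  exact ⟨⟨l, by linear_combination -h1.2⟩, ⟨k, by linear_combination -h1.1⟩⟩

theorem EXPL_not_pole {P : Par} {d : ℕ} (hU : P.IsUnit d) {m n : ℤ} (h : ¬ Sing d m n) :
    ¬ Pole P (pt P d m n : ℂ) := by
  refine not_pole_shift P (EXPL_not_lattice hU h) 0 0 (Or.inl ?_)
  push_cast
  ring

theorem EXPL_G_o {P : Par} {d : ℕ} (hU : P.IsUnit d) {m n : ℤ} (h : ¬ Sing d m n) :
    G P (pt P d (m + d) n : ℂ) = so P (pt P d m n : ℂ) * G P (pt P d m n : ℂ) := by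
  rw [EXPL_add_o hU]
  push_cast
  exact G_add_o P (o_lt_b hU) (EXPL_not_pole hU h)

theorem EXPL_G_b {P : Par} {d : ℕ} (hU : P.IsUnit d) {m n : ℤ} (h : ¬ Sing d m n) :
    G P (pt P d m (n + d) : ℂ) = sb P (pt P d m n : ℂ) * G P (pt P d m n : ℂ) := by
  rw [EXPL_add_b hU]
  push_cast
  exact G_add_b P (EXPL_not_pole hU h)

theorem EXPL_Rr {P : Par} {d : ℕ} (hU : P.IsUnit d) (N j : ℤ) :
    Rr P d N j = (-1) ^ N * (G P (pt P d (j - N) (-N + d) : ℂ) * G P (pt P d N j : ℂ) *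
      G P (pt P d (-j + d) (N - j + d) : ℂ)) := by
  rw [Rr_eq hU]
  have hd := (d_pos hU).ne'
  have h1 : (pJ P d N j : ℂ) + P.b = (pt P d (j - N) (-N + d) : ℂ) := by
    rw [EXPL_add_b hU]
    push_cast
    congr 2
    unfold pJ pt Par.Q
    push_cast
    ring
  have h2 : rJ P d N j = pt P d N j := by
    unfold rJ pt
    ring
  have h3 : (P.Q : ℂ) - (etaJ P d N j : ℂ) = (pt P d (-j + d) (N - j + d) : ℂ) := by
    rw [EXPL_add_b hU, EXPL_add_o hU]
    have : P.Q - etaJ P d N j = pt P d (-j) (N - j) + P.o + P.b := by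
      unfold etaJ pt Par.Q
      push_cast
      ring
    rw [← this]
    push_cast
    ring
  rw [h1, h2, h3]

/-- Values of the sine at the points. -/
theorem EXPL_sb (P : Par) (d : ℕ) (m n : ℤ) :
    sb P (pt P d m n : ℂ) = ((2 * Real.sin (π * ((m + n * P.b ^ 2) / d)) : ℝ) : ℂ) := by
  have h : P.b * pt P d m n = (m + n * P.b ^ 2) / d := by
    unfold pt
    have := P.hbo
    linear_combination (m / d : ℝ) * this
  unfold sb
  rw [← h]
  push_cast
  ring_nf

theorem EXPL_so (P : Par) (d : ℕ) (m n : ℤ) :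
    so P (pt P d m n : ℂ) = ((2 * Real.sin (π * ((m * P.o ^ 2 + n) / d)) : ℝ) : ℂ) := by
  have h : P.o * pt P d m n = (m * P.o ^ 2 + n) / d := by
    unfold pt
    have := P.hbo
    linear_combination (n / d : ℝ) * this
  unfold so
  rw [← h]
  push_cast
  ring_nf

/-- The crossing identity: `sin (π b x) = ± sin (π o y)` for two points in the same orbit. -/
theorem EXPL_cross {P : Par} {d : ℕ} (hU : P.IsUnit d) (m n : ℤ) :
    sb P (pt P d m n : ℂ) = (-1) ^ (n + 1) * so P (pt P d n (n - m) : ℂ) := by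
  rw [EXPL_sb, EXPL_so]
  have hd := (d_pos hU).ne'
  have h1 : π * ((m + n * P.b ^ 2) / d) =
      (n : ℤ) * π - π * ((n * P.o ^ 2 + ((n - m : ℤ) : ℝ)) / d) := by
    have := hU.rel
    push_cast
    field_simp
    linear_combination (n : ℝ) * this
  rw [h1, Real.sin_int_mul_pi_sub]
  push_cast
  rw [zpow_add₀ (by norm_num)]
  ring

theorem EXPL_so_neg (P : Par) (d : ℕ) (m n : ℤ) :
    so P (pt P d (-m) (-n) : ℂ) = - so P (pt P d m n : ℂ) := by
  rw [EXPL_so, EXPL_so]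
  have : π * ((((-m : ℤ) : ℝ) * P.o ^ 2 + ((-n : ℤ) : ℝ)) / d) =
      -(π * ((m * P.o ^ 2 + n) / d)) := by
    push_cast
    ring
  rw [this, Real.sin_neg]
  push_cast
  ring

theorem EXPL_sb_zero (P : Par) (d : ℕ) (m : ℤ) :
    sb P (pt P d m 0 : ℂ) = ((2 * Real.sin (π * m / d) : ℝ) : ℂ) := by
  rw [EXPL_sb]
  congr 3
  push_cast
  ring

theorem EXPL_sin_sub {d : ℕ} (hd : (d : ℝ) ≠ 0) (m : ℤ) :
    Real.sin (π * ((-m + d : ℤ) : ℝ) / d) = Real.sin (π * m / d) := by
  rw [← Real.sin_pi_sub]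
  congr 1
  push_cast
  field_simp
  ring

/-- `0 < N < j < d`. -/
theorem EXPL_case1 {P : Par} {d : ℕ} (hU : P.IsUnit d) (N j : ℤ) :
    Rr P d N j = (-1) ^ N * (G P (pt P d N j : ℂ) * G P (pt P d (j - N) (-N + d) : ℂ) *
      G P (pt P d (-j + d) (N - j + d) : ℂ)) := by
  rw [EXPL_Rr hU]
  ring

/-- `0 < j < N < d`. -/
theorem EXPL_case2 {P : Par} {d : ℕ} (hU : P.IsUnit d) (N j : ℤ) (hj : 0 < j) (hjN : j < N)
    (hN : N < d) :
    Rr P d N j = (-1) ^ j * (G P (pt P d N j : ℂ) * G P (pt P d (j - N + d) (-N + d) : ℂ) *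
      G P (pt P d (-j + d) (N - j) : ℂ)) := by
  rw [EXPL_Rr hU]
  have hS1 : ¬ Sing d (j - N) (-N + d) := by
    rintro ⟨h1, -⟩
    have := Int.eq_zero_of_abs_lt_dvd h1 (by rw [abs_lt]; constructor <;> linarith)
    linarith
  have hS2 : ¬ Sing d (-j + d) (N - j) := by
    rintro ⟨-, h1⟩
    have := Int.eq_zero_of_abs_lt_dvd h1 (by rw [abs_lt]; constructor <;> linarith)
    linarith
  rw [EXPL_G_o hU hS1, EXPL_G_b hU hS2, EXPL_cross hU]
  have h1 : so P (pt P d (N - j) (N - j - (-j + d)) : ℂ) =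
      - so P (pt P d (j - N) (-N + d) : ℂ) := by
    rw [← EXPL_so_neg]
    congr 3 <;> ring
  rw [h1]
  have h2 : ((-1 : ℂ)) ^ N * (-1) ^ (N - j + 1) = - (-1) ^ j := by
    rw [← zpow_add₀ (by norm_num)]
    have : N + (N - j + 1) = 2 * (N - j) + (j + 1) := by ring
    rw [this, zpow_add₀ (by norm_num), zpow_mul, zpow_add₀ (by norm_num)]
    norm_num
  linear_combination (-(so P (pt P d (j - N) (-N + d) : ℂ) * G P (pt P d N j : ℂ) *
    G P (pt P d (j - N) (-N + d) : ℂ) * G P (pt P d (-j + d) (N - j) : ℂ))) * h2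

/-- `0 < N = j < d`. -/
theorem EXPL_case3 {P : Par} {d : ℕ} (hU : P.IsUnit d) (N : ℤ) (hN0 : 0 < N) (hN : N < d) :
    Rr P d N N = (-1) ^ N * (G P (pt P d N N : ℂ) * G P (pt P d 0 (-N + d) : ℂ) *
      G P (pt P d (-N + d) 0 : ℂ)) * ((2 * Real.sin (π * N / d) : ℝ) : ℂ) := by
  rw [EXPL_Rr hU]
  have hS2 : ¬ Sing d (-N + d) 0 := by
    rintro ⟨h1, -⟩
    have := Int.eq_zero_of_abs_lt_dvd h1 (by rw [abs_lt]; constructor <;> linarith)
    linarith
  rw [sub_self, EXPL_G_b hU hS2, EXPL_sb_zero, EXPL_sin_sub (d_pos hU).ne']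
  ring

/-- `0 = N < j < d`. -/
theorem EXPL_case4 {P : Par} {d : ℕ} (hU : P.IsUnit d) (j : ℤ) (hj0 : 0 < j) (hj : j < d) :
    Rr P d 0 j = (G P (pt P d 0 j : ℂ) * G P (pt P d j 0 : ℂ) *
      G P (pt P d (-j + d) (-j + d) : ℂ)) * ((2 * Real.sin (π * j / d) : ℝ) : ℂ) := by
  rw [EXPL_Rr hU]
  have hS2 : ¬ Sing d j 0 := by
    rintro ⟨h1, -⟩
    have := Int.eq_zero_of_abs_lt_dvd h1 (by rw [abs_lt]; constructor <;> linarith)
    linarith
  rw [sub_zero, neg_zero, EXPL_G_b hU hS2, EXPL_sb_zero, zero_sub]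
  simp only [zpow_zero]
  ring

/-- `0 = j < N < d`. -/
theorem EXPL_case5 {P : Par} {d : ℕ} (hU : P.IsUnit d) (N : ℤ) (hN0 : 0 < N) (hN : N < d) :
    Rr P d N 0 = (G P (pt P d N 0 : ℂ) * G P (pt P d (-N + d) (-N + d) : ℂ) *
      G P (pt P d 0 N : ℂ)) * ((2 * Real.sin (π * N / d) : ℝ) : ℂ) := by
  rw [EXPL_Rr hU]
  have hd := (d_pos hU).ne'
  have hS1 : ¬ Sing d (-N) (-N + d) := by
    rintro ⟨h1, -⟩
    have := Int.eq_zero_of_abs_lt_dvd h1 (by rw [abs_lt]; constructor <;> linarith)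
    linarith
  have hS2 : ¬ Sing d 0 (N + d) := by
    rintro ⟨-, h1⟩
    have h2 : (d : ℤ) ∣ N := by
      have := dvd_sub h1 (dvd_refl (d : ℤ))
      simpa using this
    have := Int.eq_zero_of_abs_lt_dvd h2 (by rw [abs_lt]; constructor <;> linarith)
    linarith
  have hS3 : ¬ Sing d 0 N := by
    rintro ⟨-, h2⟩
    have := Int.eq_zero_of_abs_lt_dvd h2 (by rw [abs_lt]; constructor <;> linarith)
    linarith
  have e1 : pt P d (-0 + d) (N - 0 + d) = pt P d (0 + d) (N + d) := by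
    congr 1
    ring
  rw [e1, EXPL_G_o hU hS2, EXPL_G_b hU hS3, EXPL_G_o hU hS1, EXPL_cross hU, zero_sub]
  have h1 : so P (pt P d N (N - 0) : ℂ) = so P (pt P d (-N) (-N + d) : ℂ) := by
    rw [EXPL_so, EXPL_so]
    congr 2
    rw [← Real.sin_pi_sub]
    congr 1
    push_cast
    field_simp
    ring
  have h3 : so P (pt P d 0 (N + d) : ℂ) = - ((2 * Real.sin (π * N / d) : ℝ) : ℂ) := by
    rw [EXPL_so]
    have : π * ((((0 : ℤ) : ℝ) * P.o ^ 2 + ((N + d : ℤ) : ℝ)) / d) = π * N / d + π := by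
      push_cast
      field_simp
      ring
    rw [this, Real.sin_add_pi]
    push_cast
    ring
  rw [h1, h3]
  have h2 : ((-1 : ℂ)) ^ N * (-1) ^ (N + 1) = - 1 := by
    rw [← zpow_add₀ (by norm_num)]
    have : N + (N + 1) = 2 * N + 1 := by ring
    rw [this, zpow_add₀ (by norm_num), zpow_mul]
    norm_num
  linear_combination (-((2 * Real.sin (π * N / d) : ℝ) : ℂ) *
    (so P (pt P d (-N) (-N + d) : ℂ) * G P (pt P d N 0 : ℂ) *
    G P (pt P d (-N) (-N + d) : ℂ) * G P (pt P d 0 N : ℂ))) * h2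

/-- The double sine function with periods `w1`, `w2`, for `0 < x < w1 + w2`. -/
noncomputable def dsR (w1 w2 x : ℝ) : ℝ :=
  Real.exp (∫ t in Ioi (0 : ℝ), (Real.sinh ((2 * x - (w1 + w2)) * t) /
    (2 * Real.sinh (w1 * t) * Real.sinh (w2 * t)) -
      (2 * x - (w1 + w2)) / (2 * (w1 * w2) * t)) / t)

theorem dsR_pos (w1 w2 x : ℝ) : 0 < dsR w1 w2 x := Real.exp_pos _

theorem EXPL_II (P : Par) (x : ℝ) : II P (x : ℂ) =
    ((∫ t in Ioi (0 : ℝ), (Real.sinh ((2 * x - (P.b + P.o)) * t) /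
    (2 * Real.sinh (P.b * t) * Real.sinh (P.o * t)) -
      (2 * x - (P.b + P.o)) / (2 * (P.b * P.o) * t)) / t : ℝ) : ℂ) := by
  unfold II
  rw [← integral_complex_ofReal]
  refine setIntegral_congr_fun measurableSet_Ioi fun t _ => ?_
  unfold kern Par.Q
  simp only [P.hbo]
  push_cast
  simp only [mul_one]

theorem EXPL_G0 (P : Par) (x : ℝ) : G0 P (x : ℂ) * (dsR P.b P.o x : ℂ) = 1 := by
  unfold G0 dsR
  rw [EXPL_II, Complex.ofReal_exp, ← Complex.exp_add, neg_add_cancel, Complex.exp_zero]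

theorem EXPL_G {P : Par} {d : ℕ} (hU : P.IsUnit d) {m n : ℤ} (hm : 0 ≤ m) (hm1 : m < d)
    (hn : 0 ≤ n) (hn1 : n < d) (h : ¬ (m = 0 ∧ n = 0)) :
    G P (pt P d m n : ℂ) * (dsR P.b P.o (pt P d m n) : ℂ) = 1 := by
  have hd := d_pos hU
  have hb := P.hb
  have ho := P.ho
  have hm' : (0 : ℝ) ≤ m := by exact_mod_cast hm
  have hn' : (0 : ℝ) ≤ n := by exact_mod_cast hn
  have hm1' : (m : ℝ) < d := by exact_mod_cast hm1
  have hn1' : (n : ℝ) < d := by exact_mod_cast hn1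
  have h0 : 0 < pt P d m n := by
    unfold pt
    refine div_pos ?_ hd
    rcases hm.lt_or_eq with h1 | h1
    · have : (0 : ℝ) < m := by exact_mod_cast h1
      positivity
    · have h2 : 0 < n := by
        rcases hn.lt_or_eq with h2 | h2
        · exact h2
        · exact absurd ⟨h1.symm, h2.symm⟩ h
      have : (0 : ℝ) < n := by exact_mod_cast h2
      positivity
  have h1 : pt P d m n < P.Q := by
    unfold pt Par.Q
    rw [div_lt_iff₀ hd]
    nlinarith [mul_lt_mul_of_pos_right hm1' ho, mul_lt_mul_of_pos_right hn1' hb]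
  rw [G_eq_G0 P (o_lt_b hU) (by simpa using h0) (by simpa using h1)]
  exact EXPL_G0 P _

/-- The factor of the ghost overlaps. -/
noncomputable def sgZ (P : Par) (d : ℕ) (a b : ZMod d) : ℝ :=
  dsR P.b P.o (pt P d a.val b.val) *
    (if a = 0 then (Real.sqrt (2 * Real.sin (π * b.val / d)))⁻¹ else 1) *
    (if b = 0 then (Real.sqrt (2 * Real.sin (π * a.val / d)))⁻¹ else 1)

/-- The real ghost overlaps. -/
noncomputable def nuZ (P : Par) (d : ℕ) (a b : ZMod d) : ℝ :=
  (-1) ^ (min a.val b.val) * (sgZ P d a b * sgZ P d (b - a) (-a) * sgZ P d (-b) (a - b))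

theorem EXPL_val_neg {d : ℕ} [NeZero d] {a : ZMod d} (h : a ≠ 0) :
    ((-a).val : ℤ) = -(a.val : ℤ) + d := by
  rw [ZMod.neg_val, if_neg h]
  have := (ZMod.val_lt a).le
  omega

theorem EXPL_val_sub {d : ℕ} [NeZero d] {a b : ZMod d} (h : b.val ≤ a.val) :
    ((a - b).val : ℤ) = (a.val : ℤ) - b.val := by
  rw [ZMod.val_sub h]
  omega

theorem EXPL_val_sub' {d : ℕ} [NeZero d] {a b : ZMod d} (h : a.val < b.val) :
    ((a - b).val : ℤ) = (a.val : ℤ) - b.val + d := by
  have h1 : b - a ≠ 0 := by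
    intro h2
    rw [sub_eq_zero] at h2
    rw [h2] at h
    exact lt_irrefl _ h
  rw [← neg_sub b a, EXPL_val_neg h1, EXPL_val_sub h.le]
  ring

theorem EXPL_sin_pos {d : ℕ} {m : ℤ} (h0 : 0 < m) (h1 : m < d) :
    0 < Real.sin (π * m / d) := by
  have hd : (0 : ℝ) < d := by
    have : (0 : ℤ) < d := lt_trans h0 h1
    exact_mod_cast this
  have h0' : (0 : ℝ) < m := by exact_mod_cast h0
  have h1' : (m : ℝ) < d := by exact_mod_cast h1
  refine Real.sin_pos_of_pos_of_lt_pi (by positivity) ?_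
  rw [div_lt_iff₀ hd]
  exact mul_lt_mul_of_pos_left h1' Real.pi_pos

theorem EXPL_sqrt {x : ℝ} (hx : 0 < x) : ((Real.sqrt x)⁻¹) * (Real.sqrt x)⁻¹ * x = 1 := by
  rw [← mul_inv, Real.mul_self_sqrt hx.le, inv_mul_cancel₀ hx.ne']

theorem EXPL_alg {x1 x2 x3 y1 y2 y3 s t : ℂ} (h1 : x1 * y1 = 1) (h2 : x2 * y2 = 1)
    (h3 : x3 * y3 = 1) (h4 : s * s * t = 1) :
    x1 * x2 * x3 * t * (y1 * y2 * y3 * (s * s)) = 1 := by
  have : x1 * x2 * x3 * t * (y1 * y2 * y3 * (s * s)) =
      (x1 * y1) * (x2 * y2) * (x3 * y3) * (s * s * t) := by ring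
  rw [this, h1, h2, h3, h4]
  norm_num

/-- The explicit form of the ghost overlaps. -/
theorem Rr_nuZ {P : Par} {d : ℕ} [NeZero d] (hU : P.IsUnit d) {a b : ZMod d}
    (h : a ≠ 0 ∨ b ≠ 0) : Rr P d a.val b.val * (nuZ P d a b : ℂ) = 1 := by
  have hN1 : (a.val : ℤ) < d := by exact_mod_cast ZMod.val_lt a
  have hj1 : (b.val : ℤ) < d := by exact_mod_cast ZMod.val_lt b
  have hv : ∀ x : ZMod d, x ≠ 0 → (0 : ℤ) < x.val := by
    intro x hx
    have : 0 < x.val := Nat.pos_of_ne_zero fun h0 => hx ((ZMod.val_eq_zero x).1 h0)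
    exact_mod_cast this
  have hm : ∀ n : ℕ, ((-1 : ℂ)) ^ n * (-1) ^ n = 1 := by
    intro n
    rw [← mul_pow]
    norm_num
  by_cases ha : a = 0
  · have hb : b ≠ 0 := by
      rcases h with h | h
      · exact absurd ha h
      · exact h
    subst ha
    have hj0 := hv b hb
    have hb' : -b ≠ 0 := neg_ne_zero.2 hb
    have g1 := EXPL_G hU (m := 0) (n := b.val) le_rfl (lt_trans hj0 hj1) hj0.le hj1 (by omega)
    have g2 := EXPL_G hU (m := b.val) (n := 0) hj0.le hj1 le_rfl (lt_trans hj0 hj1) (by omega)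
    have g3 := EXPL_G hU (m := -b.val + d) (n := -b.val + d) (by omega) (by omega) (by omega)
      (by omega) (by omega)
    have hs := EXPL_sin_pos hj0 hj1
    have hsq := EXPL_sqrt (mul_pos two_pos hs)
    have hz : ((0 : ZMod d).val : ℤ) = 0 := by simp
    have hsq' : (((Real.sqrt (2 * Real.sin (π * b.val / d)))⁻¹ : ℝ) : ℂ) *
        (((Real.sqrt (2 * Real.sin (π * b.val / d)))⁻¹ : ℝ) : ℂ) *
        ((2 * Real.sin (π * (b.val : ℤ) / d) : ℝ) : ℂ) = 1 := by
      exact_mod_cast hsq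
    unfold nuZ sgZ
    rw [sub_zero, neg_zero, zero_sub, hz, EXPL_case4 hU _ hj0 hj1, EXPL_val_neg hb]
    simp only [if_true, if_neg hb, if_neg hb', ZMod.val_zero, Nat.zero_min, pow_zero, mul_one,
      one_mul]
    refine Eq.trans ?_ (EXPL_alg g1 g2 g3 hsq')
    push_cast
    ring
  by_cases hb : b = 0
  · subst hb
    have hN0 := hv a ha
    have ha' : -a ≠ 0 := neg_ne_zero.2 ha
    have g1 := EXPL_G hU (m := a.val) (n := 0) hN0.le hN1 le_rfl (lt_trans hN0 hN1) (by omega)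
    have g2 := EXPL_G hU (m := -a.val + d) (n := -a.val + d) (by omega) (by omega) (by omega)
      (by omega) (by omega)
    have g3 := EXPL_G hU (m := 0) (n := a.val) le_rfl (lt_trans hN0 hN1) hN0.le hN1 (by omega)
    have hs := EXPL_sin_pos hN0 hN1
    have hsq := EXPL_sqrt (mul_pos two_pos hs)
    have hz : ((0 : ZMod d).val : ℤ) = 0 := by simp
    have hsq' : (((Real.sqrt (2 * Real.sin (π * a.val / d)))⁻¹ : ℝ) : ℂ) *
        (((Real.sqrt (2 * Real.sin (π * a.val / d)))⁻¹ : ℝ) : ℂ) *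
        ((2 * Real.sin (π * (a.val : ℤ) / d) : ℝ) : ℂ) = 1 := by
      exact_mod_cast hsq
    unfold nuZ sgZ
    rw [sub_zero, neg_zero, zero_sub, hz, EXPL_case5 hU _ hN0 hN1, EXPL_val_neg ha]
    simp only [if_true, if_neg ha, if_neg ha', ZMod.val_zero, Nat.min_zero, pow_zero, mul_one,
      one_mul]
    refine Eq.trans ?_ (EXPL_alg g1 g2 g3 hsq')
    push_cast
    ring
  have hN0 := hv a ha
  have hj0 := hv b hb
  have ha' : -a ≠ 0 := neg_ne_zero.2 ha
  have hb' : -b ≠ 0 := neg_ne_zero.2 hb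
  rcases lt_trichotomy a.val b.val with hab | hab | hab
  · have hab1 : a - b ≠ 0 := by
      intro h2
      rw [sub_eq_zero] at h2
      rw [h2] at hab
      exact lt_irrefl _ hab
    have hab2 : b - a ≠ 0 := by
      rw [← neg_sub]
      exact neg_ne_zero.2 hab1
    have hab3 : (a.val : ℤ) < b.val := by exact_mod_cast hab
    have g1 := EXPL_G hU (m := a.val) (n := b.val) hN0.le hN1 hj0.le hj1 (by omega)
    have g2 := EXPL_G hU (m := b.val - a.val) (n := -a.val + d) (by omega) (by omega) (by omega)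
      (by omega) (by omega)
    have g3 := EXPL_G hU (m := -b.val + d) (n := a.val - b.val + d) (by omega) (by omega)
      (by omega) (by omega) (by omega)
    unfold nuZ sgZ
    rw [EXPL_val_neg ha, EXPL_val_neg hb, EXPL_val_sub hab.le, EXPL_val_sub' hab,
      EXPL_case1 hU, min_eq_left hab.le]
    simp only [if_neg ha, if_neg hb, if_neg ha', if_neg hb', if_neg hab1, if_neg hab2, mul_one]
    refine Eq.trans ?_ (EXPL_alg g1 g2 g3 (s := (-1) ^ a.val) (t := 1) (by rw [hm, one_mul]))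
    rw [hm, zpow_natCast]
    push_cast
    linear_combination (G P (pt P d a.val b.val : ℂ) *
      G P (pt P d (b.val - a.val) (-a.val + d) : ℂ) *
      G P (pt P d (-b.val + d) (a.val - b.val + d) : ℂ) *
      (dsR P.b P.o (pt P d a.val b.val) * dsR P.b P.o (pt P d (b.val - a.val) (-a.val + d)) *
      dsR P.b P.o (pt P d (-b.val + d) (a.val - b.val + d)))) * hm a.val
  · have hab0 : a = b := ZMod.val_injective d hab
    subst hab0
    have g1 := EXPL_G hU (m := a.val) (n := a.val) hN0.le hN1 hN0.le hN1 (by omega)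
    have g2 := EXPL_G hU (m := 0) (n := -a.val + d) le_rfl (lt_trans hN0 hN1) (by omega)
      (by omega) (by omega)
    have g3 := EXPL_G hU (m := -a.val + d) (n := 0) (by omega) (by omega) le_rfl
      (lt_trans hN0 hN1) (by omega)
    have hs := EXPL_sin_pos hN0 hN1
    have hsq := EXPL_sqrt (mul_pos two_pos hs)
    have hz : ((0 : ZMod d).val : ℤ) = 0 := by simp
    have hsin : Real.sin (π * (-a).val / d) = Real.sin (π * (a.val : ℤ) / d) := by
      rw [← EXPL_sin_sub (d_pos hU).ne', ← EXPL_val_neg ha]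
      push_cast
      ring_nf
    have hsq' : (((Real.sqrt (2 * Real.sin (π * (-a).val / d)))⁻¹ : ℝ) : ℂ) *
        (((Real.sqrt (2 * Real.sin (π * (-a).val / d)))⁻¹ : ℝ) : ℂ) *
        ((2 * Real.sin (π * (a.val : ℤ) / d) : ℝ) : ℂ) = 1 := by
      rw [hsin]
      exact_mod_cast hsq
    unfold nuZ sgZ
    rw [sub_self, hz, EXPL_case3 hU _ hN0 hN1, EXPL_val_neg ha]
    simp only [if_true, if_neg ha, if_neg ha', min_self, mul_one]
    refine Eq.trans ?_ (EXPL_alg g1 g2 g3 hsq')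
    rw [zpow_natCast]
    push_cast
    linear_combination (G P (pt P d a.val a.val : ℂ) * G P (pt P d 0 (-a.val + d) : ℂ) *
      G P (pt P d (-a.val + d) 0 : ℂ) * (2 * Complex.sin (π * a.val / d)) *
      (dsR P.b P.o (pt P d a.val a.val) * dsR P.b P.o (pt P d 0 (-a.val + d)) *
      dsR P.b P.o (pt P d (-a.val + d) 0)) *
      (((Real.sqrt (2 * Real.sin (π * (-a).val / d)) : ℂ))⁻¹ *
      ((Real.sqrt (2 * Real.sin (π * (-a).val / d)) : ℂ))⁻¹)) * hm a.val
  · have hab1 : a - b ≠ 0 := by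
      intro h2
      rw [sub_eq_zero] at h2
      rw [h2] at hab
      exact lt_irrefl _ hab
    have hab2 : b - a ≠ 0 := by
      rw [← neg_sub]
      exact neg_ne_zero.2 hab1
    have hab3 : (b.val : ℤ) < a.val := by exact_mod_cast hab
    have g1 := EXPL_G hU (m := a.val) (n := b.val) hN0.le hN1 hj0.le hj1 (by omega)
    have g2 := EXPL_G hU (m := b.val - a.val + d) (n := -a.val + d) (by omega) (by omega)
      (by omega) (by omega) (by omega)
    have g3 := EXPL_G hU (m := -b.val + d) (n := a.val - b.val) (by omega) (by omega)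
      (by omega) (by omega) (by omega)
    unfold nuZ sgZ
    rw [EXPL_val_neg ha, EXPL_val_neg hb, EXPL_val_sub hab.le, EXPL_val_sub' hab,
      EXPL_case2 hU _ _ hj0 hab3 hN1, min_eq_right hab.le]
    simp only [if_neg ha, if_neg hb, if_neg ha', if_neg hb', if_neg hab1, if_neg hab2, mul_one]
    refine Eq.trans ?_ (EXPL_alg g1 g2 g3 (s := (-1) ^ b.val) (t := 1) (by rw [hm, one_mul]))
    rw [hm, zpow_natCast]
    push_cast
    linear_combination (G P (pt P d a.val b.val : ℂ) *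
      G P (pt P d (b.val - a.val + d) (-a.val + d) : ℂ) *
      G P (pt P d (-b.val + d) (a.val - b.val) : ℂ) *
      (dsR P.b P.o (pt P d a.val b.val) * dsR P.b P.o (pt P d (b.val - a.val + d) (-a.val + d)) *
      dsR P.b P.o (pt P d (-b.val + d) (a.val - b.val)))) * hm b.val

end Ghost
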