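import Mathlib

/-!
# Piece FINB: finite algebra of ghost data
-/

open Complex Set
open scoped Real ComplexConjugate

namespace Ghost

/-- Abstract ghost data over `ZMod d`. -/
structure GhostData (d : ℕ) [NeZero d] where
  v : ZMod d → ℂ
  r : ZMod d → ZMod d → ℂ
  Q : ℝ
  C : ℝ
  hQ : 0 < Q
  hQ2 : Q ^ 2 = d + 1
  hC : 0 < C
  hsum : ∀ a k : ZMod d, ∑ j : ZMod d, r a j * ZMod.stdAddChar (k * j) =
    C * v (a + k) * conj (v (-k))
  hneg : ∀ a b : ZMod d, a ≠ 0 ∨ b ≠ 0 → r a b * r (-a) (-b) = ZMod.stdAddChar (a * b)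
  hconj : ∀ a b : ZMod d, conj (r a b) = r a b * ZMod.stdAddChar (-(a * b))
  h00 : r 0 0 = Q

variable {d : ℕ} [NeZero d]

/-- The number `⟨φ | X ^ a Z ^ b | ψ⟩`, where `(X ^ a Z ^ b ψ) (i + a) = ω ^ (b i) ψ i`. -/
noncomputable def ovl (φ ψ : ZMod d → ℂ) (a b : ZMod d) : ℂ :=
  ∑ i : ZMod d, conj (φ (i + a)) * (ZMod.stdAddChar (b * i) * ψ i)

/-- The vector `ψ = v / √ T`, `T = d Q / C`. -/
noncomputable def GhostData.psi (D : GhostData d) (i : ZMod d) : ℂ :=
  D.v i / (Real.sqrt (d * D.Q / D.C) : ℂ)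

/-- Fourier inversion. Sum over `k` of `hsum` times `stdAddChar (- (k j))`, and
`∑_k stdAddChar (k (j' - j)) = d` if `j' = j` and zero otherwise (`AddChar.sum_mulShift`,
`ZMod.isPrimitive_stdAddChar`). -/
theorem GhostData.inv (D : GhostData d) (a j : ZMod d) :
    ∑ k : ZMod d, D.v (a + k) * conj (D.v (-k)) * ZMod.stdAddChar (-(k * j)) =
      (d / D.C) * D.r a j := by
  classical
  have hC : (D.C : ℂ) ≠ 0 := by exact_mod_cast D.hC.ne'
  have h1 : (D.C : ℂ) * ∑ k : ZMod d, D.v (a + k) * conj (D.v (-k)) * ZMod.stdAddChar (-(k * j)) =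
      d * D.r a j := by
    calc (D.C : ℂ) * ∑ k : ZMod d, D.v (a + k) * conj (D.v (-k)) * ZMod.stdAddChar (-(k * j))
        = ∑ k : ZMod d, (D.C * D.v (a + k) * conj (D.v (-k))) * ZMod.stdAddChar (-(k * j)) := by
          rw [Finset.mul_sum]
          exact Finset.sum_congr rfl fun k _ => by ring
      _ = ∑ k : ZMod d, ∑ j' : ZMod d, D.r a j' * ZMod.stdAddChar (k * (j' - j)) := by
          refine Finset.sum_congr rfl fun k _ => ?_
          rw [← D.hsum a k, Finset.sum_mul]
          refine Finset.sum_congr rfl fun j' _ => ?_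
          rw [mul_sub, sub_eq_add_neg, AddChar.map_add_eq_mul]
          ring
      _ = ∑ j' : ZMod d, D.r a j' * ∑ k : ZMod d, ZMod.stdAddChar (k * (j' - j)) := by
          rw [Finset.sum_comm]
          exact Finset.sum_congr rfl fun j' _ => (Finset.mul_sum _ _ _).symm
      _ = ∑ j' : ZMod d, if j' = j then D.r a j' * d else 0 := by
          refine Finset.sum_congr rfl fun j' _ => ?_
          rw [AddChar.sum_mulShift (j' - j) (ZMod.isPrimitive_stdAddChar d), ZMod.card]
          by_cases h : j' = j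
          · simp [h]
          · simp [h, sub_eq_zero]
      _ = d * D.r a j := by
          rw [Finset.sum_ite_eq' Finset.univ j, if_pos (Finset.mem_univ j)]
          ring
  rw [div_mul_eq_mul_div, eq_div_iff hC, mul_comm, h1]

/-- The product of the entries of `psi`: `ψ_i conj ψ_{-k} = (C / (d Q)) v_i conj v_{-k}`
`= (1 / (d Q)) ∑_j r (i - k) j stdAddChar (k j)`. -/
theorem GhostData.psi_mul (D : GhostData d) (i k : ZMod d) :
    D.psi i * conj (D.psi (-k)) =
      (1 / (d * D.Q)) * ∑ j : ZMod d, D.r (i - k) j * ZMod.stdAddChar (k * j) := by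
  have hC : (D.C : ℂ) ≠ 0 := by exact_mod_cast D.hC.ne'
  have hQ : (D.Q : ℂ) ≠ 0 := by exact_mod_cast D.hQ.ne'
  have hd : (d : ℂ) ≠ 0 := by exact_mod_cast (NeZero.ne d)
  have hs := D.hsum (i - k) k
  rw [sub_add_cancel] at hs
  rw [hs]
  have hT : ((Real.sqrt (d * D.Q / D.C) : ℝ) : ℂ) * ((Real.sqrt (d * D.Q / D.C) : ℝ) : ℂ) =
      d * D.Q / D.C := by
    have h0 : (0 : ℝ) ≤ d * D.Q / D.C := by
      have h1 := D.hQ.le
      have h2 := D.hC.le
      positivity
    rw [← Complex.ofReal_mul, Real.mul_self_sqrt h0]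
    push_cast
    ring
  unfold GhostData.psi
  rw [map_div₀, Complex.conj_ofReal, div_mul_div_comm, hT]
  field_simp

/-- The overlaps. Proof: by `inv` (substitute `i = k - a`, so `conj (ψ (- (i + a))) = conj (ψ (- k))` and
`ψ i = ψ (- a + k)`), `ovl = (C / (d Q)) stdAddChar (- (a b)) ∑_k v (- a + k) conj (v (- k)) stdAddChar (b k)`. -/
theorem GhostData.ovl_psi (D : GhostData d) (a b : ZMod d) :
    ovl (fun i => D.psi (-i)) D.psi a b =
      ZMod.stdAddChar (-(a * b)) * D.r (-a) (-b) / D.Q := by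
  classical
  have hQ : (D.Q : ℂ) ≠ 0 := by exact_mod_cast D.hQ.ne'
  have hd : (d : ℂ) ≠ 0 := by exact_mod_cast (NeZero.ne d)
  calc ovl (fun i => D.psi (-i)) D.psi a b
      = ∑ i : ZMod d, conj (D.psi (-(i + a))) * (ZMod.stdAddChar (b * i) * D.psi i) := rfl
    _ = ∑ k : ZMod d, conj (D.psi (-k)) * (ZMod.stdAddChar (b * (k - a)) * D.psi (k - a)) := by
        refine Fintype.sum_equiv (Equiv.addRight a) _ _ fun i => ?_
        simp
    _ = ∑ k : ZMod d, (ZMod.stdAddChar (-(a * b)) * (1 / (d * D.Q))) *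
          ∑ j : ZMod d, D.r (-a) j * ZMod.stdAddChar (k * (j + b)) := by
        refine Finset.sum_congr rfl fun k _ => ?_
        have h1 := D.psi_mul (k - a) k
        have h2 : k - a - k = -a := by ring
        rw [h2] at h1
        have h3 : b * (k - a) = -(a * b) + k * b := by ring
        rw [h3, AddChar.map_add_eq_mul]
        calc conj (D.psi (-k)) * (ZMod.stdAddChar (-(a * b)) * ZMod.stdAddChar (k * b) *
              D.psi (k - a))
            = ZMod.stdAddChar (-(a * b)) * ZMod.stdAddChar (k * b) *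
              (D.psi (k - a) * conj (D.psi (-k))) := by ring
          _ = ZMod.stdAddChar (-(a * b)) * (1 / (d * D.Q)) *
              (∑ j : ZMod d, D.r (-a) j * ZMod.stdAddChar (k * j)) *
                ZMod.stdAddChar (k * b) := by rw [h1]; ring
          _ = _ := by
              rw [mul_assoc, Finset.sum_mul]
              congr 1
              refine Finset.sum_congr rfl fun j _ => ?_
              rw [mul_add, AddChar.map_add_eq_mul]
              ring
    _ = (ZMod.stdAddChar (-(a * b)) * (1 / (d * D.Q))) *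
          ∑ j : ZMod d, D.r (-a) j * ∑ k : ZMod d, ZMod.stdAddChar (k * (j + b)) := by
        rw [← Finset.mul_sum, Finset.sum_comm]
        congr 1
        exact Finset.sum_congr rfl fun j _ => (Finset.mul_sum _ _ _).symm
    _ = (ZMod.stdAddChar (-(a * b)) * (1 / (d * D.Q))) *
          ∑ j : ZMod d, if j = -b then D.r (-a) j * d else 0 := by
        congr 1
        refine Finset.sum_congr rfl fun j _ => ?_
        rw [AddChar.sum_mulShift (j + b) (ZMod.isPrimitive_stdAddChar d), ZMod.card]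
        by_cases h : j = -b
        · simp [h]
        · have h' : j + b ≠ 0 := fun h0 => h (eq_neg_of_add_eq_zero_left h0)
          simp [h, h']
    _ = ZMod.stdAddChar (-(a * b)) * D.r (-a) (-b) / D.Q := by
        rw [Finset.sum_ite_eq' Finset.univ (-b), if_pos (Finset.mem_univ _)]
        field_simp

/-- `a = b = 0`. -/
theorem GhostData.ovl_zero (D : GhostData d) : ovl (fun i => D.psi (-i)) D.psi 0 0 = 1 := by
  rw [D.ovl_psi]
  have h := D.hQ.ne'
  have : (D.Q : ℂ) ≠ 0 := by exact_mod_cast h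
  simp [D.h00, this]

/-- The inverse of `X ^ a Z ^ b` is `Z ^ (-b) X ^ (-a) = ω ^ (a b) X ^ (-a) Z ^ (-b)`; its overlap is
`stdAddChar (a b) ovl (-a) (-b) = r a b / Q`. The product of the two overlaps is
`stdAddChar (- a b) r (- a) (- b) r a b / Q ^ 2 = 1 / (d + 1)`. -/
theorem GhostData.ovl_mul (D : GhostData d) {a b : ZMod d} (h : a ≠ 0 ∨ b ≠ 0) :
    ovl (fun i => D.psi (-i)) D.psi a b *
      (ZMod.stdAddChar (a * b) * ovl (fun i => D.psi (-i)) D.psi (-a) (-b)) = 1 / (d + 1) := by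
  have hQ : (D.Q : ℂ) ≠ 0 := by exact_mod_cast D.hQ.ne'
  have hQ2 : (D.Q : ℂ) ^ 2 = d + 1 := by exact_mod_cast D.hQ2
  have hab : (-a) * (-b) = a * b := by ring
  have hz : (ZMod.stdAddChar (-(a * b)) : ℂ) * ZMod.stdAddChar (a * b) = 1 := by
    rw [← AddChar.map_add_eq_mul, neg_add_cancel, AddChar.map_zero_eq_one]
  rw [D.ovl_psi, D.ovl_psi, neg_neg, neg_neg, hab, ← hQ2]
  calc ZMod.stdAddChar (-(a * b)) * D.r (-a) (-b) / D.Q *
        (ZMod.stdAddChar (a * b) * (ZMod.stdAddChar (-(a * b)) * D.r a b / D.Q))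
      = (ZMod.stdAddChar (-(a * b)) * ZMod.stdAddChar (a * b)) *
        (ZMod.stdAddChar (-(a * b)) * (D.r a b * D.r (-a) (-b))) / (D.Q : ℂ) ^ 2 := by
          field_simp
    _ = 1 / (D.Q : ℂ) ^ 2 := by rw [D.hneg a b h, hz, one_mul]

end Ghost
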