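import Pool.Agent.Lib_MP_1c78a5_ghost.FinB

/-!
# Piece FINC: field homomorphisms and characters; Hermitian matrices of rank one
-/

open Complex Set
open scoped Real ComplexConjugate

namespace Ghost

variable {d : ℕ} [NeZero d]

/-- A ring homomorphism maps `stdAddChar` to a power of `stdAddChar`: `σ ζ` is a primitive `d`-th root of
unity for `ζ = stdAddChar 1`, so `σ ζ = ζ ^ κ` with `κ` prime to `d` (`IsPrimitiveRoot.isPrimitiveRoot_iff` or
`IsPrimitiveRoot.eq_pow_of_pow_eq_one`), and `σ (stdAddChar x) = (σ ζ) ^ x.val`. -/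
theorem sigma_char (σ : ℂ →+* ℂ) : ∃ κ : (ZMod d)ˣ, ∀ x : ZMod d,
    σ (ZMod.stdAddChar x) = ZMod.stdAddChar ((κ : ZMod d) * x) := by
  have hζ : IsPrimitiveRoot (ZMod.stdAddChar (1 : ZMod d) : ℂ) d := by
    have h := ZMod.stdAddChar_coe (N := d) 1
    rw [Int.cast_one] at h
    rw [h]
    have h2 := Complex.isPrimitiveRoot_exp d (NeZero.ne d)
    convert h2 using 2
    push_cast
    ring
  have hσ : IsPrimitiveRoot (σ (ZMod.stdAddChar (1 : ZMod d))) d :=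
    hζ.map_of_injective σ.injective
  obtain ⟨i, _, hi, hie⟩ := (hζ.isPrimitiveRoot_iff).1 hσ
  refine ⟨ZMod.unitOfCoprime i hi, fun x => ?_⟩
  have key : ∀ m : ℕ, (ZMod.stdAddChar ((m : ℕ) : ZMod d) : ℂ)
      = (ZMod.stdAddChar (1 : ZMod d) : ℂ) ^ m := by
    intro m
    rw [← AddChar.map_nsmul_eq_pow, nsmul_eq_mul, mul_one]
  have hx : x = ((x.val : ℕ) : ZMod d) := (ZMod.natCast_zmod_val x).symm
  have hx2 : (ZMod.unitOfCoprime i hi : ZMod d) * x = ((i * x.val : ℕ) : ZMod d) := by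
    rw [ZMod.coe_unitOfCoprime, Nat.cast_mul, ZMod.natCast_zmod_val]
  rw [hx2, key]
  conv_lhs => rw [hx, key]
  rw [map_pow, ← hie, ← pow_mul]

/-- A Hermitian matrix of rank one (all `2 × 2` minors vanish) with trace one is `φ φ^*` with a unit vector
`φ`.

Proof. `M i l = ∑_k M i k M k l` (minors and trace), so `M i i = ∑_k ‖M i k‖ ^ 2 ≥ 0`, and some
`M c c ≠ 0`, so it is positive. Let `φ i = M i c / √(M c c)`; then
`φ i conj (φ k) = M i c M c k / M c c = M i k`, and `∑ ‖φ i‖ ^ 2 = ∑ M i i = 1`. -/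
theorem rank_one_herm (M : ZMod d → ZMod d → ℂ) (hherm : ∀ i k, conj (M i k) = M k i)
    (hrank : ∀ i k i' k', M i k * M i' k' = M i k' * M i' k) (htr : ∑ i, M i i = 1) :
    ∃ φ : ZMod d → ℂ, (∀ i k, φ i * conj (φ k) = M i k) ∧ ∑ i, ‖φ i‖ ^ 2 = 1 := by
  have hsq : ∀ i, M i i = ((∑ k, ‖M i k‖ ^ 2 : ℝ) : ℂ) := by
    intro i
    have h1 : ∀ k, M i i * M k k = ((‖M i k‖ ^ 2 : ℝ) : ℂ) := by
      intro k
      rw [hrank i i k k, ← hherm i k, Complex.mul_conj, Complex.normSq_eq_norm_sq]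
    calc M i i = M i i * ∑ k, M k k := by rw [htr, mul_one]
      _ = ∑ k, M i i * M k k := by rw [Finset.mul_sum]
      _ = ∑ k, ((‖M i k‖ ^ 2 : ℝ) : ℂ) := Finset.sum_congr rfl fun k _ => h1 k
      _ = _ := by push_cast; rfl
  obtain ⟨c, hc⟩ : ∃ c, M c c ≠ 0 := by
    by_contra hcon
    push Not at hcon
    rw [Finset.sum_eq_zero fun i _ => hcon i] at htr
    exact zero_ne_one htr
  set r : ℝ := ∑ k, ‖M c k‖ ^ 2 with hr
  have hr0 : 0 ≤ r := Finset.sum_nonneg fun k _ => sq_nonneg _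
  have hcr : M c c = (r : ℂ) := hsq c
  have hrne : r ≠ 0 := by
    intro h
    apply hc
    rw [hcr, h, Complex.ofReal_zero]
  have hrC : (r : ℂ) ≠ 0 := by exact_mod_cast hrne
  have hφ : ∀ i k, (M i c / (√r : ℝ)) * conj (M k c / ((√r : ℝ) : ℂ)) = M i k := by
    intro i k
    rw [map_div₀, Complex.conj_ofReal, hherm k c, div_mul_div_comm, hrank i c c k, hcr]
    have h2 : ((√r : ℝ) : ℂ) * ((√r : ℝ) : ℂ) = (r : ℂ) := by
      rw [← Complex.ofReal_mul, Real.mul_self_sqrt hr0]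
    rw [h2, mul_div_assoc, div_self hrC, mul_one]
  refine ⟨fun i => M i c / ((√r : ℝ) : ℂ), hφ, ?_⟩
  have h3 : ((∑ i, ‖M i c / ((√r : ℝ) : ℂ)‖ ^ 2 : ℝ) : ℂ) = 1 := by
    rw [← htr]
    push_cast
    refine Finset.sum_congr rfl fun i _ => ?_
    rw [← hφ i i, Complex.mul_conj, Complex.normSq_eq_norm_sq]
    push_cast
    rfl
  exact_mod_cast h3

end Ghost
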