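import Pool.Agent.Lib_MP_1c78a5_ghost.FinC

/-!
# Piece FIND: a field homomorphism which makes the overlaps unimodular gives a SIC
-/

open Complex Set
open scoped Real ComplexConjugate

namespace Ghost

variable {d : ℕ} [NeZero d]

theorem FIND_Q (D : GhostData d) (σ : ℂ →+* ℂ) :
    σ (D.Q : ℂ) ≠ 0 ∧ conj (σ (D.Q : ℂ)) = σ (D.Q : ℂ) ∧ ‖σ (D.Q : ℂ)‖ = D.Q := by
  have hQ := D.hQ
  have h1 : (D.Q : ℂ) ^ 2 = (d : ℂ) + 1 := by exact_mod_cast congrArg (fun x : ℝ => (x : ℂ)) D.hQ2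
  have h2 : σ (D.Q : ℂ) ^ 2 = (D.Q : ℂ) ^ 2 := by
    rw [← map_pow, h1, map_add, map_one, map_natCast]
  rcases sq_eq_sq_iff_eq_or_eq_neg.1 h2 with h3 | h3
  · rw [h3]
    refine ⟨by exact_mod_cast hQ.ne', Complex.conj_ofReal _, ?_⟩
    rw [Complex.norm_real, Real.norm_eq_abs, abs_of_pos hQ]
  · rw [h3]
    refine ⟨neg_ne_zero.2 (by exact_mod_cast hQ.ne'), by rw [map_neg, Complex.conj_ofReal], ?_⟩
    rw [norm_neg, Complex.norm_real, Real.norm_eq_abs, abs_of_pos hQ]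

/-- Proof. Let `r' = σ ∘ r`, `Q' = σ Q`, so `Q' ^ 2 = d + 1` and hence `Q'` is real and `‖Q'‖ = Q`; let `κ` be
as in `sigma_char`. Let `M i k = σ (ψ_i conj ψ_{-k}) = (1 / (d Q')) ∑_j r' (i - k) j stdAddChar (κ k j)`
(`psi_mul`). Minors: those of `ψ_i conj ψ_{-k}` vanish and `σ` is multiplicative. Trace: `∑ ψ_i conj ψ_{-i} = 1`
(`ovl_zero`). Hermitian: for `(a, j) ≠ 0`, `conj (r' a j) = (r' a j)⁻¹ = r' (- a) (- j) stdAddChar (- κ a j)` by
`h` and `hneg`, and this also holds for `(a, j) = 0` (`h00`, `Q'` real). So `conj (M i k) =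
(1 / (d Q')) ∑_j r' (k - i) (- j) stdAddChar (- κ (i - k) j - κ k j) = M k i` (replace `j` by `- j`).
By `rank_one_herm` there is `φ` with `M i k = φ i conj (φ k)`, and
`ovl φ φ a b = ∑_i M i (i + a) stdAddChar (b i) =
(1 / (d Q')) ∑_j r' (- a) j stdAddChar (κ a j) ∑_i stdAddChar ((κ j + b) i)`
`= (1 / Q') r' (- a) j₀ stdAddChar (κ a j₀)` with `κ j₀ = - b`, of norm `1 / Q`. -/
theorem GhostData.sic (D : GhostData d) (σ : ℂ →+* ℂ)
    (h : ∀ a b : ZMod d, a ≠ 0 ∨ b ≠ 0 → ‖σ (D.r a b)‖ = 1) :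
    ∃ φ : ZMod d → ℂ, (∀ i k, φ i * conj (φ k) = σ (D.psi i * conj (D.psi (-k)))) ∧
      ∑ i, ‖φ i‖ ^ 2 = 1 ∧ ∀ a b : ZMod d, a ≠ 0 ∨ b ≠ 0 →
      ‖ovl φ φ a b‖ ^ 2 = 1 / (d + 1) := by
  classical
  obtain ⟨κ, hκ⟩ := sigma_char (d := d) σ
  obtain ⟨hQ0, hQc, hQn⟩ := FIND_Q D σ
  have hd0 : (d : ℂ) ≠ 0 := by exact_mod_cast NeZero.ne d
  have hadd : ∀ x y : ZMod d, (ZMod.stdAddChar (x + y) : ℂ) = ZMod.stdAddChar x * ZMod.stdAddChar y :=
    fun x y => AddChar.map_add_eq_mul _ x y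
  have hconjc : ∀ x : ZMod d, conj (ZMod.stdAddChar x : ℂ) = ZMod.stdAddChar (-x) :=
    fun x => (AddChar.map_neg_eq_conj _ x).symm
  obtain ⟨M, hM⟩ : ∃ M : ZMod d → ZMod d → ℂ, ∀ i k, M i k = σ (D.psi i * conj (D.psi (-k))) :=
    ⟨_, fun i k => rfl⟩
  have hM2 : ∀ i k, M i k = (1 / (d * σ D.Q)) * ∑ j : ZMod d, σ (D.r (i - k) j) *
      ZMod.stdAddChar ((κ : ZMod d) * (k * j)) := by
    intro i k
    rw [hM, D.psi_mul, map_mul, map_div₀, map_one, map_mul, map_natCast, map_sum]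
    congr 1
    refine Finset.sum_congr rfl fun j _ => ?_
    rw [map_mul, hκ]
  have hrank : ∀ i k i' k', M i k * M i' k' = M i k' * M i' k := by
    intro i k i' k'
    rw [hM, hM, hM, hM, ← map_mul, ← map_mul]
    congr 1
    ring
  have htr : ∑ i, M i i = 1 := by
    have h1 := D.ovl_zero
    unfold ovl at h1
    rw [← map_one σ, ← h1, map_sum]
    refine Finset.sum_congr rfl fun i _ => ?_
    rw [hM]
    congr 1
    rw [add_zero, zero_mul, AddChar.map_zero_eq_one, one_mul, mul_comm]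
  have hcr : ∀ a j : ZMod d, conj (σ (D.r a j)) =
      σ (D.r (-a) (-j)) * ZMod.stdAddChar (-((κ : ZMod d) * (a * j))) := by
    intro a j
    by_cases haj : a ≠ 0 ∨ j ≠ 0
    · have h1 := congrArg σ (D.hneg a j haj)
      rw [map_mul, hκ] at h1
      have h2 : conj (σ (D.r a j)) * σ (D.r a j) = 1 := by
        rw [Complex.conj_mul', h a j haj]
        norm_num
      have h3 : (ZMod.stdAddChar ((κ : ZMod d) * (a * j)) : ℂ) *
          ZMod.stdAddChar (-((κ : ZMod d) * (a * j))) = 1 := by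
        rw [← hadd, add_neg_cancel, AddChar.map_zero_eq_one]
      calc conj (σ (D.r a j)) = conj (σ (D.r a j)) *
            ((ZMod.stdAddChar ((κ : ZMod d) * (a * j)) : ℂ) *
          ZMod.stdAddChar (-((κ : ZMod d) * (a * j)))) := by rw [h3, mul_one]
        _ = (conj (σ (D.r a j)) * σ (D.r a j)) * (σ (D.r (-a) (-j)) *
          ZMod.stdAddChar (-((κ : ZMod d) * (a * j)))) := by rw [← h1]; ring
        _ = _ := by rw [h2, one_mul]
    · push Not at haj
      obtain ⟨rfl, rfl⟩ := haj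
      rw [D.h00, hQc]
      simp [D.h00]
  have hherm : ∀ i k, conj (M i k) = M k i := by
    intro i k
    rw [hM2, hM2, map_mul, map_div₀, map_one, map_mul, hQc, Complex.conj_natCast, map_sum]
    congr 1
    rw [← Equiv.sum_comp (Equiv.neg (ZMod d)) (fun j => σ (D.r (k - i) j) *
      (ZMod.stdAddChar ((κ : ZMod d) * (i * j)) : ℂ))]
    refine Finset.sum_congr rfl fun j _ => ?_
    rw [map_mul, hcr, hconjc, Equiv.neg_apply, mul_assoc, ← hadd, neg_sub]
    congr 2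
    ring
  obtain ⟨φ, hφ1, hφ2⟩ := rank_one_herm M hherm hrank htr
  refine ⟨φ, fun i k => by rw [hφ1, hM], hφ2, fun a b hab => ?_⟩
  obtain ⟨j₀, hj₀⟩ : ∃ j₀ : ZMod d, j₀ = -((κ⁻¹ : (ZMod d)ˣ) : ZMod d) * b := ⟨_, rfl⟩
  have hj1 : ∀ j : ZMod d, (κ : ZMod d) * j + b = 0 ↔ j = j₀ := by
    intro j
    constructor
    · intro h1
      have h2 : (κ : ZMod d) * j = -b := eq_neg_of_add_eq_zero_left h1
      rw [hj₀]
      calc j = ((κ⁻¹ : (ZMod d)ˣ) : ZMod d) * ((κ : ZMod d) * j) := by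
            rw [Units.inv_mul_cancel_left]
        _ = _ := by rw [h2]; ring
    · rintro rfl
      rw [hj₀]
      have h2 : (κ : ZMod d) * (((κ⁻¹ : (ZMod d)ˣ) : ZMod d) * b) = b := Units.mul_inv_cancel_left _ _
      linear_combination -h2
  have hov : ovl φ φ a b = (1 / σ D.Q) * (σ (D.r (-a) j₀) *
      ZMod.stdAddChar ((κ : ZMod d) * (a * j₀))) := by
    have h1 : ovl φ φ a b = ∑ i : ZMod d, ∑ j : ZMod d, (1 / (d * σ D.Q)) * (σ (D.r (-a) j) *
        ZMod.stdAddChar ((κ : ZMod d) * (a * j)) *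
          ZMod.stdAddChar (i * ((κ : ZMod d) * j + b))) := by
      unfold ovl
      refine Finset.sum_congr rfl fun i _ => ?_
      have h2 : conj (φ (i + a)) * ((ZMod.stdAddChar (b * i) : ℂ) * φ i) =
          M i (i + a) * ZMod.stdAddChar (b * i) := by
        rw [← hφ1]
        ring
      rw [h2, hM2, mul_assoc, Finset.sum_mul, Finset.mul_sum]
      refine Finset.sum_congr rfl fun j _ => ?_
      rw [show i - (i + a) = -a by ring, mul_assoc (σ (D.r (-a) j)), mul_assoc (σ (D.r (-a) j)),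
        ← hadd, ← hadd]
      congr 3
      ring
    rw [h1, Finset.sum_comm]
    have h3 : ∀ j : ZMod d, ∑ i : ZMod d, (1 / (d * σ D.Q)) * (σ (D.r (-a) j) *
        ZMod.stdAddChar ((κ : ZMod d) * (a * j)) *
          ZMod.stdAddChar (i * ((κ : ZMod d) * j + b))) = if j = j₀ then (1 / σ D.Q) *
          (σ (D.r (-a) j₀) * ZMod.stdAddChar ((κ : ZMod d) * (a * j₀))) else 0 := by
      intro j
      rw [← Finset.mul_sum, ← Finset.mul_sum,
        AddChar.sum_mulShift _ (ZMod.isPrimitive_stdAddChar d)]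
      by_cases hj : j = j₀
      · rw [if_pos ((hj1 j).2 hj), if_pos hj, hj, ZMod.card]
        field_simp
      · rw [if_neg (fun h4 => hj ((hj1 j).1 h4)), if_neg hj]
        simp
    rw [Finset.sum_congr rfl fun j _ => h3 j, Finset.sum_ite_eq' Finset.univ j₀,
      if_pos (Finset.mem_univ _)]
  have hn1 : -a ≠ 0 ∨ j₀ ≠ 0 := by
    rcases hab with h1 | h1
    · exact Or.inl (neg_ne_zero.2 h1)
    · refine Or.inr fun h2 => h1 ?_
      have := (hj1 0).2 h2.symm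
      simpa using this
  rw [hov, norm_mul, norm_mul, norm_div, norm_one, hQn, h _ _ hn1, AddChar.norm_apply, mul_one,
    mul_one, div_pow, one_pow, D.hQ2]

end Ghost
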