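import Pool.Agent.Lib_MP_1c78a5_ghost.HStar
import Pool.Agent.Lib_MP_1c78a5_ghost.Dio
import Pool.Agent.Lib_MP_1c78a5_ghost.GRef

/-!
# Piece RBASE: the values `Rr N j` at the lattice points
-/

open Complex MeasureTheory Set Filter Topology
open scoped Real ComplexConjugate

namespace Ghost

/-- Both indices are divisible by `d`. -/
def Sing (d : ℕ) (N j : ℤ) : Prop := (d : ℤ) ∣ N ∧ (d : ℤ) ∣ j

/-- The value of `p` at `η_j`. -/
noncomputable def pJ (P : Par) (d : ℕ) (N j : ℤ) : ℝ := (P.o * j - P.Q * N) / d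

/-- The value of `r` at `η_j`. -/
noncomputable def rJ (P : Par) (d : ℕ) (N j : ℤ) : ℝ := (P.b * j + P.o * N) / d

/-- `Q ^ 2 = d + 1` and `b o = 1`. -/
theorem Q_sq {P : Par} {d : ℕ} (hU : P.IsUnit d) : P.Q ^ 2 = d + 1 := by
  have h1 := hU.rel
  have h2 := P.hbo
  unfold Par.Q
  nlinarith

theorem Q_pos (P : Par) : 0 < P.Q := add_pos P.hb P.ho

theorem d_pos {P : Par} {d : ℕ} (hU : P.IsUnit d) : (0 : ℝ) < d := by
  have h := hU.hd
  have : (4 : ℝ) ≤ d := by exact_mod_cast h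
  linarith

theorem pN_etaJ {P : Par} {d : ℕ} (hU : P.IsUnit d) (N j : ℤ) :
    pN P N (etaJ P d N j) = (pJ P d N j : ℂ) := by
  have hd := d_pos hU
  have hQ := Q_pos P
  have h2 := P.hbo
  have h1 : (P.o * etaJ P d N j - N) / P.Q = pJ P d N j := by
    unfold etaJ pJ
    rw [div_eq_div_iff hQ.ne' hd.ne']
    have h3 : P.o * ((P.Q * j - P.b * N) / d) * d = P.o * (P.Q * j - P.b * N) := by
      field_simp
    have h4 := Q_sq hU
    linear_combination h3 - N * h2 + N * h4
  unfold pN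
  rw [← h1]
  push_cast
  ring

theorem rN_etaJ {P : Par} {d : ℕ} (hU : P.IsUnit d) (N j : ℤ) :
    rN P N (etaJ P d N j) = (rJ P d N j : ℂ) := by
  have hd := d_pos hU
  have hQ := Q_pos P
  have h2 := P.hbo
  have h1 : (P.b * etaJ P d N j + N) / P.Q = rJ P d N j := by
    unfold etaJ rJ
    rw [div_eq_div_iff hQ.ne' hd.ne']
    have h3 : P.b * ((P.Q * j - P.b * N) / d) * d = P.b * (P.Q * j - P.b * N) := by
      field_simp
    have h4 := Q_sq hU
    have h5 : P.Q = P.b + P.o := rfl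
    have h6 := hU.rel
    linear_combination h3 - N * h6 - N * P.o * h5 - N * h2
  unfold rN
  rw [← h1]
  push_cast
  ring

/-- The three arguments are not in the lattice `ℤ b + ℤ o` (`int_comb`): `p = m b + n o` means
`(d m + N) b + (d n + N - j) o = 0`, `r = m b + n o` means `j = d m`, `N = d n`, and `η = m b + n o` means
`j - N = d m`, `j = d n`. -/
theorem not_lattice {P : Par} {d : ℕ} (hU : P.IsUnit d) {N j : ℤ} (h : ¬ Sing d N j)
    (m n : ℤ) : pJ P d N j ≠ m * P.b + n * P.o ∧ rJ P d N j ≠ m * P.b + n * P.o ∧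
      etaJ P d N j ≠ m * P.b + n * P.o := by
  have hd := d_pos hU
  refine ⟨fun hp => h ?_, fun hr => h ?_, fun he => h ?_⟩
  · unfold pJ at hp
    rw [div_eq_iff hd.ne'] at hp
    have h5 : P.Q = P.b + P.o := rfl
    have h1 := int_comb hU (d * m + N) (d * n + N - j) (by
      push_cast
      rw [h5] at hp
      linear_combination -hp)
    refine ⟨⟨-m, by linear_combination h1.1⟩, ⟨n - m, by linear_combination h1.1 - h1.2⟩⟩
  · unfold rJ at hr
    rw [div_eq_iff hd.ne'] at hr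
    have h1 := int_comb hU (d * m - j) (d * n - N) (by
      push_cast
      linear_combination -hr)
    refine ⟨⟨n, by linear_combination -h1.2⟩, ⟨m, by linear_combination -h1.1⟩⟩
  · unfold etaJ at he
    rw [div_eq_iff hd.ne'] at he
    have h5 : P.Q = P.b + P.o := rfl
    have h1 := int_comb hU (d * m - (j - N)) (d * n - j) (by
      push_cast
      rw [h5] at he
      linear_combination -he)
    refine ⟨⟨n - m, by linear_combination h1.1 - h1.2⟩, ⟨n, by linear_combination -h1.2⟩⟩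

/-- A real number outside of `ℤ b + ℤ o`, shifted by lattice vectors, is not a pole. -/
theorem not_pole_shift (P : Par) {x : ℝ} (hx : ∀ m n : ℤ, x ≠ m * P.b + n * P.o) (m n : ℤ)
    {y : ℂ} (hy : y = (x : ℂ) + m * P.b + n * P.o ∨ y = -(x : ℂ) + m * P.b + n * P.o) :
    ¬ Pole P y := by
  rintro ⟨k, l, hk⟩
  rcases hy with hy | hy
  · apply hx (-(k : ℤ) - m) (-(l : ℤ) - n)
    have : (x : ℂ) = ((-(k : ℤ) - m : ℤ) : ℂ) * P.b + ((-(l : ℤ) - n : ℤ) : ℂ) * P.o := by
      push_cast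
      linear_combination hk - hy
    exact_mod_cast this
  · apply hx ((k : ℤ) + m) ((l : ℤ) + n)
    have : (x : ℂ) = (((k : ℤ) + m : ℤ) : ℂ) * P.b + (((l : ℤ) + n : ℤ) : ℂ) * P.o := by
      push_cast
      linear_combination hy - hk
    exact_mod_cast this

theorem Rr_eq {P : Par} {d : ℕ} (hU : P.IsUnit d) (N j : ℤ) : Rr P d N j =
    (-1) ^ N * (G P ((pJ P d N j : ℂ) + P.b) * G P (rJ P d N j : ℂ) *
      G P ((P.Q : ℂ) - (etaJ P d N j : ℂ))) := by
  unfold Rr RN
  rw [pN_etaJ hU, rN_etaJ hU]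

/-- The values are real (`G_conj`). -/
theorem Rr_conj {P : Par} {d : ℕ} (hU : P.IsUnit d) (N j : ℤ) :
    conj (Rr P d N j) = Rr P d N j := by
  have h1 : ∀ x : ℂ, conj x = x → conj (G P x) = G P x := fun x hx => by
    rw [← G_conj, hx]
  rw [Rr_eq hU]
  simp only [map_mul, map_zpow₀, map_neg, map_one]
  rw [h1, h1, h1]
  · simp
  · simp
  · simp

end Ghost
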