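import Pool.Agent.Lib_MP_1c78a5_ghost.VFun
import Pool.Agent.Lib_MP_1c78a5_ghost.RBase

/-!
# Piece VPER: periodicity of the values of `V` on the lattice
-/

open Complex MeasureTheory Set Filter Topology
open scoped Real ComplexConjugate

namespace Ghost

/-- The points `z_J`. -/
noncomputable def zJ (P : Par) (d : ℕ) (J : ℤ) : ℝ := P.a / 4 - d / (2 * P.Q) - J / P.Q

/-- The vector of values of `V` with a Gaussian factor. -/
noncomputable def vJ (P : Par) (d : ℕ) (J : ℤ) : ℂ :=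
  e ((P.b * (J ^ 2 + d * J) / (2 * d * P.Q) : ℝ)) * VV P (zJ P d J)

theorem VPER_e_add (x y : ℂ) : e (x + y) = e x * e y := by
  unfold e
  rw [← Complex.exp_add]
  congr 1
  ring

theorem VPER_e_int (n : ℤ) : e (n : ℂ) = 1 := by
  unfold e
  rw [show (2 : ℂ) * π * I * (n : ℂ) = n * (2 * π * I) by ring]
  exact Complex.exp_int_mul_two_pi_mul_I n

theorem VPER_e_quarter : e ((1 / 4 : ℝ) : ℂ) = I := by
  unfold e
  rw [show (2 : ℂ) * π * I * ((1 / 4 : ℝ) : ℂ) = (π / 2 : ℂ) * I by push_cast; ring]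
  exact Complex.exp_pi_div_two_mul_I

theorem VPER_zJ_add (P : Par) (d : ℕ) (J : ℤ) :
    zJ P d (J + d) = zJ P d J - d / P.Q := by
  unfold zJ
  push_cast
  ring

theorem VPER_sum {P : Par} {d : ℕ} (hU : P.IsUnit d) (J : ℤ) :
    ((zJ P d J - P.b ^ 2 / P.Q) * P.b + P.m * P.b ^ 2 / 4) +
      ((zJ P d J - P.b ^ 2 / P.Q - 1 / P.Q) * P.o + P.m * P.o ^ 2 / 4) = -J - d := by
  have hQ : P.Q ≠ 0 := (Q_pos P).ne'
  have h2 := P.hbo
  have h3 := hU.rel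
  have h4 : P.Q ^ 2 = d + 1 := Q_sq hU
  have h5 : (d : ℝ) = P.b ^ 2 + P.o ^ 2 + 1 := by linarith
  have h6 : P.Q = P.b + P.o := rfl
  have h7 : P.b + P.o ≠ 0 := by rw [← h6]; exact hQ
  unfold zJ Par.m Par.a
  rw [h5]
  have key : ∀ b o q j : ℝ, q ≠ 0 → q = b + o → b * o = 1 →
      ((b - o) / 4 - (b ^ 2 + o ^ 2 + 1) / (2 * q) - j / q - b ^ 2 / q) * b +
        (b - o) / q * b ^ 2 / 4 +
      (((b - o) / 4 - (b ^ 2 + o ^ 2 + 1) / (2 * q) - j / q - b ^ 2 / q - 1 / q) * o +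
        (b - o) / q * o ^ 2 / 4) = -j - (b ^ 2 + o ^ 2 + 1) := by
    intro b o q j hq hqb hbo
    have : ((b - o) / 4 - (b ^ 2 + o ^ 2 + 1) / (2 * q) - j / q - b ^ 2 / q) * b +
        (b - o) / q * b ^ 2 / 4 +
      (((b - o) / 4 - (b ^ 2 + o ^ 2 + 1) / (2 * q) - j / q - b ^ 2 / q - 1 / q) * o +
        (b - o) / q * o ^ 2 / 4) - (-j - (b ^ 2 + o ^ 2 + 1)) =
      (((b - o) * q - 2 * (b ^ 2 + o ^ 2 + 1) - 4 * j - 4 * b ^ 2) * b + (b - o) * b ^ 2 +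
        ((b - o) * q - 2 * (b ^ 2 + o ^ 2 + 1) - 4 * j - 4 * b ^ 2 - 4) * o + (b - o) * o ^ 2
        + 4 * q * (j + (b ^ 2 + o ^ 2 + 1))) / (4 * q) := by
      field_simp
      ring
    have h0 : (((b - o) * q - 2 * (b ^ 2 + o ^ 2 + 1) - 4 * j - 4 * b ^ 2) * b + (b - o) * b ^ 2 +
        ((b - o) * q - 2 * (b ^ 2 + o ^ 2 + 1) - 4 * j - 4 * b ^ 2 - 4) * o + (b - o) * o ^ 2
        + 4 * q * (j + (b ^ 2 + o ^ 2 + 1))) = 0 := by
      subst hqb
      linear_combination (2 * o - 2 * b) * hbo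
    rw [h0, zero_div] at this
    linarith
  exact key P.b P.o P.Q J hQ h6 h2

/-- Proof. Put `y = z_J`, `z = y - b ^ 2 / Q`. `VV_rec_b` at `z` and `VV_rec_o` at `z - 1 / Q`
(`b ^ 2 + 1 + o ^ 2 = d`) say `V z = - i A (V y - V (z - 1 / Q))` and `V (z - 1 / Q) = - i B (V z - V (y - d / Q))`
with `A = e (z b + m b ^ 2 / 4)`, `B = e ((z - 1 / Q) o + m o ^ 2 / 4)`. The sum of the two exponents is
`- d - J` (use `Q = b + o`, `a = b - o`, `m Q = a`, `b o = 1`, `b ^ 2 + o ^ 2 = d - 1`), so `A B = 1`, and the two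
equations give `V y = i A⁻¹ V (y - d / Q)` (`V y = i A⁻¹ V z + V (z - 1 / Q)`). Here `y - d / Q = z_{J + d}`. -/
theorem VV_step {P : Par} {d : ℕ} (hU : P.IsUnit d) (J : ℤ) :
    VV P (zJ P d J) =
      I * e ((-((zJ P d J - P.b ^ 2 / P.Q) * P.b + P.m * P.b ^ 2 / 4) : ℝ)) *
        VV P (zJ P d (J + d)) := by
  have hQ : P.Q ≠ 0 := (Q_pos P).ne'
  have h3 := hU.rel
  have hb := VV_rec_b hU (zJ P d J - P.b ^ 2 / P.Q)
  have ho := VV_rec_o hU (zJ P d J - P.b ^ 2 / P.Q - 1 / P.Q)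
  have e1 : zJ P d J - P.b ^ 2 / P.Q + P.b ^ 2 / P.Q = zJ P d J := by ring
  have e2 : zJ P d J - P.b ^ 2 / P.Q - 1 / P.Q + 1 / P.Q = zJ P d J - P.b ^ 2 / P.Q := by ring
  have e3 : zJ P d J - P.b ^ 2 / P.Q - 1 / P.Q - P.o ^ 2 / P.Q = zJ P d (J + d) := by
    rw [VPER_zJ_add, show (d : ℝ) = P.b ^ 2 + P.o ^ 2 + 1 by linarith]
    ring
  rw [e1] at hb
  rw [e2, e3] at ho
  have hs := VPER_sum hU J
  set z : ℝ := zJ P d J - P.b ^ 2 / P.Q with hz
  set α : ℝ := z * P.b + P.m * P.b ^ 2 / 4 with hα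
  set β : ℝ := (z - 1 / P.Q) * P.o + P.m * P.o ^ 2 / 4 with hβ
  have eA : e ((z : ℂ) * P.b + P.m * P.b ^ 2 / 4) = e (α : ℂ) := by
    rw [hα]; push_cast; rfl
  have eB : e (((z - 1 / P.Q : ℝ) : ℂ) * P.o + P.m * P.o ^ 2 / 4) = e (β : ℂ) := by
    rw [hβ]; push_cast; rfl
  rw [eA] at hb
  rw [eB] at ho
  have hAB : e (α : ℂ) * e (β : ℂ) = 1 := by
    rw [← VPER_e_add, ← Complex.ofReal_add, hs]
    have := VPER_e_int (-J - d)
    rw [← this]
    congr 1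
    push_cast
    ring
  have hAA : e (α : ℂ) * e ((-α : ℝ) : ℂ) = 1 := by
    rw [← VPER_e_add, ← Complex.ofReal_add]
    have := VPER_e_int 0
    rw [← this]
    congr 1
    push_cast
    ring
  have hA0 : e (α : ℂ) ≠ 0 := by
    intro h0
    rw [h0, zero_mul] at hAA
    exact zero_ne_one hAA
  have hBA : e (β : ℂ) = e ((-α : ℝ) : ℂ) := by
    apply mul_left_cancel₀ hA0
    rw [hAB, hAA]
  rw [hBA] at ho
  have hII : I * I = -1 := Complex.I_mul_I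
  generalize hVy : VV P (zJ P d J) = Vy at *
  generalize hVz : VV P z = Vz at *
  generalize hVw : VV P ((z - 1 / P.Q : ℝ)) = Vw at *
  generalize hVt : VV P (zJ P d (J + d)) = Vt at *
  generalize e (α : ℂ) = A at *
  generalize e ((-α : ℝ) : ℂ) = A' at *
  -- `hb : Vz = - I A (Vy - Vw)`, `ho : Vw = - I A' (Vz - Vt)`, `A A' = 1`
  have h1 : A' * Vz = -I * (Vy - Vw) := by
    rw [hb]
    linear_combination (-I * (Vy - Vw)) * hAA
  linear_combination ho - I * h1 + (Vy - Vw) * hII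

/-- Proof. `VV_step` and `i = e (1 / 4)`: the exponents agree exactly,
`b ((J + d) ^ 2 + d (J + d)) / (2 d Q) = b (J ^ 2 + d J) / (2 d Q) + 1 / 4 - ((z_J - b ^ 2 / Q) b + m b ^ 2 / 4)`
(multiply by `4 Q`, with `a b = b ^ 2 - 1`, `m Q = a`, `d = b ^ 2 + o ^ 2 + 1`). -/
theorem vJ_add {P : Par} {d : ℕ} (hU : P.IsUnit d) (J : ℤ) : vJ P d (J + d) = vJ P d J := by
  have hQ : P.Q ≠ 0 := (Q_pos P).ne'
  have h2 := P.hbo
  have h3 := hU.rel
  have hd : (d : ℝ) ≠ 0 := (d_pos hU).ne'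
  have h6 : P.Q = P.b + P.o := rfl
  unfold vJ
  rw [VV_step hU J, ← VPER_e_quarter]
  rw [← mul_assoc, ← mul_assoc, ← VPER_e_add, ← VPER_e_add, ← Complex.ofReal_add,
    ← Complex.ofReal_add]
  congr 3
  have key : ∀ b o q j D : ℝ, q ≠ 0 → D ≠ 0 → q = b + o → b * o = 1 → D = b ^ 2 + o ^ 2 + 1 →
      b * ((j + D) ^ 2 + D * (j + D)) / (2 * D * q) =
        b * (j ^ 2 + D * j) / (2 * D * q) + (1 / 4 +
          -(((b - o) / 4 - D / (2 * q) - j / q - b ^ 2 / q) * b + (b - o) / q * b ^ 2 / 4)) := by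
    intro b o q j D hq hD hqb hbo hDb
    have h0 : q - (b - o) * b * q - 2 * b * D + 4 * b ^ 3 - (b - o) * b ^ 2 = 0 := by
      subst hqb
      subst hDb
      linear_combination (b - o) * hbo
    have h1 : b * ((j + D) ^ 2 + D * (j + D)) / (2 * D * q) = b * (j ^ 2 + D * j) / (2 * D * q) +
        b * (j + D) / q := by
      field_simp
      ring
    have h2 : (1 / 4 +
          -(((b - o) / 4 - D / (2 * q) - j / q - b ^ 2 / q) * b + (b - o) / q * b ^ 2 / 4)) =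
        b * (j + D) / q +
          (q - (b - o) * b * q - 2 * b * D + 4 * b ^ 3 - (b - o) * b ^ 2) / (4 * q) := by
      field_simp
      ring
    rw [h1, h2, h0]
    ring
  have := key P.b P.o P.Q J d hQ hd h6 h2 (by linarith)
  unfold zJ Par.m Par.a
  push_cast at this ⊢
  linarith

end Ghost
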