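import Pool.Agent.Lib_MP_1c78a5_ghost.RNeg
import Pool.Agent.Lib_MP_1c78a5_ghost.VPer

/-!
# Piece FINP: periodicity of the ghost data
-/

open Complex MeasureTheory Set Filter Topology
open scoped Real ComplexConjugate

namespace Ghost

open Classical in
/-- The values `Rr N j e (N j / (2 d))`, and `Q` at the singular points. -/
noncomputable def rZ (P : Par) (d : ℕ) (N j : ℤ) : ℂ :=
  if Sing d N j then (P.Q : ℂ) else Rr P d N j * e ((N * j / (2 * d) : ℝ))

theorem FINP_e_add (x y : ℂ) : e (x + y) = e x * e y := by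
  unfold e
  rw [← Complex.exp_add]
  congr 1
  ring

theorem FINP_e_half (N : ℤ) : e ((N : ℂ) / 2) = (-1) ^ N := by
  unfold e
  rw [show 2 * (π : ℂ) * I * ((N : ℂ) / 2) = N * (π * I) by ring, Complex.exp_int_mul,
    Complex.exp_pi_mul_I]

theorem FINP_sq (N : ℤ) : ((-1 : ℂ)) ^ N * (-1) ^ N = 1 := by
  rw [← mul_zpow]
  norm_num

/-- `Rr (N, j + d) = (-1) ^ N Rr (N, j)` and `e (N (j + d) / (2 d)) = (-1) ^ N e (N j / (2 d))`; the singular
points are `d`-periodic. -/
theorem rZ_add_j {P : Par} {d : ℕ} (hU : P.IsUnit d) (N j : ℤ) :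
    rZ P d N (j + d) = rZ P d N j := by
  have hS : Sing d N (j + d) ↔ Sing d N j := by
    unfold Sing
    rw [dvd_add_self_right]
  have hd := d_pos hU
  unfold rZ
  by_cases h : Sing d N j
  · rw [if_pos h, if_pos (hS.2 h)]
  · rw [if_neg h, if_neg (fun h' => h (hS.1 h')), Rr_add_j hU h]
    have h1 : (((N * ((j + d : ℤ) : ℝ) / (2 * d) : ℝ)) : ℂ) = ((N * j / (2 * d) : ℝ) : ℂ) + (N : ℂ) / 2 := by
      have h2 : (N * ((j + d : ℤ) : ℝ) / (2 * d) : ℝ) = (N * j / (2 * d) : ℝ) + (N : ℝ) / 2 := by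
        push_cast
        field_simp
      rw [h2]
      push_cast
      rfl
    rw [h1, FINP_e_add, FINP_e_half]
    linear_combination (Rr P d N j * e ((N * j / (2 * d) : ℝ) : ℂ)) * FINP_sq N

/-- The same in the first variable. -/
theorem rZ_add_N {P : Par} {d : ℕ} (hU : P.IsUnit d) (N j : ℤ) :
    rZ P d (N + d) j = rZ P d N j := by
  have hS : Sing d (N + d) j ↔ Sing d N j := by
    unfold Sing
    rw [dvd_add_self_right]
  have hd := d_pos hU
  unfold rZ
  by_cases h : Sing d N j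
  · rw [if_pos h, if_pos (hS.2 h)]
  · rw [if_neg h, if_neg (fun h' => h (hS.1 h')), Rr_add_N hU h]
    have h1 : (((((N + d : ℤ) : ℝ) * j / (2 * d) : ℝ)) : ℂ) = ((N * j / (2 * d) : ℝ) : ℂ) + (j : ℂ) / 2 := by
      have h2 : (((N + d : ℤ) : ℝ) * j / (2 * d) : ℝ) = (N * j / (2 * d) : ℝ) + (j : ℝ) / 2 := by
        push_cast
        field_simp
      rw [h2]
      push_cast
      rfl
    rw [h1, FINP_e_add, FINP_e_half]
    linear_combination (Rr P d N j * e ((N * j / (2 * d) : ℝ) : ℂ)) * FINP_sq j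

/-- Periodicity in both variables, from `rZ_add_j`, `rZ_add_N` by induction (`Function.Periodic.int_mul`). -/
theorem rZ_congr {P : Par} {d : ℕ} (hU : P.IsUnit d) {N N' j j' : ℤ}
    (h1 : (N : ZMod d) = N') (h2 : (j : ZMod d) = j') : rZ P d N j = rZ P d N' j' := by
  rw [ZMod.intCast_eq_intCast_iff_dvd_sub] at h1 h2
  obtain ⟨a, ha⟩ := h1
  obtain ⟨c, hc⟩ := h2
  have e1 : N' = N + a * d := by linear_combination ha
  have e2 : j' = j + c * d := by linear_combination hc
  have p1 : Function.Periodic (fun n : ℤ => rZ P d n j) (d : ℤ) := fun n => rZ_add_N hU n j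
  have p2 : Function.Periodic (fun n : ℤ => rZ P d (N + a * d) n) (d : ℤ) := fun n => rZ_add_j hU _ n
  rw [e1, e2]
  have q1 := (p1.int_mul a) N
  have q2 := (p2.int_mul c) j
  push_cast at q1 q2
  rw [q2, q1]

/-- From `vJ_add`. -/
theorem vJ_congr {P : Par} {d : ℕ} (hU : P.IsUnit d) {J J' : ℤ}
    (h : (J : ZMod d) = J') : vJ P d J = vJ P d J' := by
  rw [ZMod.intCast_eq_intCast_iff_dvd_sub] at h
  obtain ⟨a, ha⟩ := h
  have e1 : J' = J + a * d := by linear_combination ha
  have p1 : Function.Periodic (fun n : ℤ => vJ P d n) (d : ℤ) := fun n => vJ_add hU n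
  rw [e1]
  exact ((p1.int_mul a) J).symm

/-- The matrix of the ghost data. -/
noncomputable def rM (P : Par) (d : ℕ) (a b : ZMod d) : ℂ := rZ P d a.val b.val

/-- The vector of the ghost data. -/
noncomputable def vM (P : Par) (d : ℕ) (i : ZMod d) : ℂ := vJ P d i.val

theorem rM_coe {P : Par} {d : ℕ} [NeZero d] (hU : P.IsUnit d) (N j : ℤ) :
    rM P d (N : ZMod d) (j : ZMod d) = rZ P d N j := by
  unfold rM
  exact rZ_congr hU (by simp) (by simp)

theorem vM_coe {P : Par} {d : ℕ} [NeZero d] (hU : P.IsUnit d) (J : ℤ) :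
    vM P d (J : ZMod d) = vJ P d J := by
  unfold vM
  exact vJ_congr hU (by simp)

theorem rM_zero {P : Par} {d : ℕ} [NeZero d] : rM P d 0 0 = (P.Q : ℂ) := by
  unfold rM rZ Sing
  simp

end Ghost
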