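import Pool.Agent.Lib_MP_1c78a5_ghost.FinP

/-!
# Piece FINQ: inversion and conjugation of the ghost data
-/

open Complex MeasureTheory Set Filter Topology
open scoped Real ComplexConjugate

namespace Ghost

theorem FINQ_e_mul (x y : ℝ) : e (x : ℂ) * e (y : ℂ) = e ((x + y : ℝ) : ℂ) := by
  unfold e
  rw [← Complex.exp_add]
  congr 1
  push_cast
  ring

theorem FINQ_e_std {d : ℕ} [NeZero d] (n : ℤ) :
    (ZMod.stdAddChar ((n : ℤ) : ZMod d) : ℂ) = e ((n / d : ℝ) : ℂ) := by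
  rw [ZMod.stdAddChar_coe]
  unfold e
  congr 1
  push_cast
  ring

theorem FINQ_conj_e (x : ℝ) : conj (e (x : ℂ)) = e ((-x : ℝ) : ℂ) := by
  unfold e
  rw [← Complex.exp_conj]
  congr 1
  simp only [map_mul, Complex.conj_ofReal, Complex.conj_I, Complex.ofReal_neg, map_ofNat]
  ring

/-- `Rr_neg` (with representatives `N = a.val`, `j = b.val`; `(N : ZMod d) ≠ 0` or `(j : ZMod d) ≠ 0` means
`¬ Sing`), `e (N j / (2 d)) e ((- N) (- j) / (2 d)) = e (N j / d) = stdAddChar (N j)`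
(`ZMod.stdAddChar_coe`), `rM_coe`. -/
theorem rM_neg {P : Par} {d : ℕ} [NeZero d] (hU : P.IsUnit d) {a b : ZMod d}
    (h : a ≠ 0 ∨ b ≠ 0) : rM P d a b * rM P d (-a) (-b) = ZMod.stdAddChar (a * b) := by
  obtain ⟨N, rfl⟩ : ∃ N : ℤ, (N : ZMod d) = a := ⟨a.val, by simp⟩
  obtain ⟨j, rfl⟩ : ∃ j : ℤ, (j : ZMod d) = b := ⟨b.val, by simp⟩
  have hS : ¬ Sing d N j := by
    rintro ⟨h1, h2⟩
    rcases h with h | h
    · exact h ((ZMod.intCast_zmod_eq_zero_iff_dvd N d).2 h1)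
    · exact h ((ZMod.intCast_zmod_eq_zero_iff_dvd j d).2 h2)
  have hS' : ¬ Sing d (-N) (-j) := by
    rintro ⟨h1, h2⟩
    exact hS ⟨(dvd_neg).1 h1, (dvd_neg).1 h2⟩
  have hd : (d : ℝ) ≠ 0 := by exact_mod_cast NeZero.ne d
  rw [← Int.cast_neg, ← Int.cast_neg, rM_coe hU, rM_coe hU, ← Int.cast_mul, FINQ_e_std]
  unfold rZ
  rw [if_neg hS, if_neg hS', mul_mul_mul_comm, Rr_neg hU hS, one_mul, FINQ_e_mul]
  congr 2
  push_cast
  field_simp
  ring

/-- `Rr_conj` and `conj (e x) = e (- x)` for real `x`, so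
`conj (rZ N j) = rZ N j e (- N j / d)`. -/
theorem rM_conj {P : Par} {d : ℕ} [NeZero d] (hU : P.IsUnit d) (a b : ZMod d) :
    conj (rM P d a b) = rM P d a b * ZMod.stdAddChar (-(a * b)) := by
  obtain ⟨N, rfl⟩ : ∃ N : ℤ, (N : ZMod d) = a := ⟨a.val, by simp⟩
  obtain ⟨j, rfl⟩ : ∃ j : ℤ, (j : ZMod d) = b := ⟨b.val, by simp⟩
  have hd : (d : ℝ) ≠ 0 := by exact_mod_cast NeZero.ne d
  rw [rM_coe hU]
  by_cases hS : Sing d N j
  · have h0 : ((N : ℤ) : ZMod d) = 0 := (ZMod.intCast_zmod_eq_zero_iff_dvd N d).2 hS.1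
    rw [h0, zero_mul, neg_zero, AddChar.map_zero_eq_one, mul_one]
    unfold rZ
    rw [if_pos hS, Complex.conj_ofReal]
  · rw [← Int.cast_mul, ← Int.cast_neg, FINQ_e_std]
    unfold rZ
    rw [if_neg hS, map_mul, Rr_conj hU, FINQ_conj_e, mul_assoc, FINQ_e_mul]
    congr 3
    push_cast
    field_simp
    ring

end Ghost
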