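import Pool.Agent.Lib_MP_1c78a5_ghost.Ident
import Pool.Agent.Lib_MP_1c78a5_ghost.VPer

/-!
# Piece MFORM: the main identity at the lattice points
-/

open Complex MeasureTheory Set Filter Topology
open scoped Real ComplexConjugate

namespace Ghost

theorem MFORM_e_half (n : ℤ) : e ((n : ℂ) / 2) = (-1) ^ n := by
  unfold e
  rw [show 2 * (π : ℂ) * I * ((n : ℂ) / 2) = (n : ℂ) * (π * I) by ring, Complex.exp_int_mul,
    Complex.exp_pi_mul_I]

theorem MFORM_e_int (n : ℤ) : e (n : ℂ) = 1 := by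
  unfold e
  rw [show 2 * (π : ℂ) * I * (n : ℂ) = (n : ℂ) * (2 * π * I) by ring,
    Complex.exp_int_mul_two_pi_mul_I]

theorem MFORM_sq (j : ℤ) : ((-1 : ℂ) ^ j) * (-1) ^ j = 1 := by
  rw [← mul_zpow]; norm_num

/-- Proof. `main_identity` with `ω = ((N + d) / 2 + k) / Q`, so `e (ω Q) = (-1) ^ (N + d)`,
`a / 4 - N / (2 Q) - ω = z_{N + k}` and `a / 4 - N / (2 Q) + ω = z_{- k - d}`. Since
`ω η_j = ((N + d) / 2 + k) (j / d - b N / (d Q))`,
`e (ω η_j) = e (N j / (2 d)) (-1) ^ j e (k j / d) e (- b N (N + 2 k + d) / (2 d Q))` and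
`(-1) ^ j (-1) ^ j = 1`. On the right side `V (z_J) = e (- b (J ^ 2 + d J) / (2 d Q)) v_J`, and
`conj (v_{- k - d}) = conj (v_{- k})` (`vJ_add`), where
`(- k - d) ^ 2 + d (- k - d) = k ^ 2 + d k`; the product of the two exponential factors has the exponent
`b (k ^ 2 + d k - (N + k) ^ 2 - d (N + k)) / (2 d Q) = - b N (N + 2 k + d) / (2 d Q)`. Cancel. -/
theorem mform {P : Par} {d : ℕ} (hU : P.IsUnit d) : ∃ K : ℝ, 0 < K ∧ ∀ N k : ℤ, 0 ≤ N → N < d →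
    ∑ j ∈ win P d N, Rv P d N j * e ((N * j / (2 * d) : ℝ)) * e ((k * j / d : ℝ)) =
      (d / (P.Q * K)) * vJ P d (N + k) * conj (vJ P d (-k)) := by
  obtain ⟨K, hK, hmain⟩ := main_identity hU
  refine ⟨K, hK, fun N k h0 h1 => ?_⟩
  have hQ := (Q_pos P).ne'
  have hd := (d_pos hU).ne'
  have hQc : (P.Q : ℂ) ≠ 0 := by exact_mod_cast hQ
  have hdc : (d : ℂ) ≠ 0 := by exact_mod_cast hd
  obtain ⟨ω, hωdef⟩ : ∃ ω : ℝ, ω = (((N : ℝ) + d) / 2 + k) / P.Q := ⟨_, rfl⟩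
  have hωc : (ω : ℂ) = (((N : ℂ) + d) / 2 + k) / P.Q := by rw [hωdef]; push_cast; ring
  have hω : e (ω * P.Q) = (-1) ^ (N + d) := by
    have h2 : (ω : ℂ) * P.Q = (((N + d : ℤ) : ℂ) / 2) + ((k : ℤ) : ℂ) := by
      rw [hωc]; push_cast; field_simp
    rw [h2, VFUN_e_add, MFORM_e_int, mul_one, MFORM_e_half]
  have h := hmain N h0 h1 ω hω
  have hz1 : P.a / 4 - N / (2 * P.Q) - ω = zJ P d (N + k) := by
    unfold zJ; rw [hωdef]; push_cast; field_simp; ring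
  have hz2 : P.a / 4 - N / (2 * P.Q) + ω = zJ P d (-k - d) := by
    unfold zJ; rw [hωdef]; push_cast; field_simp; ring
  rw [hz1, hz2] at h
  have hv : vJ P d (-k) = vJ P d (-k - d) := by
    have := vJ_add hU (-k - d)
    rw [← this]; congr 1; ring
  obtain ⟨x, hx⟩ : ∃ x : ℝ, x = P.b * N * (N + 2 * k + d) / (2 * d * P.Q) := ⟨_, rfl⟩
  have hterm : ∀ j : ℤ, (-1) ^ j * Rv P d N j * e (ω * etaJ P d N j) =
      e (-(x : ℂ)) * (Rv P d N j * e ((N * j / (2 * d) : ℝ)) * e ((k * j / d : ℝ))) := by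
    intro j
    have h3 : (ω : ℂ) * etaJ P d N j = ((N * j / (2 * d) : ℝ) : ℂ) + ((k * j / d : ℝ) : ℂ)
        + ((j : ℂ) / 2) + (-(x : ℂ)) := by
      rw [hωc, hx]; unfold etaJ; push_cast; field_simp; ring
    rw [h3, VFUN_e_add, VFUN_e_add, VFUN_e_add, MFORM_e_half]
    linear_combination (Rv P d N j * e ((N * j / (2 * d) : ℝ)) * e ((k * j / d : ℝ)) *
      e (-(x : ℂ))) * MFORM_sq j
  rw [Finset.sum_congr rfl (fun j _ => hterm j), ← Finset.mul_sum] at h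
  have hxx : e (x : ℂ) * e (-(x : ℂ)) = 1 := by
    rw [← VFUN_e_add, add_neg_cancel]
    have := MFORM_e_int 0
    simpa using this
  have hexp : e ((P.b * (((N + k : ℤ) : ℝ) ^ 2 + d * ((N + k : ℤ) : ℝ)) / (2 * d * P.Q) : ℝ)) *
      e (-((P.b * (((-k - d : ℤ) : ℝ) ^ 2 + d * ((-k - d : ℤ) : ℝ)) / (2 * d * P.Q) : ℝ) : ℂ)) =
        e (x : ℂ) := by
    rw [← VFUN_e_add]
    congr 1
    rw [hx]; push_cast; field_simp; ring
  rw [hv]
  unfold vJ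
  rw [map_mul, VFUN_conj_e, Complex.conj_ofReal]
  linear_combination e (x : ℂ) * h + (-(∑ j ∈ win P d N, Rv P d N j * e ((N * j / (2 * d) : ℝ)) *
    e ((k * j / d : ℝ)))) * hxx - (d / (P.Q * K)) * VV P (zJ P d (N + k)) *
      conj (VV P (zJ P d (-k - d))) * hexp

end Ghost
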