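import Pool.Agent.Lib_MP_1c78a5_ghost.FinP
import Pool.Agent.Lib_MP_1c78a5_ghost.MForm

/-!
# Piece FINR: the sum formula over `ZMod d`
-/

open Complex MeasureTheory Set Filter Topology
open scoped Real ComplexConjugate

namespace Ghost

theorem FINR_sum {d : ℕ} [NeZero d] (c : ℤ) (f : ZMod d → ℂ) :
    ∑ j : ZMod d, f j = ∑ J ∈ Finset.Ico c (c + d), f (J : ZMod d) := by
  classical
  have hd : (0 : ℤ) < d := by
    have := NeZero.pos d
    exact_mod_cast this
  have hinj : Set.InjOn (fun J : ℤ => (J : ZMod d)) (Finset.Ico c (c + d) : Finset ℤ) := by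
    intro x hx y hy hxy
    rw [Finset.mem_coe, Finset.mem_Ico] at hx hy
    have h1 : (d : ℤ) ∣ y - x := (ZMod.intCast_eq_intCast_iff_dvd_sub x y d).1 hxy
    have h2 : y - x = 0 := by
      refine Int.eq_zero_of_abs_lt_dvd h1 ?_
      rw [abs_lt]
      constructor <;> linarith [hx.1, hx.2, hy.1, hy.2]
    linarith
  have himg : (Finset.Ico c (c + d)).image (fun J : ℤ => (J : ZMod d)) = Finset.univ := by
    apply Finset.eq_univ_of_card
    rw [Finset.card_image_of_injOn hinj, Int.card_Ico, ZMod.card]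
    simp
  rw [← himg, Finset.sum_image hinj]

theorem FINR_term {P : Par} {d : ℕ} (hU : P.IsUnit d) {N J : ℤ} (h0 : 0 ≤ N) (h1 : N < d)
    (hJ : J ∈ win P d N) : rZ P d N J = Rv P d N J * e ((N * J / (2 * d) : ℝ)) := by
  have hd : (0 : ℤ) < d := by
    have := hU.hd
    exact_mod_cast (by omega : 0 < d)
  unfold rZ Rv
  by_cases hS : Sing d N J
  · obtain ⟨hN, hJd⟩ := hS
    have hN0 : N = 0 := by
      refine Int.eq_zero_of_abs_lt_dvd hN ?_
      rw [abs_of_nonneg h0]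
      exact h1
    subst hN0
    have hJ0 : J = 0 := by
      unfold win at hJ
      rw [Finset.mem_Ico] at hJ
      simp only [Int.cast_zero, mul_zero, zero_div, Int.ceil_zero, zero_add] at hJ
      refine Int.eq_zero_of_abs_lt_dvd hJd ?_
      rw [abs_of_nonneg hJ.1]
      exact hJ.2
    subst hJ0
    have hS0 : Sing d 0 0 := ⟨dvd_zero _, dvd_zero _⟩
    rw [if_pos hS0, if_pos ⟨rfl, rfl⟩]
    unfold e
    simp
  · have hn : ¬ (N = 0 ∧ J = 0) := by
      rintro ⟨rfl, rfl⟩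
      exact hS ⟨dvd_zero _, dvd_zero _⟩
    rw [if_neg hS, if_neg hn]

/-- Proof. `mform` with `C = d / (Q K)`. For `a : ZMod d` take `N = a.val`, `0 ≤ N < d`, and `k' = k.val`. For
`j ∈ win N`, `Rv N j e (N j / (2 d)) = rZ N j`: if `Sing d N j` then `N = 0` (`0 ≤ N < d`) and then
`win P d 0 = Ico 0 d`, so `j = 0`; both sides are `Q`. `e (k j / d) = stdAddChar (k j)`
(`ZMod.stdAddChar_coe`). The map `j ↦ (j : ZMod d)` is a bijection from `win P d N = Ico c (c + d)` to `ZMod d`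
(injective as two elements with the same class differ by a multiple of `d`, and the cardinalities agree), and
`rM_coe`, `vM_coe`. -/
theorem rM_sum {P : Par} {d : ℕ} [NeZero d] (hU : P.IsUnit d) : ∃ C : ℝ, 0 < C ∧
    ∀ a k : ZMod d, ∑ j : ZMod d, rM P d a j * ZMod.stdAddChar (k * j) =
      C * vM P d (a + k) * conj (vM P d (-k)) := by
  obtain ⟨K, hK, hm⟩ := mform hU
  have hdpos : (0 : ℝ) < d := HSUM_dpos hU
  have hQ : 0 < P.Q := HSUM_Qpos P
  refine ⟨d / (P.Q * K), by positivity, fun a k => ?_⟩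
  obtain ⟨N, hN⟩ : ∃ N : ℤ, N = (a.val : ℤ) := ⟨_, rfl⟩
  obtain ⟨l, hl⟩ : ∃ l : ℤ, l = (k.val : ℤ) := ⟨_, rfl⟩
  have ha : a = (N : ZMod d) := by rw [hN]; simp
  have hk : k = (l : ZMod d) := by rw [hl]; simp
  have hN0 : 0 ≤ N := by rw [hN]; exact Int.natCast_nonneg _
  have hN1 : N < d := by
    rw [hN]
    exact_mod_cast ZMod.val_lt a
  have h1 := hm N l hN0 hN1
  rw [FINR_sum ⌈P.b * N / P.Q⌉]
  have h2 : ∑ J ∈ Finset.Ico ⌈P.b * N / P.Q⌉ (⌈P.b * N / P.Q⌉ + d),
      rM P d a (J : ZMod d) * ZMod.stdAddChar (k * (J : ZMod d)) =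
      ∑ j ∈ win P d N, Rv P d N j * e ((N * j / (2 * d) : ℝ)) * e ((l * j / d : ℝ)) := by
    refine Finset.sum_congr rfl fun J hJ => ?_
    rw [ha, rM_coe hU, FINR_term hU hN0 hN1 hJ]
    congr 1
    have h3 : k * (J : ZMod d) = ((l * J : ℤ) : ZMod d) := by
      rw [hk]
      push_cast
      rfl
    rw [h3, ZMod.stdAddChar_coe]
    unfold e
    congr 1
    push_cast
    ring
  have h4 : a + k = ((N + l : ℤ) : ZMod d) := by
    rw [ha, hk]
    push_cast
    rfl
  have h5 : -k = ((-l : ℤ) : ZMod d) := by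
    rw [hk]
    push_cast
    rfl
  rw [h2, h1, h4, h5, vM_coe hU, vM_coe hU]
  push_cast
  rfl

end Ghost
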