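import Pool.Agent.Lib_MP_1c78a5_ghost.FinQ
import Pool.Agent.Lib_MP_1c78a5_ghost.FinR
import Pool.Agent.Lib_MP_1c78a5_ghost.FinB

/-!
# Piece FINS: existence of the ghost data
-/

open Complex MeasureTheory Set Filter Topology
open scoped Real ComplexConjugate

namespace Ghost

/-- All together. -/
theorem exists_data {P : Par} {d : ℕ} [NeZero d] (hU : P.IsUnit d) :
    ∃ D : GhostData d, D.r = rM P d ∧ D.Q = P.Q := by
  obtain ⟨C, hC, hsum⟩ := rM_sum (d := d) hU
  exact ⟨⟨vM P d, rM P d, P.Q, C, Q_pos P, Q_sq hU, hC, hsum, fun a b h => rM_neg hU h,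
    rM_conj hU, rM_zero⟩, rfl, rfl⟩

end Ghost
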