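import Pool.Agent.Lib_MP_1c78a5_ghost.VBd

/-!
# Piece HBD: bounds for `h_N` and `R_N` away from the real axis
-/

open Complex MeasureTheory Set Filter Topology
open scoped Real ComplexConjugate

namespace Ghost

theorem HBD_Qpos (P : Par) : 0 < P.Q := add_pos P.hb P.ho

theorem HBD_p_re (P : Par) (N : ℤ) (η : ℂ) : (pN P N η).re = (P.o * η.re - N) / P.Q := by
  unfold pN
  rw [Complex.div_ofReal_re]
  simp

theorem HBD_p_im (P : Par) (N : ℤ) (η : ℂ) : (pN P N η).im = P.o * η.im / P.Q := by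
  unfold pN
  rw [Complex.div_ofReal_im]
  simp

theorem HBD_r_re (P : Par) (N : ℤ) (η : ℂ) : (rN P N η).re = (P.b * η.re + N) / P.Q := by
  unfold rN
  rw [Complex.div_ofReal_re]
  simp

theorem HBD_r_im (P : Par) (N : ℤ) (η : ℂ) : (rN P N η).im = P.b * η.im / P.Q := by
  unfold rN
  rw [Complex.div_ofReal_im]
  simp

theorem HBD_abs_p (P : Par) (y : ℝ) : |P.o * y / P.Q| = P.o * |y| / P.Q := by
  rw [abs_div, abs_mul, abs_of_pos P.ho, abs_of_pos (HBD_Qpos P)]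

theorem HBD_abs_r (P : Par) (y : ℝ) : |P.b * y / P.Q| = P.b * |y| / P.Q := by
  rw [abs_div, abs_mul, abs_of_pos P.hb, abs_of_pos (HBD_Qpos P)]

theorem HBD_exp1 (P : Par) (N x y : ℝ) :
    π * (P.o * y / P.Q) * ((P.o * x - N) / P.Q + P.b - P.Q / 2) +
      π * (P.b * y / P.Q) * ((P.b * x + N) / P.Q + P.o - P.Q / 2) + π * y * (-x - P.Q / 2) =
    π * y * (2 / P.Q + P.a * N / P.Q ^ 2 - P.Q - 2 * x / P.Q ^ 2) := by
  have hQ := (HBD_Qpos P).ne'
  have h2 : (2 : ℝ) / P.Q = 2 * (P.b * P.o) / P.Q := by rw [P.hbo, mul_one]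
  have h3 : 2 * x / P.Q ^ 2 = 2 * (P.b * P.o) * x / P.Q ^ 2 := by rw [P.hbo, mul_one]
  rw [h2, h3]
  unfold Par.a
  have hQe : P.Q = P.b + P.o := rfl
  rw [hQe] at hQ ⊢
  field_simp
  ring

theorem HBD_exp2 (P : Par) (N x y : ℝ) :
    π * (P.o * y / P.Q) * ((P.o * x - N) / P.Q + P.b - P.Q / 2) +
      π * (P.b * y / P.Q) * ((P.b * x + N) / P.Q - P.Q / 2) + π * y * (P.Q - x - P.Q / 2) =
    π * y * (1 / P.Q + P.a * N / P.Q ^ 2 - 2 * x / P.Q ^ 2) := by
  have hQ := (HBD_Qpos P).ne'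
  have h2 : (1 : ℝ) / P.Q = (P.b * P.o) / P.Q := by rw [P.hbo]
  have h3 : 2 * x / P.Q ^ 2 = 2 * (P.b * P.o) * x / P.Q ^ 2 := by rw [P.hbo, mul_one]
  rw [h2, h3]
  unfold Par.a
  have hQe : P.Q = P.b + P.o := rfl
  rw [hQe] at hQ ⊢
  field_simp
  ring

theorem HBD_t0 {P : Par} {d : ℕ} (hU : P.IsUnit d) {T y : ℝ} (hT : 0 < T) (hy : T ≤ |y|) :
    P.o * T / P.Q ≤ |P.o * y / P.Q| ∧ P.o * T / P.Q ≤ |P.b * y / P.Q| ∧ P.o * T / P.Q ≤ |y| := by
  have hQ := HBD_Qpos P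
  have hob := o_lt_b hU
  have ho := P.ho
  have hb := P.hb
  rw [HBD_abs_p, HBD_abs_r]
  have h1 : P.o * T ≤ P.o * |y| := mul_le_mul_of_nonneg_left hy ho.le
  have h2 : P.o * |y| ≤ P.b * |y| := mul_le_mul_of_nonneg_right hob.le (hT.le.trans hy)
  have h3 : P.o ≤ P.Q := by unfold Par.Q; linarith
  refine ⟨div_le_div_of_nonneg_right h1 hQ.le, div_le_div_of_nonneg_right (h1.trans h2) hQ.le, ?_⟩
  rw [div_le_iff₀ hQ]
  have h4 : P.o * |y| ≤ P.Q * |y| := mul_le_mul_of_nonneg_right h3 (hT.le.trans hy)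
  linarith

/-- Proof. The arguments `p + b`, `r + o`, `- η` of the three factors have imaginary parts
`o im η / Q`, `b im η / Q`, `- im η` and real parts `b + (o x - N) / Q`, `o + (b x + N) / Q`, `- x`, where
`x = re η`. `G_bound` (with `t0 = o T / Q`, which is at most `b T / Q` and `T`) gives the exponent
`π |im η| ((o / Q) (b + (o x - N) / Q) + (b / Q) (o + (b x + N) / Q) - x - Q)` since
`(o / Q + b / Q + 1) Q / 2 = Q`, and this is the exponent in the statement because `b o = 1`,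
`(b ^ 2 + o ^ 2) / Q ^ 2 - 1 = - 2 / Q ^ 2`. -/
theorem hN_bound {P : Par} {d : ℕ} (hU : P.IsUnit d) (N : ℤ) {T : ℝ} (hT : 0 < T) :
    ∃ C : ℝ, 0 < C ∧ ∀ η : ℂ, T ≤ |η.im| → ‖hN P N η‖ ≤ C * Real.exp (π * |η.im| *
      (2 / P.Q + P.a * N / P.Q ^ 2 - P.Q - 2 * η.re / P.Q ^ 2)) := by
  have hQ := HBD_Qpos P
  obtain ⟨C, hC, h⟩ := G_bound hU (t0 := P.o * T / P.Q) (by have := P.ho; positivity)
  refine ⟨C * C * C, by positivity, fun η hη => ?_⟩
  obtain ⟨t1, t2, t3⟩ := HBD_t0 hU hT hη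
  have k1 := h (pN P N η + P.b) (by rw [Complex.add_im, HBD_p_im, Complex.ofReal_im, add_zero]; exact t1)
  have k2 := h (rN P N η + P.o) (by rw [Complex.add_im, HBD_r_im, Complex.ofReal_im, add_zero]; exact t2)
  have k3 := h (-η) (by rw [Complex.neg_im, abs_neg]; exact t3)
  rw [Complex.add_im, HBD_p_im, Complex.ofReal_im, add_zero, Complex.add_re, HBD_p_re,
    Complex.ofReal_re, HBD_abs_p] at k1
  rw [Complex.add_im, HBD_r_im, Complex.ofReal_im, add_zero, Complex.add_re, HBD_r_re,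
    Complex.ofReal_re, HBD_abs_r] at k2
  rw [Complex.neg_im, abs_neg, Complex.neg_re] at k3
  unfold hN
  rw [norm_mul, norm_mul, ← HBD_exp1, Real.exp_add, Real.exp_add]
  have k4 := mul_le_mul (mul_le_mul k1 k2 (norm_nonneg _) (by positivity)) k3 (norm_nonneg _)
    (by positivity)
  refine k4.trans (le_of_eq ?_)
  ring

/-- The same for `R_N` (arguments `p + b`, `r`, `Q - η`). -/
theorem RN_bound {P : Par} {d : ℕ} (hU : P.IsUnit d) (N : ℤ) {T : ℝ} (hT : 0 < T) :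
    ∃ C : ℝ, 0 < C ∧ ∀ η : ℂ, T ≤ |η.im| → ‖RN P N η‖ ≤ C * Real.exp (π * |η.im| *
      (1 / P.Q + P.a * N / P.Q ^ 2 - 2 * η.re / P.Q ^ 2)) := by
  have hQ := HBD_Qpos P
  obtain ⟨C, hC, h⟩ := G_bound hU (t0 := P.o * T / P.Q) (by have := P.ho; positivity)
  refine ⟨C * C * C, by positivity, fun η hη => ?_⟩
  obtain ⟨t1, t2, t3⟩ := HBD_t0 hU hT hη
  have k1 := h (pN P N η + P.b) (by rw [Complex.add_im, HBD_p_im, Complex.ofReal_im, add_zero]; exact t1)
  have k2 := h (rN P N η) (by rw [HBD_r_im]; exact t2)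
  have k3 := h (P.Q - η) (by rw [Complex.sub_im, Complex.ofReal_im, zero_sub, abs_neg]; exact t3)
  rw [Complex.add_im, HBD_p_im, Complex.ofReal_im, add_zero, Complex.add_re, HBD_p_re,
    Complex.ofReal_re, HBD_abs_p] at k1
  rw [HBD_r_im, HBD_r_re, HBD_abs_r] at k2
  rw [Complex.sub_im, Complex.ofReal_im, zero_sub, abs_neg, Complex.sub_re,
    Complex.ofReal_re] at k3
  unfold RN
  have hm : ‖((-1 : ℂ) ^ N)‖ = 1 := by rw [norm_zpow, norm_neg, norm_one, one_zpow]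
  rw [norm_mul, hm, one_mul, norm_mul, norm_mul, ← HBD_exp2, Real.exp_add, Real.exp_add]
  have k4 := mul_le_mul (mul_le_mul k1 k2 (norm_nonneg _) (by positivity)) k3 (norm_nonneg _)
    (by positivity)
  refine k4.trans (le_of_eq ?_)
  ring

/-- `h_N` is differentiable off the real axis, and at points with `-min a o < re η < 0`
if `0 ≤ N < d`: the arguments have positive real part
(`b + (o x - N) / Q > 0` because `N ≤ d - 1 = b ^ 2 + o ^ 2` and `b Q - N + o x ≥ 1 - o ^ 2 + o x > 0` for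
`x > - a`, as `o a = 1 - o ^ 2`; `o + (b x + N) / Q > 0` for `x > - o` as `o Q + b x > 1 + o ^ 2 - 1 > 0`). -/
theorem hN_differentiableAt {P : Par} {d : ℕ} (hU : P.IsUnit d) {N : ℤ} (h0 : 0 ≤ N)
    (h1 : N < d) {η : ℂ} (hη : η.im ≠ 0 ∨ (-P.a < η.re ∧ -P.o < η.re ∧ η.re < 0)) :
    DifferentiableAt ℂ (hN P N) η := by
  have hQ := HBD_Qpos P
  have hob := o_lt_b hU
  have ho := P.ho
  have hb := P.hb
  have hN0 : (0 : ℝ) ≤ N := by exact_mod_cast h0
  have hNd : (N : ℝ) ≤ P.b ^ 2 + P.o ^ 2 := by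
    rw [hU.rel]
    have h2 : N ≤ (d : ℤ) - 1 := by omega
    exact_mod_cast h2
  have hp : ¬ Pole P (pN P N η + P.b) ∧ ¬ Pole P (rN P N η + P.o) ∧ ¬ Pole P (-η) := by
    rcases hη with h | ⟨x1, x2, x3⟩
    · refine ⟨not_pole_of_im_ne P ?_, not_pole_of_im_ne P ?_, not_pole_of_im_ne P ?_⟩
      · rw [Complex.add_im, HBD_p_im, Complex.ofReal_im, add_zero]
        exact div_ne_zero (mul_ne_zero ho.ne' h) hQ.ne'
      · rw [Complex.add_im, HBD_r_im, Complex.ofReal_im, add_zero]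
        exact div_ne_zero (mul_ne_zero hb.ne' h) hQ.ne'
      · rw [Complex.neg_im]
        exact neg_ne_zero.2 h
    · refine ⟨not_pole_of_re_pos P ?_, not_pole_of_re_pos P ?_, not_pole_of_re_pos P ?_⟩
      · rw [Complex.add_re, HBD_p_re, Complex.ofReal_re]
        have h3 : (P.o * η.re - N) / P.Q + P.b = (P.o * η.re - N + P.b * P.Q) / P.Q := by
          field_simp
        rw [h3]
        apply div_pos _ hQ
        have h4 : P.b * P.Q = P.b ^ 2 + 1 := by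
          unfold Par.Q
          linear_combination P.hbo
        have h5 : P.o * (-P.a) < P.o * η.re := mul_lt_mul_of_pos_left x1 ho
        have h6 : P.o * (-P.a) = P.o ^ 2 - 1 := by
          unfold Par.a
          linear_combination -P.hbo
        linarith
      · rw [Complex.add_re, HBD_r_re, Complex.ofReal_re]
        have h3 : (P.b * η.re + N) / P.Q + P.o = (P.b * η.re + N + P.o * P.Q) / P.Q := by
          field_simp
        rw [h3]
        apply div_pos _ hQ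
        have h4 : P.o * P.Q = P.o ^ 2 + 1 := by
          unfold Par.Q
          linear_combination P.hbo
        have h5 : P.b * (-P.o) < P.b * η.re := mul_lt_mul_of_pos_left x2 hb
        have h6 : P.b * (-P.o) = -1 := by
          linear_combination -P.hbo
        nlinarith
      · rw [Complex.neg_re]
        linarith
  obtain ⟨p1, p2, p3⟩ := hp
  have d1 : DifferentiableAt ℂ (fun η : ℂ => pN P N η + P.b) η := by unfold pN; fun_prop
  have d2 : DifferentiableAt ℂ (fun η : ℂ => rN P N η + P.o) η := by unfold rN; fun_prop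
  have d3 : DifferentiableAt ℂ (fun η : ℂ => -η) η := by fun_prop
  have c1 := DifferentiableAt.comp (f := fun η : ℂ => pN P N η + P.b) η
    (G_differentiableAt P hob p1) d1
  have c2 := DifferentiableAt.comp (f := fun η : ℂ => rN P N η + P.o) η
    (G_differentiableAt P hob p2) d2
  have c3 := DifferentiableAt.comp (f := fun η : ℂ => -η) η (G_differentiableAt P hob p3) d3
  exact (c1.mul c2).mul c3

theorem HBD_e_diff (w : ℂ) (η : ℂ) : DifferentiableAt ℂ (fun η : ℂ => e (w * η)) η := by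
  unfold e
  fun_prop

theorem HBD_seg {P : Par} {d : ℕ} (hU : P.IsUnit d) {N : ℤ} (h0 : 0 ≤ N) (h1 : N < d)
    {η0 : ℝ} (ha : -P.a < η0) (ho : -P.o < η0) (hneg : η0 < 0) (y : ℝ) :
    DifferentiableAt ℂ (hN P N) ((η0 : ℂ) + y * I) := by
  apply hN_differentiableAt hU h0 h1
  by_cases hy : y = 0
  · right
    simp [hy]
    exact ⟨ha, ho, hneg⟩
  · left
    simpa using hy

theorem HBD_line {P : Par} {d : ℕ} (hU : P.IsUnit d) {N : ℤ} (h0 : 0 ≤ N) (h1 : N < d)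
    {c : ℝ} (hc : c ≠ 0) (x : ℝ) : DifferentiableAt ℂ (hN P N) ((x : ℂ) + c * I) := by
  apply hN_differentiableAt hU h0 h1
  left
  simpa using hc

/-- Convergence and differentiability in the parameter (`RInt_param` with `g = h_N`, `κ = 2 π / Q ^ 2`,
`T = 1`). -/
theorem hN_param {P : Par} {d : ℕ} (hU : P.IsUnit d) {N : ℤ} (h0 : 0 ≤ N) (h1 : N < d)
    {η0 : ℝ} (ha : -P.a < η0) (ho : -P.o < η0) (hneg : η0 < 0) {w : ℂ}
    (hw : -(2 * π * w.im) < 2 * π / P.Q ^ 2) :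
    RGood (fun η => hN P N η * e (w * η)) η0 1 ∧
      DifferentiableAt ℂ (fun w : ℂ => RInt (fun η => hN P N η * e (w * η)) η0 1) w := by
  have hQ := HBD_Qpos P
  obtain ⟨C, hC, hb⟩ := hN_bound hU N one_pos
  refine RInt_param (g := hN P N) (σ := η0) (T := 1)
    (A := C * Real.exp (π * (2 / P.Q + P.a * N / P.Q ^ 2 - P.Q))) (κ := 2 * π / P.Q ^ 2)
    one_pos ?_ ?_ ?_ ?_ hw
  · intro y _
    have h2 := (HBD_seg hU h0 h1 ha ho hneg y).continuousAt
    have h3 : ContinuousAt (fun y : ℝ => (η0 : ℂ) + y * I) y := by fun_prop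
    exact (ContinuousAt.comp (f := fun y : ℝ => (η0 : ℂ) + y * I) h2 h3).continuousWithinAt
  · intro x _
    have h2 := (HBD_line hU h0 h1 (c := -1) (by norm_num) x).continuousAt
    have h3 : ContinuousAt (fun x : ℝ => (x : ℂ) + ((-1 : ℝ) : ℂ) * I) x := by fun_prop
    have h4 := (ContinuousAt.comp (f := fun x : ℝ => (x : ℂ) + ((-1 : ℝ) : ℂ) * I) h2 h3)
    have h5 : (fun x : ℝ => hN P N ((x : ℂ) - ((1 : ℝ) : ℂ) * I)) =
        (hN P N) ∘ (fun x : ℝ => (x : ℂ) + ((-1 : ℝ) : ℂ) * I) := by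
      funext x
      show hN P N ((x : ℂ) - ((1 : ℝ) : ℂ) * I) = hN P N ((x : ℂ) + ((-1 : ℝ) : ℂ) * I)
      congr 1
      push_cast
      ring
    rw [h5]
    exact h4.continuousWithinAt
  · intro x _
    have h2 := (HBD_line hU h0 h1 (c := 1) (by norm_num) x).continuousAt
    have h3 : ContinuousAt (fun x : ℝ => (x : ℂ) + ((1 : ℝ) : ℂ) * I) x := by fun_prop
    exact (ContinuousAt.comp (f := fun x : ℝ => (x : ℂ) + ((1 : ℝ) : ℂ) * I) h2
      h3).continuousWithinAt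
  · intro x _
    have key : ∀ z : ℂ, z.re = x → |z.im| = 1 → ‖hN P N z‖ ≤
        C * Real.exp (π * (2 / P.Q + P.a * N / P.Q ^ 2 - P.Q)) *
          Real.exp (-(2 * π / P.Q ^ 2) * x) := by
      intro z hz1 hz2
      have h2 := hb z (by rw [hz2])
      rw [hz2, hz1] at h2
      refine h2.trans (le_of_eq ?_)
      rw [mul_assoc C, ← Real.exp_add]
      congr 2
      rw [mul_one]
      field_simp
      ring
    refine ⟨key _ ?_ ?_, key _ ?_ ?_⟩ <;> simp

/-- The contour integral of `h_N` as an integral over a vertical line, for small real `ω`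
(`RInt_eq_vertical`).

Proof. For `re η ≥ η0`, `|im η| ≥ 1`: `‖h_N η e (ω η)‖ ≤ C exp (|im η| (π (2 / Q + a N / Q ^ 2 - Q -
2 re η / Q ^ 2) + 2 π |ω|))` and `- 2 re η / Q ^ 2 = - 2 η0 / Q ^ 2 - 2 (re η - η0) / Q ^ 2`. Since
`N ≤ d - 1 = b ^ 2 + o ^ 2 = Q ^ 2 - 2`, `Q - 2 / Q - a N / Q ^ 2 ≥ (b ^ 2 + o ^ 2) (Q - a) / Q ^ 2 =
2 o (b ^ 2 + o ^ 2) / Q ^ 2 > 2 |η0| / Q ^ 2`, so for `|ω|` small the exponent is at most
`- c |im η| - κ (re η - η0)` with `c > 0`, `κ = 2 π / Q ^ 2`. -/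
theorem hN_vertical {P : Par} {d : ℕ} (hU : P.IsUnit d) {N : ℤ} (h0 : 0 ≤ N) (h1 : N < d)
    {η0 : ℝ} (ha : -P.a < η0) (ho : -P.o < η0) (hneg : η0 < 0) : ∃ δ : ℝ, 0 < δ ∧
      ∀ ω : ℝ, |ω| < δ → RInt (fun η => hN P N η * e (ω * η)) η0 1 =
        I * ∫ y : ℝ, hN P N ((η0 : ℂ) + y * I) * e (ω * ((η0 : ℂ) + y * I)) := by
  have hQ := HBD_Qpos P
  have hob := o_lt_b hU
  have hop := P.ho
  have hbp := P.hb
  have hpi := Real.pi_pos
  have hNd : (N : ℝ) ≤ P.b ^ 2 + P.o ^ 2 := by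
    rw [hU.rel]
    have h2 : N ≤ (d : ℤ) - 1 := by omega
    exact_mod_cast h2
  have hd4 : (4 : ℝ) ≤ d := by exact_mod_cast hU.hd
  have hQ2 : P.Q ^ 2 = P.b ^ 2 + P.o ^ 2 + 2 := by
    unfold Par.Q
    linear_combination 2 * P.hbo
  have hapos : 0 < P.a := by unfold Par.a; linarith
  obtain ⟨E, hE⟩ : ∃ E, E = P.Q - 2 / P.Q - P.a * N / P.Q ^ 2 + 2 * η0 / P.Q ^ 2 := ⟨_, rfl⟩
  have hEpos : 0 < E := by
    have h2 : E = (P.Q * (P.Q ^ 2 - 2) - P.a * N + 2 * η0) / P.Q ^ 2 := by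
      rw [hE]
      field_simp
    rw [h2]
    apply div_pos _ (by positivity)
    have h3 : P.a * N ≤ P.a * (P.Q ^ 2 - 2) :=
      mul_le_mul_of_nonneg_left (by rw [hQ2]; linarith) hapos.le
    have h4 : P.Q - P.a = 2 * P.o := by unfold Par.Q Par.a; ring
    have h5 : 3 ≤ P.Q ^ 2 - 2 := by rw [hQ2, hU.rel]; linarith
    have h6 : P.Q * (P.Q ^ 2 - 2) - P.a * (P.Q ^ 2 - 2) = 2 * P.o * (P.Q ^ 2 - 2) := by
      rw [← h4]; ring
    nlinarith
  obtain ⟨C, hC, hb⟩ := hN_bound hU N one_pos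
  refine ⟨E / 4, by positivity, fun ω hω => ?_⟩
  refine (RInt_eq_vertical (f := fun η => hN P N η * e (ω * η)) (σ := η0) (T := 1) (A := C)
    (c := π * E / 2) (κ := 2 * π / P.Q ^ 2) one_pos (by positivity) (by positivity)
    (fun y _ => (HBD_seg hU h0 h1 ha ho hneg y).mul (HBD_e_diff _ _)) (fun z _ hz =>
      (hN_differentiableAt hU h0 h1 (Or.inl fun h => by
        rw [h, abs_zero] at hz; linarith)).mul (HBD_e_diff _ _)) ?_).2
  intro z hz1 hz2
  have h2 := hb z hz2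
  have h3 : ‖e (ω * z)‖ ≤ Real.exp (2 * π * |ω| * |z.im|) := by
    rw [norm_e]
    apply Real.exp_le_exp.2
    have h4 : ((ω : ℂ) * z).im = ω * z.im := by simp
    rw [h4]
    have h5 : -(ω * z.im) ≤ |ω| * |z.im| := by
      rw [← abs_mul]
      exact neg_le_abs _
    nlinarith
  rw [norm_mul]
  refine (mul_le_mul h2 h3 (norm_nonneg _) (by positivity)).trans ?_
  rw [mul_assoc, ← Real.exp_add]
  refine mul_le_mul_of_nonneg_left (Real.exp_le_exp.2 ?_) hC.le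
  obtain ⟨y, hy⟩ : ∃ y, y = |z.im| := ⟨_, rfl⟩
  obtain ⟨u, hu⟩ : ∃ u, u = z.re - η0 := ⟨_, rfl⟩
  have hu0 : 0 ≤ u := by rw [hu]; linarith
  have hzr : z.re = η0 + u := by rw [hu]; ring
  rw [← hy] at hz2 ⊢
  rw [← hu, hzr]
  have h6 : 2 / P.Q + P.a * N / P.Q ^ 2 - P.Q - 2 * (η0 + u) / P.Q ^ 2 =
      -E - 2 * u / P.Q ^ 2 := by
    rw [hE]
    field_simp
    ring
  rw [h6]
  have h7 : 2 * π / P.Q ^ 2 * u ≤ π * y * (2 * u / P.Q ^ 2) := by
    have h8 : π * y * (2 * u / P.Q ^ 2) = y * (2 * π / P.Q ^ 2 * u) := by ring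
    rw [h8]
    have h9 : 0 ≤ 2 * π / P.Q ^ 2 * u := by positivity
    nlinarith
  have h10 : 2 * π * |ω| * y ≤ π * E / 2 * y := by
    apply mul_le_mul_of_nonneg_right _ (by linarith)
    nlinarith
  nlinarith

end Ghost
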