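import Pool.Agent.Lib_MP_1c78a5_ghost.BConst
import Pool.Agent.Lib_MP_1c78a5_ghost.HBd

/-!
# Piece FUB: the product of two integrals over vertical lines
-/

open Complex MeasureTheory Set Filter Topology
open scoped Real ComplexConjugate

namespace Ghost

theorem FUB_e_add (z w : ℂ) : e (z + w) = e z * e w := by
  unfold e
  rw [← Complex.exp_add]
  ring_nf

/-- The product of two integrals as an iterated integral along `s + s' = - τ`. -/
theorem FUB_prod {A B : ℝ → ℂ} (hA : Integrable A) (hB : Integrable B) :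
    (∫ y, A y) * ∫ y, B y = ∫ τ : ℝ, ∫ σ : ℝ, A (σ - τ / 2) * B (-σ - τ / 2) := by
  have h1 := integral_convolution (ContinuousLinearMap.mul ℝ ℂ) (μ := (volume : Measure ℝ))
    (ν := (volume : Measure ℝ)) hA hB
  simp only [ContinuousLinearMap.mul_apply'] at h1
  rw [← h1, ← integral_neg_eq_self]
  congr 1
  ext τ
  rw [convolution_def, ← integral_sub_right_eq_self _ (τ / 2)]
  congr 1
  ext σ
  simp only [ContinuousLinearMap.mul_apply']
  congr 2
  ring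

/-- Fubini and the beta integral.

Proof. The right side is `∫∫ F (s, s') ds ds'` with `F (s, s') = Vf P 1 zV X Vf P (-1) zW Y`,
`X = σ0 + i s`, `Y = σ0 + i s'`, integrable on `ℝ × ℝ` (`Integrable.mul_prod`). Change variables
`s = σ - τ / 2`, `s' = - σ - τ / 2` (linear, determinant of absolute value one; e.g. first `s' = - s - τ` for
fixed `s`, then `s = σ - τ / 2` for fixed `τ`, with `integral_prod`, `integral_prod_swap` and translation
invariance), so that `X = α + i σ`, `Y = α - i σ` with `α = σ0 - i τ / 2 = - η / 2`, `η = - 2 σ0 + i τ`. Then,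
with `x = i σ`, `X ^ 2 - Y ^ 2 = 4 α x`, `X + Y = 2 α = - η`, `X - Y = 2 x`, and
`zV X + zW Y = (a / 4 - N / (2 Q)) (X - Y) - ω (X + Y) = (a / 2 - N / Q) x + ω η`. So
`F = G (α + x) G (α - x) e (w x) e (ω η)` with `w = m α + a / 2 - N / Q = (c1 - c3) / 2`, where
`c1 = p + b`, `c3 = r + o`, `c1 + c3 = Q + η = Q - 2 α` (`p - r = - (a η + 2 N) / Q`), so
`Q / 2 - α + w = c1`, `Q / 2 - α - w = c3`. The real parts of `c1` and `c3` are positive (see
`hN_differentiableAt`), so `|re w| < Q / 2 - re α`, and `0 < re α = σ0 < o / 2`. By `beta` the integral over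
`σ` is `K G (2 α) G c1 G c3 e (ω η) = K h_N η e (ω η)`. -/
theorem fubini_beta {P : Par} {d : ℕ} (hU : P.IsUnit d) {K : ℝ}
    (hK : ∀ α w : ℂ, 0 < α.re → α.re < P.o / 2 → |w.re| < P.Q / 2 - α.re →
      Ib P α w = K * G P (2 * α) * G P (P.Q / 2 - α + w) * G P (P.Q / 2 - α - w))
    {N : ℤ} (h0 : 0 ≤ N) (h1 : N < d) {σ0 : ℝ} (hσ : 0 < σ0) (ha : 2 * σ0 < P.a)
    (ho : 2 * σ0 < P.o) (ω : ℝ)
    (hV : Integrable (fun y : ℝ =>
      Vf P 1 ((P.a / 4 - N / (2 * P.Q) - ω : ℝ)) ((σ0 : ℂ) + y * I)))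
    (hW : Integrable (fun y : ℝ =>
      Vf P (-1) ((-(P.a / 4) + N / (2 * P.Q) - ω : ℝ)) ((σ0 : ℂ) + y * I))) :
    K * ∫ y : ℝ, hN P N (((-(2 * σ0) : ℝ) : ℂ) + y * I) *
        e (ω * (((-(2 * σ0) : ℝ) : ℂ) + y * I)) =
      (∫ y : ℝ, Vf P 1 ((P.a / 4 - N / (2 * P.Q) - ω : ℝ)) ((σ0 : ℂ) + y * I)) *
        ∫ y : ℝ, Vf P (-1) ((-(P.a / 4) + N / (2 * P.Q) - ω : ℝ)) ((σ0 : ℂ) + y * I) := by
  rw [FUB_prod hV hW, ← integral_const_mul]
  have hb := P.hb
  have ho' := P.ho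
  have hbo := P.hbo
  have hQ : P.Q = P.b + P.o := rfl
  have hQ0 : 0 < P.Q := by rw [hQ]; linarith
  have haa : P.a = P.b - P.o := rfl
  have hQC : (P.Q : ℂ) ≠ 0 := by exact_mod_cast hQ0.ne'
  congr 1
  ext τ
  obtain ⟨α, hα⟩ : ∃ α : ℂ, α = σ0 - (τ / 2 : ℝ) * I := ⟨_, rfl⟩
  obtain ⟨w, hw⟩ : ∃ w : ℂ, w = P.m * α + (P.a / 2 - N / P.Q : ℝ) := ⟨_, rfl⟩
  have hαre : α.re = σ0 := by rw [hα]; simp
  have hwre : w.re = P.m * σ0 + (P.a / 2 - N / P.Q) := by
    rw [hw, Complex.add_re, Complex.re_ofReal_mul, hαre, Complex.ofReal_re]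
  have hη : (((-(2 * σ0) : ℝ) : ℂ) + τ * I) = -(2 * α) := by
    rw [hα]; push_cast; ring
  have hm : P.m = P.a / P.Q := rfl
  -- the bounds of `re w`
  have hNle : (N : ℝ) ≤ P.b ^ 2 + P.o ^ 2 := by
    rw [hU.rel]
    have : N + 1 ≤ (d : ℤ) := h1
    have h2 : ((N + 1 : ℤ) : ℝ) ≤ ((d : ℤ) : ℝ) := by exact_mod_cast this
    push_cast at h2
    linarith
  have hN0 : (0 : ℝ) ≤ N := by exact_mod_cast h0
  have hc1 : 0 < P.Q / 2 - σ0 + w.re := by
    rw [hwre, hm]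
    have e1 : P.Q / 2 - σ0 + (P.a / P.Q * σ0 + (P.a / 2 - N / P.Q)) =
        (P.b * P.Q - 2 * P.o * σ0 - N) / P.Q := by
      field_simp
      rw [haa, hQ]
      ring
    rw [e1]
    apply div_pos _ hQ0
    have e2 : P.b * P.Q = P.b ^ 2 + 1 := by rw [hQ, mul_add, hbo]; ring
    have e3 : P.o * (2 * σ0) < 1 - P.o ^ 2 := by
      calc P.o * (2 * σ0) < P.o * P.a := mul_lt_mul_of_pos_left ha ho'
        _ = 1 - P.o ^ 2 := by rw [haa, mul_sub, mul_comm P.o P.b, hbo]; ring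
    nlinarith
  have hc3 : 0 < P.Q / 2 - σ0 - w.re := by
    rw [hwre, hm]
    have e1 : P.Q / 2 - σ0 - (P.a / P.Q * σ0 + (P.a / 2 - N / P.Q)) =
        (P.o * P.Q - 2 * P.b * σ0 + N) / P.Q := by
      field_simp
      rw [haa, hQ]
      ring
    rw [e1]
    apply div_pos _ hQ0
    have e2 : P.o * P.Q = 1 + P.o ^ 2 := by rw [hQ, mul_add, mul_comm P.o P.b, hbo]; ring
    have e3 : P.b * (2 * σ0) < 1 := by
      calc P.b * (2 * σ0) < P.b * P.o := mul_lt_mul_of_pos_left ho hb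
        _ = 1 := hbo
    nlinarith [sq_nonneg P.o]
  have hwabs : |w.re| < P.Q / 2 - α.re := by
    rw [hαre, abs_lt]
    constructor <;> linarith
  have hbeta := hK α w (by rw [hαre]; exact hσ) (by rw [hαre]; linarith) hwabs
  -- the right side
  have hR : ∀ σ : ℝ, Vf P 1 ((P.a / 4 - N / (2 * P.Q) - ω : ℝ)) ((σ0 : ℂ) + (σ - τ / 2 : ℝ) * I) *
      Vf P (-1) ((-(P.a / 4) + N / (2 * P.Q) - ω : ℝ)) ((σ0 : ℂ) + (-σ - τ / 2 : ℝ) * I) =
      (G P (α + σ * I) * G P (α - σ * I) * e (w * (σ * I))) * e (ω * (-(2 * α))) := by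
    intro σ
    have e1 : (σ0 : ℂ) + (σ - τ / 2 : ℝ) * I = α + σ * I := by rw [hα]; push_cast; ring
    have e2 : (σ0 : ℂ) + (-σ - τ / 2 : ℝ) * I = α - σ * I := by rw [hα]; push_cast; ring
    rw [e1, e2]
    unfold Vf
    have e3 : e (w * (σ * I)) * e (ω * (-(2 * α))) =
        e (((1 : ℝ) : ℂ) * P.m / 4 * (α + σ * I) ^ 2 +
          ((P.a / 4 - N / (2 * P.Q) - ω : ℝ) : ℂ) * (α + σ * I)) *
        e (((-1 : ℝ) : ℂ) * P.m / 4 * (α - σ * I) ^ 2 +
          ((-(P.a / 4) + N / (2 * P.Q) - ω : ℝ) : ℂ) * (α - σ * I)) := by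
      rw [← FUB_e_add, ← FUB_e_add]
      congr 1
      rw [hw]
      push_cast
      ring
    rw [mul_assoc (G P (α + σ * I) * G P (α - σ * I)), e3]
    ring
  simp_rw [hR]
  rw [integral_mul_const]
  have hI : ∫ σ : ℝ, G P (α + σ * I) * G P (α - σ * I) * e (w * (σ * I)) = Ib P α w := rfl
  rw [hI, hbeta, hη]
  -- the left side
  unfold Ghost.hN
  have f1 : pN P N (-(2 * α)) + P.b = P.Q / 2 - α + w := by
    unfold pN
    rw [hw, hm]
    push_cast
    field_simp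
    rw [hQ, haa]
    push_cast
    ring
  have f2 : rN P N (-(2 * α)) + P.o = P.Q / 2 - α - w := by
    unfold rN
    rw [hw, hm]
    push_cast
    field_simp
    rw [hQ, haa]
    push_cast
    ring
  have f3 : -(-(2 * α)) = 2 * α := neg_neg _
  rw [f1, f2, f3]
  ring

end Ghost
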