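import Pool.Agent.Lib_MP_1c78a5_ghost.GUp

/-!
# Piece GBD: size of the double sine function away from the real axis
-/

open Complex MeasureTheory Set Filter Topology
open scoped Real ComplexConjugate

namespace Ghost

private theorem GBD_norm_e (z : ℂ) : ‖e z‖ = Real.exp (-(2 * π * z.im)) := by
  unfold e
  rw [Complex.norm_exp]
  congr 1
  simp [Complex.mul_re, Complex.mul_im]

private theorem GBD_norm_quad (P : Par) (x : ℂ) :
    ‖e (-(x ^ 2 - P.Q * x) / 4)‖ = Real.exp (π * x.im * (x.re - P.Q / 2)) := by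
  rw [GBD_norm_e]
  congr 1
  have h : (-(x ^ 2 - P.Q * x) / 4).im = -(2 * x.re * x.im - P.Q * x.im) / 4 := by
    have h4 : (-(x ^ 2 - P.Q * x) / 4) = ((1 / 4 : ℝ) : ℂ) * (-(x ^ 2 - P.Q * x)) := by
      push_cast
      ring
    rw [h4, Complex.im_ofReal_mul]
    simp [pow_two, Complex.mul_im]
    ring
  rw [h]
  ring

private theorem GBD_upper {P : Par} {d : ℕ} (hU : P.IsUnit d) {t0 : ℝ} (ht : 0 < t0) :
    ∃ C : ℝ, 0 < C ∧ ∀ x : ℂ, t0 ≤ x.im →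
      ‖G P x‖ ≤ C * Real.exp (π * x.im * (x.re - P.Q / 2)) := by
  obtain ⟨r, hr, hG⟩ := G_upper hU
  obtain ⟨C1, hC1, hL⟩ := Lf_bound hU ht
  refine ⟨‖r‖ * Real.exp C1, mul_pos (norm_pos_iff.2 hr) (Real.exp_pos _), fun x hx => ?_⟩
  have hx0 : 0 < x.im := lt_of_lt_of_le ht hx
  have h1 : ‖Lf P x‖ ≤ C1 := by
    refine (hL x hx).trans ?_
    have h2 : Real.exp (-(2 * π * P.o * x.im)) ≤ 1 := by
      rw [Real.exp_le_one_iff]
      have := mul_pos (mul_pos (mul_pos two_pos Real.pi_pos) P.ho) hx0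
      linarith
    nlinarith
  have h3 : ‖Complex.exp (Lf P x)‖ ≤ Real.exp C1 :=
    (Complex.norm_exp_le_exp_norm _).trans (Real.exp_le_exp.2 h1)
  rw [hG x hx0, norm_mul, norm_mul, GBD_norm_quad]
  have h4 : 0 ≤ ‖r‖ * Real.exp (π * x.im * (x.re - P.Q / 2)) :=
    mul_nonneg (norm_nonneg _) (Real.exp_pos _).le
  calc ‖r‖ * Real.exp (π * x.im * (x.re - P.Q / 2)) * ‖Complex.exp (Lf P x)‖
      ≤ ‖r‖ * Real.exp (π * x.im * (x.re - P.Q / 2)) * Real.exp C1 :=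
        mul_le_mul_of_nonneg_left h3 h4
    _ = ‖r‖ * Real.exp C1 * Real.exp (π * x.im * (x.re - P.Q / 2)) := by ring

/-- `‖G x‖ ≤ C exp (π |im x| (re x - Q / 2))` for `|im x| ≥ t0`, uniformly in `re x`.

Proof. For `im x > 0` use `G_upper`: `‖e (-(x ^ 2 - Q x) / 4)‖ = exp (π im x (re x - Q / 2))` and
`‖exp (Lf x)‖ ≤ exp ‖Lf x‖` is bounded for `im x ≥ t0` (`Lf_bound`). For `im x < 0` use `G_conj`. -/
theorem G_bound {P : Par} {d : ℕ} (hU : P.IsUnit d) {t0 : ℝ} (ht : 0 < t0) :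
    ∃ C : ℝ, 0 < C ∧ ∀ x : ℂ, t0 ≤ |x.im| →
      ‖G P x‖ ≤ C * Real.exp (π * |x.im| * (x.re - P.Q / 2)) := by
  obtain ⟨C, hC, h⟩ := GBD_upper hU ht
  refine ⟨C, hC, fun x hx => ?_⟩
  rcases le_total 0 x.im with h0 | h0
  · rw [abs_of_nonneg h0] at hx ⊢
    exact h x hx
  · rw [abs_of_nonpos h0] at hx ⊢
    have h1 := h (conj x) (by rw [Complex.conj_im]; exact hx)
    rw [G_conj, Complex.norm_conj, Complex.conj_im, Complex.conj_re] at h1
    exact h1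

/-- `G x e ((x ^ 2 - Q x) / 4)` tends to a nonzero constant as `im x → ∞`, uniformly in `re x`:
`exp (Lf x) → 1` by `Lf_bound`. -/
theorem G_asymp {P : Par} {d : ℕ} (hU : P.IsUnit d) : ∃ r : ℂ, r ≠ 0 ∧ ∀ ε : ℝ, 0 < ε →
    ∃ T0 : ℝ, ∀ x : ℂ, T0 ≤ x.im → ‖G P x * e ((x ^ 2 - P.Q * x) / 4) - r‖ < ε := by
  obtain ⟨r, hr, hG⟩ := G_upper hU
  obtain ⟨C1, hC1, hL⟩ := Lf_bound hU (t0 := 1) one_pos
  refine ⟨r, hr, fun ε hε => ?_⟩
  have hr0 : 0 < ‖r‖ := norm_pos_iff.2 hr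
  have hc : 0 < 2 * π * P.o := mul_pos (mul_pos two_pos Real.pi_pos) P.ho
  have ht1 : Tendsto (fun t : ℝ => C1 * Real.exp (-(2 * π * P.o * t))) atTop (𝓝 (C1 * 0)) := by
    refine Tendsto.const_mul _ ?_
    refine Real.tendsto_exp_atBot.comp ?_
    exact tendsto_neg_atTop_atBot.comp (tendsto_id.const_mul_atTop hc)
  rw [mul_zero] at ht1
  have hδ : 0 < min 1 (ε / (2 * ‖r‖)) := lt_min one_pos (by positivity)
  obtain ⟨T1, hT1⟩ := eventually_atTop.1 (ht1.eventually (gt_mem_nhds hδ))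
  refine ⟨max 1 T1, fun x hx => ?_⟩
  have hx1 : 1 ≤ x.im := (le_max_left _ _).trans hx
  have hx2 : T1 ≤ x.im := (le_max_right _ _).trans hx
  have h1 := (hL x hx1).trans_lt (hT1 x.im hx2)
  have h2 : ‖Lf P x‖ < 1 := h1.trans_le (min_le_left _ _)
  have h3 : ‖Lf P x‖ < ε / (2 * ‖r‖) := h1.trans_le (min_le_right _ _)
  have h4 : G P x * e ((x ^ 2 - P.Q * x) / 4) - r = r * (Complex.exp (Lf P x) - 1) := by
    rw [hG x (by linarith)]
    have h5 : e (-(x ^ 2 - P.Q * x) / 4) * e ((x ^ 2 - P.Q * x) / 4) = 1 := by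
      unfold e
      rw [← Complex.exp_add]
      have : 2 * (π : ℂ) * I * (-(x ^ 2 - P.Q * x) / 4) + 2 * π * I * ((x ^ 2 - P.Q * x) / 4) = 0 := by
        ring
      rw [this, Complex.exp_zero]
    linear_combination (r * Complex.exp (Lf P x)) * h5
  rw [h4, norm_mul]
  have h6 := Complex.norm_exp_sub_one_le (x := Lf P x) h2.le
  have h7 : ‖r‖ * ‖Complex.exp (Lf P x) - 1‖ ≤ ‖r‖ * (2 * ‖Lf P x‖) :=
    mul_le_mul_of_nonneg_left h6 hr0.le
  have h8 : ‖r‖ * (2 * ‖Lf P x‖) < ε := by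
    rw [lt_div_iff₀ (by positivity)] at h3
    linarith
  linarith

end Ghost
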