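import Pool.Agent.Lib_MP_1c78a5_ghost.GFun
import Pool.Agent.Lib_MP_1c78a5_ghost.GKern

/-!
# Piece GCROSS: a consequence of both functional equations, on a wider strip
-/

open Complex MeasureTheory Set Filter Topology
open scoped Real ComplexConjugate

namespace Ghost

/-- The function `G0` is differentiable in the strip. -/
theorem GCROSS_G0_diff (P : Par) {x : ℂ} (h0 : 0 < x.re) (h1 : x.re < P.Q) :
    DifferentiableAt ℂ (G0 P) x := by
  unfold G0
  exact (II_differentiableAt P h0 h1).neg.cexp

/-- `2 sin (π b y) G0 (y + o) = 2 sin (π o y) G0 (y + b)` for `- o < re y < o` (`o < b`).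

Proof. Both sides are differentiable on the open convex strip `- o < re y < o`: there `0 < re (y + o) < 2 o ≤ Q`
and `0 < b - o < re (y + b) < Q`, and `G0 = exp (- II)` is differentiable in the strip `0 < re < Q`
(`II_differentiableAt`). For `0 < re y < o` both sides are `2 sin (π b y) 2 sin (π o y) G0 y`
(`G0_add_o`, `G0_add_b`). Conclude by the identity theorem
(`AnalyticOnNhd.eqOn_of_preconnected_of_eventuallyEq` at the point `o / 2`). -/
theorem G0_cross (P : Par) (hbo : P.o < P.b) {y : ℂ} (h0 : -P.o < y.re) (h1 : y.re < P.o) :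
    sb P y * G0 P (y + P.o) = so P y * G0 P (y + P.b) := by
  have ho := P.ho
  have hQ : P.Q = P.b + P.o := rfl
  have hU : IsOpen {z : ℂ | -P.o < z.re ∧ z.re < P.o} :=
    (isOpen_lt continuous_const continuous_re).inter (isOpen_lt continuous_re continuous_const)
  have hc : Convex ℝ {z : ℂ | -P.o < z.re ∧ z.re < P.o} :=
    (convex_halfSpace_re_gt _).inter (convex_halfSpace_re_lt _)
  have hf : AnalyticOnNhd ℂ (fun z : ℂ => sb P z * G0 P (z + P.o))
      {z : ℂ | -P.o < z.re ∧ z.re < P.o} := by
    refine DifferentiableOn.analyticOnNhd ?_ hU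
    intro z hz
    refine DifferentiableAt.differentiableWithinAt ?_
    have hz1 : -P.o < z.re := hz.1
    have hz2 : z.re < P.o := hz.2
    have e1 : (z + P.o : ℂ).re = z.re + P.o := by simp
    refine DifferentiableAt.mul ?_ ?_
    · unfold sb
      fun_prop
    · have h := GCROSS_G0_diff P (x := z + P.o) (by rw [e1]; linarith) (by rw [e1, hQ]; linarith)
      have hd : DifferentiableAt ℂ (fun w : ℂ => w + P.o) z := by fun_prop
      exact DifferentiableAt.comp (g := G0 P) z h hd
  have hg : AnalyticOnNhd ℂ (fun z : ℂ => so P z * G0 P (z + P.b))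
      {z : ℂ | -P.o < z.re ∧ z.re < P.o} := by
    refine DifferentiableOn.analyticOnNhd ?_ hU
    intro z hz
    refine DifferentiableAt.differentiableWithinAt ?_
    have hz1 : -P.o < z.re := hz.1
    have hz2 : z.re < P.o := hz.2
    have e1 : (z + P.b : ℂ).re = z.re + P.b := by simp
    refine DifferentiableAt.mul ?_ ?_
    · unfold so
      fun_prop
    · have h := GCROSS_G0_diff P (x := z + P.b) (by rw [e1]; linarith) (by rw [e1, hQ]; linarith)
      have hd : DifferentiableAt ℂ (fun w : ℂ => w + P.b) z := by fun_prop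
      exact DifferentiableAt.comp (g := G0 P) z h hd
  have hmem : ((P.o / 2 : ℝ) : ℂ) ∈ {z : ℂ | -P.o < z.re ∧ z.re < P.o} := by
    constructor
    · show -P.o < ((P.o / 2 : ℝ) : ℂ).re
      rw [ofReal_re]; linarith
    · show ((P.o / 2 : ℝ) : ℂ).re < P.o
      rw [ofReal_re]; linarith
  have hV : IsOpen {z : ℂ | 0 < z.re ∧ z.re < P.o} :=
    (isOpen_lt continuous_const continuous_re).inter (isOpen_lt continuous_re continuous_const)
  have hev : (fun z : ℂ => sb P z * G0 P (z + P.o)) =ᶠ[𝓝 ((P.o / 2 : ℝ) : ℂ)]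
      (fun z : ℂ => so P z * G0 P (z + P.b)) := by
    have hm : {z : ℂ | 0 < z.re ∧ z.re < P.o} ∈ 𝓝 ((P.o / 2 : ℝ) : ℂ) := by
      refine hV.mem_nhds ⟨?_, ?_⟩
      · show 0 < ((P.o / 2 : ℝ) : ℂ).re
        rw [ofReal_re]; linarith
      · show ((P.o / 2 : ℝ) : ℂ).re < P.o
        rw [ofReal_re]; linarith
    refine Filter.eventually_of_mem hm ?_
    intro z hz
    have hz1 : 0 < z.re := hz.1
    have hz2 : z.re < P.o := hz.2
    show sb P z * G0 P (z + P.o) = so P z * G0 P (z + P.b)
    rw [G0_add_o P hz1 (by linarith), G0_add_b P hz1 hz2]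
    ring
  exact hf.eqOn_of_preconnected_of_eventuallyEq hg hc.isPreconnected hmem hev ⟨h0, h1⟩

end Ghost
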