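import Pool.Agent.Lib_MP_1c78a5_ghost.Defs

/-!
# Piece GSYM: symmetries of the double sine function in the strip
-/

open Complex MeasureTheory Set Filter Topology
open scoped Real ComplexConjugate

namespace Ghost

private theorem GSYM_kern_reflect (P : Par) (x : ℂ) (t : ℝ) :
    kern P (P.Q - x) t = - kern P x t := by
  unfold kern
  have h1 : 2 * ((P.Q : ℂ) - x) - P.Q = -(2 * x - P.Q) := by ring
  rw [h1, neg_mul, Complex.sinh_neg]
  ring

private theorem GSYM_II_reflect (P : Par) (x : ℂ) : II P (P.Q - x) = - II P x := by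
  unfold II
  rw [← integral_neg]
  exact integral_congr_ae (Filter.Eventually.of_forall fun t => GSYM_kern_reflect P x t)

private theorem GSYM_kern_conj (P : Par) (x : ℂ) (t : ℝ) :
    kern P (conj x) t = conj (kern P x t) := by
  unfold kern
  have h1 : ((2 * conj x - (P.Q : ℂ)) * (t : ℂ)) = conj ((2 * x - (P.Q : ℂ)) * (t : ℂ)) := by
    simp only [map_mul, map_sub, Complex.conj_ofReal, map_ofNat]
  rw [h1, Complex.sinh_conj]
  simp only [map_div₀, map_mul, map_sub, Complex.conj_ofReal, map_ofNat]

private theorem GSYM_II_conj (P : Par) (x : ℂ) : II P (conj x) = conj (II P x) := by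
  unfold II
  rw [← integral_conj]
  exact integral_congr_ae (Filter.Eventually.of_forall fun t => GSYM_kern_conj P x t)

/-- `kern (Q - x) = - kern x` pointwise, so `II (Q - x) = - II x`. -/
theorem G0_reflect (P : Par) (x : ℂ) : G0 P x * G0 P (P.Q - x) = 1 := by
  unfold G0
  rw [GSYM_II_reflect, ← Complex.exp_add]
  simp

/-- `kern (conj x) = conj (kern x)` pointwise (`integral_conj`). -/
theorem G0_conj (P : Par) (x : ℂ) : G0 P (conj x) = conj (G0 P x) := by
  unfold G0
  rw [GSYM_II_conj, ← Complex.exp_conj, map_neg]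

theorem G0_ne_zero (P : Par) (x : ℂ) : G0 P x ≠ 0 := Complex.exp_ne_zero _

/-- For real `x` the kernel is real, so `G0 x` is the exponential of a real number. -/
theorem G0_real (P : Par) (x : ℝ) : ∃ y : ℝ, 0 < y ∧ G0 P x = y := by
  have h1 : conj (II P (x : ℂ)) = II P (x : ℂ) := by
    rw [← GSYM_II_conj, Complex.conj_ofReal]
  obtain ⟨r, hr⟩ := Complex.conj_eq_iff_real.1 h1
  refine ⟨Real.exp (-r), Real.exp_pos _, ?_⟩
  unfold G0
  rw [hr, ← Complex.ofReal_neg, Complex.ofReal_exp]

end Ghost
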