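import Pool.Agent.Lib_MP_1c78a5_ghost.GFun
import Pool.Agent.Lib_MP_1c78a5_ghost.GSym

/-!
# Piece GEXTB: the extension of the double sine function, shift by `b`
-/

open Complex MeasureTheory Set Filter Topology
open scoped Real ComplexConjugate

namespace Ghost

/-- If `2 sin (π b x) = 0` then `x = k o` with an integer `k`; if moreover `re x ≤ 0` then `k ≤ 0` and `x`
is a pole. -/
theorem sb_ne_zero (P : Par) {x : ℂ} (hx : ¬ Pole P x) (h : x.re ≤ 0) : sb P x ≠ 0 := by
  intro h0
  apply hx
  have h1 : Complex.sin (π * P.b * x) = 0 := by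
    unfold sb at h0
    exact (mul_eq_zero.1 h0).resolve_left (by norm_num)
  obtain ⟨k, hk⟩ := Complex.sin_eq_zero_iff.1 h1
  have hpi : (π : ℂ) ≠ 0 := Complex.ofReal_ne_zero.2 Real.pi_ne_zero
  have h2 : (P.b : ℂ) * x = k := by
    apply mul_left_cancel₀ hpi
    rw [← mul_assoc, hk]; ring
  have hbo : (P.b : ℂ) * P.o = 1 := by rw [← Complex.ofReal_mul, P.hbo, Complex.ofReal_one]
  have h3 : x = k * P.o := by
    rw [← h2]
    calc x = ((P.b : ℂ) * P.o) * x := by rw [hbo, one_mul]
      _ = P.b * x * P.o := by ring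
  have h4 : x.re = k * P.o := by rw [h3]; simp
  have h5 : (k : ℝ) ≤ 0 := by
    rw [h4] at h
    by_contra hc
    push Not at hc
    exact absurd h (not_le.2 (mul_pos hc P.ho))
  have h6 : k ≤ 0 := by exact_mod_cast h5
  obtain ⟨n, hn⟩ := Int.exists_eq_neg_ofNat h6
  refine ⟨0, n, ?_⟩
  rw [h3, hn]
  push_cast
  ring

theorem so_ne_zero (P : Par) {x : ℂ} (hx : ¬ Pole P x) (h : x.re ≤ 0) : so P x ≠ 0 := by
  intro h0
  apply hx
  have h1 : Complex.sin (π * P.o * x) = 0 := by
    unfold so at h0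
    exact (mul_eq_zero.1 h0).resolve_left (by norm_num)
  obtain ⟨k, hk⟩ := Complex.sin_eq_zero_iff.1 h1
  have hpi : (π : ℂ) ≠ 0 := Complex.ofReal_ne_zero.2 Real.pi_ne_zero
  have h2 : (P.o : ℂ) * x = k := by
    apply mul_left_cancel₀ hpi
    rw [← mul_assoc, hk]; ring
  have hbo : (P.b : ℂ) * P.o = 1 := by rw [← Complex.ofReal_mul, P.hbo, Complex.ofReal_one]
  have h3 : x = k * P.b := by
    rw [← h2]
    calc x = ((P.b : ℂ) * P.o) * x := by rw [hbo, one_mul]
      _ = P.o * x * P.b := by ring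
  have h4 : x.re = k * P.b := by rw [h3]; simp
  have h5 : (k : ℝ) ≤ 0 := by
    rw [h4] at h
    by_contra hc
    push Not at hc
    exact absurd h (not_le.2 (mul_pos hc P.hb))
  have h6 : k ≤ 0 := by exact_mod_cast h5
  obtain ⟨n, hn⟩ := Int.exists_eq_neg_ofNat h6
  refine ⟨n, 0, ?_⟩
  rw [h3, hn]
  push_cast
  ring

/-- `0 < re x` implies that `x` is not a pole. -/
theorem not_pole_of_re_pos (P : Par) {x : ℂ} (h : 0 < x.re) : ¬ Pole P x := by
  rintro ⟨m, n, rfl⟩
  have hm : (0 : ℝ) ≤ m * P.b := mul_nonneg (Nat.cast_nonneg _) P.hb.le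
  have hn : (0 : ℝ) ≤ n * P.o := mul_nonneg (Nat.cast_nonneg _) P.ho.le
  simp at h
  linarith

/-- `im x ≠ 0` implies that `x` is not a pole. -/
theorem not_pole_of_im_ne (P : Par) {x : ℂ} (h : x.im ≠ 0) : ¬ Pole P x := by
  rintro ⟨m, n, rfl⟩
  simp at h

theorem GEXTB_nat (P : Par) (x : ℂ) (n : ℕ) :
    cocyc P x (Int.ofNat n) = ∏ j ∈ Finset.range n, sb P (x - ((j : ℂ) + 1) * P.b) := rfl

theorem GEXTB_neg (P : Par) (x : ℂ) (n : ℕ) :
    cocyc P x (Int.negSucc n) = (∏ j ∈ Finset.range (n + 1), sb P (x + (j : ℂ) * P.b))⁻¹ := rfl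

/-- The cocycle: `cocyc x (M + 1) = cocyc x M * sb (x - (M + 1) b)`, if for negative `M` the sine is not
zero. Three cases: `M ≥ 0`, `M = -1`, `M ≤ -2`. -/
theorem cocyc_succ (P : Par) (x : ℂ) (M : ℤ)
    (h : M < 0 → sb P (x - ((M : ℂ) + 1) * P.b) ≠ 0) :
    cocyc P x (M + 1) = cocyc P x M * sb P (x - ((M : ℂ) + 1) * P.b) := by
  match M, h with
  | Int.ofNat n, _ =>
    show cocyc P x (Int.ofNat (n + 1)) = _
    rw [GEXTB_nat, GEXTB_nat, Finset.prod_range_succ]
    norm_num
  | Int.negSucc 0, h =>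
    have h0 := h (Int.negSucc_lt_zero 0)
    show cocyc P x (Int.ofNat 0) = _
    rw [GEXTB_nat, GEXTB_neg]
    simp only [Finset.range_zero, Finset.prod_empty, zero_add, Finset.range_one,
      Finset.prod_singleton]
    have e : x - (((Int.negSucc 0 : ℤ) : ℂ) + 1) * P.b = x + ((0 : ℕ) : ℂ) * P.b := by
      push_cast [Int.negSucc_eq]; ring
    rw [e] at h0 ⊢
    rw [inv_mul_cancel₀ h0]
  | Int.negSucc (n + 1), h =>
    have h0 := h (Int.negSucc_lt_zero (n + 1))
    have e1 : (Int.negSucc (n + 1) : ℤ) + 1 = Int.negSucc n := by omega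
    rw [e1]
    have e : x - (((Int.negSucc (n + 1) : ℤ) : ℂ) + 1) * P.b = x + ((n + 1 : ℕ) : ℂ) * P.b := by
      push_cast [Int.negSucc_eq]; ring
    rw [e] at h0 ⊢
    rw [GEXTB_neg, GEXTB_neg, Finset.prod_range_succ _ (n + 1), mul_inv, mul_assoc, inv_mul_cancel₀ h0, mul_one]

/-- Shifted cocycle: `cocyc (x + b) (M + 1) = sb x * cocyc x M`, if for negative `M` the sine `sb x` is not
zero. -/
theorem cocyc_shift (P : Par) (x : ℂ) (M : ℤ) (h : M < 0 → sb P x ≠ 0) :
    cocyc P (x + P.b) (M + 1) = sb P x * cocyc P x M := by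
  match M, h with
  | Int.ofNat n, _ =>
    show cocyc P (x + P.b) (Int.ofNat (n + 1)) = _
    rw [GEXTB_nat, GEXTB_nat, Finset.prod_range_succ']
    rw [mul_comm]
    congr 1
    · congr 1
      push_cast
      ring
    · apply Finset.prod_congr rfl
      intro j _
      congr 1
      push_cast
      ring
  | Int.negSucc 0, h =>
    have h0 := h (Int.negSucc_lt_zero 0)
    show cocyc P (x + P.b) (Int.ofNat 0) = _
    rw [GEXTB_nat, GEXTB_neg]
    simp only [Finset.range_zero, Finset.prod_empty, zero_add, Finset.range_one,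
      Finset.prod_singleton]
    have e : x + ((0 : ℕ) : ℂ) * P.b = x := by push_cast; ring
    rw [e, mul_inv_cancel₀ h0]
  | Int.negSucc (n + 1), h =>
    have h0 := h (Int.negSucc_lt_zero (n + 1))
    have e1 : (Int.negSucc (n + 1) : ℤ) + 1 = Int.negSucc n := by omega
    rw [e1, GEXTB_neg, GEXTB_neg, Finset.prod_range_succ' _ (n + 1)]
    have e : x + ((0 : ℕ) : ℂ) * P.b = x := by push_cast; ring
    rw [e, mul_inv, mul_comm (sb P x), mul_assoc, inv_mul_cancel₀ h0, mul_one]
    congr 1
    apply Finset.prod_congr rfl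
    intro j _
    congr 1
    push_cast
    ring

/-- In the strip `0 < re x < Q` the extension is `G0` (`o < b`): for `re x ≤ b` the number of shifts is
`0`; for `b < re x < Q < 2 b` it is `1`, and `G0 (x - b) * sb (x - b) = G0 x` by `G0_add_b`
(`0 < re (x - b) < o`). -/
theorem G_eq_G0 (P : Par) (hbo : P.o < P.b) {x : ℂ} (h0 : 0 < x.re) (h1 : x.re < P.Q) :
    G P x = G0 P x := by
  have hb := P.hb
  rcases le_or_gt x.re P.b with h2 | h2
  · have hs : shiftN P x = 0 := by
      unfold shiftN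
      have : ⌈x.re / P.b⌉ = 1 := by
        rw [Int.ceil_eq_iff]
        constructor
        · have : 0 < x.re / P.b := div_pos h0 hb
          push_cast
          linarith
        · rw [div_le_iff₀ hb]
          push_cast
          linarith
      rw [this]; norm_num
    unfold G
    rw [hs]
    have : cocyc P x 0 = 1 := by
      show cocyc P x (Int.ofNat 0) = 1
      rw [GEXTB_nat]
      simp
    rw [this, mul_one]
    congr 1
    push_cast
    ring
  · have hs : shiftN P x = 1 := by
      unfold shiftN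
      have : ⌈x.re / P.b⌉ = 2 := by
        rw [Int.ceil_eq_iff]
        constructor
        · have : 1 < x.re / P.b := by rw [lt_div_iff₀ hb]; linarith
          push_cast
          linarith
        · rw [div_le_iff₀ hb]
          push_cast
          unfold Par.Q at h1
          linarith
      rw [this]; norm_num
    unfold G
    rw [hs]
    have hc : cocyc P x 1 = sb P (x - P.b) := by
      show cocyc P x (Int.ofNat 1) = _
      rw [GEXTB_nat, Finset.prod_range_one]
      congr 1
      push_cast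
      ring
    have e : x - ((1 : ℤ) : ℂ) * P.b = x - P.b := by push_cast; ring
    rw [hc, e, mul_comm]
    have hre : (x - P.b).re = x.re - P.b := by simp
    have h3 := G0_add_b P (x := x - P.b) (by rw [hre]; linarith)
      (by rw [hre]; unfold Par.Q at h1; linarith)
    rw [sub_add_cancel] at h3
    exact h3.symm

/-- `G (x + b) = 2 sin (π b x) G x` if `x` is not a pole: `shiftN (x + b) = shiftN x + 1`,
`cocyc_shift`, and `shiftN x < 0` iff `re x ≤ 0`, so that `sb_ne_zero` applies. -/
theorem G_add_b (P : Par) {x : ℂ} (hx : ¬ Pole P x) : G P (x + P.b) = sb P x * G P x := by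
  have hb := P.hb
  have hre : (x + P.b).re = x.re + P.b := by simp
  have hs : shiftN P (x + P.b) = shiftN P x + 1 := by
    unfold shiftN
    rw [hre, add_div, div_self hb.ne', Int.ceil_add_one]
    ring
  unfold G
  rw [hs, cocyc_shift]
  · have e : x + P.b - ((shiftN P x + 1 : ℤ) : ℂ) * P.b = x - (shiftN P x : ℂ) * P.b := by
      push_cast
      ring
    rw [e]
    ring
  · intro h
    apply sb_ne_zero P hx
    unfold shiftN at h
    have h1 : ⌈x.re / P.b⌉ ≤ 0 := by omega
    rw [Int.ceil_le] at h1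
    push_cast at h1
    by_contra hc
    push Not at hc
    exact absurd h1 (not_le.2 (div_pos hc hb))

end Ghost
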