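import Pool.Agent.Lib_MP_1c78a5_ghost.GExtB
import Pool.Agent.Lib_MP_1c78a5_ghost.GCross

/-!
# Piece GEXTO: the extension of the double sine function, shift by `o`
-/

open Complex MeasureTheory Set Filter Topology
open scoped Real ComplexConjugate

namespace Ghost

theorem GEXTO_hbo (P : Par) : (P.b : ℂ) * P.o = 1 := by
  rw [← Complex.ofReal_mul, P.hbo, Complex.ofReal_one]

theorem GEXTO_sb_o (P : Par) (x : ℂ) : sb P (x + P.o) = - sb P x := by
  have hbo := GEXTO_hbo P
  unfold sb
  have h : (π : ℂ) * P.b * (x + P.o) = π * P.b * x + π := by linear_combination (π : ℂ) * hbo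
  rw [h, Complex.sin_add_pi]
  ring

theorem GEXTO_so_int (P : Par) (y : ℂ) (M : ℤ) :
    so P (y + (M : ℂ) * P.b) = (-1) ^ M * so P y := by
  have hbo := GEXTO_hbo P
  unfold so
  have h : (π : ℂ) * P.o * (y + (M : ℂ) * P.b) = π * P.o * y + (M : ℂ) * π := by
    linear_combination ((M : ℂ) * π) * hbo
  have h2 : Complex.sin (π * P.o * y + (M : ℂ) * π) = (-1) ^ M * Complex.sin (π * P.o * y) :=
    M.cast_negOnePow ℂ ▸ Complex.sin_antiperiodic.add_int_mul_eq M
  rw [h, h2]
  ring

theorem GEXTO_so_b (P : Par) (y : ℂ) : so P (y + P.b) = - so P y := by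
  have h := GEXTO_so_int P y 1
  simpa using h

theorem GEXTO_cocyc (P : Par) (x : ℂ) (M : ℤ) :
    cocyc P (x + P.o) M = (-1) ^ M * cocyc P x M := by
  match M with
  | Int.ofNat n =>
    rw [GEXTB_nat, GEXTB_nat]
    have h : ∀ j ∈ Finset.range n, sb P (x + P.o - ((j : ℂ) + 1) * P.b) =
        (-1) * sb P (x - ((j : ℂ) + 1) * P.b) := by
      intro j _
      have e : x + P.o - ((j : ℂ) + 1) * P.b = (x - ((j : ℂ) + 1) * P.b) + P.o := by ring
      rw [e, GEXTO_sb_o]
      ring
    rw [Finset.prod_congr rfl h, Finset.prod_mul_distrib, Finset.prod_const, Finset.card_range]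
    simp
  | Int.negSucc n =>
    rw [GEXTB_neg, GEXTB_neg]
    have h : ∀ j ∈ Finset.range (n + 1), sb P (x + P.o + (j : ℂ) * P.b) =
        (-1) * sb P (x + (j : ℂ) * P.b) := by
      intro j _
      have e : x + P.o + (j : ℂ) * P.b = (x + (j : ℂ) * P.b) + P.o := by ring
      rw [e, GEXTO_sb_o]
      ring
    rw [Finset.prod_congr rfl h, Finset.prod_mul_distrib, Finset.prod_const, Finset.card_range,
      mul_inv, zpow_negSucc]

theorem GEXTO_shiftN (P : Par) (x : ℂ) (M : ℤ) (h1 : (M : ℝ) * P.b < x.re)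
    (h2 : x.re ≤ ((M : ℝ) + 1) * P.b) : shiftN P x = M := by
  have hb := P.hb
  unfold shiftN
  have : ⌈x.re / P.b⌉ = M + 1 := by
    rw [Int.ceil_eq_iff]
    constructor
    · rw [lt_div_iff₀ hb]
      push_cast
      linarith
    · rw [div_le_iff₀ hb]
      push_cast
      linarith
  rw [this]
  ring

theorem GEXTO_shiftN_spec (P : Par) (x : ℂ) :
    (shiftN P x : ℝ) * P.b < x.re ∧ x.re ≤ ((shiftN P x : ℝ) + 1) * P.b := by
  have hb := P.hb
  have h1 := Int.ceil_lt_add_one (x.re / P.b)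
  have h2 := Int.le_ceil (x.re / P.b)
  unfold shiftN
  push_cast
  constructor
  · rw [← lt_div_iff₀ hb]
    linarith
  · rw [← div_le_iff₀ hb]
    linarith

/-- The value `G0 w * sb w` at `w = y + o - b`. -/
theorem GEXTO_wrap (P : Par) (hbo : P.o < P.b) {y w : ℂ} (hy : 0 < y.re) (hyb : y.re ≤ P.b)
    (hw : w = y + P.o - P.b) (hw0 : 0 < w.re) : G0 P w * sb P w = so P y * G0 P y := by
  have hb := P.hb
  have ho := P.ho
  have hwre : w.re = y.re + P.o - P.b := by rw [hw]; simp
  rcases lt_or_eq_of_le hyb with h | h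
  · have h1 := G0_add_b P (x := w) hw0 (by rw [hwre]; linarith)
    have h2 := G0_add_o P (x := y) hy h
    have e : w + P.b = y + P.o := by rw [hw]; ring
    rw [e] at h1
    rw [mul_comm, ← h1, h2]
  · have hre : (y - P.b).re = 0 := by simp [h]
    have h1 := G0_cross P hbo (y := y - P.b) (by rw [hre]; linarith) (by rw [hre]; linarith)
    have e1 : y - P.b + P.o = w := by rw [hw]; ring
    have e2 : y - P.b + P.b = y := by ring
    rw [e1, e2] at h1
    have e3 : sb P w = - sb P (y - P.b) := by rw [← e1, GEXTO_sb_o]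
    have e4 : so P y = - so P (y - P.b) := by
      have := GEXTO_so_b P (y - P.b)
      rwa [e2] at this
    rw [e3, e4]
    linear_combination -h1

/-- `G (x + o) = 2 sin (π o x) G x` if `x` is not a pole (`o < b`).

Proof. Let `M = shiftN x`, `y = x - M b`, `0 < re y ≤ b`. Since `b o = 1`,
`sb (x + o - k b) = - sb (x - k b)`, so `cocyc (x + o) M = (-1) ^ M cocyc x M`; and
`so x = 2 sin (π o y + π M) = (-1) ^ M so y`. So one has to show
`G (x + o) = so y * G0 y * (-1) ^ M * cocyc x M`.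
Case 1: `re y + o ≤ b`. Then `shiftN (x + o) = M` and `G (x + o) = G0 (y + o) cocyc (x + o) M`; use
`G0_add_o` (`re y < b`).
Case 2: `re y + o > b`. Since `re y + o ≤ b + o < 2 b`, `shiftN (x + o) = M + 1`, and by `cocyc_succ`
(for `M < 0`: the point `w = x + o - (M + 1) b = y + o - b` has `re w ≤ o`; `sb w = - sb (w - o)` with
`w - o = x - (M + 1) b`, `re (w - o) ≤ 0`, and `x - (M + 1) b` is not a pole, because
`x = (x - (M + 1) b) - (-(M + 1)) b` would be one; so `sb_ne_zero` applies)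
`G (x + o) = G0 w * cocyc (x + o) M * sb w`. It remains to see `G0 w * sb w = so y * G0 y`. If `re y < b` then
`0 < re w < o` and `G0 (y + o) = G0 (w + b) = sb w G0 w` (`G0_add_b`), `G0 (y + o) = so y G0 y`
(`G0_add_o`). If `re y = b` let `y' = y - b`, `re y' = 0`: `G0_cross` gives
`sb y' G0 (y' + o) = so y' G0 (y' + b)`, `w = y' + o`, `sb w = - sb y'`, `so y = - so y'`. -/
theorem G_add_o (P : Par) (hbo : P.o < P.b) {x : ℂ} (hx : ¬ Pole P x) :
    G P (x + P.o) = so P x * G P x := by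
  have hb := P.hb
  have ho := P.ho
  obtain ⟨M, hM⟩ : ∃ M, M = shiftN P x := ⟨_, rfl⟩
  obtain ⟨hM1, hM2⟩ := GEXTO_shiftN_spec P x
  rw [← hM] at hM1 hM2
  obtain ⟨y, hy⟩ : ∃ y : ℂ, y = x - (M : ℂ) * P.b := ⟨_, rfl⟩
  have hyre : y.re = x.re - M * P.b := by rw [hy]; simp
  have hy1 : 0 < y.re := by rw [hyre]; linarith
  have hy2 : y.re ≤ P.b := by rw [hyre]; linarith
  have hxy : x = y + (M : ℂ) * P.b := by rw [hy]; ring
  have hso : so P x = (-1) ^ M * so P y := by rw [hxy, GEXTO_so_int]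
  have hGx : G P x = G0 P y * cocyc P x M := by
    unfold G
    rw [← hM, ← hy]
  have hxo : (x + P.o).re = x.re + P.o := by simp
  rw [hso, hGx]
  rcases le_or_gt (y.re + P.o) P.b with h | h
  · have hs : shiftN P (x + P.o) = M :=
      GEXTO_shiftN P _ M (by rw [hxo]; linarith) (by rw [hxo]; linarith)
    unfold G
    rw [hs, GEXTO_cocyc]
    have e : x + P.o - (M : ℂ) * P.b = y + P.o := by rw [hy]; ring
    rw [e, G0_add_o P hy1 (by linarith)]
    ring
  · have hs : shiftN P (x + P.o) = M + 1 :=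
      GEXTO_shiftN P _ (M + 1) (by rw [hxo]; push_cast; linarith)
        (by rw [hxo]; push_cast; linarith)
    unfold G
    rw [hs]
    obtain ⟨w, hw⟩ : ∃ w : ℂ, w = y + P.o - P.b := ⟨_, rfl⟩
    have hwre : w.re = y.re + P.o - P.b := by rw [hw]; simp
    have e1 : x + P.o - ((M + 1 : ℤ) : ℂ) * P.b = w := by
      rw [hw, hy]; push_cast; ring
    have e2 : x + P.o - ((M : ℂ) + 1) * P.b = w := by
      rw [hw, hy]; ring
    have hne : M < 0 → sb P (x + P.o - ((M : ℂ) + 1) * P.b) ≠ 0 := by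
      intro hneg
      rw [e2]
      have e3 : w = (x - ((M : ℂ) + 1) * P.b) + P.o := by rw [← e2]; ring
      rw [e3, GEXTO_sb_o]
      apply neg_ne_zero.2
      apply sb_ne_zero P
      · rintro ⟨m, n, hmn⟩
        apply hx
        obtain ⟨k, hk⟩ := Int.exists_eq_neg_ofNat (show M + 1 ≤ 0 by omega)
        refine ⟨m + k, n, ?_⟩
        have hk' : (M : ℂ) + 1 = -(k : ℂ) := by exact_mod_cast hk
        rw [hk'] at hmn
        push_cast
        linear_combination hmn
      · simp
        linarith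
    rw [cocyc_succ P _ M hne, e1, e2, GEXTO_cocyc]
    have h5 := GEXTO_wrap P hbo hy1 hy2 hw (by rw [hwre]; linarith)
    linear_combination ((-1) ^ M * cocyc P x M) * h5

end Ghost
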