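import Pool.Agent.Lib_MP_1c78a5_ghost.LsMain
import Pool.Agent.Lib_MP_1c78a5_ghost.GKern

/-!
# Piece GFUN: the functional equations of the double sine function in the strip
-/

open Complex MeasureTheory Set Filter Topology
open scoped Real ComplexConjugate

namespace Ghost

/-- `II (x + b) = II x + Phi (b x)` for `0 < re x < o`.

Proof. Both `x` and `x + b` are in the strip `0 < re < Q = b + o`. Since
`sinh ((2 x + b - o) t) - sinh ((2 x - b - o) t) = 2 cosh ((2 x - o) t) sinh (b t)`, the difference of the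
kernels is `(cosh ((2 x - o) t) / sinh (o t) - b / t) / t`. Substitute `t = b τ` (`o b = 1`):
`∫ (cosh ((2 b x - 1) τ) / sinh τ - 1 / τ) / τ dτ = Phi (b x)`
(`integral_comp_mul_left_Ioi`), with `kern_integrable` for the difference of integrals. -/
theorem II_add_b (P : Par) {x : ℂ} (h0 : 0 < x.re) (h1 : x.re < P.o) :
    II P (x + P.b) = II P x + Phi (P.b * x) := by
  have hb := P.hb
  have ho := P.ho
  have hboC : (P.b : ℂ) * P.o = 1 := by exact_mod_cast P.hbo
  have hbC : (P.b : ℂ) ≠ 0 := by exact_mod_cast hb.ne'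
  have hoC : (P.o : ℂ) ≠ 0 := by exact_mod_cast ho.ne'
  have hQ : P.Q = P.b + P.o := rfl
  have e1 : (x + P.b).re = x.re + P.b := by simp
  have i1 : IntegrableOn (kern P (x + P.b)) (Ioi 0) :=
    kern_integrable P (by rw [e1]; linarith) (by rw [e1, hQ]; linarith)
  have i2 : IntegrableOn (kern P x) (Ioi 0) := kern_integrable P h0 (by rw [hQ]; linarith)
  have key : ∀ t : ℝ, 0 < t → kern P (x + P.b) t - kern P x t =
      (P.o : ℂ) * (fun s : ℝ => (Complex.cosh ((2 * (P.b * x) - 1) * s) / Real.sinh s - 1 / s) / s)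
        (P.o * t) := by
    intro t ht
    have htC : (t : ℂ) ≠ 0 := by exact_mod_cast ht.ne'
    have hsb : Complex.sinh (P.b * t) ≠ 0 := by
      have h : Real.sinh (P.b * t) ≠ 0 := (Real.sinh_pos_iff.2 (mul_pos hb ht)).ne'
      have h2 : ((Real.sinh (P.b * t) : ℝ) : ℂ) ≠ 0 := by exact_mod_cast h
      rw [Complex.ofReal_sinh] at h2
      push_cast at h2
      exact h2
    have hso : Complex.sinh (P.o * t) ≠ 0 := by
      have h : Real.sinh (P.o * t) ≠ 0 := (Real.sinh_pos_iff.2 (mul_pos ho ht)).ne'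
      have h2 : ((Real.sinh (P.o * t) : ℝ) : ℂ) ≠ 0 := by exact_mod_cast h
      rw [Complex.ofReal_sinh] at h2
      push_cast at h2
      exact h2
    have hs : Complex.sinh ((2 * (x + P.b) - (P.b + P.o)) * t) -
        Complex.sinh ((2 * x - (P.b + P.o)) * t) =
          2 * Complex.cosh ((2 * x - P.o) * t) * Complex.sinh (P.b * t) := by
      have a1 : (2 * (x + P.b) - (P.b + P.o)) * t = (2 * x - P.o) * t + P.b * t := by ring
      have a2 : (2 * x - (P.b + P.o)) * t = (2 * x - P.o) * t - P.b * t := by ring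
      rw [a1, a2, Complex.sinh_add, Complex.sinh_sub]
      ring
    have hc : (2 * (P.b * x) - 1) * ((P.o : ℂ) * t) = (2 * x - P.o) * t := by
      linear_combination (2 * x * t) * hboC
    unfold kern
    rw [hQ]
    simp only [Complex.ofReal_sinh]
    push_cast
    rw [hc]
    have hb2 : (P.b : ℂ) = (P.o : ℂ)⁻¹ := eq_inv_of_mul_eq_one_left hboC
    have hL : (Complex.sinh ((2 * (x + P.b) - (P.b + P.o)) * t) /
          (2 * Complex.sinh (P.b * t) * Complex.sinh (P.o * t)) -
            (2 * (x + P.b) - (P.b + P.o)) / (2 * t)) / t -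
        (Complex.sinh ((2 * x - (P.b + P.o)) * t) /
          (2 * Complex.sinh (P.b * t) * Complex.sinh (P.o * t)) -
            (2 * x - (P.b + P.o)) / (2 * t)) / t =
        ((Complex.sinh ((2 * (x + P.b) - (P.b + P.o)) * t) -
          Complex.sinh ((2 * x - (P.b + P.o)) * t)) /
          (2 * Complex.sinh (P.b * t) * Complex.sinh (P.o * t)) - P.b / t) / t := by
      field_simp
      ring
    rw [hL, hs]
    have h3 : 2 * Complex.cosh ((2 * x - P.o) * t) * Complex.sinh (P.b * t) /
        (2 * Complex.sinh (P.b * t) * Complex.sinh (P.o * t)) =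
        Complex.cosh ((2 * x - P.o) * t) / Complex.sinh (P.o * t) := by
      rw [div_eq_div_iff (mul_ne_zero (mul_ne_zero two_ne_zero hsb) hso) hso]
      ring
    rw [h3, hb2]
    field_simp
  have e2 : II P (x + P.b) - II P x = Phi (P.b * x) := by
    unfold II
    have e3 := integral_comp_mul_left_Ioi
      (fun s : ℝ => (Complex.cosh ((2 * (P.b * x) - 1) * s) / Real.sinh s - 1 / s) / s) 0 ho
    rw [mul_zero] at e3
    rw [← integral_sub i1 i2, setIntegral_congr_fun measurableSet_Ioi (fun t ht => key t ht),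
      integral_const_mul]
    refine (congrArg (fun w : ℂ => (P.o : ℂ) * w) e3).trans ?_
    show (P.o : ℂ) * (P.o⁻¹ • Phi (P.b * x)) = Phi (P.b * x)
    rw [Complex.real_smul, ← mul_assoc]
    push_cast
    rw [mul_inv_cancel₀ hoC, one_mul]
  rw [← e2]
  ring

theorem G0_add_b (P : Par) {x : ℂ} (h0 : 0 < x.re) (h1 : x.re < P.o) :
    G0 P (x + P.b) = sb P x * G0 P x := by
  have hbx : (P.b * x : ℂ).re = P.b * x.re := by simp
  have h2 : 0 < (P.b * x : ℂ).re := by rw [hbx]; exact mul_pos P.hb h0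
  have h3 : (P.b * x : ℂ).re < 1 := by
    rw [hbx, ← P.hbo]
    exact mul_lt_mul_of_pos_left h1 P.hb
  unfold G0
  rw [II_add_b P h0 h1, neg_add, Complex.exp_add, exp_neg_Phi h2 h3]
  unfold sb
  ring_nf

/-- The same for `o`: `G0 P = G0 P.swap` because the kernel is symmetric in `b` and `o`. -/
theorem G0_swap (P : Par) (x : ℂ) : G0 P.swap x = G0 P x := by
  have hQ : P.swap.Q = P.Q := add_comm P.o P.b
  have hk : kern P.swap x = kern P x := by
    funext t
    unfold kern
    rw [hQ]
    show (Complex.sinh ((2 * x - P.Q) * t) / (2 * Real.sinh (P.o * t) * Real.sinh (P.b * t)) -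
      (2 * x - P.Q) / (2 * t)) / t = _
    rw [mul_right_comm]
  unfold G0 II
  rw [hk]

theorem G0_add_o (P : Par) {x : ℂ} (h0 : 0 < x.re) (h1 : x.re < P.b) :
    G0 P (x + P.o) = so P x * G0 P x := by
  have h := G0_add_b P.swap h0 h1
  rw [G0_swap, G0_swap] at h
  exact h

end Ghost
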