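import Pool.Agent.Lib_MP_1c78a5_ghost.LSer
import Pool.Agent.Lib_MP_1c78a5_ghost.GExtO
import Pool.Agent.Lib_MP_1c78a5_ghost.GDiff
import Pool.Agent.Lib_MP_1c78a5_ghost.GRef

/-!
# Piece GUP: the double sine function in the upper half plane
-/

open Complex MeasureTheory Set Filter Topology
open scoped Real ComplexConjugate

namespace Ghost

theorem GUP_e_add (x y : ℂ) : e (x + y) = e x * e y := by
  unfold e
  rw [mul_add, Complex.exp_add]

theorem GUP_e_ne (x : ℂ) : e x ≠ 0 := Complex.exp_ne_zero _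

theorem GUP_e_neg (x : ℂ) : e (-x) * e x = 1 := by
  rw [← GUP_e_add, neg_add_cancel]
  unfold e
  simp

theorem GUP_sin (c : ℝ) (x : ℂ) :
    2 * Complex.sin (π * c * x) * (e (c * x / 2) * e (-1 / 4)) = 1 - e (c * x) := by
  unfold e
  rw [Complex.sin]
  have h1 : Complex.exp (2 * π * I * (-1 / 4)) = -I := by
    have : (2 : ℂ) * π * I * (-1 / 4) = -(π / 2 * I) := by ring
    rw [this, Complex.exp_neg, Complex.exp_pi_div_two_mul_I, Complex.inv_I]
  have h2 : Complex.exp (2 * π * I * (c * x / 2)) = Complex.exp (π * c * x * I) := by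
    congr 1; ring
  have h3 : Complex.exp (2 * π * I * (c * x)) = Complex.exp (π * c * x * I) * Complex.exp (π * c * x * I) := by
    rw [← Complex.exp_add]; congr 1; ring
  have h4 : Complex.exp (-(π * c * x) * I) * Complex.exp (π * c * x * I) = 1 := by
    rw [← Complex.exp_add]
    have : -(π * c * x) * I + π * c * x * I = 0 := by ring
    rw [this, Complex.exp_zero]
  rw [h1, h2, h3]
  have hI : I * I = -1 := Complex.I_mul_I
  linear_combination (-(Complex.exp (-(π * c * x) * I) * Complex.exp (π * c * x * I)) +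
    Complex.exp (π * c * x * I) * Complex.exp (π * c * x * I)) * hI + h4

/-- the quotient -/
noncomputable def GUP_q (P : Par) (x : ℂ) : ℂ :=
  G P x * (e ((x ^ 2 - P.Q * x) / 4) * Complex.exp (-(Lf P x)))

theorem GUP_period (P : Par) (c : ℝ) (hc : (c : ℂ) ^ 2 - P.Q * c = -1) (x : ℂ)
    (hG : G P (x + c) = 2 * Complex.sin (π * c * x) * G P x)
    (hL : Complex.exp (Lf P (x + c)) = (1 - e (c * x)) * Complex.exp (Lf P x)) :
    GUP_q P (x + c) = GUP_q P x := by
  have hne : 1 - e (c * x) ≠ 0 := by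
    intro h
    rw [h, zero_mul] at hL
    exact Complex.exp_ne_zero _ hL
  unfold GUP_q
  rw [hG, Complex.exp_neg, hL, Complex.exp_neg]
  have h1 : ((x + c) ^ 2 - P.Q * (x + c)) / 4 = (x ^ 2 - P.Q * x) / 4 + (c * x / 2 + -1 / 4) := by
    linear_combination (1 / 4 : ℂ) * hc
  rw [h1, GUP_e_add, GUP_e_add]
  have h2 := GUP_sin c x
  have hE : Complex.exp (Lf P x) ≠ 0 := Complex.exp_ne_zero _
  rw [mul_inv]
  calc 2 * Complex.sin (π * c * x) * G P x *
        (e ((x ^ 2 - P.Q * x) / 4) * (e (c * x / 2) * e (-1 / 4)) *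
          ((1 - e (c * x))⁻¹ * (Complex.exp (Lf P x))⁻¹))
      = (2 * Complex.sin (π * c * x) * (e (c * x / 2) * e (-1 / 4))) * (1 - e (c * x))⁻¹ *
        (G P x * (e ((x ^ 2 - P.Q * x) / 4) * (Complex.exp (Lf P x))⁻¹)) := by ring
    _ = G P x * (e ((x ^ 2 - P.Q * x) / 4) * (Complex.exp (Lf P x))⁻¹) := by
        rw [h2, mul_inv_cancel₀ hne, one_mul]

theorem GUP_diff {P : Par} {d : ℕ} (hU : P.IsUnit d) {x : ℂ} (hx : 0 < x.im) :
    DifferentiableAt ℂ (GUP_q P) x := by
  have h1 := G_differentiableAt P (o_lt_b hU) (not_pole_of_im_ne P hx.ne')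
  have h2 := Lf_differentiableAt hU hx
  unfold GUP_q
  refine h1.mul (DifferentiableAt.mul ?_ h2.neg.cexp)
  unfold e
  fun_prop

theorem GUP_period_b {P : Par} {d : ℕ} (hU : P.IsUnit d) {x : ℂ} (hx : 0 < x.im) :
    GUP_q P (x + P.b) = GUP_q P x := by
  have hbo : (P.b : ℂ) * P.o = 1 := by rw [← Complex.ofReal_mul, P.hbo, Complex.ofReal_one]
  apply GUP_period P P.b
  · have hQ : (P.Q : ℂ) = P.b + P.o := by simp [Par.Q]
    rw [hQ]
    linear_combination -hbo
  · exact G_add_b P (not_pole_of_im_ne P hx.ne')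
  · exact exp_Lf_add_b hU hx

theorem GUP_period_o {P : Par} {d : ℕ} (hU : P.IsUnit d) {x : ℂ} (hx : 0 < x.im) :
    GUP_q P (x + P.o) = GUP_q P x := by
  have hbo : (P.b : ℂ) * P.o = 1 := by rw [← Complex.ofReal_mul, P.hbo, Complex.ofReal_one]
  apply GUP_period P P.o
  · have hQ : (P.Q : ℂ) = P.b + P.o := by simp [Par.Q]
    rw [hQ]
    linear_combination -hbo
  · exact G_add_o P (o_lt_b hU) (not_pole_of_im_ne P hx.ne')
  · exact exp_Lf_add_o hU hx

theorem GUP_closure {P : Par} {d : ℕ} (hU : P.IsUnit d) {g : ℝ}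
    (hg : g ∈ AddSubgroup.closure {P.b, P.o}) :
    ∀ x : ℂ, 0 < x.im → GUP_q P (x + g) = GUP_q P x := by
  induction hg using AddSubgroup.closure_induction with
  | mem y hy =>
    intro x hx
    rcases hy with rfl | hy
    · exact GUP_period_b hU hx
    · rw [Set.mem_singleton_iff] at hy
      subst hy
      exact GUP_period_o hU hx
  | zero => intro x _; simp
  | add y z _ _ h1 h2 =>
    intro x hx
    have e1 : x + ((y + z : ℝ) : ℂ) = (x + y) + z := by push_cast; ring
    rw [e1, h2 _ (by simpa using hx), h1 x hx]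
  | neg y _ h1 =>
    intro x hx
    have h2 := h1 (x + ((-y : ℝ) : ℂ)) (by simpa using hx)
    have e1 : x + ((-y : ℝ) : ℂ) + y = x := by push_cast; ring
    rw [e1] at h2
    exact h2.symm

theorem GUP_real {P : Par} {d : ℕ} (hU : P.IsUnit d) {x : ℂ} (hx : 0 < x.im) (s : ℝ) :
    GUP_q P (x + s) = GUP_q P x := by
  have hcont : Continuous fun s : ℝ => GUP_q P (x + s) := by
    rw [continuous_iff_continuousAt]
    intro s
    have h1 : ContinuousAt (GUP_q P) (x + s) := (GUP_diff hU (by simpa using hx)).continuousAt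
    exact ContinuousAt.comp (f := fun s : ℝ => x + (s : ℂ)) h1
      (continuous_const.add Complex.continuous_ofReal).continuousAt
  have h := Continuous.ext_on (dense_periods hU) hcont
    (continuous_const (y := GUP_q P x)) (fun g hg => GUP_closure hU hg x hx)
  exact congrFun h s

theorem GUP_deriv {P : Par} {d : ℕ} (hU : P.IsUnit d) {x : ℂ} (hx : 0 < x.im) :
    deriv (GUP_q P) x = 0 := by
  have h1 : HasDerivAt (GUP_q P) (deriv (GUP_q P) x) x := (GUP_diff hU hx).hasDerivAt
  have h2 : HasDerivAt (fun s : ℝ => x + (s : ℂ)) 1 0 := by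
    have := (Complex.ofRealCLM.hasDerivAt (x := (0 : ℝ))).const_add x
    simpa using this
  have h1' : HasDerivAt (GUP_q P) (deriv (GUP_q P) x) (x + ((0 : ℝ) : ℂ)) := by
    simpa using h1
  have h3 := h1'.comp_of_eq (0 : ℝ) h2 rfl
  have h4 : (GUP_q P ∘ fun s : ℝ => x + (s : ℂ)) = fun _ => GUP_q P x := by
    funext s
    exact GUP_real hU hx s
  rw [h4] at h3
  have h5 := h3.unique (hasDerivAt_const (0 : ℝ) (GUP_q P x))
  simpa using h5

/-- Formula for `G` in the upper half plane.

Proof. Let `q x = G x e ((x ^ 2 - Q x) / 4) exp (- Lf x)` for `im x > 0`. It is differentiable there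
(`G_differentiableAt`, `not_pole_of_im_ne`, `Lf_differentiableAt`). Since `b ^ 2 - Q b = - b o = -1`,
`e (((x + b) ^ 2 - Q (x + b)) / 4) = e ((x ^ 2 - Q x) / 4) e (b x / 2) e (-1 / 4)`, `e (-1 / 4) = - i`,
`sb x = - i (e (b x / 2) - e (- b x / 2))`, so the product `sb x (- i) e (b x / 2)` is `1 - e (b x)` and
`q (x + b) = q x` (`G_add_b`, `exp_Lf_add_b`; `1 - e (b x) ≠ 0`). In the same way `q (x + o) = q x`. So for
every `t > 0` the function `s ↦ q (s + i t)` is continuous and invariant under the dense subgroup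
`dense_periods`, hence constant. So the derivative of `q` (along the real direction) is zero, and `q` is
constant on the upper half plane (convex). The constant `r` is not zero, because `G` has no zero in the
upper half plane (`G_ne_zero`, both `x` and `Q - x` are not real). -/
theorem G_upper {P : Par} {d : ℕ} (hU : P.IsUnit d) : ∃ r : ℂ, r ≠ 0 ∧ ∀ x : ℂ, 0 < x.im →
    G P x = r * e (-(x ^ 2 - P.Q * x) / 4) * Complex.exp (Lf P x) := by
  have hI : 0 < (I : ℂ).im := by simp
  refine ⟨GUP_q P I, ?_, ?_⟩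
  · unfold GUP_q
    refine mul_ne_zero ?_ (mul_ne_zero (GUP_e_ne _) (Complex.exp_ne_zero _))
    apply G_ne_zero P (o_lt_b hU)
    · exact not_pole_of_im_ne P hI.ne'
    · apply not_pole_of_im_ne
      simp
  · intro x hx
    have hopen : IsOpen {z : ℂ | 0 < z.im} := isOpen_lt continuous_const Complex.continuous_im
    have hconv : Convex ℝ {z : ℂ | 0 < z.im} := convex_halfSpace_im_gt 0
    have h1 : GUP_q P x = GUP_q P I := by
      refine hopen.is_const_of_deriv_eq_zero hconv.isPreconnected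
        (fun z hz => (GUP_diff hU hz).differentiableWithinAt) (fun z hz => GUP_deriv hU hz) hx hI
    rw [← h1]
    unfold GUP_q
    have h2 : e (-(x ^ 2 - P.Q * x) / 4) = e (-((x ^ 2 - P.Q * x) / 4)) := by rw [neg_div]
    have h3 := GUP_e_neg ((x ^ 2 - P.Q * x) / 4)
    have h4 : Complex.exp (-(Lf P x)) * Complex.exp (Lf P x) = 1 := by
      rw [← Complex.exp_add, neg_add_cancel, Complex.exp_zero]
    rw [h2]
    calc G P x = G P x * ((e (-((x ^ 2 - P.Q * x) / 4)) * e ((x ^ 2 - P.Q * x) / 4)) *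
          (Complex.exp (-(Lf P x)) * Complex.exp (Lf P x))) := by rw [h3, h4, one_mul, mul_one]
      _ = _ := by ring

end Ghost
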