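import Pool.Agent.Lib_MP_1c78a5_ghost.GExtO

/-!
# Piece HSTAR: the basic identity
-/

open Complex MeasureTheory Set Filter Topology
open scoped Real ComplexConjugate

namespace Ghost

theorem HSTAR_Q (P : Par) : (P.Q : ℂ) = P.b + P.o := by
  unfold Par.Q
  push_cast
  rfl

theorem HSTAR_Q0 (P : Par) : (P.Q : ℂ) ≠ 0 := by
  have h : 0 < P.Q := add_pos P.hb P.ho
  exact_mod_cast h.ne'

theorem pN_add_rN (P : Par) (N : ℤ) (η : ℂ) : pN P N η + rN P N η = η := by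
  have h0 := HSTAR_Q0 P
  have h1 := HSTAR_Q P
  unfold pN rN
  rw [← add_div, div_eq_iff h0, h1]
  ring

/-- `b p = o r - N`. -/
theorem b_pN (P : Par) (N : ℤ) (η : ℂ) : P.b * pN P N η = P.o * rN P N η - N := by
  have h0 := HSTAR_Q0 P
  have h1 := HSTAR_Q P
  unfold pN rN
  field_simp
  rw [h1]
  ring

/-- `ζ = o p + b r + o r` (uses `b ^ 2 + o ^ 2 = d - 1`). -/
theorem zetaN_eq {P : Par} {d : ℕ} (hU : P.IsUnit d) (N : ℤ) (η : ℂ) :
    zetaN P d N η = P.o * pN P N η + P.b * rN P N η + P.o * rN P N η := by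
  have h0 := HSTAR_Q0 P
  have h2 : (P.b : ℂ) ^ 2 + (P.o : ℂ) ^ 2 = d - 1 := by
    have := hU.rel
    exact_mod_cast this
  have h3 := GEXTO_hbo P
  unfold pN rN zetaN
  field_simp
  linear_combination (-η) * h2 - η * h3

theorem HSTAR_p (P : Par) (N : ℤ) (η : ℂ) : pN P N (η + P.Q) = pN P N η + P.o := by
  have h0 := HSTAR_Q0 P
  unfold pN
  field_simp
  ring

theorem HSTAR_r (P : Par) (N : ℤ) (η : ℂ) : rN P N (η + P.Q) = rN P N η + P.b := by
  have h0 := HSTAR_Q0 P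
  unfold rN
  field_simp
  ring

theorem HSTAR_trig (α β γ : ℂ) : Complex.sin (α + γ) * Complex.sin (β + γ) -
    Complex.sin α * Complex.sin β = Complex.sin γ * Complex.sin (α + β + γ) := by
  have h := Complex.sin_sq_add_cos_sq γ
  rw [Complex.sin_add, Complex.sin_add, Complex.sin_add, Complex.sin_add, Complex.cos_add]
  linear_combination (Complex.sin α * Complex.sin β) * h

/-- `R_N η - (-1) ^ N R_N (η + Q) = - 2 sin (π ζ) h_N η`.

Proof. `p (η + Q) = p + o`, `r (η + Q) = r + b`. Put `F = G (p + b) G r G (- η)`,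
`α = π o p`, `β = π b r`, `γ = π o r`. Then `G (p + b + o) = so (p + b) G (p + b) = - 2 sin α G (p + b)`
(`b o = 1`), `G (r + b) = 2 sin β G r`, `G (Q - η) = G ((b - η) + o) = so (b - η) G (b - η) =
2 sin (π o η) G (b - η)`, `G (b - η) = sb (- η) G (- η) = - 2 sin (π b η) G (- η)`, `G (r + o) = 2 sin γ G r`. So
the left side is `F (-(-1) ^ N 4 sin (π o η) sin (π b η) + 4 sin α sin β)`; `π o η = α + γ` and
`π b η = γ - π N + β`, `sin (π b η) = (-1) ^ N sin (β + γ)`, so it is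
`- 4 F (sin (α + γ) sin (β + γ) - sin α sin β) = - 4 F sin γ sin (α + β + γ)`, and `h_N η = 2 sin γ F`,
`α + β + γ = π ζ`. -/
theorem star {P : Par} {d : ℕ} (hU : P.IsUnit d) (hbo : P.o < P.b) (N : ℤ) {η : ℂ}
    (h1 : ¬ Pole P (pN P N η + P.b)) (h2 : ¬ Pole P (rN P N η)) (h3 : ¬ Pole P (-η))
    (h4 : ¬ Pole P (P.b - η)) :
    RN P N η - (-1) ^ N * RN P N (η + P.Q) =
      -(2 * Complex.sin (π * zetaN P d N η)) * hN P N η := by
  have hb := GEXTO_hbo P
  have hQ := HSTAR_Q P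
  obtain ⟨p, hp⟩ : ∃ p, p = pN P N η := ⟨_, rfl⟩
  obtain ⟨r, hr⟩ : ∃ r, r = rN P N η := ⟨_, rfl⟩
  have hpr : p + r = η := by rw [hp, hr]; exact pN_add_rN P N η
  have hbp : P.b * p = P.o * r - N := by rw [hp, hr]; exact b_pN P N η
  have hz : zetaN P d N η = P.o * p + P.b * r + P.o * r := by
    rw [hp, hr]; exact zetaN_eq hU N η
  rw [← hp] at h1
  rw [← hr] at h2
  -- the functional equations
  have g1 : G P (p + P.o + P.b) = -(2 * Complex.sin (π * P.o * p)) * G P (p + P.b) := by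
    have e1 : p + P.o + P.b = (p + P.b) + P.o := by ring
    rw [e1, G_add_o P hbo h1]
    congr 1
    unfold so
    have e2 : (π : ℂ) * P.o * (p + P.b) = π * P.o * p + π := by linear_combination (π : ℂ) * hb
    rw [e2, Complex.sin_add_pi]
    ring
  have g2 : G P (r + P.b) = (2 * Complex.sin (π * P.b * r)) * G P r := G_add_b P h2
  have g3 : G P (r + P.o) = (2 * Complex.sin (π * P.o * r)) * G P r := G_add_o P hbo h2
  have g4 : G P (P.b - η) = -(2 * Complex.sin (π * P.b * η)) * G P (-η) := by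
    have e1 : (P.b : ℂ) - η = -η + P.b := by ring
    rw [e1, G_add_b P h3]
    congr 1
    unfold sb
    have e2 : (π : ℂ) * P.b * (-η) = -(π * P.b * η) := by ring
    rw [e2, Complex.sin_neg]
    ring
  have g5 : G P (P.Q - η) = (2 * Complex.sin (π * P.o * η)) *
      (-(2 * Complex.sin (π * P.b * η)) * G P (-η)) := by
    have e1 : (P.Q : ℂ) - η = (P.b - η) + P.o := by rw [hQ]; ring
    rw [e1, G_add_o P hbo h4, g4]
    congr 1
    unfold so
    have e2 : (π : ℂ) * P.o * (P.b - η) = π - π * P.o * η := by linear_combination (π : ℂ) * hb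
    rw [e2, Complex.sin_pi_sub]
  have g6 : G P (P.Q - (η + P.Q)) = G P (-η) := by
    congr 1
    ring
  -- the angles
  have a1 : (π : ℂ) * P.o * η = π * P.o * p + π * P.o * r := by rw [← hpr]; ring
  have a2 : Complex.sin (π * P.b * η) = (-1) ^ N * Complex.sin (π * P.b * r + π * P.o * r) := by
    have e1 : (π : ℂ) * P.b * η = (π * P.b * r + π * P.o * r) - N * π := by
      rw [← hpr]
      linear_combination (π : ℂ) * hbp
    rw [e1]
    exact N.cast_negOnePow ℂ ▸ Complex.sin_antiperiodic.sub_int_mul_eq N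
  have a3 : (π : ℂ) * zetaN P d N η = π * P.o * p + π * P.b * r + π * P.o * r := by
    rw [hz]; ring
  have hs : ((-1 : ℂ) ^ N) * ((-1 : ℂ) ^ N) = 1 := by
    rw [← mul_zpow]
    norm_num
  have ht := HSTAR_trig (π * P.o * p) (π * P.b * r) (π * P.o * r)
  unfold RN hN
  rw [HSTAR_p, HSTAR_r, ← hp, ← hr, g1, g2, g3, g5, g6, a1, a2, a3]
  obtain ⟨s, hsd⟩ : ∃ s : ℂ, s = (-1 : ℂ) ^ N := ⟨_, rfl⟩
  rw [← hsd] at hs ⊢
  obtain ⟨x1, hx1⟩ : ∃ x, x = Complex.sin (π * P.o * p + π * P.o * r) := ⟨_, rfl⟩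
  obtain ⟨x2, hx2⟩ : ∃ x, x = Complex.sin (π * P.b * r + π * P.o * r) := ⟨_, rfl⟩
  obtain ⟨x3, hx3⟩ : ∃ x, x = Complex.sin (π * P.o * p) := ⟨_, rfl⟩
  obtain ⟨x4, hx4⟩ : ∃ x, x = Complex.sin (π * P.b * r) := ⟨_, rfl⟩
  obtain ⟨x5, hx5⟩ : ∃ x, x = Complex.sin (π * P.o * r) := ⟨_, rfl⟩
  obtain ⟨x6, hx6⟩ : ∃ x, x = Complex.sin (π * P.o * p + π * P.b * r + π * P.o * r) := ⟨_, rfl⟩
  rw [← hx1, ← hx2, ← hx3, ← hx4, ← hx5, ← hx6] at ht
  rw [← hx1, ← hx2, ← hx3, ← hx4, ← hx5, ← hx6]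
  linear_combination (-(4 * G P (p + P.b) * G P r * G P (-η)) * x1 * x2 +
    4 * G P (p + P.b) * G P r * G P (-η) * x3 * x4) * hs -
    (4 * G P (p + P.b) * G P r * G P (-η)) * ht

end Ghost
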