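import Pool.Agent.Lib_MP_1c78a5_ghost.HBd
import Pool.Agent.Lib_MP_1c78a5_ghost.HStar
import Pool.Agent.Lib_MP_1c78a5_ghost.CRes
import Pool.Agent.Lib_MP_1c78a5_ghost.GVal

/-!
# Piece HSUM: the finite sum as a contour integral
-/

open Complex MeasureTheory Set Filter Topology
open scoped Real ComplexConjugate

namespace Ghost

/-- The `d` consecutive integers `j` with `0 ≤ η_j < Q`. -/
noncomputable def win (P : Par) (d : ℕ) (N : ℤ) : Finset ℤ :=
  Finset.Ico ⌈P.b * N / P.Q⌉ (⌈P.b * N / P.Q⌉ + d)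

theorem HSUM_Qpos (P : Par) : 0 < P.Q := add_pos P.hb P.ho

theorem HSUM_dpos {P : Par} {d : ℕ} (hU : P.IsUnit d) : (0 : ℝ) < d := by
  have h := hU.hd
  have : (4 : ℝ) ≤ d := by exact_mod_cast h
  linarith

theorem mem_win {P : Par} {d : ℕ} (hU : P.IsUnit d) (N j : ℤ) :
    j ∈ win P d N ↔ 0 ≤ etaJ P d N j ∧ etaJ P d N j < P.Q := by
  have hQ := HSUM_Qpos P
  have hd := HSUM_dpos hU
  unfold win etaJ
  rw [Finset.mem_Ico, Int.ceil_le, div_le_iff₀ hQ, div_lt_iff₀ hd, le_div_iff₀ hd, zero_mul]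
  refine and_congr ?_ ?_
  · constructor <;> intro h <;> linarith
  · have h1 : j < ⌈P.b * N / P.Q⌉ + d ↔ j - d < ⌈P.b * N / P.Q⌉ := by
      constructor <;> intro h <;> linarith
    rw [h1, Int.lt_ceil, lt_div_iff₀ hQ]
    push_cast
    constructor <;> intro h <;> linarith

/-- The values, with the value `Q` at the singular point `N = j = 0`. -/
noncomputable def Rv (P : Par) (d : ℕ) (N j : ℤ) : ℂ :=
  if N = 0 ∧ j = 0 then (P.Q : ℂ) else Rr P d N j

theorem HSUM_pre (P : Par) (N : ℤ) (η : ℂ) :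
    (pN P N η).re = (P.o * η.re - N) / P.Q ∧ (pN P N η).im = P.o * η.im / P.Q := by
  have h : pN P N η = ((1 / P.Q : ℝ) : ℂ) * ((P.o : ℂ) * η - ((N : ℝ) : ℂ)) := by
    unfold pN
    push_cast
    ring
  rw [h, Complex.re_ofReal_mul, Complex.im_ofReal_mul, Complex.sub_re, Complex.sub_im,
    Complex.re_ofReal_mul, Complex.im_ofReal_mul, Complex.ofReal_re, Complex.ofReal_im]
  constructor <;> ring

theorem HSUM_rre (P : Par) (N : ℤ) (η : ℂ) :
    (rN P N η).re = (P.b * η.re + N) / P.Q ∧ (rN P N η).im = P.b * η.im / P.Q := by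
  have h : rN P N η = ((1 / P.Q : ℝ) : ℂ) * ((P.b : ℂ) * η + ((N : ℝ) : ℂ)) := by
    unfold rN
    push_cast
    ring
  rw [h, Complex.re_ofReal_mul, Complex.im_ofReal_mul, Complex.add_re, Complex.add_im,
    Complex.re_ofReal_mul, Complex.im_ofReal_mul, Complex.ofReal_re, Complex.ofReal_im]
  constructor <;> ring

theorem HSUM_np_p {P : Par} {d : ℕ} (hU : P.IsUnit d) {N : ℤ}
    (h1 : N < d) {η : ℂ} (hη : η.im ≠ 0 ∨ -P.a < η.re) : ¬ Pole P (pN P N η + P.b) := by
  have hQ := HSUM_Qpos P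
  have ho := P.ho
  have hb := P.hb
  obtain ⟨e1, e2⟩ := HSUM_pre P N η
  rcases hη with h | h
  · apply not_pole_of_im_ne
    rw [Complex.add_im, e2, Complex.ofReal_im, add_zero]
    exact div_ne_zero (mul_ne_zero ho.ne' h) hQ.ne'
  · apply not_pole_of_re_pos
    rw [Complex.add_re, e1, Complex.ofReal_re, div_add' _ _ _ hQ.ne']
    refine div_pos ?_ hQ
    have hN : (N : ℝ) ≤ d - 1 := by
      have : N ≤ d - 1 := by omega
      exact_mod_cast this
    have hrel := hU.rel
    have hbo := P.hbo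
    have e3 : P.Q = P.b + P.o := rfl
    have e4 : P.a = P.b - P.o := rfl
    rw [e3]
    rw [e4] at h
    nlinarith

theorem HSUM_np_r {P : Par} {N : ℤ} (h0 : 0 ≤ N) {η : ℂ} (hη : η.im ≠ 0 ∨ -P.o < η.re)
    (hob : P.o ≤ P.b) (h2 : N ≠ 0 ∨ η ≠ 0) : ¬ Pole P (rN P N η) := by
  have hQ := HSUM_Qpos P
  have ho := P.ho
  have hb := P.hb
  obtain ⟨e1, e2⟩ := HSUM_rre P N η
  by_cases him : η.im = 0
  · have h := hη.resolve_left (not_not.2 him)
    by_cases hN : N = 0
    · have hη0 := h2.resolve_left (not_not.2 hN)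
      rintro ⟨m, n, hp⟩
      have e3 := congrArg Complex.re hp
      rw [e1, hN] at e3
      have e4 : (-((m : ℂ) * P.b + (n : ℂ) * P.o)).re = -((m : ℝ) * P.b + n * P.o) := by
        simp
      rw [e4, Int.cast_zero, add_zero, div_eq_iff hQ.ne'] at e3
      have hre : η.re ≠ 0 := by
        intro h'
        apply hη0
        apply Complex.ext
        · simpa using h'
        · simpa using him
      have hbo := P.hbo
      have e5 : P.Q = P.b + P.o := rfl
      rcases Nat.eq_zero_or_pos m with hm | hm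
      · rcases Nat.eq_zero_or_pos n with hn | hn
        · rw [hm, hn] at e3
          simp at e3
          rcases e3 with h' | h'
          · exact hb.ne' h'
          · exact hre h'
        · have h5 : (1 : ℝ) ≤ n := by exact_mod_cast hn
          rw [hm] at e3
          push_cast at e3
          -- b re = - n o Q ≤ - o Q
          have h6 : P.b * η.re ≤ -(P.o * P.Q) := by
            rw [e3]
            have := mul_pos ho hQ
            nlinarith
          rw [e5] at h6
          nlinarith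
      · have h5 : (1 : ℝ) ≤ m := by exact_mod_cast hm
        have h6 : (0 : ℝ) ≤ (n : ℝ) * P.o := by positivity
        have h7 : P.b * η.re ≤ -(P.b * P.Q) := by
          rw [e3]
          have h8 : P.b ≤ (m : ℝ) * P.b + n * P.o := by nlinarith
          nlinarith
        have h8 : η.re ≤ -P.Q := by
          have : P.b * η.re ≤ P.b * (-P.Q) := by linarith
          exact le_of_mul_le_mul_left this hb
        rw [e5] at h8
        linarith
    · apply not_pole_of_re_pos
      rw [e1]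
      refine div_pos ?_ hQ
      have hN1 : (1 : ℝ) ≤ N := by
        have : 1 ≤ N := by omega
        exact_mod_cast this
      have hbo := P.hbo
      nlinarith
  · apply not_pole_of_im_ne
    rw [e2]
    exact div_ne_zero (mul_ne_zero hb.ne' him) hQ.ne'

theorem HSUM_pN_diff (P : Par) (N : ℤ) (η : ℂ) :
    DifferentiableAt ℂ (fun η => pN P N η + P.b) η := by
  unfold pN
  fun_prop

theorem HSUM_rN_diff (P : Par) (N : ℤ) (η : ℂ) : DifferentiableAt ℂ (fun η => rN P N η) η := by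
  unfold rN
  fun_prop

/-- `R_N` is differentiable at `η` with `im η ≠ 0`, and at real `η` near `[0, Q]` except the point `0` for
`N = 0`.

Proof. Arguments: `p + b` has real part at least `b + (o x - N) / Q > 0` (see `hN_differentiableAt`),
`Q - η` has positive real part for `re η < Q`, and `r = (b η + N) / Q` has positive real part if `N ≥ 1`
(`b x + N > -1 + 1`), while for `N = 0` it is `b η / Q`, which is not a pole if `re η > - o` and `η ≠ 0`. -/
theorem RN_differentiableAt {P : Par} {d : ℕ} (hU : P.IsUnit d) {N : ℤ} (h0 : 0 ≤ N)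
    (h1 : N < d) {η : ℂ} (hη : η.im ≠ 0 ∨ (-P.a < η.re ∧ -P.o < η.re ∧ η.re < P.Q))
    (h2 : N ≠ 0 ∨ η ≠ 0) : DifferentiableAt ℂ (RN P N) η := by
  have hob := o_lt_b hU
  have hp := HSUM_np_p hU h1 (η := η) (hη.imp id fun h => h.1)
  have hr := HSUM_np_r h0 (η := η) (hη.imp id fun h => h.2.1) hob.le h2
  have hq : ¬ Pole P (P.Q - η) := by
    rcases hη with h | h
    · apply not_pole_of_im_ne
      simpa using h
    · apply not_pole_of_re_pos
      have := h.2.2
      simp
      linarith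
  have d1 : DifferentiableAt ℂ (fun η => G P (pN P N η + P.b)) η :=
    DifferentiableAt.comp (f := fun η => pN P N η + P.b) η (G_differentiableAt P hob hp)
      (HSUM_pN_diff P N η)
  have d2 : DifferentiableAt ℂ (fun η => G P (rN P N η)) η :=
    DifferentiableAt.comp (f := fun η => rN P N η) η (G_differentiableAt P hob hr)
      (HSUM_rN_diff P N η)
  have d3 : DifferentiableAt ℂ (fun η => G P (P.Q - η)) η :=
    DifferentiableAt.comp (f := fun η : ℂ => (P.Q : ℂ) - η) η (G_differentiableAt P hob hq)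
      (by fun_prop)
  have h : RN P N = fun η => (-1) ^ N * (G P (pN P N η + P.b) * G P (rN P N η) * G P (P.Q - η)) :=
    rfl
  rw [h]
  exact ((d1.mul d2).mul d3).const_mul _

/-- `R_0 η → Q` as `η → 0`.

Proof. `R_0 η = G (o η / Q + b) G (b η / Q) G (Q - η)`; the first factor tends to `G b = b`, and
`G (Q - η) = 1 / G η` (`G_reflect`), so the product of the other two is
`(b η / Q G (b η / Q)) / (η G η) * (Q / b) → Q / b` (`G_zero_lim`). -/
theorem RN_zero_lim {P : Par} {d : ℕ} (hU : P.IsUnit d) :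
    Tendsto (RN P 0) (𝓝[≠] 0) (𝓝 (P.Q : ℂ)) := by
  have hob := o_lt_b hU
  have hQ := HSUM_Qpos P
  have hb := P.hb
  have hQ0 : (P.Q : ℂ) ≠ 0 := by exact_mod_cast hQ.ne'
  have hb0 : (P.b : ℂ) ≠ 0 := by exact_mod_cast hb.ne'
  have hpi : (π : ℂ) ≠ 0 := by exact_mod_cast Real.pi_pos.ne'
  have hlim := G_zero_lim P hob
  -- the first factor
  have t1 : Tendsto (fun η : ℂ => G P (pN P 0 η + P.b)) (𝓝[≠] 0) (𝓝 (P.b : ℂ)) := by
    have hc : ContinuousAt (fun η : ℂ => G P (pN P 0 η + P.b)) 0 := by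
      have hd : DifferentiableAt ℂ (G P) (pN P 0 0 + P.b) := by
        refine G_differentiableAt P hob (not_pole_of_re_pos P ?_)
        simp [pN, hb]
      exact (DifferentiableAt.comp (f := fun η => pN P 0 η + P.b) (0 : ℂ) hd
        (HSUM_pN_diff P 0 0)).continuousAt
    have h := hc.tendsto.mono_left (nhdsWithin_le_nhds (s := {0}ᶜ))
    have h3 : G P (pN P 0 0 + P.b) = P.b := by
      have : pN P 0 0 + P.b = (P.b : ℂ) := by simp [pN]
      rw [this, G_b P hob]
    rwa [h3] at h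
  -- the second
  have t2 : Tendsto (fun η : ℂ => (P.b / P.Q * η) * G P (P.b / P.Q * η)) (𝓝[≠] 0)
      (𝓝 (1 / (2 * π))) := by
    have h1 : Tendsto (fun η : ℂ => (P.b : ℂ) / P.Q * η) (𝓝[≠] 0) (𝓝[≠] 0) := by
      refine tendsto_nhdsWithin_iff.2 ⟨?_, ?_⟩
      · have hc : Continuous fun η : ℂ => (P.b : ℂ) / P.Q * η := by fun_prop
        have := hc.tendsto 0
        rw [mul_zero] at this
        exact this.mono_left nhdsWithin_le_nhds
      · filter_upwards [self_mem_nhdsWithin] with η hη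
        exact mul_ne_zero (div_ne_zero hb0 hQ0) hη
    exact hlim.comp h1
  have hne : (1 / (2 * π) : ℂ) ≠ 0 := one_div_ne_zero (mul_ne_zero two_ne_zero hpi)
  have t3 := (t2.div hlim hne).mul_const ((P.Q : ℂ) / P.b)
  have t4 := t1.mul t3
  have e1 : (P.b : ℂ) * (1 / (2 * π) / (1 / (2 * π)) * (P.Q / P.b)) = P.Q := by
    rw [div_self hne, one_mul, mul_div_cancel₀ _ hb0]
  rw [e1] at t4
  refine t4.congr' ?_
  -- near 0
  have hne1 : ∀ᶠ η : ℂ in 𝓝[≠] 0, η * G P η ≠ 0 := hlim.eventually_ne hne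
  have hsmall : ∀ᶠ η : ℂ in 𝓝[≠] 0, ‖η‖ < P.o := by
    have h2 : ∀ᶠ z : ℂ in 𝓝 0, ‖z‖ < P.o := by
      have := (continuous_norm (E := ℂ)).tendsto 0
      rw [norm_zero] at this
      exact this.eventually (gt_mem_nhds P.ho)
    exact h2.filter_mono nhdsWithin_le_nhds
  filter_upwards [hne1, hsmall, self_mem_nhdsWithin] with η hη1 hη2 hη0
  have hη0' : η ≠ 0 := hη0
  have hre : |η.re| < P.o := (Complex.abs_re_le_norm η).trans_lt hη2
  have hre' := abs_lt.1 hre
  have hnp : ¬ Pole P η := by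
    rintro ⟨m, n, h⟩
    have h3 : ‖η‖ = (m : ℝ) * P.b + n * P.o := by
      rw [h, norm_neg]
      have h4 : ((m : ℂ) * P.b + (n : ℂ) * P.o) = (((m : ℝ) * P.b + n * P.o : ℝ) : ℂ) := by
        push_cast
        ring
      have ho := P.ho
      rw [h4, Complex.norm_real, Real.norm_of_nonneg (by positivity)]
    rw [h3] at hη2
    have ho := P.ho
    rcases Nat.eq_zero_or_pos m with hm | hm
    · rcases Nat.eq_zero_or_pos n with hn | hn
      · subst hm; subst hn
        apply hη0'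
        rw [h]
        simp
      · have h5 : (1 : ℝ) ≤ n := by exact_mod_cast hn
        have h6 : (0 : ℝ) ≤ (m : ℝ) * P.b := by positivity
        nlinarith
    · have h5 : (1 : ℝ) ≤ m := by exact_mod_cast hm
      have h6 : (0 : ℝ) ≤ (n : ℝ) * P.o := by positivity
      nlinarith
  have hrefl : G P η * G P (P.Q - η) = 1 := by
    refine G_reflect P hob hnp (not_pole_of_re_pos P ?_)
    have e5 : P.Q = P.b + P.o := rfl
    simp
    rw [e5]
    linarith
  have hG : G P η ≠ 0 := fun h => hη1 (by rw [h, mul_zero])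
  have e2 : G P (P.Q - η) = (G P η)⁻¹ := eq_inv_of_mul_eq_one_right hrefl
  have e3 : rN P 0 η = P.b / P.Q * η := by
    unfold rN
    push_cast
    ring
  show G P (pN P 0 η + P.b) * (P.b / P.Q * η * G P (P.b / P.Q * η) / (η * G P η) * (P.Q / P.b)) =
    RN P 0 η
  unfold RN
  rw [e2, e3, zpow_zero, one_mul]
  generalize G P (pN P 0 η + P.b) = A
  generalize G P (P.b / P.Q * η) = B
  field_simp

theorem HSUM_sinh_le (w : ℂ) : |Real.sinh w.im| ≤ ‖Complex.sin w‖ := by
  have h1 : Complex.sin w = ((Real.sin w.re * Real.cosh w.im : ℝ) : ℂ) +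
      ((Real.cos w.re * Real.sinh w.im : ℝ) : ℂ) * I := by
    rw [Complex.sin_eq]
    push_cast
    ring
  have h2 : ‖Complex.sin w‖ ^ 2 = Real.sin w.re ^ 2 + Real.sinh w.im ^ 2 := by
    rw [h1, Complex.sq_norm, Complex.normSq_add_mul_I]
    have h3 := Real.cosh_sq w.im
    have h4 := Real.sin_sq_add_cos_sq w.re
    linear_combination (Real.sin w.re ^ 2) * h3 + (Real.sinh w.im ^ 2) * h4
  have h5 : Real.sinh w.im ^ 2 ≤ ‖Complex.sin w‖ ^ 2 := by
    rw [h2]
    nlinarith [sq_nonneg (Real.sin w.re)]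
  exact abs_le_of_sq_le_sq h5 (norm_nonneg _)

theorem HSUM_sin_add (x : ℂ) (n : ℤ) :
    Complex.sin (x + n * π) = (-1) ^ n * Complex.sin x :=
  n.cast_negOnePow ℂ ▸ Complex.sin_antiperiodic.add_int_mul_eq n

theorem HSUM_zeta_im (P : Par) (d : ℕ) (N : ℤ) (z : ℂ) :
    (π * zetaN P d N z : ℂ).im = π * (d * z.im / P.Q) := by
  have h : (π * zetaN P d N z : ℂ) = ((π / P.Q : ℝ) : ℂ) *
      (((d : ℝ) : ℂ) * z + ((P.b * N : ℝ) : ℂ)) := by
    unfold zetaN
    push_cast
    ring
  rw [h, Complex.im_ofReal_mul, Complex.add_im, Complex.im_ofReal_mul, Complex.ofReal_im]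
  ring

theorem HSUM_sin_zero {P : Par} {d : ℕ} (hU : P.IsUnit d) {N : ℤ} {z : ℂ}
    (h : Complex.sin (π * zetaN P d N z) = 0) : ∃ k : ℤ, z = etaJ P d N k := by
  have hQ : (P.Q : ℂ) ≠ 0 := by exact_mod_cast (HSUM_Qpos P).ne'
  have hd : (d : ℂ) ≠ 0 := by exact_mod_cast (HSUM_dpos hU).ne'
  have hpi : (π : ℂ) ≠ 0 := by exact_mod_cast Real.pi_pos.ne'
  rw [Complex.sin_eq_zero_iff] at h
  obtain ⟨k, hk⟩ := h
  refine ⟨k, ?_⟩
  have h1 : zetaN P d N z = k := by
    have : (π : ℂ) * zetaN P d N z = π * k := by rw [hk]; ring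
    exact mul_left_cancel₀ hpi this
  unfold zetaN at h1
  rw [div_eq_iff hQ] at h1
  unfold etaJ
  push_cast
  rw [eq_div_iff hd]
  linear_combination h1

/-- `H` without the exponential -/
noncomputable def HSUM_H0 (P : Par) (d : ℕ) (N : ℤ) (z : ℂ) : ℂ :=
  RN P N z / Complex.sin (π * zetaN P d N z)

theorem HSUM_H0_diff {P : Par} {d : ℕ} (hU : P.IsUnit d) {N : ℤ} (h0 : 0 ≤ N)
    (h1 : N < d) {z : ℂ} (hz : z.im ≠ 0 ∨ (-P.a < z.re ∧ -P.o < z.re ∧ z.re < P.Q))
    (hk : ∀ k : ℤ, z ≠ etaJ P d N k) : DifferentiableAt ℂ (HSUM_H0 P d N) z := by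
  have hd : DifferentiableAt ℂ (fun z => Complex.sin (π * zetaN P d N z)) z := by
    unfold zetaN
    fun_prop
  refine (RN_differentiableAt hU h0 h1 hz ?_).div hd ?_
  · by_contra hcon
    push Not at hcon
    apply hk 0
    rw [hcon.2]
    unfold etaJ
    rw [hcon.1]
    simp
  · intro h
    obtain ⟨k, hk'⟩ := HSUM_sin_zero hU h
    exact hk k hk'

theorem HSUM_H0_bound {P : Par} {d : ℕ} (hU : P.IsUnit d) (N : ℤ) :
    ∃ A : ℝ, 0 < A ∧ ∀ z : ℂ, |z.im| = 1 →
      ‖HSUM_H0 P d N z‖ ≤ A * Real.exp (-(2 * π / P.Q ^ 2) * z.re) := by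
  obtain ⟨C, hC, hb⟩ := RN_bound hU N (T := 1) one_pos
  have hQ := HSUM_Qpos P
  have hd := HSUM_dpos hU
  have hs : 0 < Real.sinh (π * (d / P.Q)) :=
    Real.sinh_pos_iff.2 (mul_pos Real.pi_pos (div_pos hd hQ))
  refine ⟨C * Real.exp (π * (1 / P.Q + P.a * N / P.Q ^ 2)) / Real.sinh (π * (d / P.Q)),
    div_pos (mul_pos hC (Real.exp_pos _)) hs, fun z hz => ?_⟩
  have h1 := hb z hz.ge
  rw [hz, mul_one] at h1
  have h2 : Real.sinh (π * (d / P.Q)) ≤ ‖Complex.sin (π * zetaN P d N z)‖ := by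
    refine le_trans ?_ (HSUM_sinh_le _)
    rw [HSUM_zeta_im]
    rcases (abs_eq one_pos.le).1 hz with h | h
    · rw [h, mul_one]
      exact le_abs_self _
    · rw [h]
      have : π * (d * (-1) / P.Q) = -(π * (d / P.Q)) := by ring
      rw [this, Real.sinh_neg, abs_neg]
      exact le_abs_self _
  unfold HSUM_H0
  rw [norm_div]
  have h3 : Real.exp (π * (1 / P.Q + P.a * N / P.Q ^ 2 - 2 * z.re / P.Q ^ 2)) =
      Real.exp (π * (1 / P.Q + P.a * N / P.Q ^ 2)) * Real.exp (-(2 * π / P.Q ^ 2) * z.re) := by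
    rw [← Real.exp_add]
    congr 1
    ring
  rw [h3] at h1
  calc ‖RN P N z‖ / ‖Complex.sin (π * zetaN P d N z)‖
      ≤ (C * (Real.exp (π * (1 / P.Q + P.a * N / P.Q ^ 2)) *
        Real.exp (-(2 * π / P.Q ^ 2) * z.re))) / Real.sinh (π * (d / P.Q)) := by
        refine div_le_div₀ ?_ h1 hs h2
        exact mul_nonneg hC.le (mul_nonneg (Real.exp_pos _).le (Real.exp_pos _).le)
    _ = _ := by ring

theorem HSUM_eta_sub {P : Par} {d : ℕ} (hU : P.IsUnit d) (N k : ℤ) :
    etaJ P d N (k - d) = etaJ P d N k - P.Q := by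
  have hd := (HSUM_dpos hU).ne'
  unfold etaJ
  push_cast
  field_simp
  ring

theorem HSUM_RGood {P : Par} {d : ℕ} (hU : P.IsUnit d) {N : ℤ} (h0 : 0 ≤ N) (h1 : N < d)
    (c σ : ℝ) (ω : ℝ) (ha : -P.a < σ + c) (ho : -P.o < σ + c) (hq : σ + c < P.Q)
    (hk : ∀ k : ℤ, σ + c ≠ etaJ P d N k) :
    RGood (fun X => HSUM_H0 P d N (X + c) * e (ω * X)) σ 1 := by
  obtain ⟨A, hA, hb⟩ := HSUM_H0_bound hU N
  have hQ := HSUM_Qpos P
  have hκ : 0 < 2 * π / P.Q ^ 2 := by positivity
  have hd1 : ∀ z : ℂ, z.im ≠ 0 → DifferentiableAt ℂ (HSUM_H0 P d N) z := fun z hz =>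
    HSUM_H0_diff hU h0 h1 (Or.inl hz) fun k h => by
      apply hz
      rw [h]
      simp
  have hc : ∀ t : ℝ, t ≠ 0 → Continuous (fun x : ℝ => HSUM_H0 P d N ((x : ℂ) + t * I + c)) := by
    intro t ht
    refine continuous_iff_continuousAt.2 fun x => ?_
    have h2 : ContinuousAt (fun x : ℝ => (x : ℂ) + t * I + c) x := by fun_prop
    exact ContinuousAt.comp (f := fun x : ℝ => (x : ℂ) + t * I + c)
      (hd1 _ (by simpa using ht)).continuousAt h2
  refine (RInt_param (g := fun X => HSUM_H0 P d N (X + c)) (σ := σ) (T := 1)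
    (A := A * Real.exp (-(2 * π / P.Q ^ 2) * c)) (κ := 2 * π / P.Q ^ 2) one_pos ?_ ?_ ?_ ?_
    (w := (ω : ℂ)) ?_).1
  · intro y _
    refine ContinuousAt.continuousWithinAt ?_
    have h2 : ContinuousAt (fun y : ℝ => (σ : ℂ) + y * I + c) y := by fun_prop
    refine ContinuousAt.comp (g := HSUM_H0 P d N) (f := fun y : ℝ => (σ : ℂ) + y * I + c) ?_ h2
    by_cases hy : y = 0
    · refine (HSUM_H0_diff hU h0 h1 (Or.inr ?_) ?_).continuousAt
      · simp
        exact ⟨ha, ho, hq⟩
      · intro k h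
        apply hk k
        have h3 := congrArg Complex.re h
        simp at h3
        exact h3
    · refine (hd1 _ ?_).continuousAt
      simpa using hy
  · have h2 := (hc (-1) (by norm_num)).continuousOn (s := Ici σ)
    refine h2.congr fun x _ => ?_
    show HSUM_H0 P d N ((x : ℂ) - ((1 : ℝ) : ℂ) * I + c) = _
    congr 1
    push_cast
    ring
  · exact (hc 1 one_ne_zero).continuousOn
  · intro x _
    have e1 : Real.exp (-(2 * π / P.Q ^ 2) * c) * Real.exp (-(2 * π / P.Q ^ 2) * x) =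
        Real.exp (-(2 * π / P.Q ^ 2) * (x + c)) := by
      rw [← Real.exp_add]
      congr 1
      ring
    rw [mul_assoc, e1]
    constructor
    · have h2 := hb ((x : ℂ) - ((1 : ℝ) : ℂ) * I + c) (by simp)
      have h3 : ((x : ℂ) - ((1 : ℝ) : ℂ) * I + c).re = x + c := by simp
      rw [h3] at h2
      exact h2
    · have h2 := hb ((x : ℂ) + ((1 : ℝ) : ℂ) * I + c) (by simp)
      have h3 : ((x : ℂ) + ((1 : ℝ) : ℂ) * I + c).re = x + c := by simp
      rw [h3] at h2
      exact h2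
  · rw [Complex.ofReal_im, mul_zero, neg_zero]
    exact hκ

theorem HSUM_e_add (x y : ℂ) : e (x + y) = e x * e y := by
  unfold e
  rw [← Complex.exp_add]
  congr 1
  ring

theorem HSUM_sin_lim (κ : ℂ) (hκ : κ ≠ 0) :
    Tendsto (fun w : ℂ => w / Complex.sin (κ * w)) (𝓝[≠] 0) (𝓝 (1 / κ)) := by
  have h1 : HasDerivAt (fun z : ℂ => Complex.sin (κ * z)) κ 0 := by
    have h2 : HasDerivAt (fun z : ℂ => κ * z) (κ * 1) 0 := (hasDerivAt_id (0 : ℂ)).const_mul _
    have h3 := h2.csin
    simpa using h3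
  rw [hasDerivAt_iff_tendsto_slope] at h1
  have h2 := h1.inv₀ hκ
  rw [one_div]
  refine h2.congr fun z => ?_
  rw [slope_def_field]
  simp

theorem HSUM_res {P : Par} {d : ℕ} (hU : P.IsUnit d) {N : ℤ} (h0 : 0 ≤ N) (h1 : N < d)
    (ω : ℝ) {j : ℤ} (hj : j ∈ win P d N) :
    Tendsto (fun z : ℂ => (z - etaJ P d N j) * (HSUM_H0 P d N z * e (ω * z)))
      (𝓝[≠] (etaJ P d N j : ℂ))
      (𝓝 ((-1) ^ j * Rv P d N j * e (ω * etaJ P d N j) * (P.Q / (π * d)))) := by
  have hQ := HSUM_Qpos P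
  have hd := HSUM_dpos hU
  have hQ0 : (P.Q : ℂ) ≠ 0 := by exact_mod_cast hQ.ne'
  have hd0 : (d : ℂ) ≠ 0 := by exact_mod_cast hd.ne'
  have hpi : (π : ℂ) ≠ 0 := by exact_mod_cast Real.pi_pos.ne'
  obtain ⟨hj0, hjQ⟩ := (mem_win hU N j).1 hj
  obtain ⟨s, hs⟩ : ∃ s : ℝ, s = etaJ P d N j := ⟨_, rfl⟩
  rw [← hs] at hj0 hjQ ⊢
  have hκ : (π * d / P.Q : ℂ) ≠ 0 := div_ne_zero (mul_ne_zero hpi hd0) hQ0
  -- the sine
  have t1 : Tendsto (fun z : ℂ => (z - s) / Complex.sin (π * zetaN P d N z)) (𝓝[≠] (s : ℂ))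
      (𝓝 ((-1) ^ j * (P.Q / (π * d)))) := by
    have h2 := HSUM_sin_lim _ hκ
    have h3 : Tendsto (fun z : ℂ => z - s) (𝓝[≠] (s : ℂ)) (𝓝[≠] 0) := by
      refine tendsto_nhdsWithin_iff.2 ⟨?_, ?_⟩
      · have hc : Continuous fun z : ℂ => z - (s : ℂ) := by fun_prop
        have := hc.tendsto (s : ℂ)
        rw [sub_self] at this
        exact this.mono_left nhdsWithin_le_nhds
      · filter_upwards [self_mem_nhdsWithin] with z hz
        exact sub_ne_zero.2 hz
    have h4 := (h2.comp h3).const_mul ((-1 : ℂ) ^ j)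
    have e1 : (1 / (π * d / P.Q) : ℂ) = P.Q / (π * d) := one_div_div _ _
    rw [e1] at h4
    refine h4.congr fun z => ?_
    have h5 : (π : ℂ) * zetaN P d N z = π * d / P.Q * (z - s) + j * π := by
      have h6 : (s : ℂ) = (P.Q * j - P.b * N) / d := by
        rw [hs]
        unfold etaJ
        push_cast
        ring
      rw [h6]
      unfold zetaN
      field_simp
      ring
    rw [h5, HSUM_sin_add]
    show (-1) ^ j * ((z - s) / Complex.sin (π * d / P.Q * (z - s))) = _
    have h7 : ((-1 : ℂ) ^ j) * ((-1 : ℂ) ^ j) = 1 := by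
      rw [← mul_zpow]
      norm_num
    have h8 : ((-1 : ℂ) ^ j) ≠ 0 := zpow_ne_zero _ (by norm_num)
    rw [← div_div, div_right_comm]
    have h9 : (z - s) / (-1) ^ j = (-1) ^ j * (z - s) := by
      rw [div_eq_iff h8]
      linear_combination (-(z - s)) * h7
    rw [div_right_comm, h9]
    ring
  -- the function `R`
  have t2 : Tendsto (RN P N) (𝓝[≠] (s : ℂ)) (𝓝 (Rv P d N j)) := by
    unfold Rv
    by_cases hc : N = 0 ∧ j = 0
    · rw [if_pos hc]
      have hs0 : s = 0 := by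
        rw [hs, hc.1, hc.2]
        unfold etaJ
        simp
      rw [hs0, hc.1]
      simpa using RN_zero_lim hU
    · rw [if_neg hc]
      have hdf : DifferentiableAt ℂ (RN P N) (s : ℂ) := by
        have hob := o_lt_b hU
        refine RN_differentiableAt hU h0 h1 (Or.inr ?_) ?_
        · rw [Complex.ofReal_re]
          refine ⟨?_, ?_, hjQ⟩
          · have : 0 < P.a := sub_pos.2 hob
            linarith
          · have := P.ho
            linarith
        · by_contra hcon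
          push Not at hcon
          apply hc
          refine ⟨hcon.1, ?_⟩
          have h2 : s = 0 := by exact_mod_cast hcon.2
          rw [hs, hcon.1] at h2
          unfold etaJ at h2
          rw [Int.cast_zero, mul_zero, sub_zero, div_eq_zero_iff] at h2
          have h3 := h2.resolve_right hd.ne'
          have h4 := (mul_eq_zero.1 h3).resolve_left hQ.ne'
          exact_mod_cast h4
      have h2 := hdf.continuousAt.tendsto.mono_left (nhdsWithin_le_nhds (s := {(s : ℂ)}ᶜ))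
      have h3 : RN P N (s : ℂ) = Rr P d N j := by
        unfold Rr
        rw [hs]
      rwa [h3] at h2
  -- the exponential
  have t3 : Tendsto (fun z : ℂ => e (ω * z)) (𝓝[≠] (s : ℂ)) (𝓝 (e (ω * s))) := by
    have hc : Continuous fun z : ℂ => e (ω * z) := by
      unfold e
      fun_prop
    exact (hc.tendsto (s : ℂ)).mono_left nhdsWithin_le_nhds
  have t4 := (t1.mul t2).mul t3
  have e1 : (-1) ^ j * (P.Q / (π * d)) * Rv P d N j * e (ω * s) =
      (-1) ^ j * Rv P d N j * e (ω * s) * (P.Q / (π * d)) := by ring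
  rw [e1] at t4
  refine t4.congr fun z => ?_
  unfold HSUM_H0
  ring

/-- The finite sum.

Proof. Both sides do not change if `η0` moves in the allowed interval (`RInt_shift`, `hN_param`), so we may
assume that no `η_j` lies in `[η0, 0)` (only finitely many `η_j` are in `[- o, 0)`; `η_j + Q = η_{j + d}`, so
also none lies in `[η0 + Q, Q)`). Let `H η = R_N η e (ω η) / sin (π ζ η)`, `ζ = (d η + b N) / Q`. The zeros of
`sin (π ζ)` are the `η_j`, `ζ (η_j) = j`. On `|im η| = 1` the sine is bounded below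
(`|sin (x + i y)| ≥ |sinh y|`) and `H` is integrable on the horizontal lines by `RN_bound` (factor
`exp (- 2 π re η / Q ^ 2)`). By `RInt_residue` with `σ = η0`, `σ' = η0 + Q`, `S = {η_j : j ∈ win}`:
`RInt H η0 1 - RInt H (η0 + Q) 1 = - 2 π i ∑_j ρ_j`, with `ρ_j = (-1) ^ j Rv N j e (ω η_j) Q / (π d)`
(`sin (π ζ) ~ π (-1) ^ j (d / Q) (η - η_j)`, `R_N` continuous at `η_j`, or `RN_zero_lim` for `N = j = 0`). By
`RInt_translate` and `RInt_sub` the left side is `RInt (H η - H (η + Q)) η0 1`, and by `star`,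
`sin (π ζ (η + Q)) = (-1) ^ d sin (π ζ η)` and `e (ω Q) = (-1) ^ (N + d)`:
`H η - H (η + Q) = - 2 h_N η e (ω η)` on the contour. So
`- 2 RInt (h_N e) = - 2 π i (Q / (π d)) ∑_j (-1) ^ j Rv N j e (ω η_j)`. -/
theorem star_sum {P : Par} {d : ℕ} (hU : P.IsUnit d) {N : ℤ} (h0 : 0 ≤ N) (h1 : N < d)
    {ω : ℝ} (hω : e (ω * P.Q) = (-1) ^ (N + d)) {η0 : ℝ} (ha : -P.a < η0) (ho : -P.o < η0)
    (hneg : η0 < 0) :
    ∑ j ∈ win P d N, (-1) ^ j * Rv P d N j * e (ω * etaJ P d N j) =
      (d / P.Q) * (-I * RInt (fun η => hN P N η * e (ω * η)) η0 1) := by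
  have hQ := HSUM_Qpos P
  have hd := HSUM_dpos hU
  have hob := o_lt_b hU
  have hQ0 : (P.Q : ℂ) ≠ 0 := by exact_mod_cast hQ.ne'
  have hd0 : (d : ℂ) ≠ 0 := by exact_mod_cast hd.ne'
  have hpi : (π : ℂ) ≠ 0 := by exact_mod_cast Real.pi_pos.ne'
  -- negative points
  obtain ⟨j0, hj0⟩ : ∃ j0 : ℤ, j0 = ⌈P.b * N / P.Q⌉ := ⟨_, rfl⟩
  have hlt : ∀ k : ℤ, etaJ P d N k < 0 ↔ k < j0 := by
    intro k
    rw [hj0, Int.lt_ceil, lt_div_iff₀ hQ]
    unfold etaJ
    rw [div_neg_iff]
    constructor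
    · rintro (h | h)
      · linarith [h.2]
      · linarith [h.1]
    · intro h
      right
      exact ⟨by linarith, hd⟩
  have hmono : ∀ k l : ℤ, k ≤ l → etaJ P d N k ≤ etaJ P d N l := by
    intro k l hkl
    unfold etaJ
    have h2 : (k : ℝ) ≤ l := by exact_mod_cast hkl
    gcongr
  have hneg1 : etaJ P d N (j0 - 1) < 0 := (hlt _).2 (by omega)
  obtain ⟨η1, hη01, hη1, hη2⟩ : ∃ η1 : ℝ, η0 ≤ η1 ∧ η1 < 0 ∧ etaJ P d N (j0 - 1) < η1 := by
    have hm : max η0 (etaJ P d N (j0 - 1)) < 0 := max_lt hneg hneg1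
    refine ⟨max η0 (etaJ P d N (j0 - 1)) / 2, ?_, by linarith, ?_⟩
    · have := le_max_left η0 (etaJ P d N (j0 - 1))
      linarith
    · have := le_max_right η0 (etaJ P d N (j0 - 1))
      linarith
  have hgap : ∀ k : ℤ, etaJ P d N k < 0 → etaJ P d N k < η1 := fun k hk =>
    (hmono k (j0 - 1) (by have := (hlt k).1 hk; omega)).trans_lt hη2
  have hne : ∀ k : ℤ, η1 ≠ etaJ P d N k := by
    intro k hk
    have := hgap k (by rw [← hk]; exact hη1)
    rw [← hk] at this
    exact lt_irrefl _ this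
  have hneQ : ∀ k : ℤ, η1 + P.Q ≠ etaJ P d N k := by
    intro k hk
    apply hne (k - d)
    rw [HSUM_eta_sub hU, ← hk]
    ring
  have ha1 : -P.a < η1 := ha.trans_le hη01
  have ho1 : -P.o < η1 := ho.trans_le hη01
  have hwin : ∀ k : ℤ, η1 ≤ etaJ P d N k → etaJ P d N k ≤ η1 + P.Q → k ∈ win P d N := by
    intro k h2 h3
    rw [mem_win hU]
    constructor
    · by_contra hcon
      push Not at hcon
      have := hgap k hcon
      linarith
    · linarith
  have hwin2 : ∀ k ∈ win P d N, η1 < etaJ P d N k ∧ etaJ P d N k < η1 + P.Q := by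
    intro k hk
    obtain ⟨h2, h3⟩ := (mem_win hU N k).1 hk
    refine ⟨by linarith, ?_⟩
    have h4 := hgap (k - d) (by rw [HSUM_eta_sub hU]; linarith)
    rw [HSUM_eta_sub hU] at h4
    linarith
  -- moving the contour
  have hediff : Differentiable ℂ fun z : ℂ => e (ω * z) := by
    unfold e
    fun_prop
  have hκ : 0 < 2 * π / P.Q ^ 2 := by positivity
  have hgood := (hN_param hU h0 h1 ha ho hneg (w := (ω : ℂ))
    (by rw [Complex.ofReal_im, mul_zero, neg_zero]; exact hκ)).1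
  have hmove : RInt (fun η => hN P N η * e (ω * η)) η1 1 =
      RInt (fun η => hN P N η * e (ω * η)) η0 1 := by
    refine RInt_shift hη01 one_pos (fun z hz1 hz2 _ => ?_) hgood.lo hgood.up
    exact (hN_differentiableAt hU h0 h1 (Or.inr ⟨by linarith, by linarith, by linarith⟩)).mul
      (hediff z)
  -- the residues
  obtain ⟨c, hc⟩ : ∃ c : ℤ → ℂ, c = fun j => (-1) ^ j * Rv P d N j * e (ω * etaJ P d N j) *
      (P.Q / (π * d)) := ⟨_, rfl⟩
  obtain ⟨fl, hfl⟩ : ∃ fl : ℝ → ℤ, fl = fun s => ⌊((d : ℝ) * s + P.b * N) / P.Q⌋ := ⟨_, rfl⟩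
  have hflj : ∀ j : ℤ, fl (etaJ P d N j) = j := by
    intro j
    rw [hfl]
    have h2 : ((d : ℝ) * etaJ P d N j + P.b * N) / P.Q = j := by
      unfold etaJ
      field_simp
      ring
    show ⌊((d : ℝ) * etaJ P d N j + P.b * N) / P.Q⌋ = j
    rw [h2, Int.floor_intCast]
  have hinj : Function.Injective (etaJ P d N) := Function.LeftInverse.injective hflj
  have good1 : RGood (fun z => HSUM_H0 P d N z * e (ω * z)) η1 1 := by
    have h2 := HSUM_RGood hU h0 h1 0 η1 ω (by linarith) (by linarith) (by linarith)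
      (fun k => by rw [add_zero]; exact hne k)
    simpa only [Complex.ofReal_zero, add_zero] using h2
  have good2 : RGood (fun z => HSUM_H0 P d N (z + P.Q) * e (ω * z)) η1 1 :=
    HSUM_RGood hU h0 h1 P.Q η1 ω (by linarith) (by linarith) (by linarith) hneQ
  have hres := RInt_residue (f := fun z => HSUM_H0 P d N z * e (ω * z)) (σ := η1)
    (σ' := η1 + P.Q) (T := 1) (by linarith) one_pos ((win P d N).image (etaJ P d N)) (by
      intro s hs
      rw [Finset.mem_image] at hs
      obtain ⟨k, hk, rfl⟩ := hs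
      exact hwin2 k hk) (fun s => c (fl s)) (by
      intro z hz1 hz2 _ hz4
      refine (HSUM_H0_diff hU h0 h1 (Or.inr ⟨by linarith, by linarith, by linarith⟩) ?_).mul
        (hediff z)
      intro k hk
      have hre : z.re = etaJ P d N k := by rw [hk, Complex.ofReal_re]
      have hkw : k ∈ win P d N := hwin k (by rw [← hre]; exact hz1) (by rw [← hre]; exact hz2)
      exact hz4 _ (Finset.mem_image_of_mem _ hkw) hk) (by
      intro s hs
      rw [Finset.mem_image] at hs
      obtain ⟨k, hk, rfl⟩ := hs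
      show Tendsto _ _ (𝓝 (c (fl (etaJ P d N k))))
      rw [hflj, hc]
      exact HSUM_res hU h0 h1 ω hk) good1.lo good1.up
  rw [Finset.sum_image fun x _ y _ h => hinj h] at hres
  simp only [hflj] at hres
  -- translation
  have htr : RInt (fun z => HSUM_H0 P d N z * e (ω * z)) (η1 + P.Q) 1 =
      e (ω * P.Q) * RInt (fun z => HSUM_H0 P d N (z + P.Q) * e (ω * z)) η1 1 := by
    rw [← RInt_const_mul, ← RInt_translate]
    congr 1
    funext z
    rw [mul_add, HSUM_e_add]
    ring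
  have good3 : RGood (fun z => e (ω * P.Q) * (HSUM_H0 P d N (z + P.Q) * e (ω * z))) η1 1 :=
    ⟨good2.lo.const_mul _, good2.mid.const_mul _, good2.up.const_mul _⟩
  rw [htr, ← RInt_const_mul, ← RInt_sub good1 good3] at hres
  -- the identity on the contour
  have hcon : RInt (fun z => HSUM_H0 P d N z * e (ω * z) -
      e (ω * P.Q) * (HSUM_H0 P d N (z + P.Q) * e (ω * z))) η1 1 =
      RInt (fun z => (-2 : ℂ) * (hN P N z * e (ω * z))) η1 1 := by
    refine RInt_congr one_pos fun z hz => ?_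
    have hz' : z.im ≠ 0 ∨ z.re = η1 := by
      rcases hz with h | h
      · left
        intro h2
        rw [h2, abs_zero] at h
        exact zero_ne_one h.2
      · exact Or.inr h.1
    have hz0 : z ≠ 0 := by
      intro h
      rw [h] at hz'
      rcases hz' with h2 | h2
      · exact h2 rfl
      · rw [Complex.zero_re] at h2
        linarith
    have p1 := HSUM_np_p hU h1 (η := z) (hz'.imp id fun h => by rw [h]; exact ha1)
    have p2 := HSUM_np_r h0 (η := z) (hz'.imp id fun h => by rw [h]; exact ho1) hob.le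
      (Or.inr hz0)
    have p3 : ¬ Pole P (-z) := by
      rcases hz' with h | h
      · apply not_pole_of_im_ne
        simpa using h
      · apply not_pole_of_re_pos
        rw [Complex.neg_re, h]
        linarith
    have p4 : ¬ Pole P (P.b - z) := by
      rcases hz' with h | h
      · apply not_pole_of_im_ne
        simpa using h
      · apply not_pole_of_re_pos
        rw [Complex.sub_re, Complex.ofReal_re, h]
        have := P.hb
        linarith
    have hst := star hU hob N p1 p2 p3 p4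
    have hs : Complex.sin (π * zetaN P d N z) ≠ 0 := by
      intro h
      obtain ⟨k, hk⟩ := HSUM_sin_zero hU h
      rcases hz' with h2 | h2
      · apply h2
        rw [hk, Complex.ofReal_im]
      · apply hne k
        rw [← h2, hk, Complex.ofReal_re]
    have hs2 : Complex.sin (π * zetaN P d N (z + P.Q)) =
        (-1) ^ (d : ℤ) * Complex.sin (π * zetaN P d N z) := by
      rw [← HSUM_sin_add]
      congr 1
      unfold zetaN
      field_simp
      push_cast
      ring
    have hm1 : ((-1 : ℂ)) ≠ 0 := by norm_num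
    have hdd : ((-1 : ℂ) ^ (d : ℤ)) ≠ 0 := zpow_ne_zero _ hm1
    show HSUM_H0 P d N z * e (ω * z) -
      e (ω * P.Q) * (HSUM_H0 P d N (z + P.Q) * e (ω * z)) = -2 * (hN P N z * e (ω * z))
    unfold HSUM_H0
    rw [hs2, hω, zpow_add₀ hm1]
    have e1 : (-1 : ℂ) ^ N * (-1) ^ (d : ℤ) *
        (RN P N (z + P.Q) / ((-1) ^ (d : ℤ) * Complex.sin (π * zetaN P d N z)) * e (ω * z)) =
        (-1) ^ N * RN P N (z + P.Q) / Complex.sin (π * zetaN P d N z) * e (ω * z) := by
      field_simp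
    rw [e1, ← sub_mul, ← sub_div, hst]
    field_simp
  rw [hcon, RInt_const_mul, hmove] at hres
  -- conclusion
  have hsum : ∑ j ∈ win P d N, c j =
      (∑ j ∈ win P d N, (-1) ^ j * Rv P d N j * e (ω * etaJ P d N j)) * (P.Q / (π * d)) := by
    rw [Finset.sum_mul, hc]
  rw [hsum] at hres
  generalize (∑ j ∈ win P d N, (-1) ^ j * Rv P d N j * e (ω * etaJ P d N j)) = S at hres ⊢
  generalize RInt (fun η => hN P N η * e (ω * η)) η0 1 = R at hres ⊢
  have h2 : R = I * (S * (P.Q / d)) := by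
    have h3 : π * (S * (P.Q / (π * d))) = S * (P.Q / d) := by
      field_simp
    linear_combination (-1 / 2 : ℂ) * hres + I * h3
  rw [h2]
  have hI : I * I = -1 := Complex.I_mul_I
  have h4 : (d / P.Q : ℂ) * (-I * (I * (S * (P.Q / d)))) = -(I * I) * (S * ((d / P.Q) * (P.Q / d))) := by
    ring
  rw [h4, hI, div_mul_div_cancel₀ hQ0, div_self hd0]
  ring

end Ghost
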