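import Pool.Agent.Lib_MP_1c78a5_ghost.VBd
import Pool.Agent.Lib_MP_1c78a5_ghost.GExtO

/-!
# Piece VFUN: functional equations of `V`, and `W` as the complex conjugate of `V`
-/

open Complex MeasureTheory Set Filter Topology
open scoped Real ComplexConjugate

namespace Ghost

theorem VFUN_e_add (x y : ℂ) : e (x + y) = e x * e y := by
  unfold e
  rw [← Complex.exp_add]
  congr 1
  ring

theorem VFUN_two_sin (c : ℝ) (X : ℂ) :
    2 * Complex.sin (π * c * X) = -I * (e (c * X / 2) - e (-(c * X / 2))) := by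
  unfold e
  rw [Complex.sin]
  have h1 : (2 : ℂ) * π * I * (c * X / 2) = π * c * X * I := by ring
  have h2 : (2 : ℂ) * π * I * (-(c * X / 2)) = -(π * c * X) * I := by ring
  rw [h1, h2]
  ring

theorem VFUN_not_pole {P : Par} {X : ℂ}
    (h : (X.re ≤ P.o ∧ |X.im| = 1) ∨ (X.re = P.o ∧ |X.im| ≤ 1)) : ¬ Pole P X := by
  rcases h with h | h
  · refine not_pole_of_im_ne P fun h0 => ?_
    have := h.2
    rw [h0] at this
    norm_num at this
  · exact not_pole_of_re_pos P (by rw [h.1]; exact P.ho)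

/-- The common part of the two recursions. -/
theorem VFUN_rec {P : Par} {d : ℕ} (hU : P.IsUnit d) (z c z1 z2 : ℝ) (hc : 0 < c)
    (hG : ∀ X : ℂ, ¬ Pole P X → G P (X + c) = 2 * Complex.sin (π * c * X) * G P X)
    (h1 : z1 = z + c * (P.m + 1) / 2) (h2 : z2 = z + c * (P.m - 1) / 2) :
    VV P z = -I * e (z * c + P.m * c ^ 2 / 4) * (VV P z1 - VV P z2) := by
  have hm : 0 < 1 - P.m := sub_pos.2 (m_lt_one P)
  have hz : ∀ w : ℝ, 2 * ((w : ℝ) : ℂ).im < 1 * (1 - P.m) := fun w => by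
    rw [Complex.ofReal_im]; linarith
  have ho := P.ho
  have hs := Vf_shift hU (s := 1) (Or.inl rfl) ho (by linarith : 0 < P.o + c) one_pos (hz z)
  have ht := LInt_translate (Vf P 1 z) P.o 1 c
  have hcong : LInt (fun X => Vf P 1 z (X + c)) P.o 1 =
      LInt (fun X => (-I * e (z * c + P.m * c ^ 2 / 4)) * (Vf P 1 z1 X - Vf P 1 z2 X)) P.o 1 := by
    refine LInt_congr one_pos fun X hX => ?_
    have hp := VFUN_not_pole hX
    simp only [Vf]
    rw [hG X hp, VFUN_two_sin]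
    have e1 : e (((1 : ℝ) : ℂ) * P.m / 4 * (X + c) ^ 2 + z * (X + c)) =
        e (z * c + P.m * c ^ 2 / 4) * e (P.m / 4 * X ^ 2 + z * X + P.m * c / 2 * X) := by
      rw [← VFUN_e_add]
      congr 1
      push_cast
      ring
    have e2 : e (((1 : ℝ) : ℂ) * P.m / 4 * X ^ 2 + z1 * X) =
        e (P.m / 4 * X ^ 2 + z * X + P.m * c / 2 * X) * e (c * X / 2) := by
      rw [← VFUN_e_add, h1]
      congr 1
      push_cast
      ring
    have e3 : e (((1 : ℝ) : ℂ) * P.m / 4 * X ^ 2 + z2 * X) =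
        e (P.m / 4 * X ^ 2 + z * X + P.m * c / 2 * X) * e (-(c * X / 2)) := by
      rw [← VFUN_e_add, h2]
      congr 1
      push_cast
      ring
    rw [e1, e2, e3]
    ring
  have hg1 := (Vf_param hU (s := 1) (Or.inl rfl) ho one_pos (hz z1)).1
  have hg2 := (Vf_param hU (s := 1) (Or.inl rfl) ho one_pos (hz z2)).1
  unfold VV
  rw [hs]
  rw [← ht, hcong, LInt_const_mul, LInt_sub hg1 hg2]
  ring

theorem VFUN_conj_e (x : ℂ) : conj (e x) = e (-conj x) := by
  unfold e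
  rw [← Complex.exp_conj]
  congr 1
  simp only [map_mul, conj_I, conj_ofReal, map_ofNat]
  ring

/-- Proof. Let `f = Vf P 1 z`. By `LInt_translate` and `Vf_shift`, `LInt (f (· + b)) o 1 = LInt f (o + b) 1 =
LInt f o 1`. On the contour (no poles there) `G (X + b) = sb X G X = - i (e (b X / 2) - e (- b X / 2)) G X` and
`m / 4 (X + b) ^ 2 + z (X + b) = m / 4 X ^ 2 + z X + m b X / 2 + m b ^ 2 / 4 + z b`, so
`f (X + b) = - i e (z b + m b ^ 2 / 4) (Vf P 1 (z + b (m + 1) / 2) X - Vf P 1 (z + b (m - 1) / 2) X)`, where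
`b (m + 1) / 2 = b ^ 2 / Q` and `b (m - 1) / 2 = - 1 / Q` (`m = (b - o) / Q`, `b o = 1`). Use `LInt_congr`,
`LInt_const_mul`, `LInt_sub`, `Vf_param`. -/
theorem VV_rec_b {P : Par} {d : ℕ} (hU : P.IsUnit d) (z : ℝ) :
    VV P z = -I * e (z * P.b + P.m * P.b ^ 2 / 4) *
      (VV P ((z + P.b ^ 2 / P.Q : ℝ)) - VV P ((z - 1 / P.Q : ℝ))) := by
  have hQ : P.Q ≠ 0 := (add_pos P.hb P.ho).ne'
  have hbo := P.hbo
  refine VFUN_rec hU z P.b _ _ P.hb (fun X hX => G_add_b P hX) ?_ ?_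
  · unfold Par.m Par.a
    field_simp
    unfold Par.Q
    ring
  · unfold Par.m Par.a
    field_simp
    unfold Par.Q
    linear_combination 2 * hbo

/-- The same with `o`: `o (m + 1) / 2 = 1 / Q`, `o (m - 1) / 2 = - o ^ 2 / Q`. -/
theorem VV_rec_o {P : Par} {d : ℕ} (hU : P.IsUnit d) (z : ℝ) :
    VV P z = -I * e (z * P.o + P.m * P.o ^ 2 / 4) *
      (VV P ((z + 1 / P.Q : ℝ)) - VV P ((z - P.o ^ 2 / P.Q : ℝ))) := by
  have hQ : P.Q ≠ 0 := (add_pos P.hb P.ho).ne'
  have hbo := P.hbo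
  refine VFUN_rec hU z P.o _ _ P.ho (fun X hX => G_add_o P (o_lt_b hU) hX) ?_ ?_
  · unfold Par.m Par.a
    field_simp
    unfold Par.Q
    linear_combination -2 * hbo
  · unfold Par.m Par.a
    field_simp
    unfold Par.Q
    ring

/-- `W z = conj (V (- z))` for real `z`: `conj (Vf P 1 (- z) (conj X)) = Vf P (-1) z X` (`G_conj`,
`conj (e x) = e (- conj x)`) and `LInt_conj`. -/
theorem WW_eq {P : Par} (z : ℝ) : WW P z = conj (VV P ((-z : ℝ))) := by
  unfold WW VV
  rw [map_mul, LInt_conj, map_neg, conj_I, neg_neg]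
  have h : (fun X => conj (Vf P 1 ((-z : ℝ) : ℂ) (conj X))) = Vf P (-1) z := by
    funext X
    simp only [Vf]
    rw [map_mul, G_conj, VFUN_conj_e]
    simp only [map_add, map_mul, map_div₀, map_pow, conj_conj, conj_ofReal, map_ofNat]
    congr 2
    push_cast
    ring
  rw [h]
  ring

end Ghost
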