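import Pool.Agent.Lib_MP_1c78a5_ghost.Fub
import Pool.Agent.Lib_MP_1c78a5_ghost.HSum
import Pool.Agent.Lib_MP_1c78a5_ghost.VFun

/-!
# Piece IDENT: the main analytic identity
-/

open Complex MeasureTheory Set Filter Topology
open scoped Real ComplexConjugate

namespace Ghost

theorem IDENT_ineq {P : Par} {d : ℕ} (hU : P.IsUnit d) {N : ℤ} (h0 : 0 ≤ N) (h1 : N < d) :
    |P.a / 2 - N / P.Q| < P.Q / 2 := by
  have hb := P.hb
  have ho := P.ho
  have hbo := P.hbo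
  have hub := hU.hub
  have hQe : P.Q = P.b + P.o := rfl
  have hae : P.a = P.b - P.o := rfl
  have hQ : 0 < P.Q := add_pos hb ho
  have hN0 : (0 : ℝ) ≤ N := by exact_mod_cast h0
  have hN1 : (N : ℝ) ≤ (d : ℝ) - 1 := by
    have h2 : N + 1 ≤ (d : ℤ) := h1
    have h3 : ((N + 1 : ℤ) : ℝ) ≤ ((d : ℤ) : ℝ) := by exact_mod_cast h2
    push_cast at h3
    linarith
  rw [← hU.rel] at hN1
  have ho1 : P.o < 1 := by nlinarith
  have ho2 : P.o ^ 2 < 1 := by nlinarith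
  have hNQ : (N : ℝ) / P.Q < P.b := by
    rw [div_lt_iff₀ hQ, hQe]
    nlinarith
  have hNQ0 : 0 ≤ (N : ℝ) / P.Q := div_nonneg hN0 hQ.le
  rw [abs_lt]
  constructor
  · rw [hae]
    linarith
  · rw [hae]
    linarith

theorem IDENT_win {P : Par} {d : ℕ} (hU : P.IsUnit d) {A σ ω : ℝ} (hσ : 0 < σ)
    (h : |A| + 2 * σ + 2 * |ω| < P.Q / 2) :
    |A - 2 * ω + P.m * σ| < P.Q / 2 - σ ∧ |-A - 2 * ω - P.m * σ| < P.Q / 2 - σ := by
  have hm0 := m_pos hU
  have hm1 := m_lt_one P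
  have h1 : P.m * σ < σ := by nlinarith
  have h2 : 0 < P.m * σ := mul_pos hm0 hσ
  have h3 := le_abs_self A
  have h4 := neg_abs_le A
  have h5 := le_abs_self ω
  have h6 := neg_abs_le ω
  constructor
  · rw [abs_lt]
    constructor <;> linarith
  · rw [abs_lt]
    constructor <;> linarith

theorem IDENT_local {P : Par} {d : ℕ} (hU : P.IsUnit d) {K : ℝ}
    (hK : ∀ α w : ℂ, 0 < α.re → α.re < P.o / 2 → |w.re| < P.Q / 2 - α.re →
      Ib P α w = K * G P (2 * α) * G P (P.Q / 2 - α + w) * G P (P.Q / 2 - α - w))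
    {N : ℤ} (h0 : 0 ≤ N) (h1 : N < d) {σ0 : ℝ} (hσ : 0 < σ0) (ha : 2 * σ0 < P.a)
    (ho : 2 * σ0 < P.o) (hA : |P.a / 2 - N / P.Q| + 2 * σ0 < P.Q / 2) :
    ∃ ε : ℝ, 0 < ε ∧ ∀ ω : ℝ, |ω| < ε →
      K * (-I * RInt (fun η => hN P N η * e (ω * η)) (-(2 * σ0)) 1) =
        VV P ((P.a / 4 - N / (2 * P.Q) - ω : ℝ)) *
          WW P ((-(P.a / 4) + N / (2 * P.Q) - ω : ℝ)) := by
  have hm1 := m_lt_one P
  have hQ : 0 < P.Q := add_pos P.hb P.ho
  obtain ⟨δ, hδ, hvert⟩ := hN_vertical hU h0 h1 (η0 := -(2 * σ0)) (by linarith) (by linarith)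
    (by linarith)
  refine ⟨min δ ((P.Q / 2 - |P.a / 2 - N / P.Q| - 2 * σ0) / 2), lt_min hδ (by linarith), ?_⟩
  intro ω hω
  have hω1 := lt_of_lt_of_le hω (min_le_left _ _)
  have hω2 := lt_of_lt_of_le hω (min_le_right _ _)
  obtain ⟨w1, w2⟩ := IDENT_win hU (A := P.a / 2 - N / P.Q) (ω := ω) hσ (by linarith)
  have e1 : 2 * (P.a / 4 - N / (2 * P.Q) - ω) + 1 * P.m * σ0 =
      P.a / 2 - N / P.Q - 2 * ω + P.m * σ0 := by
    field_simp
    ring
  have e2 : 2 * (-(P.a / 4) + N / (2 * P.Q) - ω) + (-1) * P.m * σ0 =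
      -(P.a / 2 - N / P.Q) - 2 * ω - P.m * σ0 := by
    field_simp
    ring
  obtain ⟨iV, vV⟩ := Vf_vertical hU (s := 1) (Or.inl rfl) hσ
    (z := P.a / 4 - N / (2 * P.Q) - ω) (by rw [e1]; exact w1)
  obtain ⟨iW, vW⟩ := Vf_vertical hU (s := -1) (Or.inr rfl) hσ
    (z := -(P.a / 4) + N / (2 * P.Q) - ω) (by rw [e2]; exact w2)
  have hfb := fubini_beta hU hK h0 h1 hσ ha ho ω iV iW
  have him : ∀ z : ℝ, 2 * ((z : ℂ)).im < 1 * (1 - P.m) := by
    intro z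
    simp
    linarith
  have sV : LInt (Vf P 1 ((P.a / 4 - N / (2 * P.Q) - ω : ℝ))) P.o 1 =
      LInt (Vf P 1 ((P.a / 4 - N / (2 * P.Q) - ω : ℝ))) σ0 1 :=
    Vf_shift hU (Or.inl rfl) P.ho hσ one_pos (him _)
  have sW : LInt (Vf P (-1) ((-(P.a / 4) + N / (2 * P.Q) - ω : ℝ))) P.o 1 =
      LInt (Vf P (-1) ((-(P.a / 4) + N / (2 * P.Q) - ω : ℝ))) σ0 1 :=
    Vf_shift hU (Or.inr rfl) P.ho hσ one_pos (him _)
  have hI : (-I) * I = 1 := by rw [neg_mul, Complex.I_mul_I, neg_neg]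
  unfold VV WW
  rw [sV, sW, vV, vW, hvert ω hω1, ← mul_assoc (-I) I, ← mul_assoc (-I) I, ← mul_assoc (-I) I, hI,
    one_mul, one_mul, one_mul]
  exact hfb

theorem IDENT_affine (c : ℂ) {f : ℂ → ℂ} {ω : ℂ} (hf : DifferentiableAt ℂ f (c - ω)) :
    DifferentiableAt ℂ (fun w => f (c - w)) ω := by
  have h : DifferentiableAt ℂ (fun w : ℂ => c - w) ω := by fun_prop
  exact DifferentiableAt.comp ω (g := f) (f := fun w : ℂ => c - w) hf h

/-- Proof. Let `zV ω = a / 4 - N / (2 Q) - ω`, `zW ω = - a / 4 + N / (2 Q) - ω`. At `ω = 0`,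
`|2 zV| = |2 zW| = |a / 2 - N / Q| < Q / 2`, because `a < Q` and `N / Q ≤ (d - 1) / Q = (b ^ 2 + o ^ 2) / Q < b =
(a + Q) / 2` (`b Q = b ^ 2 + 1`). Choose `σ0 > 0` with `2 σ0 < a`, `2 σ0 < o` and
`|a / 2 - N / Q| + 2 σ0 < Q / 2`; put `η0 = - 2 σ0`. For real `ω` near `0` the window conditions of `Vf_vertical`
hold for `(1, zV ω)` and `(-1, zW ω)` at `σ0` (`m < 1`), so by `Vf_shift`, `Vf_vertical` and `hN_vertical`,
`fubini_beta` says `K (- i RInt (h_N e (ω ·)) η0 1) = V (zV ω) W (zW ω)` (`- i · i = 1`). Both sides are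
differentiable in `ω` on the half plane `im ω > - ε` for small `ε > 0` (`hN_param`, `Vf_param` with `T = 1`,
composed with affine maps; `im zV = - im ω`), which is convex, so by the identity theorem
(`AnalyticOnNhd.eqOn_of_preconnected_of_frequently_eq`) they agree for all real `ω`. -/
theorem h_eq_VW {P : Par} {d : ℕ} (hU : P.IsUnit d) : ∃ K : ℝ, 0 < K ∧ ∀ N : ℤ, 0 ≤ N →
    N < d → ∃ η0 : ℝ, -P.a < η0 ∧ -P.o < η0 ∧ η0 < 0 ∧ ∀ ω : ℝ,
      K * (-I * RInt (fun η => hN P N η * e (ω * η)) η0 1) =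
        VV P ((P.a / 4 - N / (2 * P.Q) - ω : ℝ)) *
          WW P ((-(P.a / 4) + N / (2 * P.Q) - ω : ℝ)) := by
  obtain ⟨K, hK0, hK⟩ := beta hU
  refine ⟨K, hK0, fun N h0 h1 => ?_⟩
  have ha0 : 0 < P.a := sub_pos.2 (o_lt_b hU)
  have hA := IDENT_ineq hU h0 h1
  have hm1 := m_lt_one P
  have hQ : 0 < P.Q := add_pos P.hb P.ho
  obtain ⟨s, hs⟩ : ∃ s : ℝ, s = min P.a (min P.o (P.Q / 2 - |P.a / 2 - N / P.Q|)) := ⟨_, rfl⟩
  have hs0 : 0 < s := by
    rw [hs]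
    exact lt_min ha0 (lt_min P.ho (by linarith))
  have hs1 : s ≤ P.a := by rw [hs]; exact min_le_left _ _
  have hs2 : s ≤ P.o := by rw [hs]; exact (min_le_right _ _).trans (min_le_left _ _)
  have hs3 : s ≤ P.Q / 2 - |P.a / 2 - N / P.Q| := by
    rw [hs]; exact (min_le_right _ _).trans (min_le_right _ _)
  obtain ⟨ε, hε, hloc⟩ := IDENT_local hU hK h0 h1 (σ0 := s / 4) (by linarith) (by linarith)
    (by linarith) (by linarith)
  refine ⟨-(2 * (s / 4)), by linarith, by linarith, by linarith, ?_⟩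
  obtain ⟨c, hc⟩ : ∃ c : ℝ, c = P.a / 4 - N / (2 * P.Q) := ⟨_, rfl⟩
  obtain ⟨c', hc'⟩ : ∃ c : ℝ, c = -(P.a / 4) + N / (2 * P.Q) := ⟨_, rfl⟩
  rw [← hc, ← hc'] at hloc ⊢
  obtain ⟨r, hr⟩ : ∃ r : ℝ, r = min (1 / P.Q ^ 2) ((1 - P.m) / 2) := ⟨_, rfl⟩
  have hr0 : 0 < r := by
    rw [hr]
    exact lt_min (by positivity) (by linarith)
  have hr1 : r ≤ 1 / P.Q ^ 2 := by rw [hr]; exact min_le_left _ _
  have hr2 : r ≤ (1 - P.m) / 2 := by rw [hr]; exact min_le_right _ _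
  obtain ⟨U, hUdef⟩ : ∃ U : Set ℂ, U = {w : ℂ | -r < w.im} := ⟨_, rfl⟩
  have hUo : IsOpen U := by
    rw [hUdef]
    exact isOpen_lt continuous_const Complex.continuous_im
  have hUc : Convex ℝ U := by
    rw [hUdef]
    exact convex_halfSpace_im_gt (-r)
  have hmem : ∀ ω : ℝ, (ω : ℂ) ∈ U := by
    intro ω
    rw [hUdef]
    simp [hr0]
  obtain ⟨F, hF⟩ : ∃ F : ℂ → ℂ, F = fun w => K * (-I * RInt (fun η => hN P N η * e (w * η))
    (-(2 * (s / 4))) 1) := ⟨_, rfl⟩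
  obtain ⟨H, hH⟩ : ∃ H : ℂ → ℂ, H = fun w : ℂ => VV P ((c : ℂ) - w) * WW P ((c' : ℂ) - w) :=
    ⟨_, rfl⟩
  have hFd : DifferentiableOn ℂ F U := by
    intro w hw
    rw [hUdef] at hw
    have hw' : -r < w.im := hw
    have h2 := (hN_param hU h0 h1 (η0 := -(2 * (s / 4))) (w := w) (by linarith) (by linarith)
      (by linarith) (by
        have h3 : 2 * π / P.Q ^ 2 = 2 * π * (1 / P.Q ^ 2) := by ring
        rw [h3]
        have hpi := Real.pi_pos
        have h4 : -w.im < 1 / P.Q ^ 2 := by linarith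
        nlinarith)).2
    rw [hF]
    exact ((h2.const_mul (-I)).const_mul (K : ℂ)).differentiableWithinAt
  have hHd : DifferentiableOn ℂ H U := by
    intro w hw
    rw [hUdef] at hw
    have hw' : -r < w.im := hw
    have h2 := (Vf_param hU (s := 1) (Or.inl rfl) P.ho one_pos (z := (c : ℂ) - w) (by
      simp
      linarith)).2
    have h3 := (Vf_param hU (s := -1) (Or.inr rfl) P.ho one_pos (z := (c' : ℂ) - w) (by
      simp
      linarith)).2
    have h4 : DifferentiableAt ℂ (fun z : ℂ => VV P z) ((c : ℂ) - w) := by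
      unfold VV
      exact h2.const_mul (-I)
    have h5 : DifferentiableAt ℂ (fun z : ℂ => WW P z) ((c' : ℂ) - w) := by
      unfold WW
      exact h3.const_mul (-I)
    rw [hH]
    exact ((IDENT_affine _ h4).mul (IDENT_affine _ h5)).differentiableWithinAt
  have hfreq : ∃ᶠ w in 𝓝[≠] (0 : ℂ), F w = H w := by
    have hreal : ∀ ω : ℝ, |ω| < ε → F ω = H ω := by
      intro ω hω
      rw [hF, hH]
      have h2 := hloc ω hω
      rw [Complex.ofReal_sub, Complex.ofReal_sub] at h2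
      exact h2
    rw [frequently_iff]
    intro V hV
    rw [mem_nhdsWithin_iff_exists_mem_nhds_inter] at hV
    obtain ⟨B, hB, hBV⟩ := hV
    obtain ⟨ρ, hρ, hball⟩ := Metric.mem_nhds_iff.1 hB
    refine ⟨((min ρ ε / 2 : ℝ) : ℂ), hBV ⟨hball ?_, ?_⟩, hreal _ ?_⟩
    · have h3 : 0 < min ρ ε := lt_min hρ hε
      rw [mem_ball_zero_iff, Complex.norm_real, Real.norm_eq_abs, abs_of_pos (by linarith)]
      have := min_le_left ρ ε
      linarith
    · have h3 : 0 < min ρ ε := lt_min hρ hε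
      intro h4
      have h5 : ((min ρ ε / 2 : ℝ) : ℂ) = 0 := h4
      rw [Complex.ofReal_eq_zero] at h5
      linarith
    · have h3 : 0 < min ρ ε := lt_min hρ hε
      rw [abs_of_pos (by linarith)]
      have := min_le_right ρ ε
      linarith
  have hEq := AnalyticOnNhd.eqOn_of_preconnected_of_frequently_eq
    (hFd.analyticOnNhd hUo) (hHd.analyticOnNhd hUo) hUc.isPreconnected
    (by simpa using hmem 0) hfreq
  intro ω
  have h2 := hEq (hmem ω)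
  rw [hF, hH] at h2
  rw [Complex.ofReal_sub, Complex.ofReal_sub]
  exact h2

/-- The main analytic identity: `h_eq_VW`, `star_sum` and `WW_eq`. -/
theorem main_identity {P : Par} {d : ℕ} (hU : P.IsUnit d) : ∃ K : ℝ, 0 < K ∧ ∀ N : ℤ, 0 ≤ N →
    N < d → ∀ ω : ℝ, e (ω * P.Q) = (-1) ^ (N + d) →
      ∑ j ∈ win P d N, (-1) ^ j * Rv P d N j * e (ω * etaJ P d N j) =
        (d / (P.Q * K)) * VV P ((P.a / 4 - N / (2 * P.Q) - ω : ℝ)) *
          conj (VV P ((P.a / 4 - N / (2 * P.Q) + ω : ℝ))) := by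
  obtain ⟨K, hK, hV⟩ := h_eq_VW hU
  refine ⟨K, hK, fun N h0 h1 ω hω => ?_⟩
  obtain ⟨η0, ha, ho, hneg, h⟩ := hV N h0 h1
  rw [star_sum hU h0 h1 hω ha ho hneg]
  have h2 := h ω
  rw [WW_eq] at h2
  have hK' : (K : ℂ) ≠ 0 := by exact_mod_cast hK.ne'
  have hQ : (P.Q : ℂ) ≠ 0 := by
    have : 0 < P.Q := add_pos P.hb P.ho
    exact_mod_cast this.ne'
  have h3 : -I * RInt (fun η => hN P N η * e (ω * η)) η0 1 =
      (VV P ((P.a / 4 - N / (2 * P.Q) - ω : ℝ)) *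
        conj (VV P ((P.a / 4 - N / (2 * P.Q) + ω : ℝ)))) / K := by
    rw [eq_div_iff hK', mul_comm _ (K : ℂ), h2]
    congr 4
    ring
  rw [h3]
  field_simp

end Ghost
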