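import Pool.Agent.Lib_MP_1c78a5_ghost.Dio

/-!
# Piece LSER: the series for the logarithm in the upper half plane
-/

open Complex MeasureTheory Set Filter Topology
open scoped Real ComplexConjugate

namespace Ghost

/-- The terms of the series. -/
noncomputable def Lt (P : Par) (x : ℂ) (n : ℕ) : ℂ :=
  e (((n : ℂ) + 1) * P.b * x) / (((n : ℂ) + 1) * (1 - e (((n : ℂ) + 1) * (P.b : ℂ) ^ 2))) +
    e (((n : ℂ) + 1) * P.o * x) / (((n : ℂ) + 1) * (1 - e (((n : ℂ) + 1) * (P.o : ℂ) ^ 2)))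

/-- The series. -/
noncomputable def Lf (P : Par) (x : ℂ) : ℂ := ∑' n : ℕ, Lt P x n

theorem LSER_norm_e (x : ℂ) : ‖e x‖ = Real.exp (-(2 * π * x.im)) := by
  unfold e
  rw [Complex.norm_exp]
  congr 1
  simp [Complex.mul_re, Complex.mul_im]

theorem LSER_e_add (x y : ℂ) : e (x + y) = e x * e y := by
  unfold e
  rw [mul_add, Complex.exp_add]

theorem LSER_e_nat_mul (n : ℕ) (x : ℂ) : e ((n : ℂ) * x) = e x ^ n := by
  unfold e
  rw [← Complex.exp_nat_mul]
  congr 1
  ring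

theorem LSER_e_one : e 1 = 1 := by
  unfold e
  rw [mul_one, Complex.exp_two_pi_mul_I]

theorem LSER_e_nat (n : ℕ) : e (n : ℂ) = 1 := by
  have := LSER_e_nat_mul n 1
  rw [mul_one] at this
  rw [this, LSER_e_one, one_pow]

theorem LSER_e_differentiable : Differentiable ℂ e := by
  unfold e
  fun_prop

/-- `‖e ((n + 1) b x)‖ = exp (-2 π (n + 1) b im x) ≤ exp (-2 π (n + 1) o im x)` for `im x ≥ 0`, and the
denominators are at least `c` by `dioph` (with `n + 1` for `n`; mind the cast `((n + 1 : ℕ) : ℂ)`). -/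
theorem Lt_bound {P : Par} {d : ℕ} (hU : P.IsUnit d) : ∃ C : ℝ, 0 < C ∧ ∀ (x : ℂ) (n : ℕ),
    0 ≤ x.im → ‖Lt P x n‖ ≤ C * Real.exp (-(2 * π * P.o * x.im * (n + 1))) := by
  obtain ⟨c, hc, hd⟩ := dioph hU
  refine ⟨2 / c, by positivity, ?_⟩
  intro x n hx
  obtain ⟨h1, h2⟩ := hd (n + 1) (by omega)
  push_cast at h1 h2
  have hN : (0 : ℝ) < (n : ℝ) + 1 := by positivity
  have hnN : ‖((n : ℂ) + 1)‖ = (n : ℝ) + 1 := by
    have : ((n : ℂ) + 1) = (((n : ℝ) + 1 : ℝ) : ℂ) := by push_cast; rfl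
    rw [this, Complex.norm_real, Real.norm_of_nonneg hN.le]
  have key : ∀ (β : ℝ), P.o ≤ β → c / ((n : ℝ) + 1) ≤ ‖1 - e (((n : ℂ) + 1) * (β : ℂ) ^ 2)‖ →
      ‖e (((n : ℂ) + 1) * β * x) / (((n : ℂ) + 1) * (1 - e (((n : ℂ) + 1) * (β : ℂ) ^ 2)))‖ ≤
        1 / c * Real.exp (-(2 * π * P.o * x.im * (n + 1))) := by
    intro β hβ hden
    rw [norm_div, norm_mul, hnN, LSER_norm_e]
    have him : (((n : ℂ) + 1) * β * x).im = ((n : ℝ) + 1) * β * x.im := by
      have : ((n : ℂ) + 1) * β * x = (((((n : ℝ) + 1) * β : ℝ)) : ℂ) * x := by push_cast; ring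
      rw [this, Complex.im_ofReal_mul]
    rw [him]
    have hden' : c ≤ ((n : ℝ) + 1) * ‖1 - e (((n : ℂ) + 1) * (β : ℂ) ^ 2)‖ := by
      calc c = ((n : ℝ) + 1) * (c / ((n : ℝ) + 1)) := by field_simp
        _ ≤ _ := mul_le_mul_of_nonneg_left hden hN.le
    rw [div_eq_mul_inv, mul_comm]
    apply mul_le_mul
    · rw [one_div]
      exact inv_anti₀ hc hden'
    · apply Real.exp_le_exp.mpr
      apply neg_le_neg
      have h3 : P.o * (x.im * (n + 1)) ≤ β * (x.im * (n + 1)) :=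
        mul_le_mul_of_nonneg_right hβ (by positivity)
      have hpi := Real.pi_pos
      nlinarith
    · positivity
    · positivity
  unfold Lt
  calc _ ≤ _ := norm_add_le _ _
    _ ≤ 1 / c * Real.exp (-(2 * π * P.o * x.im * (n + 1))) +
        1 / c * Real.exp (-(2 * π * P.o * x.im * (n + 1))) :=
      add_le_add (key P.b (o_lt_b hU).le h1) (key P.o le_rfl h2)
    _ = _ := by ring

theorem LSER_exp_eq (P : Par) (y : ℝ) (n : ℕ) :
    Real.exp (-(2 * π * P.o * y * ((n : ℝ) + 1))) =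
      Real.exp (-(2 * π * P.o * y)) * Real.exp (-(2 * π * P.o * y)) ^ n := by
  rw [← Real.exp_nat_mul, ← Real.exp_add]
  congr 1
  ring

theorem LSER_q_lt_one (P : Par) {y : ℝ} (hy : 0 < y) : Real.exp (-(2 * π * P.o * y)) < 1 := by
  rw [Real.exp_lt_one_iff]
  have := P.ho
  have := Real.pi_pos
  have : 0 < 2 * π * P.o * y := by positivity
  linarith

theorem LSER_hasSum_geo (P : Par) {y : ℝ} (hy : 0 < y) (C : ℝ) :
    HasSum (fun n : ℕ => C * Real.exp (-(2 * π * P.o * y * ((n : ℝ) + 1))))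
      (C * (Real.exp (-(2 * π * P.o * y)) * (1 - Real.exp (-(2 * π * P.o * y)))⁻¹)) := by
  simp_rw [LSER_exp_eq]
  exact ((hasSum_geometric_of_lt_one (Real.exp_pos _).le (LSER_q_lt_one P hy)).mul_left _).mul_left _

theorem LSER_summable {P : Par} {d : ℕ} (hU : P.IsUnit d) {x : ℂ} (hx : 0 < x.im) :
    Summable (Lt P x) := by
  obtain ⟨C, hC, hb⟩ := Lt_bound hU
  exact Summable.of_norm_bounded (LSER_hasSum_geo P hx C).summable (fun n => hb x n hx.le)

/-- Sum of the geometric series. -/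
theorem Lf_bound {P : Par} {d : ℕ} (hU : P.IsUnit d) {t0 : ℝ} (ht : 0 < t0) :
    ∃ C : ℝ, 0 < C ∧ ∀ x : ℂ, t0 ≤ x.im → ‖Lf P x‖ ≤ C * Real.exp (-(2 * π * P.o * x.im)) := by
  obtain ⟨C, hC, hb⟩ := Lt_bound hU
  have hq0 := LSER_q_lt_one P ht
  refine ⟨C * (1 - Real.exp (-(2 * π * P.o * t0)))⁻¹,
    mul_pos hC (inv_pos.mpr (by linarith)), ?_⟩
  intro x hx
  have hx0 : 0 < x.im := lt_of_lt_of_le ht hx
  have h1 := LSER_hasSum_geo P hx0 C
  have h2 : ‖Lf P x‖ ≤ _ := tsum_of_norm_bounded h1 (fun n => hb x n hx0.le)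
  refine h2.trans ?_
  have h3 : Real.exp (-(2 * π * P.o * x.im)) ≤ Real.exp (-(2 * π * P.o * t0)) := by
    apply Real.exp_le_exp.mpr
    apply neg_le_neg
    have := P.ho
    have := Real.pi_pos
    exact mul_le_mul_of_nonneg_left hx (by positivity)
  have h4 : (1 - Real.exp (-(2 * π * P.o * x.im)))⁻¹ ≤ (1 - Real.exp (-(2 * π * P.o * t0)))⁻¹ :=
    inv_anti₀ (by linarith) (by linarith)
  calc _ = C * (1 - Real.exp (-(2 * π * P.o * x.im)))⁻¹ * Real.exp (-(2 * π * P.o * x.im)) := by ring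
    _ ≤ _ := by
      apply mul_le_mul_of_nonneg_right _ (Real.exp_pos _).le
      exact mul_le_mul_of_nonneg_left h4 hC.le

/-- Locally uniform convergence (`differentiableOn_tsum_of_summable_norm` on `{t0 < im x}`). -/
theorem Lf_differentiableAt {P : Par} {d : ℕ} (hU : P.IsUnit d) {x : ℂ} (hx : 0 < x.im) :
    DifferentiableAt ℂ (Lf P) x := by
  obtain ⟨C, hC, hb⟩ := Lt_bound hU
  have hy : 0 < x.im / 2 := by positivity
  have hopen : IsOpen {z : ℂ | x.im / 2 < z.im} := isOpen_lt continuous_const Complex.continuous_im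
  have hd : DifferentiableOn ℂ (fun z : ℂ => ∑' n : ℕ, Lt P z n) {z : ℂ | x.im / 2 < z.im} := by
    refine Complex.differentiableOn_tsum_of_summable_norm
      (u := fun n : ℕ => C * Real.exp (-(2 * π * P.o * (x.im / 2) * ((n : ℝ) + 1))))
      (LSER_hasSum_geo P hy C).summable ?_ hopen ?_
    · intro n
      apply Differentiable.differentiableOn
      unfold Lt
      have he := LSER_e_differentiable
      have h1 : Differentiable ℂ (fun z : ℂ => e (((n : ℂ) + 1) * P.b * z)) :=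
        he.comp (by fun_prop)
      have h2 : Differentiable ℂ (fun z : ℂ => e (((n : ℂ) + 1) * P.o * z)) :=
        he.comp (by fun_prop)
      exact (h1.div_const _).add (h2.div_const _)
    · intro n z hz
      have hz' : x.im / 2 < z.im := hz
      refine (hb z n (by linarith)).trans ?_
      apply mul_le_mul_of_nonneg_left _ hC.le
      apply Real.exp_le_exp.mpr
      apply neg_le_neg
      have := P.ho
      have := Real.pi_pos
      apply mul_le_mul_of_nonneg_right _ (by positivity)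
      exact mul_le_mul_of_nonneg_left hz'.le (by positivity)
  exact hd.differentiableAt (hopen.mem_nhds (by show x.im / 2 < x.im; linarith))

/-- The logarithm series. -/
theorem LSER_hasSum_log {z : ℂ} (hz : ‖z‖ < 1) :
    HasSum (fun n : ℕ => -(z ^ (n + 1) / ((n : ℂ) + 1))) (Complex.log (1 - z)) := by
  have h := Complex.hasSum_taylorSeries_neg_log hz
  rw [← hasSum_nat_add_iff' 1] at h
  have h' := h.neg
  simpa using h'

theorem LSER_norm_lt_one {β : ℝ} (hβ : 0 < β) {x : ℂ} (hx : 0 < x.im) :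
    ‖e (β * x)‖ < 1 := by
  rw [LSER_norm_e, Complex.im_ofReal_mul, Real.exp_lt_one_iff]
  have := Real.pi_pos
  have : 0 < 2 * π * (β * x.im) := by positivity
  linarith

theorem LSER_den_ne {c : ℝ} (hc : 0 < c) {n : ℕ} {y : ℂ}
    (h : c / ((n : ℝ) + 1) ≤ ‖1 - e (((n : ℂ) + 1) * y)‖) :
    ((n : ℂ) + 1) ≠ 0 ∧ 1 - e (((n : ℂ) + 1) * y) ≠ 0 := by
  constructor
  · exact_mod_cast Nat.succ_ne_zero n
  · intro h0
    rw [h0, norm_zero] at h
    have : 0 < c / ((n : ℝ) + 1) := by positivity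
    linarith

/-- The difference of the two main terms. -/
theorem LSER_main_diff (n : ℕ) (β x : ℂ) (hn : ((n : ℂ) + 1) ≠ 0)
    (h : 1 - e (((n : ℂ) + 1) * β ^ 2) ≠ 0) :
    e (((n : ℂ) + 1) * β * (x + β)) / (((n : ℂ) + 1) * (1 - e (((n : ℂ) + 1) * β ^ 2))) =
      e (((n : ℂ) + 1) * β * x) / (((n : ℂ) + 1) * (1 - e (((n : ℂ) + 1) * β ^ 2))) +
        -(e (β * x) ^ (n + 1) / ((n : ℂ) + 1)) := by
  have h1 : e (((n : ℂ) + 1) * β * (x + β)) = e (β * x) ^ (n + 1) * e (((n : ℂ) + 1) * β ^ 2) := by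
    rw [← LSER_e_nat_mul, ← LSER_e_add]
    congr 1
    push_cast
    ring
  have h2 : e (((n : ℂ) + 1) * β * x) = e (β * x) ^ (n + 1) := by
    rw [← LSER_e_nat_mul]
    congr 1
    push_cast
    ring
  rw [h1, h2]
  generalize e (((n : ℂ) + 1) * β ^ 2) = w at h ⊢
  generalize e (β * x) ^ (n + 1) = u
  generalize ((n : ℂ) + 1) = N at hn ⊢
  field_simp
  ring

/-- The other term is periodic. -/
theorem LSER_other (n : ℕ) (β γ x : ℂ) (h : γ * β = 1) :
    e (((n : ℂ) + 1) * γ * (x + β)) = e (((n : ℂ) + 1) * γ * x) := by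
  have h1 : ((n : ℂ) + 1) * γ * (x + β) = ((n : ℂ) + 1) * γ * x + ((n + 1 : ℕ) : ℂ) := by
    push_cast
    linear_combination ((n : ℂ) + 1) * h
  rw [h1, LSER_e_add, LSER_e_nat, mul_one]

theorem LSER_exp_of_hasSum {P : Par} {x y : ℂ} {z : ℂ} (hz : ‖z‖ < 1) (hs : Summable (Lt P x))
    (h : ∀ n, Lt P y n = Lt P x n + -(z ^ (n + 1) / ((n : ℂ) + 1))) :
    Complex.exp (Lf P y) = (1 - z) * Complex.exp (Lf P x) := by
  have h1 : HasSum (Lt P y) (Lf P x + Complex.log (1 - z)) := by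
    have h2 := hs.hasSum.add (LSER_hasSum_log hz)
    have h3 : (fun n => Lt P x n + -(z ^ (n + 1) / ((n : ℂ) + 1))) = Lt P y := by
      funext n
      rw [h n]
    rw [h3] at h2
    exact h2
  have h4 : Lf P y = Lf P x + Complex.log (1 - z) := h1.tsum_eq
  have h5 : (1 - z) ≠ 0 := by
    intro h0
    have : z = 1 := by linear_combination -h0
    rw [this, norm_one] at hz
    exact lt_irrefl _ hz
  rw [h4, Complex.exp_add, Complex.exp_log h5, mul_comm]

/-- `exp (Lf (x + b)) = (1 - e (b x)) exp (Lf x)` for `im x > 0`.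

Proof. `e (n b (x + b)) = e (n b x) e (n b ^ 2)` and `e (n o (x + b)) = e (n o x) e n = e (n o x)`
(`b o = 1`), so `Lf (x + b) - Lf x = - ∑_{n ≥ 1} e (n b x) / n = log (1 - e (b x))`
(`Complex.hasSum_taylorSeries_neg_log`, `‖e (b x)‖ < 1`); the denominators `1 - e (n b ^ 2)` are not zero by
`dioph`. -/
theorem exp_Lf_add_b {P : Par} {d : ℕ} (hU : P.IsUnit d) {x : ℂ} (hx : 0 < x.im) :
    Complex.exp (Lf P (x + P.b)) = (1 - e (P.b * x)) * Complex.exp (Lf P x) := by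
  obtain ⟨c, hc, hd⟩ := dioph hU
  apply LSER_exp_of_hasSum (LSER_norm_lt_one P.hb hx) (LSER_summable hU hx)
  intro n
  have h1 := (hd (n + 1) (by omega)).1
  push_cast at h1
  obtain ⟨hn, hne⟩ := LSER_den_ne hc h1
  have hob : (P.o : ℂ) * P.b = 1 := by
    have := P.hbo
    rw [mul_comm] at this
    exact_mod_cast this
  unfold Lt
  rw [LSER_main_diff n P.b x hn hne, LSER_other n P.b P.o x hob]
  ring

theorem exp_Lf_add_o {P : Par} {d : ℕ} (hU : P.IsUnit d) {x : ℂ} (hx : 0 < x.im) :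
    Complex.exp (Lf P (x + P.o)) = (1 - e (P.o * x)) * Complex.exp (Lf P x) := by
  obtain ⟨c, hc, hd⟩ := dioph hU
  apply LSER_exp_of_hasSum (LSER_norm_lt_one P.ho hx) (LSER_summable hU hx)
  intro n
  have h1 := (hd (n + 1) (by omega)).2
  push_cast at h1
  obtain ⟨hn, hne⟩ := LSER_den_ne hc h1
  have hbo : (P.b : ℂ) * P.o = 1 := by
    exact_mod_cast P.hbo
  unfold Lt
  rw [LSER_main_diff n P.o x hn hne, LSER_other n P.o P.b x hbo]
  ring

end Ghost
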