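import Pool.Agent.Lib_MP_1c78a5_ghost.LsInt

/-!
# Piece LSDUP: duplication formula of the logarithmic sine integral
-/

open Complex MeasureTheory Set Filter Topology
open scoped Real ComplexConjugate

namespace Ghost

theorem LSDUP_point (z : ℂ) {t : ℝ} (ht : 0 < t) :
    (Complex.cosh ((2 * (z / 2) - 1) * t) / Real.sinh t - 1 / t) / t +
      (Complex.cosh ((2 * ((z + 1) / 2) - 1) * t) / Real.sinh t - 1 / t) / t =
    (2⁻¹ : ℝ) • ((fun τ : ℝ => (Complex.cosh ((2 * z - 1) * τ) / Real.sinh τ - 1 / τ) / τ)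
      (2⁻¹ * t)) := by
  have ht0 : (t : ℂ) ≠ 0 := by exact_mod_cast ht.ne'
  have hs : (Real.sinh (2⁻¹ * t) : ℂ) ≠ 0 := LSINT_sinh_ne (by positivity)
  have hc : (Real.cosh (2⁻¹ * t) : ℂ) ≠ 0 := by exact_mod_cast (Real.cosh_pos _).ne'
  have h1 : (Real.sinh t : ℂ) = 2 * Real.sinh (2⁻¹ * t) * Real.cosh (2⁻¹ * t) := by
    rw [← Complex.ofReal_ofNat, ← Complex.ofReal_mul, ← Complex.ofReal_mul,
      ← Real.sinh_two_mul]
    congr 2
    ring
  have h2 : Complex.cosh ((2 * (z / 2) - 1) * t) + Complex.cosh ((2 * ((z + 1) / 2) - 1) * t) =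
      2 * Complex.cosh ((2 * z - 1) * ((2⁻¹ * t : ℝ) : ℂ)) * Real.cosh (2⁻¹ * t) := by
    have h3 : (2 * (z / 2) - 1) * (t : ℂ) =
        (2 * z - 1) * ((2⁻¹ * t : ℝ) : ℂ) - ((2⁻¹ * t : ℝ) : ℂ) := by
      push_cast
      ring
    have h4 : (2 * ((z + 1) / 2) - 1) * (t : ℂ) =
        (2 * z - 1) * ((2⁻¹ * t : ℝ) : ℂ) + ((2⁻¹ * t : ℝ) : ℂ) := by
      push_cast
      ring
    rw [h3, h4, Complex.cosh_sub, Complex.cosh_add, ← Complex.ofReal_cosh]
    ring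
  have h5 : Complex.cosh ((2 * z - 1) * ((2⁻¹ * t : ℝ) : ℂ)) =
      (Complex.cosh ((2 * (z / 2) - 1) * t) + Complex.cosh ((2 * ((z + 1) / 2) - 1) * t)) /
        (2 * Real.cosh (2⁻¹ * t)) := by
    rw [h2, eq_div_iff (mul_ne_zero two_ne_zero hc)]
    ring
  simp only [Complex.real_smul]
  rw [h5, h1]
  generalize Complex.cosh ((2 * (z / 2) - 1) * t) = A
  generalize Complex.cosh ((2 * ((z + 1) / 2) - 1) * t) = B
  generalize (Real.sinh (2⁻¹ * t) : ℂ) = S at *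
  generalize (Real.cosh (2⁻¹ * t) : ℂ) = C at *
  push_cast
  field_simp
  ring

/-- `Phi (z / 2) + Phi ((z + 1) / 2) = Phi z` for `0 < re z < 1`.

Proof. The sum of the two integrands at `t` is, since `2 (z / 2) - 1 = z - 1`,
`2 ((z + 1) / 2) - 1 = z` and `cosh ((z - 1) t) + cosh (z t) = 2 cosh ((z - 1 / 2) t) cosh (t / 2)`,
`sinh t = 2 sinh (t / 2) cosh (t / 2)`, equal to
`(cosh ((z - 1 / 2) t) / sinh (t / 2) - 2 / t) / t = F (t / 2) / 2` with
`F τ = (cosh ((2 z - 1) τ) / sinh τ - 1 / τ) / τ`. Add the integrals (`Phi_integrable` for both, the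
real parts of `z / 2` and `(z + 1) / 2` lie in `(0, 1)`) and substitute `t = 2 τ`
(`integral_comp_mul_left_Ioi` or `MeasureTheory.integral_comp_mul_right_Ioi`). -/
theorem Phi_dup {z : ℂ} (h0 : 0 < z.re) (h1 : z.re < 1) :
    Phi (z / 2) + Phi ((z + 1) / 2) = Phi z := by
  have ha0 : 0 < (z / 2).re := by simp; linarith
  have ha1 : (z / 2).re < 1 := by simp; linarith
  have hb0 : 0 < ((z + 1) / 2).re := by simp; linarith
  have hb1 : ((z + 1) / 2).re < 1 := by simp; linarith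
  have hA := Phi_integrable ha0 ha1
  have hB := Phi_integrable hb0 hb1
  unfold Phi
  rw [← integral_add hA hB]
  have h2 := MeasureTheory.integral_comp_mul_left_Ioi
    (fun τ : ℝ => (Complex.cosh ((2 * z - 1) * τ) / Real.sinh τ - 1 / τ) / τ) 0
    (show (0 : ℝ) < 2⁻¹ by norm_num)
  have h3 : ∫ τ in Ioi (0 : ℝ), (Complex.cosh ((2 * z - 1) * τ) / Real.sinh τ - 1 / τ) / τ =
      ∫ t in Ioi (0 : ℝ), (2⁻¹ : ℝ) •
        ((fun τ : ℝ => (Complex.cosh ((2 * z - 1) * τ) / Real.sinh τ - 1 / τ) / τ) (2⁻¹ * t)) := by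
    rw [integral_smul, h2, mul_zero, inv_inv, smul_smul]
    norm_num
  rw [h3]
  refine setIntegral_congr_fun measurableSet_Ioi fun t ht => ?_
  exact LSDUP_point z ht

end Ghost
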