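import Pool.Agent.Lib_MP_1c78a5_ghost.Defs

/-!
# Piece LSINT: the logarithmic sine integral is differentiable
-/

open Complex MeasureTheory Set Filter Topology
open scoped Real ComplexConjugate

namespace Ghost

theorem LSINT_norm_cosh_le (u : ℂ) : ‖Complex.cosh u‖ ≤ Real.cosh u.re := by
  rw [Complex.cosh, Real.cosh_eq]
  have h1 : ‖Complex.exp u + Complex.exp (-u)‖ ≤ Real.exp u.re + Real.exp (-u.re) := by
    refine (norm_add_le _ _).trans ?_
    rw [Complex.norm_exp, Complex.norm_exp, Complex.neg_re]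
  rw [norm_div]
  have h2 : ‖(2 : ℂ)‖ = 2 := by norm_num
  rw [h2]
  linarith

theorem LSINT_norm_sinh_le (w : ℂ) : ‖Complex.sinh w‖ ≤ ‖w‖ * Real.cosh w.re := by
  have h := norm_image_sub_le_of_norm_deriv_le_segment_01'
    (f := fun s : ℝ => Complex.sinh ((s : ℂ) * w)) (f' := fun s : ℝ => Complex.cosh ((s : ℂ) * w) * w)
    (C := ‖w‖ * Real.cosh w.re)
    (by
      intro s _
      have h1 : HasDerivAt (fun s : ℝ => (s : ℂ) * w) w s := by
        have := (Complex.ofRealCLM.hasDerivAt (x := s)).mul_const w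
        simpa using this
      have h2 := (Complex.hasDerivAt_sinh ((s : ℂ) * w)).comp_of_eq s h1 rfl
      exact h2.hasDerivWithinAt)
    (by
      intro s hs
      rw [norm_mul, mul_comm]
      refine mul_le_mul_of_nonneg_left ?_ (norm_nonneg _)
      refine (LSINT_norm_cosh_le _).trans ?_
      rw [Real.cosh_le_cosh]
      have h1 : ((s : ℂ) * w).re = s * w.re := by simp
      rw [h1, abs_mul, abs_of_nonneg hs.1]
      nlinarith [abs_nonneg w.re, hs.2, hs.1])
  simpa using h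

theorem LSINT_sinh_pos {t : ℝ} (ht : 0 < t) : 0 < Real.sinh t := Real.sinh_pos_iff.2 ht

/-- lower bound for `sinh` -/
theorem LSINT_sinh_ge {t : ℝ} (ht : 0 < t) : t * Real.exp t ≤ (1 + 2 * t) * Real.sinh t := by
  rw [Real.sinh_eq]
  have h1 : 1 + 2 * t ≤ Real.exp (2 * t) := by
    have := Real.add_one_le_exp (2 * t)
    linarith
  have h2 : Real.exp (2 * t) * Real.exp (-t) = Real.exp t := by
    rw [← Real.exp_add]; congr 1; ring
  have h3 : (1 + 2 * t) * Real.exp (-t) ≤ Real.exp t := by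
    rw [← h2]
    exact mul_le_mul_of_nonneg_right h1 (Real.exp_pos _).le
  nlinarith [Real.exp_pos t]

theorem LSINT_cosh_le {r x : ℝ} (h : |x| ≤ r) : Real.cosh x ≤ Real.exp r := by
  have h0 : 0 ≤ r := (abs_nonneg x).trans h
  have h1 : Real.cosh x ≤ Real.cosh r := by
    rw [Real.cosh_le_cosh, abs_of_nonneg h0]
    exact h
  refine h1.trans ?_
  rw [Real.cosh_eq]
  have h2 : Real.exp (-r) ≤ Real.exp r := Real.exp_le_exp.2 (by linarith)
  linarith

/-- the basic bound for the quotient of hyperbolic sines -/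
theorem LSINT_quot {c : ℂ} {r t : ℝ} (hr : |c.re| ≤ r) (ht : 0 < t) :
    ‖Complex.sinh (c * t) / (Real.sinh t : ℂ)‖ ≤ ‖c‖ * ((1 + 2 * t) * Real.exp (-(1 - r) * t)) := by
  have hs := LSINT_sinh_pos ht
  rw [norm_div, Complex.norm_real, Real.norm_eq_abs, abs_of_pos hs, div_le_iff₀ hs]
  refine (LSINT_norm_sinh_le _).trans ?_
  have h1 : (c * (t : ℂ)).re = c.re * t := by simp
  have h2 : ‖c * (t : ℂ)‖ = ‖c‖ * t := by
    rw [norm_mul, Complex.norm_real, Real.norm_eq_abs, abs_of_pos ht]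
  rw [h1, h2]
  have h3 : Real.cosh (c.re * t) ≤ Real.exp (r * t) := by
    apply LSINT_cosh_le
    rw [abs_mul, abs_of_pos ht]
    exact mul_le_mul_of_nonneg_right hr ht.le
  have h4 := LSINT_sinh_ge ht
  have h5 : Real.exp (-(1 - r) * t) * Real.exp t = Real.exp (r * t) := by
    rw [← Real.exp_add]; congr 1; ring
  have h6 : t * Real.exp (r * t) ≤ (1 + 2 * t) * Real.exp (-(1 - r) * t) * Real.sinh t := by
    rw [← h5]
    have := mul_le_mul_of_nonneg_left h4 (Real.exp_pos (-(1 - r) * t)).le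
    nlinarith [this]
  calc ‖c‖ * t * Real.cosh (c.re * t) ≤ ‖c‖ * t * Real.exp (r * t) :=
        mul_le_mul_of_nonneg_left h3 (by positivity)
    _ = ‖c‖ * (t * Real.exp (r * t)) := by ring
    _ ≤ ‖c‖ * ((1 + 2 * t) * Real.exp (-(1 - r) * t) * Real.sinh t) :=
        mul_le_mul_of_nonneg_left h6 (norm_nonneg _)
    _ = ‖c‖ * ((1 + 2 * t) * Real.exp (-(1 - r) * t)) * Real.sinh t := by ring

theorem LSINT_int_aux {k : ℝ} (hk : 0 < k) :
    IntegrableOn (fun t : ℝ => (1 + 2 * t) * Real.exp (-k * t)) (Ioi 0) := by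
  have h1 := (exp_neg_integrableOn_Ioi 0 (half_pos hk)).const_mul (1 + 4 / k)
  refine Integrable.mono' h1 ?_ ?_
  · refine (Continuous.aestronglyMeasurable ?_)
    fun_prop
  · refine (ae_restrict_iff' measurableSet_Ioi).2 (Eventually.of_forall fun t ht => ?_)
    have ht' : 0 < t := ht
    have h2 : k / 2 * t + 1 ≤ Real.exp (k / 2 * t) := Real.add_one_le_exp _
    have h3 : 1 + 2 * t ≤ (1 + 4 / k) * Real.exp (k / 2 * t) := by
      have h4 : 4 / k * (k / 2 * t) = 2 * t := by field_simp; ring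
      have h5 : 0 < 4 / k := by positivity
      nlinarith [mul_le_mul_of_nonneg_left h2 h5.le, mul_pos hk ht']
    have h6 : Real.exp (k / 2 * t) * Real.exp (-k * t) = Real.exp (-(k / 2) * t) := by
      rw [← Real.exp_add]; congr 1; ring
    rw [Real.norm_eq_abs, abs_of_nonneg (by positivity)]
    calc (1 + 2 * t) * Real.exp (-k * t) ≤ (1 + 4 / k) * Real.exp (k / 2 * t) * Real.exp (-k * t) :=
          mul_le_mul_of_nonneg_right h3 (Real.exp_pos _).le
      _ = (1 + 4 / k) * Real.exp (-(k / 2) * t) := by rw [mul_assoc, h6]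

theorem LSINT_re {z : ℂ} (h0 : 0 < z.re) (h1 : z.re < 1) : |(2 * z - 1).re| < 1 := by
  have h2 : (2 * z - 1).re = 2 * z.re - 1 := by simp
  rw [h2, abs_lt]
  constructor <;> linarith

theorem LSINT_sinh_ne {t : ℝ} (ht : 0 < t) : (Real.sinh t : ℂ) ≠ 0 := by
  exact_mod_cast (LSINT_sinh_pos ht).ne'

theorem LSINT_meas1 (c : ℂ) : AEStronglyMeasurable
    (fun t : ℝ => 2 * Complex.sinh (c * t) / (Real.sinh t : ℂ)) (volume.restrict (Ioi 0)) := by
  refine ContinuousOn.aestronglyMeasurable ?_ measurableSet_Ioi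
  refine ContinuousOn.div ?_ ?_ (fun t ht => LSINT_sinh_ne ht)
  · exact Continuous.continuousOn (by fun_prop)
  · exact Continuous.continuousOn (by fun_prop)

theorem LSINT_meas2 (c : ℂ) : AEStronglyMeasurable
    (fun t : ℝ => (Complex.cosh (c * t) / (Real.sinh t : ℂ) - 1 / (t : ℂ)) / (t : ℂ))
      (volume.restrict (Ioi 0)) := by
  refine ContinuousOn.aestronglyMeasurable ?_ measurableSet_Ioi
  have ht0 : ∀ t ∈ Ioi (0 : ℝ), (t : ℂ) ≠ 0 := fun t ht => by
    have : (0 : ℝ) < t := ht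
    exact_mod_cast this.ne'
  refine ContinuousOn.div (ContinuousOn.sub (ContinuousOn.div ?_ ?_ (fun t ht => LSINT_sinh_ne ht))
    (ContinuousOn.div ?_ ?_ ht0)) ?_ ht0
  · exact Continuous.continuousOn (by fun_prop)
  · exact Continuous.continuousOn (by fun_prop)
  · exact Continuous.continuousOn (by fun_prop)
  · exact Continuous.continuousOn (by fun_prop)
  · exact Continuous.continuousOn (by fun_prop)

/-- `cosh w - 1` is of second order -/
theorem LSINT_cosh_sub_one (w : ℂ) :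
    ‖Complex.cosh w - 1‖ ≤ ‖w‖ ^ 2 / 2 * Real.cosh (w.re / 2) ^ 2 := by
  have h1 : Complex.cosh w - 1 = 2 * Complex.sinh (w / 2) ^ 2 := by
    have h2 := Complex.cosh_two_mul (w / 2)
    rw [mul_div_cancel₀ w (two_ne_zero)] at h2
    rw [h2, Complex.cosh_sq]
    ring
  rw [h1, norm_mul, norm_pow]
  have h3 := LSINT_norm_sinh_le (w / 2)
  have h4 : ‖w / 2‖ = ‖w‖ / 2 := by rw [norm_div]; norm_num
  have h5 : (w / 2).re = w.re / 2 := by simp
  rw [h4, h5] at h3
  have h6 : ‖(2 : ℂ)‖ = 2 := by norm_num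
  rw [h6]
  have h7 := pow_le_pow_left₀ (norm_nonneg _) h3 2
  calc 2 * ‖Complex.sinh (w / 2)‖ ^ 2 ≤ 2 * (‖w‖ / 2 * Real.cosh (w.re / 2)) ^ 2 := by linarith
    _ = ‖w‖ ^ 2 / 2 * Real.cosh (w.re / 2) ^ 2 := by ring

theorem LSINT_sinh_sub {t : ℝ} (ht : 0 < t) (ht1 : t ≤ 1) : Real.sinh t - t ≤ t ^ 3 * Real.exp 1 ^ 2 := by
  have h1 : Real.sinh t ≤ t * Real.cosh t := by
    have h2 := LSINT_norm_sinh_le (t : ℂ)
    rw [← Complex.ofReal_sinh, Complex.norm_real, Complex.norm_real, Real.norm_eq_abs,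
      Real.norm_eq_abs, abs_of_pos ht, abs_of_pos (LSINT_sinh_pos ht), Complex.ofReal_re] at h2
    exact h2
  have h3 : Real.cosh t - 1 ≤ t ^ 2 / 2 * Real.cosh (t / 2) ^ 2 := by
    have h4 := LSINT_cosh_sub_one (t : ℂ)
    rw [← Complex.ofReal_cosh, ← Complex.ofReal_one, ← Complex.ofReal_sub, Complex.norm_real,
      Complex.norm_real, Real.norm_eq_abs, Real.norm_eq_abs, abs_of_pos ht, Complex.ofReal_re] at h4
    exact (le_abs_self _).trans h4
  have h5 : Real.cosh (t / 2) ≤ Real.exp 1 := by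
    apply LSINT_cosh_le
    rw [abs_of_pos (by linarith)]
    linarith
  have h6 : Real.cosh (t / 2) ^ 2 ≤ Real.exp 1 ^ 2 :=
    pow_le_pow_left₀ (Real.cosh_pos _).le h5 2
  have h7 : t * (Real.cosh t - 1) ≤ t * (t ^ 2 / 2 * Real.exp 1 ^ 2) := by
    refine mul_le_mul_of_nonneg_left (h3.trans ?_) ht.le
    exact mul_le_mul_of_nonneg_left h6 (by positivity)
  have h8 : 0 ≤ t ^ 3 * Real.exp 1 ^ 2 := by positivity
  nlinarith

theorem LSINT_small {c : ℂ} (hc : |c.re| < 1) {t : ℝ} (ht : 0 < t) (ht1 : t ≤ 1) :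
    ‖(Complex.cosh (c * t) / (Real.sinh t : ℂ) - 1 / (t : ℂ)) / (t : ℂ)‖ ≤
      (‖c‖ ^ 2 + 1) * Real.exp 1 ^ 2 := by
  have hs := LSINT_sinh_pos ht
  have hs' := LSINT_sinh_ne ht
  have ht' : (t : ℂ) ≠ 0 := by exact_mod_cast ht.ne'
  have h1 : (Complex.cosh (c * t) / (Real.sinh t : ℂ) - 1 / (t : ℂ)) / (t : ℂ) =
      ((t : ℂ) * (Complex.cosh (c * t) - 1) - ((Real.sinh t - t : ℝ) : ℂ)) /
        ((t ^ 2 * Real.sinh t : ℝ) : ℂ) := by
    have hs2 : Complex.sinh (t : ℂ) ≠ 0 := by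
      rw [← Complex.ofReal_sinh]
      exact hs'
    push_cast
    field_simp
    ring
  rw [h1, norm_div, Complex.norm_real, Real.norm_eq_abs, abs_of_pos (by positivity),
    div_le_iff₀ (by positivity)]
  have h2 : ‖(t : ℂ) * (Complex.cosh (c * t) - 1)‖ ≤ t ^ 3 * (‖c‖ ^ 2 * Real.exp 1 ^ 2) := by
    rw [norm_mul, Complex.norm_real, Real.norm_eq_abs, abs_of_pos ht]
    have h3 := LSINT_cosh_sub_one (c * t)
    have h4 : ‖c * (t : ℂ)‖ = ‖c‖ * t := by
      rw [norm_mul, Complex.norm_real, Real.norm_eq_abs, abs_of_pos ht]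
    have h5 : (c * (t : ℂ)).re / 2 = c.re * t / 2 := by simp
    rw [h4, h5] at h3
    have h6 : Real.cosh (c.re * t / 2) ≤ Real.exp 1 := by
      apply LSINT_cosh_le
      rw [abs_div, abs_mul, abs_of_pos ht]
      have : |c.re| * t ≤ 1 * 1 := mul_le_mul hc.le ht1 ht.le zero_le_one
      rw [abs_of_pos (by norm_num : (0 : ℝ) < 2)]
      linarith
    have h7 : Real.cosh (c.re * t / 2) ^ 2 ≤ Real.exp 1 ^ 2 :=
      pow_le_pow_left₀ (Real.cosh_pos _).le h6 2
    have h8 : ‖Complex.cosh (c * t) - 1‖ ≤ (‖c‖ * t) ^ 2 / 2 * Real.exp 1 ^ 2 :=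
      h3.trans (mul_le_mul_of_nonneg_left h7 (by positivity))
    have h9 := mul_le_mul_of_nonneg_left h8 ht.le
    have h10 : 0 ≤ t ^ 3 * (‖c‖ ^ 2 * Real.exp 1 ^ 2) := by positivity
    nlinarith
  have h3 : ‖((Real.sinh t - t : ℝ) : ℂ)‖ ≤ t ^ 3 * Real.exp 1 ^ 2 := by
    rw [Complex.norm_real, Real.norm_eq_abs, abs_of_nonneg]
    · exact LSINT_sinh_sub ht ht1
    · have := Real.self_le_sinh_iff.2 ht.le
      linarith
  refine (norm_sub_le _ _).trans ?_
  have h4 : t ≤ Real.sinh t := Real.self_le_sinh_iff.2 ht.le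
  have h5 : 0 ≤ (‖c‖ ^ 2 + 1) * Real.exp 1 ^ 2 := by positivity
  have h6 : t ^ 2 * t ≤ t ^ 2 * Real.sinh t := mul_le_mul_of_nonneg_left h4 (by positivity)
  have h7 := mul_le_mul_of_nonneg_left h6 h5
  nlinarith

theorem LSINT_large {c : ℂ} (hc : |c.re| < 1) {t : ℝ} (ht : 1 < t) :
    ‖(Complex.cosh (c * t) / (Real.sinh t : ℂ) - 1 / (t : ℂ)) / (t : ℂ)‖ ≤
      (1 + 2 * t) * Real.exp (-(1 - |c.re|) * t) + t ^ (-2 : ℝ) := by
  have ht0 : 0 < t := by linarith
  have hs := LSINT_sinh_pos ht0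
  rw [norm_div, Complex.norm_real, Real.norm_eq_abs, abs_of_pos ht0]
  have h1 : ‖Complex.cosh (c * t) / (Real.sinh t : ℂ)‖ ≤
      (1 + 2 * t) * Real.exp (-(1 - |c.re|) * t) := by
    rw [norm_div, Complex.norm_real, Real.norm_eq_abs, abs_of_pos hs, div_le_iff₀ hs]
    have h2 : ‖Complex.cosh (c * t)‖ ≤ Real.exp (|c.re| * t) := by
      refine (LSINT_norm_cosh_le _).trans ?_
      apply LSINT_cosh_le
      have h3 : (c * (t : ℂ)).re = c.re * t := by simp
      rw [h3, abs_mul, abs_of_pos ht0]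
    have h4 := LSINT_sinh_ge ht0
    have h5 : Real.exp (-(1 - |c.re|) * t) * Real.exp t = Real.exp (|c.re| * t) := by
      rw [← Real.exp_add]; congr 1; ring
    have h6 : t * Real.exp (|c.re| * t) ≤
        (1 + 2 * t) * Real.exp (-(1 - |c.re|) * t) * Real.sinh t := by
      rw [← h5]
      have := mul_le_mul_of_nonneg_left h4 (Real.exp_pos (-(1 - |c.re|) * t)).le
      nlinarith [this]
    have h7 : Real.exp (|c.re| * t) ≤ t * Real.exp (|c.re| * t) := by
      nlinarith [Real.exp_pos (|c.re| * t)]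
    linarith
  have h2 : ‖1 / (t : ℂ)‖ = 1 / t := by
    rw [norm_div, Complex.norm_real, Real.norm_eq_abs, abs_of_pos ht0, norm_one]
  have h3 : ‖Complex.cosh (c * t) / (Real.sinh t : ℂ) - 1 / (t : ℂ)‖ ≤
      (1 + 2 * t) * Real.exp (-(1 - |c.re|) * t) + 1 / t := by
    refine (norm_sub_le _ _).trans ?_
    rw [h2]
    linarith
  have h4 : t ^ (-2 : ℝ) = 1 / t / t := by
    rw [Real.rpow_neg ht0.le]
    norm_num
    field_simp
  rw [h4]
  have h5 : ‖Complex.cosh (c * t) / (Real.sinh t : ℂ) - 1 / (t : ℂ)‖ / t ≤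
      ((1 + 2 * t) * Real.exp (-(1 - |c.re|) * t) + 1 / t) / t :=
    div_le_div_of_nonneg_right h3 ht0.le
  refine h5.trans ?_
  rw [add_div]
  have h6 : 0 ≤ (1 + 2 * t) * Real.exp (-(1 - |c.re|) * t) := by positivity
  have h7 : (1 + 2 * t) * Real.exp (-(1 - |c.re|) * t) / t ≤
      (1 + 2 * t) * Real.exp (-(1 - |c.re|) * t) := div_le_self h6 ht.le
  linarith

/-- The integrand of `Phi` is integrable for `0 < re z < 1`.

Proof. Write `c = 2 z - 1`, `|re c| < 1`. For `0 < t ≤ 1`: `cosh (c t) / sinh t - 1 / t =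
(t cosh (c t) - sinh t) / (t sinh t)`; `|t cosh (c t) - t| ≤ C t ^ 3`, `|sinh t - t| ≤ C t ^ 3` and
`t sinh t ≥ t ^ 2`, so the integrand is bounded by a constant. For `t ≥ 1`: `|cosh (c t)| ≤ exp (|re c| t)`,
`sinh t ≥ exp t / 4`, so the first term is at most `4 exp (-(1 - |re c|) t)` and the second is
`1 / t ^ 2`. The integrand is continuous on `(0, ∞)`. -/
theorem Phi_integrable {z : ℂ} (h0 : 0 < z.re) (h1 : z.re < 1) :
    IntegrableOn (fun t : ℝ => (Complex.cosh ((2 * z - 1) * t) / Real.sinh t - 1 / t) / t)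
      (Ioi 0) := by
  have hc := LSINT_re h0 h1
  have hm := LSINT_meas2 (2 * z - 1)
  have hU : Ioi (0 : ℝ) = Ioc 0 1 ∪ Ioi 1 := (Ioc_union_Ioi_eq_Ioi zero_le_one).symm
  rw [hU] at hm ⊢
  rw [integrableOn_union]
  constructor
  · have h2 : IntegrableOn (fun _ : ℝ => (‖2 * z - 1‖ ^ 2 + 1) * Real.exp 1 ^ 2) (Ioc (0 : ℝ) 1) :=
      integrableOn_const (by simp)
    refine Integrable.mono' h2 (hm.mono_measure (Measure.restrict_mono subset_union_left le_rfl)) ?_
    refine (ae_restrict_iff' measurableSet_Ioc).2 (Eventually.of_forall fun t ht => ?_)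
    exact LSINT_small hc ht.1 ht.2
  · have h2 : IntegrableOn (fun t : ℝ => (1 + 2 * t) * Real.exp (-(1 - |(2 * z - 1).re|) * t) +
        t ^ (-2 : ℝ)) (Ioi (1 : ℝ)) := by
      refine Integrable.add ?_ ?_
      · exact (LSINT_int_aux (by linarith)).mono_set (Ioi_subset_Ioi zero_le_one)
      · exact integrableOn_Ioi_rpow_of_lt (by norm_num) one_pos
    refine Integrable.mono' h2 (hm.mono_measure (Measure.restrict_mono subset_union_right le_rfl)) ?_
    refine (ae_restrict_iff' measurableSet_Ioi).2 (Eventually.of_forall fun t ht => ?_)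
    exact LSINT_large hc ht

/-- Integrability of the derivative of the integrand: bounded near `0` (`|sinh (c t)| ≤ C t` and
`sinh t ≥ t`), exponentially decreasing at infinity. -/
theorem sinh_div_sinh_integrable {z : ℂ} (h0 : 0 < z.re) (h1 : z.re < 1) :
    IntegrableOn (fun t : ℝ => 2 * Complex.sinh ((2 * z - 1) * t) / Real.sinh t) (Ioi 0) := by
  have hc := LSINT_re h0 h1
  have h2 := (LSINT_int_aux (k := 1 - |(2 * z - 1).re|) (by linarith)).const_mul (2 * ‖2 * z - 1‖)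
  refine Integrable.mono' h2 (LSINT_meas1 (2 * z - 1)) ?_
  refine (ae_restrict_iff' measurableSet_Ioi).2 (Eventually.of_forall fun t ht => ?_)
  have h3 := LSINT_quot (c := 2 * z - 1) le_rfl ht
  rw [mul_div_assoc, norm_mul]
  have h4 : ‖(2 : ℂ)‖ = 2 := by norm_num
  rw [h4, mul_assoc]
  linarith

/-- Differentiation under the integral sign: the derivative of the integrand in `z` is
`2 t sinh ((2 z - 1) t) / sinh t / t = 2 sinh ((2 z - 1) t) / sinh t`. On a ball `|z' - z| ≤ ε` with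
`|re (2 z' - 1)| ≤ ρ < 1` it is dominated by
`2 |2 z' - 1| t exp (ρ t) / sinh t ≤ C (1 + t) exp (-(1 - ρ) t)` (use `|sinh w| ≤ |w| exp |re w|` or
split at `t = 1`). Use `hasDerivAt_integral_of_dominated_loc_of_deriv_le`. -/
theorem Phi_hasDerivAt {z : ℂ} (h0 : 0 < z.re) (h1 : z.re < 1) :
    HasDerivAt Phi (∫ t in Ioi (0 : ℝ), 2 * Complex.sinh ((2 * z - 1) * t) / Real.sinh t) z := by
  have hc := LSINT_re h0 h1
  set k : ℝ := (1 - |(2 * z - 1).re|) / 2 with hk
  have hk0 : 0 < k := by rw [hk]; linarith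
  have hball : Metric.ball z (k / 2) ∈ 𝓝 z := Metric.ball_mem_nhds z (by linarith)
  have hre : ∀ x ∈ Metric.ball z (k / 2), |(2 * x - 1).re| ≤ 1 - k ∧ ‖2 * x - 1‖ ≤ ‖2 * z - 1‖ + k := by
    intro x hx
    have hx' : ‖x - z‖ < k / 2 := by rwa [Metric.mem_ball, dist_eq_norm] at hx
    have h3 : 2 * x - 1 = (2 * z - 1) + 2 * (x - z) := by ring
    have h4 : ‖2 * (x - z)‖ ≤ k := by
      rw [norm_mul]
      have : ‖(2 : ℂ)‖ = 2 := by norm_num
      rw [this]; linarith
    constructor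
    · rw [h3, Complex.add_re]
      refine (abs_add_le _ _).trans ?_
      have h5 := (Complex.abs_re_le_norm (2 * (x - z))).trans h4
      rw [hk] at h5 ⊢
      linarith
    · rw [h3]
      exact (norm_add_le _ _).trans (by linarith)
  have key := hasDerivAt_integral_of_dominated_loc_of_deriv_le (𝕜 := ℂ)
    (μ := volume.restrict (Ioi (0 : ℝ)))
    (F := fun (x : ℂ) (t : ℝ) => (Complex.cosh ((2 * x - 1) * t) / (Real.sinh t : ℂ) - 1 / (t : ℂ)) / (t : ℂ))
    (F' := fun (x : ℂ) (t : ℝ) => 2 * Complex.sinh ((2 * x - 1) * t) / (Real.sinh t : ℂ))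
    (x₀ := z) (s := Metric.ball z (k / 2))
    (bound := fun t : ℝ => 2 * (‖2 * z - 1‖ + k) * ((1 + 2 * t) * Real.exp (-k * t)))
    hball (Eventually.of_forall fun x => LSINT_meas2 (2 * x - 1)) (Phi_integrable h0 h1)
    (LSINT_meas1 (2 * z - 1)) ?_ ((LSINT_int_aux hk0).const_mul _) ?_
  · exact key.2
  · refine (ae_restrict_iff' measurableSet_Ioi).2 (Eventually.of_forall fun t ht x hx => ?_)
    obtain ⟨h3, h4⟩ := hre x hx
    have h5 := LSINT_quot (c := 2 * x - 1) h3 ht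
    have ht' : (0 : ℝ) < t := ht
    have h6 : -(1 - (1 - k)) * t = -k * t := by ring
    rw [h6] at h5
    rw [mul_div_assoc, norm_mul]
    have h7 : ‖(2 : ℂ)‖ = 2 := by norm_num
    rw [h7]
    have h8 : ‖2 * x - 1‖ * ((1 + 2 * t) * Real.exp (-k * t)) ≤
        (‖2 * z - 1‖ + k) * ((1 + 2 * t) * Real.exp (-k * t)) :=
      mul_le_mul_of_nonneg_right h4 (by positivity)
    linarith
  · refine (ae_restrict_iff' measurableSet_Ioi).2 (Eventually.of_forall fun t ht x hx => ?_)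
    have ht' : (t : ℂ) ≠ 0 := by
      have : (0 : ℝ) < t := ht
      exact_mod_cast this.ne'
    have h3 : HasDerivAt (fun x : ℂ => (2 * x - 1) * (t : ℂ)) (2 * (t : ℂ)) x := by
      have := (((hasDerivAt_id x).const_mul (2 : ℂ)).sub_const 1).mul_const (t : ℂ)
      simpa using this
    have h4 := (((Complex.hasDerivAt_cosh ((2 * x - 1) * (t : ℂ))).comp x h3).div_const
      (Real.sinh t : ℂ)).sub_const (1 / (t : ℂ))
    have h5 := h4.div_const (t : ℂ)
    have h6 : Complex.sinh ((2 * x - 1) * (t : ℂ)) * (2 * (t : ℂ)) / (Real.sinh t : ℂ) / (t : ℂ) =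
        2 * Complex.sinh ((2 * x - 1) * (t : ℂ)) / (Real.sinh t : ℂ) := by
      field_simp
    rw [h6] at h5
    exact h5

end Ghost
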