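import Pool.Agent.Lib_MP_1c78a5_ghost.LsInt

/-!
# Piece LSSER: the integral of `2 sinh ((2 z - 1) t) / sinh t`
-/

open Complex MeasureTheory Set Filter Topology
open scoped Real ComplexConjugate

namespace Ghost

/-- the integral of one term -/
theorem LSSER_term {z : ℂ} (h0 : 0 < z.re) (h1 : z.re < 1) (n : ℕ) :
    IntegrableOn (fun t : ℝ => 4 * Complex.sinh ((2 * z - 1) * t) * Complex.exp (-(2 * n + 1) * t))
      (Ioi 0) ∧
    ∫ t in Ioi (0 : ℝ), 4 * Complex.sinh ((2 * z - 1) * t) * Complex.exp (-(2 * n + 1) * t) =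
      1 / (n + 1 - z) - 1 / (n + z) := by
  have ha : (2 * z - 1 - (2 * n + 1) : ℂ).re < 0 := by
    have : (2 * z - 1 - (2 * n + 1) : ℂ).re = 2 * z.re - 1 - (2 * n + 1) := by simp
    rw [this]
    have : (0 : ℝ) ≤ n := Nat.cast_nonneg n
    linarith
  have hb : (-(2 * z - 1) - (2 * n + 1) : ℂ).re < 0 := by
    have : (-(2 * z - 1) - (2 * n + 1) : ℂ).re = -(2 * z.re - 1) - (2 * n + 1) := by simp
    rw [this]
    have : (0 : ℝ) ≤ n := Nat.cast_nonneg n
    linarith
  have i1 := (integrableOn_exp_mul_complex_Ioi ha 0).const_mul 2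
  have i2 := (integrableOn_exp_mul_complex_Ioi hb 0).const_mul 2
  have he : (fun t : ℝ => 4 * Complex.sinh ((2 * z - 1) * t) * Complex.exp (-(2 * n + 1) * t)) =
      fun t : ℝ => 2 * Complex.exp ((2 * z - 1 - (2 * n + 1)) * t) -
        2 * Complex.exp ((-(2 * z - 1) - (2 * n + 1)) * t) := by
    funext t
    have e1 : Complex.exp ((2 * z - 1 - (2 * n + 1)) * t) =
        Complex.exp ((2 * z - 1) * t) * Complex.exp (-(2 * n + 1) * t) := by
      rw [← Complex.exp_add]; congr 1; ring
    have e2 : Complex.exp ((-(2 * z - 1) - (2 * n + 1)) * t) =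
        Complex.exp (-((2 * z - 1) * t)) * Complex.exp (-(2 * n + 1) * t) := by
      rw [← Complex.exp_add]; congr 1; ring
    rw [e1, e2, Complex.sinh]
    ring
  have hz1 : (n : ℂ) + 1 - z ≠ 0 := by
    intro h
    have h2 := congrArg Complex.re h
    have h3 : ((n : ℂ) + 1 - z).re = n + 1 - z.re := by simp
    rw [h3, Complex.zero_re] at h2
    have : (0 : ℝ) ≤ n := Nat.cast_nonneg n
    linarith
  have hz2 : (n : ℂ) + z ≠ 0 := by
    intro h
    have h2 := congrArg Complex.re h
    have h3 : ((n : ℂ) + z).re = n + z.re := by simp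
    rw [h3, Complex.zero_re] at h2
    have : (0 : ℝ) ≤ n := Nat.cast_nonneg n
    linarith
  rw [he]
  refine ⟨i1.sub i2, ?_⟩
  rw [integral_sub i1 i2, integral_const_mul, integral_const_mul, integral_exp_mul_complex_Ioi ha,
    integral_exp_mul_complex_Ioi hb]
  have a1 : (2 * z - 1 - (2 * n + 1) : ℂ) = -(2 * ((n : ℂ) + 1 - z)) := by ring
  have a2 : (-(2 * z - 1) - (2 * n + 1) : ℂ) = -(2 * ((n : ℂ) + z)) := by ring
  rw [a1, a2]
  simp only [Complex.ofReal_zero, mul_zero, Complex.exp_zero]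
  field_simp

theorem LSSER_geom {z : ℂ} {t : ℝ} (ht : 0 < t) (M : ℕ) :
    ∑ n ∈ Finset.range M, 4 * Complex.sinh ((2 * z - 1) * t) * Complex.exp (-(2 * n + 1) * t) =
      2 * Complex.sinh ((2 * z - 1) * t) / Real.sinh t * ((1 - Real.exp (-(2 * M * t)) : ℝ) : ℂ) := by
  have hs : (Real.sinh t : ℂ) ≠ 0 := LSINT_sinh_ne ht
  induction M with
  | zero => simp
  | succ M ih =>
    rw [Finset.sum_range_succ, ih]
    have e1 : Complex.exp (-(2 * M + 1) * t) * (2 * (Real.sinh t : ℂ)) =
        ((Real.exp (-(2 * M * t)) - Real.exp (-(2 * ((M + 1 : ℕ) : ℝ) * t)) : ℝ) : ℂ) := by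
      have e2 : Complex.exp (-(2 * M + 1) * t) = ((Real.exp (-(2 * M + 1) * t) : ℝ) : ℂ) := by
        push_cast
        rfl
      rw [e2]
      have e3 : Real.exp (-(2 * M + 1) * t) * (2 * Real.sinh t) =
          Real.exp (-(2 * M * t)) - Real.exp (-(2 * ((M + 1 : ℕ) : ℝ) * t)) := by
        rw [Real.sinh_eq]
        have e4 : Real.exp (-(2 * M * t)) = Real.exp (-(2 * M + 1) * t) * Real.exp t := by
          rw [← Real.exp_add]; congr 1; ring
        have e5 : Real.exp (-(2 * ((M + 1 : ℕ) : ℝ) * t)) =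
            Real.exp (-(2 * M + 1) * t) * Real.exp (-t) := by
          rw [← Real.exp_add]; congr 1; push_cast; ring
        rw [e4, e5]
        ring
      rw [← e3]
      push_cast
      ring
    have e6 : 4 * Complex.sinh ((2 * z - 1) * t) * Complex.exp (-(2 * M + 1) * t) =
        2 * Complex.sinh ((2 * z - 1) * t) / Real.sinh t *
          (Complex.exp (-(2 * M + 1) * t) * (2 * (Real.sinh t : ℂ))) := by
      field_simp
      ring
    rw [e6, e1]
    push_cast
    ring

theorem LSSER_sum {z : ℂ} (h0 : 0 < z.re) (h1 : z.re < 1) :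
    Tendsto (fun M : ℕ => ∑ n ∈ Finset.range M, (1 / ((n : ℂ) + 1 - z) - 1 / (n + z))) atTop
      (𝓝 (-(π * Complex.cot (π * z)))) := by
  have hz : z ∈ Complex.integerComplement := by
    rintro ⟨k, hk⟩
    have h2 := congrArg Complex.re hk
    rw [Complex.intCast_re] at h2
    rw [← h2] at h0 h1
    have h3 : 0 < k := by exact_mod_cast h0
    have h4 : k < 1 := by exact_mod_cast h1
    omega
  have hz0 : z ≠ 0 := by
    rintro rfl
    simp at h0
  have h2 := tendsto_logDeriv_euler_cot_sub hz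
  have h3 : Tendsto (fun M : ℕ => 1 / (z + (M : ℂ))) atTop (𝓝 0) := by
    have h4 : Tendsto (fun M : ℕ => z + (M : ℂ)) atTop (Bornology.cobounded ℂ) := by
      rw [← tendsto_norm_atTop_iff_cobounded]
      refine tendsto_atTop_mono (fun M => ?_) tendsto_natCast_atTop_atTop
      have h5 : (M : ℝ) ≤ (z + (M : ℂ)).re := by
        simp only [Complex.add_re, Complex.natCast_re]
        linarith
      exact h5.trans (Complex.re_le_norm _)
    refine (tendsto_inv₀_cobounded.comp h4).congr (fun M => ?_)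
    rw [Function.comp_apply, one_div]
  have h4 : Tendsto (fun M : ℕ => -(∑ j ∈ Finset.range M, cotTerm z j) - 1 / z + 1 / (z + (M : ℂ)))
      atTop (𝓝 (-(π * Complex.cot (π * z) - 1 / z) - 1 / z + 0)) := (h2.neg.sub_const _).add h3
  have h5 : -(π * Complex.cot (π * z) - 1 / z) - 1 / z + 0 = -(π * Complex.cot (π * z)) := by ring
  rw [h5] at h4
  refine h4.congr (fun M => ?_)
  induction M with
  | zero => simp
  | succ M ih =>
    rw [Finset.sum_range_succ, Finset.sum_range_succ, ← ih]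
    have g1 : (n : ℕ) → z - ((n : ℂ) + 1) = -((n : ℂ) + 1 - z) := fun n => by ring
    simp only [cotTerm]
    rw [g1 M, one_div_neg_eq_neg_one_div]
    push_cast
    have g2 : (M : ℂ) + z = z + M := by ring
    have g3 : z + ((M : ℂ) + 1) = z + (M + 1) := by ring
    rw [g2]
    ring

/-- For `0 < re z < 1`: `∫_0^∞ 2 sinh ((2 z - 1) t) / sinh t dt = - π cot (π z)`.

Proof. `1 / sinh t = 2 ∑_{n ≥ 0} exp (-(2 n + 1) t)` for `t > 0`. With `c = 2 z - 1`, `|re c| < 1`,
`∫_0^∞ 4 sinh (c t) exp (-(2 n + 1) t) dt = 2 (1 / (2 n + 1 - c) - 1 / (2 n + 1 + c)) =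
1 / (n + 1 - z) - 1 / (n + z)`. Interchange of sum and integral (`hasSum_integral_of_summable_integral_norm`
or `integral_tsum`): `|sinh (c t)| ≤ |c| t exp (|re c| t)`, so the integral of the norm of the `n`-th
term is at most `4 |c| / (2 n + 1 - |re c|) ^ 2`, summable. Finally
`∑_{n ≥ 0} (1 / (n + 1 - z) - 1 / (n + z)) = - π cot (π z)`: Mathlib has the Mittag-Leffler expansion
`π cot (π z) = 1 / z + ∑_{n ≥ 1} (1 / (z - n) + 1 / (z + n))` (`cot_series_rep` and variants,
`tendsto_logDeriv_euler_cot_sub`, ...) for `z` not an integer; the partial sums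
`∑_{n < M} (1 / (n + 1 - z) - 1 / (n + z))` and `-1 / z - ∑_{1 ≤ n ≤ M} (1 / (z - n) + 1 / (z + n))`
differ by `1 / (z + M)`, which tends to zero. -/
theorem integral_sinh_div_sinh {z : ℂ} (h0 : 0 < z.re) (h1 : z.re < 1) :
    ∫ t in Ioi (0 : ℝ), 2 * Complex.sinh ((2 * z - 1) * t) / Real.sinh t =
      -(π * Complex.cot (π * z)) := by
  have h2 : Tendsto (fun M : ℕ => ∫ t in Ioi (0 : ℝ), ∑ n ∈ Finset.range M,
      4 * Complex.sinh ((2 * z - 1) * t) * Complex.exp (-(2 * n + 1) * t)) atTop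
      (𝓝 (∫ t in Ioi (0 : ℝ), 2 * Complex.sinh ((2 * z - 1) * t) / Real.sinh t)) := by
    refine tendsto_integral_of_dominated_convergence
      (fun t : ℝ => ‖2 * Complex.sinh ((2 * z - 1) * t) / Real.sinh t‖) ?_
      (sinh_div_sinh_integrable h0 h1).norm ?_ ?_
    · intro M
      exact (integrable_finsetSum _ fun n _ => (LSSER_term h0 h1 n).1).aestronglyMeasurable
    · intro M
      refine (ae_restrict_iff' measurableSet_Ioi).2 (Eventually.of_forall fun t ht => ?_)
      have ht' : (0 : ℝ) < t := ht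
      rw [LSSER_geom ht', norm_mul, Complex.norm_real, Real.norm_eq_abs]
      have h3 : |1 - Real.exp (-(2 * M * t))| ≤ 1 := by
        have h4 : 0 < Real.exp (-(2 * M * t)) := Real.exp_pos _
        have h5 : Real.exp (-(2 * M * t)) ≤ 1 := Real.exp_le_one_iff.2 (by
          have : (0 : ℝ) ≤ 2 * M * t := by positivity
          linarith)
        rw [abs_le]
        constructor <;> linarith
      calc _ ≤ ‖2 * Complex.sinh ((2 * z - 1) * t) / Real.sinh t‖ * 1 :=
            mul_le_mul_of_nonneg_left h3 (norm_nonneg _)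
        _ = _ := mul_one _
    · refine (ae_restrict_iff' measurableSet_Ioi).2 (Eventually.of_forall fun t ht => ?_)
      have ht' : (0 : ℝ) < t := ht
      have h3 : Tendsto (fun M : ℕ => (1 - Real.exp (-(2 * M * t)) : ℝ)) atTop (𝓝 (1 - 0)) := by
        refine Tendsto.const_sub _ ?_
        refine Real.tendsto_exp_neg_atTop_nhds_zero.comp ?_
        have h6 : Tendsto (fun M : ℕ => (M : ℝ) * (2 * t)) atTop atTop :=
          tendsto_natCast_atTop_atTop.atTop_mul_const (by linarith)
        refine h6.congr (fun M => by ring)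
      have h4 : Tendsto (fun M : ℕ => 2 * Complex.sinh ((2 * z - 1) * t) / Real.sinh t *
          ((1 - Real.exp (-(2 * M * t)) : ℝ) : ℂ)) atTop
          (𝓝 (2 * Complex.sinh ((2 * z - 1) * t) / Real.sinh t * ((1 - 0 : ℝ) : ℂ))) :=
        (((Complex.continuous_ofReal.tendsto _).comp h3)).const_mul _
      have h5 : 2 * Complex.sinh ((2 * z - 1) * t) / Real.sinh t * ((1 - 0 : ℝ) : ℂ) =
          2 * Complex.sinh ((2 * z - 1) * t) / Real.sinh t := by
        rw [sub_zero, Complex.ofReal_one, mul_one]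
      rw [h5] at h4
      exact h4.congr (fun M => (LSSER_geom ht' M).symm)
  refine tendsto_nhds_unique h2 ?_
  refine (LSSER_sum h0 h1).congr (fun M => ?_)
  rw [integral_finsetSum _ fun n _ => (LSSER_term h0 h1 n).1]
  exact Finset.sum_congr rfl fun n _ => (LSSER_term h0 h1 n).2.symm

end Ghost
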