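import Pool.Agent.Lib_MP_1c78a5_ghost.LsInt
import Pool.Agent.Lib_MP_1c78a5_ghost.LsSer
import Pool.Agent.Lib_MP_1c78a5_ghost.LsDup

/-!
# Piece LSMAIN: the logarithmic sine integral
-/

open Complex MeasureTheory Set Filter Topology
open scoped Real ComplexConjugate

namespace Ghost

/-- `exp (- Phi z) = 2 sin (π z)` for `0 < re z < 1`.

Proof. Let `E z = exp (- Phi z)` on the convex strip `S = {0 < re z < 1}`. By `Phi_hasDerivAt` and
`integral_sinh_div_sinh`, `E' = π cot (π z) E`. On `S` the function `sin (π z)` does not vanish, and the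
derivative of `E z / sin (π z)` is zero, so `E z = C sin (π z)` on `S` with `C ≠ 0` (`E` is an
exponential). `Phi_dup` gives `E (z / 2) E ((z + 1) / 2) = E z`, that is
`C ^ 2 sin (π z / 2) sin (π z / 2 + π / 2) = C sin (π z)`; the left side is
`C ^ 2 sin (π z / 2) cos (π z / 2) = C ^ 2 sin (π z) / 2`. So `C = 2` (take `z = 1 / 2`). -/
theorem exp_neg_Phi {z : ℂ} (h0 : 0 < z.re) (h1 : z.re < 1) :
    Complex.exp (-(Phi z)) = 2 * Complex.sin (π * z) := by
  have hSo : IsOpen {w : ℂ | 0 < w.re ∧ w.re < 1} :=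
    (isOpen_lt continuous_const Complex.continuous_re).inter
      (isOpen_lt Complex.continuous_re continuous_const)
  have hSc : IsPreconnected {w : ℂ | 0 < w.re ∧ w.re < 1} := by
    have h : Convex ℝ {w : ℂ | 0 < w.re ∧ w.re < 1} :=
      (convex_halfSpace_re_gt 0).inter (convex_halfSpace_re_lt 1)
    exact h.isPreconnected
  have hsin : ∀ w : ℂ, 0 < w.re → w.re < 1 → Complex.sin (π * w) ≠ 0 := by
    intro w hw0 hw1 h
    rw [Complex.sin_eq_zero_iff] at h
    obtain ⟨k, hk⟩ := h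
    have hpi : (π : ℂ) ≠ 0 := by exact_mod_cast Real.pi_ne_zero
    have h2 : w = (k : ℂ) := by
      have : (π : ℂ) * w = π * k := by rw [hk]; ring
      exact mul_left_cancel₀ hpi this
    have h3 : w.re = (k : ℝ) := by rw [h2]; simp
    rw [h3] at hw0 hw1
    have h4 : 0 < k := by exact_mod_cast hw0
    have h5 : k < 1 := by exact_mod_cast hw1
    omega
  have hF : ∀ w : ℂ, 0 < w.re → w.re < 1 →
      HasDerivAt (fun w : ℂ => Complex.exp (-(Phi w)) / Complex.sin (π * w)) 0 w := by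
    intro w hw0 hw1
    have hs := hsin w hw0 hw1
    have hP := Phi_hasDerivAt hw0 hw1
    rw [integral_sinh_div_sinh hw0 hw1] at hP
    have h2 : HasDerivAt (fun w : ℂ => Complex.exp (-(Phi w)))
        (Complex.exp (-(Phi w)) * -(-(π * Complex.cot (π * w)))) w := hP.neg.cexp
    have h3 : HasDerivAt (fun w : ℂ => Complex.sin (π * w)) (Complex.cos (π * w) * (π * 1)) w :=
      ((hasDerivAt_id w).const_mul (π : ℂ)).csin
    have h4 : HasDerivAt (fun w : ℂ => Complex.exp (-(Phi w)) / Complex.sin (π * w))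
        ((Complex.exp (-(Phi w)) * -(-(π * Complex.cot (π * w))) * Complex.sin (π * w) -
          Complex.exp (-(Phi w)) * (Complex.cos (π * w) * (π * 1))) / Complex.sin (π * w) ^ 2) w :=
      h2.div h3 hs
    have h5 : (Complex.exp (-(Phi w)) * -(-(π * Complex.cot (π * w))) * Complex.sin (π * w) -
          Complex.exp (-(Phi w)) * (Complex.cos (π * w) * (π * 1))) / Complex.sin (π * w) ^ 2 = 0 := by
      have h6 : Complex.cot (π * w) * Complex.sin (π * w) = Complex.cos (π * w) := by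
        rw [Complex.cot_eq_cos_div_sin]
        field_simp
      have h7 : Complex.exp (-(Phi w)) * -(-(π * Complex.cot (π * w))) * Complex.sin (π * w) -
          Complex.exp (-(Phi w)) * (Complex.cos (π * w) * (π * 1)) = 0 := by
        linear_combination Complex.exp (-(Phi w)) * π * h6
      rw [h7, zero_div]
    rw [h5] at h4
    exact h4
  have hconst : ∀ w : ℂ, 0 < w.re → w.re < 1 →
      Complex.exp (-(Phi w)) / Complex.sin (π * w) =
        Complex.exp (-(Phi (1 / 2))) / Complex.sin (π * (1 / 2)) := by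
    intro w hw0 hw1
    have h12 : (1 / 2 : ℂ) ∈ {w : ℂ | 0 < w.re ∧ w.re < 1} := by
      constructor <;> norm_num
    exact IsOpen.is_const_of_deriv_eq_zero hSo hSc
      (f := fun w : ℂ => Complex.exp (-(Phi w)) / Complex.sin (π * w))
      (fun u hu => (hF u hu.1 hu.2).differentiableAt.differentiableWithinAt)
      (fun u hu => (hF u hu.1 hu.2).deriv) (show w ∈ {w : ℂ | 0 < w.re ∧ w.re < 1} from ⟨hw0, hw1⟩) h12
  set C : ℂ := Complex.exp (-(Phi (1 / 2))) / Complex.sin (π * (1 / 2)) with hC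
  have hval : ∀ w : ℂ, 0 < w.re → w.re < 1 →
      Complex.exp (-(Phi w)) = C * Complex.sin (π * w) := by
    intro w hw0 hw1
    have := hconst w hw0 hw1
    rw [div_eq_iff (hsin w hw0 hw1)] at this
    exact this
  have hhalf : (π : ℂ) * (1 / 2) = ((π / 2 : ℝ) : ℂ) := by push_cast; ring
  have hsinhalf : Complex.sin (π * (1 / 2)) = 1 := by
    rw [hhalf, ← Complex.ofReal_sin, Real.sin_pi_div_two]; simp
  have hCne : C ≠ 0 := by
    rw [hC, hsinhalf, div_one]
    exact Complex.exp_ne_zero _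
  have hdup := Phi_dup (z := 1 / 2) (by norm_num) (by norm_num)
  have h14 : 0 < ((1 / 2 : ℂ) / 2).re := by norm_num
  have h14' : ((1 / 2 : ℂ) / 2).re < 1 := by norm_num
  have h34 : 0 < (((1 / 2 : ℂ) + 1) / 2).re := by norm_num
  have h34' : (((1 / 2 : ℂ) + 1) / 2).re < 1 := by norm_num
  have e1 := hval _ h14 h14'
  have e2 := hval _ h34 h34'
  have e3 := hval (1 / 2) (by norm_num) (by norm_num)
  have e4 : Complex.exp (-(Phi ((1 / 2 : ℂ) / 2))) * Complex.exp (-(Phi (((1 / 2 : ℂ) + 1) / 2))) =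
      Complex.exp (-(Phi (1 / 2))) := by
    rw [← Complex.exp_add, ← hdup]
    congr 1
    ring
  rw [e1, e2, e3, hsinhalf] at e4
  have s1 : (π : ℂ) * ((1 / 2 : ℂ) / 2) = ((π / 4 : ℝ) : ℂ) := by push_cast; ring
  have s2 : (π : ℂ) * (((1 / 2 : ℂ) + 1) / 2) = ((π / 4 + π / 2 : ℝ) : ℂ) := by push_cast; ring
  rw [s1, s2, ← Complex.ofReal_sin, ← Complex.ofReal_sin, Real.sin_add_pi_div_two,
    Real.sin_pi_div_four, Real.cos_pi_div_four] at e4
  have h2 : ((√2 / 2 : ℝ) : ℂ) * ((√2 / 2 : ℝ) : ℂ) = 1 / 2 := by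
    rw [← Complex.ofReal_mul]
    have : (√2 / 2 : ℝ) * (√2 / 2) = 1 / 2 := by
      have := Real.mul_self_sqrt (show (0 : ℝ) ≤ 2 by norm_num)
      nlinarith
    rw [this]
    norm_num
  have hC2 : C = 2 := by
    have h5 : C * C * (1 / 2) = C := by
      calc C * C * (1 / 2) = C * ((√2 / 2 : ℝ) : ℂ) * (C * ((√2 / 2 : ℝ) : ℂ)) := by
            rw [← h2]; ring
        _ = C * 1 := e4
        _ = C := by ring
    have h6 : C * (C - 2) = 0 := by linear_combination 2 * h5
    rcases mul_eq_zero.1 h6 with h | h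
    · exact absurd h hCne
    · exact sub_eq_zero.1 h
  rw [hval z h0 h1, hC2]

end Ghost
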