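import Pool.Agent.Lib_MP_1c78a5_ghost.RPer

/-!
# Piece RNEG: the product `R (N, j) R (- N, - j) = 1`
-/

open Complex MeasureTheory Set Filter Topology
open scoped Real ComplexConjugate

namespace Ghost


theorem RNEG_sin (x : ℂ) (M : ℤ) :
    Complex.sin (x + (M : ℂ) * π) = (-1) ^ M * Complex.sin x :=
  M.cast_negOnePow ℂ ▸ Complex.sin_antiperiodic.add_int_mul_eq M

theorem RNEG_sb_ne (P : Par) {x : ℝ} (hx : ∀ m n : ℤ, x ≠ m * P.b + n * P.o) : sb P x ≠ 0 := by
  intro h0
  have h1 : Complex.sin (π * P.b * x) = 0 := by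
    unfold sb at h0
    exact (mul_eq_zero.1 h0).resolve_left (by norm_num)
  obtain ⟨k, hk⟩ := Complex.sin_eq_zero_iff.1 h1
  have h1' : Real.pi * P.b * x = k * Real.pi := by exact_mod_cast hk
  have h2 : P.b * x = k := by
    apply mul_left_cancel₀ Real.pi_ne_zero
    linarith
  apply hx 0 k
  have h3 := P.hbo
  push_cast
  linear_combination P.o * h2 - x * h3

theorem RNEG_so_ne (P : Par) {x : ℝ} (hx : ∀ m n : ℤ, x ≠ m * P.b + n * P.o) : so P x ≠ 0 := by
  intro h0
  have h1 : Complex.sin (π * P.o * x) = 0 := by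
    unfold so at h0
    exact (mul_eq_zero.1 h0).resolve_left (by norm_num)
  obtain ⟨k, hk⟩ := Complex.sin_eq_zero_iff.1 h1
  have h1' : Real.pi * P.o * x = k * Real.pi := by exact_mod_cast hk
  have h2 : P.o * x = k := by
    apply mul_left_cancel₀ Real.pi_ne_zero
    linarith
  apply hx k 0
  have h3 := P.hbo
  push_cast
  linear_combination P.b * h2 - x * h3

theorem RNEG_GQ (P : Par) (hbo : P.o < P.b) {x : ℝ} (hx : ∀ m n : ℤ, x ≠ m * P.b + n * P.o) :
    G P ((P.Q : ℂ) + x) = -(so P x * sb P x) * G P x := by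
  have h1 : ¬ Pole P ((x : ℂ) + P.b) := not_pole_shift P hx 1 0 (Or.inl (by push_cast; ring))
  have h0 : ¬ Pole P (x : ℂ) := not_pole_shift P hx 0 0 (Or.inl (by push_cast; ring))
  have e : (P.Q : ℂ) + x = ((x : ℂ) + P.b) + P.o := by
    unfold Par.Q
    push_cast
    ring
  rw [e, G_add_o P hbo h1, G_add_b P h0, GEXTO_so_b]
  ring

/-- `R (N, j) R (- N, - j) = 1`.

Proof. For `(- N, - j)` the numbers `p`, `r`, `η` change their signs, so by `Rr_eq` the left side is the
product of `A = G (p + b) G (b - p)`, `B = G r G (- r)` and `C = G (Q - η) G (Q + η)` (the signs cancel).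
By `G_add_b`, `G_add_o`, `G_reflect` (all pole conditions by `not_lattice` and `not_pole_shift`):
`G (p + b) = sb p G p`, `G (b - p) G (o + p) = 1`, `G (o + p) = so p G p`, so `so p A = sb p`;
`G (- r) G (Q + r) = 1`, `G (Q + r) = so (r + b) G (r + b) = - so r sb r G r` (`so (r + b) = - so r` as
`b o = 1`), so `- so r sb r B = 1`;
`G η G (Q - η) = 1`, `G (Q + η) = - so η sb η G η`, so `C = - so η sb η`.
Finally `sb p = (-1) ^ N so r` (`b_pJ`), `sb η = - (-1) ^ (j - N) so p` (`b_etaJ`),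
`so η = - (-1) ^ j sb r` (`o_etaJ`), and `so p`, `so r`, `sb r` are not zero (their zeros are in the lattice). -/
theorem Rr_neg {P : Par} {d : ℕ} (hU : P.IsUnit d) {N j : ℤ} (h : ¬ Sing d N j) :
    Rr P d N j * Rr P d (-N) (-j) = 1 := by
  have hbo : P.o < P.b := by
    have h1 := P.hbo
    have h2 := hU.hub
    have h3 := P.ho
    nlinarith
  have hQ : (P.Q : ℂ) = P.b + P.o := by
    unfold Par.Q
    push_cast
    ring
  have L := not_lattice hU h
  have Lp : ∀ m n : ℤ, pJ P d N j ≠ m * P.b + n * P.o := fun m n => (L m n).1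
  have Lr : ∀ m n : ℤ, rJ P d N j ≠ m * P.b + n * P.o := fun m n => (L m n).2.1
  have Le : ∀ m n : ℤ, etaJ P d N j ≠ m * P.b + n * P.o := fun m n => (L m n).2.2
  have ep : pJ P d (-N) (-j) = -pJ P d N j := by
    unfold pJ
    push_cast
    ring
  have er : rJ P d (-N) (-j) = -rJ P d N j := by
    unfold rJ
    push_cast
    ring
  have ee : etaJ P d (-N) (-j) = -etaJ P d N j := by
    unfold etaJ
    push_cast
    ring
  have b1 : (P.b : ℂ) * (etaJ P d N j : ℂ) = j - N - P.o * (pJ P d N j : ℂ) := by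
    exact_mod_cast b_etaJ hU N j
  have b2 : (P.o : ℂ) * (etaJ P d N j : ℂ) = j - P.b * (rJ P d N j : ℂ) := by
    exact_mod_cast o_etaJ hU N j
  have b3 : (P.b : ℂ) * (pJ P d N j : ℂ) = P.o * (rJ P d N j : ℂ) - N := by
    exact_mod_cast b_pJ hU N j
  rw [Rr_eq hU, Rr_eq hU, ep, er, ee]
  generalize pJ P d N j = p at *
  generalize rJ P d N j = r at *
  generalize etaJ P d N j = η at *
  push_cast
  -- the three products
  have pA : so P p * (G P ((p : ℂ) + P.b) * G P (-(p : ℂ) + P.b)) = sb P p := by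
    have h0 : ¬ Pole P (p : ℂ) := not_pole_shift P Lp 0 0 (Or.inl (by push_cast; ring))
    have h1 : ¬ Pole P (-(p : ℂ) + P.b) := not_pole_shift P Lp 1 0 (Or.inr (by push_cast; ring))
    have h2 : ¬ Pole P ((P.Q : ℂ) - (-(p : ℂ) + P.b)) :=
      not_pole_shift P Lp 0 1 (Or.inl (by rw [hQ]; push_cast; ring))
    have k1 := G_reflect P hbo h1 h2
    have k2 : (P.Q : ℂ) - (-(p : ℂ) + P.b) = (p : ℂ) + P.o := by rw [hQ]; ring
    rw [k2, G_add_o P hbo h0] at k1
    rw [G_add_b P h0]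
    linear_combination sb P p * k1
  have pB : -(so P r * sb P r) * (G P r * G P (-(r : ℂ))) = 1 := by
    have h1 : ¬ Pole P (-(r : ℂ)) := not_pole_shift P Lr 0 0 (Or.inr (by push_cast; ring))
    have h2 : ¬ Pole P ((P.Q : ℂ) - -(r : ℂ)) :=
      not_pole_shift P Lr 1 1 (Or.inl (by rw [hQ]; push_cast; ring))
    have k1 := G_reflect P hbo h1 h2
    rw [sub_neg_eq_add, RNEG_GQ P hbo Lr] at k1
    linear_combination k1
  have pC : G P ((P.Q : ℂ) - η) * G P ((P.Q : ℂ) - -(η : ℂ)) = -(so P η * sb P η) := by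
    have h1 : ¬ Pole P (η : ℂ) := not_pole_shift P Le 0 0 (Or.inl (by push_cast; ring))
    have h2 : ¬ Pole P ((P.Q : ℂ) - (η : ℂ)) :=
      not_pole_shift P Le 1 1 (Or.inr (by rw [hQ]; push_cast; ring))
    have k1 := G_reflect P hbo h1 h2
    rw [sub_neg_eq_add, RNEG_GQ P hbo Le]
    linear_combination -(so P η * sb P η) * k1
  -- the sines
  have s1 : sb P p = (-1) ^ (-N) * so P r := by
    unfold sb so
    have e : (π : ℂ) * P.b * p = π * P.o * r + ((-N : ℤ) : ℂ) * π := by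
      push_cast
      linear_combination (π : ℂ) * b3
    rw [e, RNEG_sin]
    ring
  have s2 : sb P η = -((-1) ^ (j - N) * so P p) := by
    unfold sb so
    have e : (π : ℂ) * P.b * η = -(π * P.o * p) + ((j - N : ℤ) : ℂ) * π := by
      push_cast
      linear_combination (π : ℂ) * b1
    rw [e, RNEG_sin, Complex.sin_neg]
    ring
  have s3 : so P η = -((-1) ^ j * sb P r) := by
    unfold sb so
    have e : (π : ℂ) * P.o * η = -(π * P.b * r) + (j : ℂ) * π := by
      linear_combination (π : ℂ) * b2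
    rw [e, RNEG_sin, Complex.sin_neg]
    ring
  have n1 := RNEG_so_ne P Lp
  have n2 := RNEG_so_ne P Lr
  have n3 := RNEG_sb_ne P Lr
  have m1 : ((-1 : ℂ)) ^ N * (-1) ^ (-N) = 1 := by
    rw [← zpow_add₀ (by norm_num), add_neg_cancel, zpow_zero]
  have m2 : ((-1 : ℂ)) ^ (-N) * ((-1) ^ (j - N) * (-1) ^ j) = 1 := by
    rw [← zpow_add₀ (by norm_num), ← zpow_add₀ (by norm_num)]
    have : -N + (j - N + j) = 2 * (j - N) := by ring
    rw [this, zpow_mul]
    norm_num
  have key : so P p * -(so P r * sb P r) ≠ 0 :=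
    mul_ne_zero n1 (neg_ne_zero.2 (mul_ne_zero n2 n3))
  apply mul_left_cancel₀ key
  rw [mul_one]
  calc so P p * -(so P r * sb P r) *
        ((-1) ^ N * (G P ((p : ℂ) + P.b) * G P r * G P ((P.Q : ℂ) - η)) *
          ((-1) ^ (-N) * (G P (-(p : ℂ) + P.b) * G P (-(r : ℂ)) * G P ((P.Q : ℂ) - -(η : ℂ)))))
      = ((-1) ^ N * (-1) ^ (-N)) * (so P p * (G P ((p : ℂ) + P.b) * G P (-(p : ℂ) + P.b))) *
          (-(so P r * sb P r) * (G P r * G P (-(r : ℂ)))) *
          (G P ((P.Q : ℂ) - η) * G P ((P.Q : ℂ) - -(η : ℂ))) := by ring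
    _ = sb P p * -(so P η * sb P η) := by rw [pA, pB, pC, m1]; ring
    _ = (((-1 : ℂ)) ^ (-N) * ((-1) ^ (j - N) * (-1) ^ j)) * (so P p * -(so P r * sb P r)) := by
        rw [s1, s2, s3]; ring
    _ = so P p * -(so P r * sb P r) := by rw [m2, one_mul]

end Ghost
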