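import Pool.Agent.Lib_MP_1c78a5_ghost.RBase
import Pool.Agent.Lib_MP_1c78a5_ghost.GExtO

/-!
# Piece RPER: quasi-periodicity of the values `Rr N j`
-/

open Complex MeasureTheory Set Filter Topology
open scoped Real ComplexConjugate

namespace Ghost

/-- `b η = j - N - o p` (real numbers at the lattice point). -/
theorem b_etaJ {P : Par} {d : ℕ} (hU : P.IsUnit d) (N j : ℤ) :
    P.b * etaJ P d N j = j - N - P.o * pJ P d N j := by
  have hd := d_pos hU
  unfold etaJ pJ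
  have h5 : P.Q = P.b + P.o := rfl
  field_simp
  rw [h5]
  linear_combination (j - N) * hU.rel + (j - N) * P.hbo

/-- `o η = j - b r`. -/
theorem o_etaJ {P : Par} {d : ℕ} (hU : P.IsUnit d) (N j : ℤ) :
    P.o * etaJ P d N j = j - P.b * rJ P d N j := by
  have hd := d_pos hU
  unfold etaJ rJ
  have h5 : P.Q = P.b + P.o := rfl
  field_simp
  rw [h5]
  linear_combination j * hU.rel + j * P.hbo

/-- `b p = o r - N`. -/
theorem b_pJ {P : Par} {d : ℕ} (hU : P.IsUnit d) (N j : ℤ) :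
    P.b * pJ P d N j = P.o * rJ P d N j - N := by
  have hd := d_pos hU
  unfold pJ rJ
  have h5 : P.Q = P.b + P.o := rfl
  field_simp
  rw [h5]
  linear_combination (-N) * hU.rel - N * P.hbo

/-- `R (N, j + d) = (-1) ^ N R (N, j)`.

Proof. `η_{j + d} = η_j + Q`. By `star` at `η = η_j` (the pole conditions hold by `not_lattice` and
`not_pole_shift`), `R_N η - (-1) ^ N R_N (η + Q) = - 2 sin (π ζ) h_N η`, and `ζ (η_j) = j` is an integer, so the
sine is zero; multiply by `(-1) ^ N`. -/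
theorem RPERT_sin (x : ℂ) (M : ℤ) :
    Complex.sin (x + (M : ℂ) * π) = (-1) ^ M * Complex.sin x :=
  M.cast_negOnePow ℂ ▸ Complex.sin_antiperiodic.add_int_mul_eq M

theorem Rr_add_j {P : Par} {d : ℕ} (hU : P.IsUnit d) {N j : ℤ} (h : ¬ Sing d N j) :
    Rr P d N (j + d) = (-1) ^ N * Rr P d N j := by
  have L := not_lattice hU h
  have hbo := o_lt_b hU
  have hd : (d : ℂ) ≠ 0 := by exact_mod_cast (d_pos hU).ne'
  have hQ : (P.Q : ℂ) ≠ 0 := by exact_mod_cast (Q_pos P).ne'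
  have he : ((etaJ P d N (j + d) : ℝ) : ℂ) = (etaJ P d N j : ℂ) + P.Q := by
    unfold etaJ
    push_cast
    field_simp
    ring
  have hz : zetaN P d N (etaJ P d N j) = j := by
    unfold zetaN etaJ
    push_cast
    field_simp
    ring
  have h1 : ¬ Pole P (pN P N (etaJ P d N j) + P.b) := by
    rw [pN_etaJ hU]
    exact not_pole_shift P (fun m n => (L m n).1) 1 0 (Or.inl (by push_cast; ring))
  have h2 : ¬ Pole P (rN P N (etaJ P d N j)) := by
    rw [rN_etaJ hU]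
    exact not_pole_shift P (fun m n => (L m n).2.1) 0 0 (Or.inl (by push_cast; ring))
  have h3 : ¬ Pole P (-(etaJ P d N j : ℂ)) :=
    not_pole_shift P (fun m n => (L m n).2.2) 0 0 (Or.inr (by push_cast; ring))
  have h4 : ¬ Pole P (P.b - (etaJ P d N j : ℂ)) :=
    not_pole_shift P (fun m n => (L m n).2.2) 1 0 (Or.inr (by push_cast; ring))
  have hs := star hU hbo N h1 h2 h3 h4
  have hsin : Complex.sin (π * zetaN P d N (etaJ P d N j)) = 0 := by
    rw [hz, mul_comm]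
    exact Complex.sin_int_mul_pi j
  rw [hsin] at hs
  unfold Rr
  rw [he]
  have h5 : RN P N (etaJ P d N j) = (-1) ^ N * RN P N ((etaJ P d N j : ℂ) + P.Q) := by
    linear_combination hs
  rw [h5, ← mul_assoc, ← zpow_add₀ (by norm_num), ← two_mul, zpow_mul]
  norm_num

/-- `R (N + d, j) = (-1) ^ j R (N, j)`.

Proof. When `N` is replaced by `N + d` the numbers `p`, `r`, `η` become `p - Q`, `r + o`, `η - b`
(`rel`, `Q_sq`). By `Rr_eq` the left side is
`(-1) ^ (N + d) G (p - o) G (r + o) G (Q - η + b)` (`p - Q + b = p - o`). By `G_add_b`, `G_add_o`,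
`G (p + b) = sb p G p`, `G p = so (p - o) G (p - o)`, `G (r + o) = so r G r`,
`G (Q - η + b) = sb (Q - η) G (Q - η)`; so
`sb p so (p - o) (left side) = (-1) ^ d so r sb (Q - η) R (N, j)` and it suffices that
`(-1) ^ d so r sb (Q - η) = (-1) ^ j sb p so (p - o)` (`sb p ≠ 0`, `so (p - o) ≠ 0`: a zero of `sb` is in `ℤ o`
and a zero of `so` is in `ℤ b`). Here `sb p = 2 sin (π b p) = (-1) ^ N so r` by `b_pJ`, and
`b (Q - η) = b ^ 2 + 1 - b η = (b ^ 2 + 1 - j + N) + o p = (d - j + N) + o (p - o)` by `b_etaJ` and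
`b ^ 2 = d - 1 - o ^ 2`, so `sb (Q - η) = (-1) ^ (d - j + N) so (p - o)`. -/
theorem Rr_add_N {P : Par} {d : ℕ} (hU : P.IsUnit d) {N j : ℤ} (h : ¬ Sing d N j) :
    Rr P d (N + d) j = (-1) ^ j * Rr P d N j := by
  have L := not_lattice hU h
  have hbo := o_lt_b hU
  have hd0 := d_pos hU
  have hd : (d : ℂ) ≠ 0 := by exact_mod_cast (d_pos hU).ne'
  have hQ2 := Q_sq hU
  have hQe : P.Q = P.b + P.o := rfl
  have hbo1 := P.hbo
  have hrel := hU.rel
  obtain ⟨p, hp⟩ : ∃ p : ℝ, p = pJ P d N j := ⟨_, rfl⟩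
  obtain ⟨r, hr⟩ : ∃ r : ℝ, r = rJ P d N j := ⟨_, rfl⟩
  obtain ⟨η, hη⟩ : ∃ η : ℝ, η = etaJ P d N j := ⟨_, rfl⟩
  have Lp : ∀ m n : ℤ, p ≠ m * P.b + n * P.o := fun m n => hp ▸ (L m n).1
  have Lr : ∀ m n : ℤ, r ≠ m * P.b + n * P.o := fun m n => hr ▸ (L m n).2.1
  have Le : ∀ m n : ℤ, η ≠ m * P.b + n * P.o := fun m n => hη ▸ (L m n).2.2
  have hp' : pJ P d (N + d) j = p - P.Q := by
    rw [hp]
    unfold pJ
    push_cast
    field_simp
    ring
  have hr' : rJ P d (N + d) j = r + P.o := by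
    rw [hr]
    unfold rJ
    push_cast
    field_simp
    ring
  have hη' : etaJ P d (N + d) j = η - P.b := by
    rw [hη]
    unfold etaJ
    push_cast
    field_simp
    ring
  rw [Rr_eq hU, Rr_eq hU, hp', hr', hη', ← hp, ← hr, ← hη]
  push_cast
  have hQc : (P.Q : ℂ) = P.b + P.o := by rw [hQe]; push_cast; ring
  -- the four functional equations
  have q1 : G P ((p : ℂ) + P.b) = sb P p * G P p :=
    G_add_b P (not_pole_shift P Lp 0 0 (Or.inl (by push_cast; ring)))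
  have q2 : G P (p : ℂ) = so P ((p : ℂ) - P.o) * G P ((p : ℂ) - P.o) := by
    have h1 := G_add_o P hbo (x := (p : ℂ) - P.o)
      (not_pole_shift P Lp 0 (-1) (Or.inl (by push_cast; ring)))
    rwa [sub_add_cancel] at h1
  have q3 : G P ((r : ℂ) + P.o) = so P r * G P r :=
    G_add_o P hbo (not_pole_shift P Lr 0 0 (Or.inl (by push_cast; ring)))
  have q4 : G P ((P.Q : ℂ) - (η - P.b)) = sb P ((P.Q : ℂ) - η) * G P ((P.Q : ℂ) - η) := by
    have h1 := G_add_b P (x := (P.Q : ℂ) - η)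
      (not_pole_shift P Le 1 1 (Or.inr (by rw [hQc]; push_cast; ring)))
    rw [← h1]
    congr 1
    ring
  have q5 : (p : ℂ) - P.Q + P.b = (p : ℂ) - P.o := by rw [hQc]; ring
  -- the sines
  have hbp := b_pJ hU N j
  have hbe := b_etaJ hU N j
  rw [← hp, ← hr] at hbp
  rw [← hp, ← hη] at hbe
  have s1 : sb P p = (-1) ^ N * so P r := by
    unfold sb so
    have h1 : (π : ℂ) * P.b * p = π * P.o * r + ((-N : ℤ) : ℂ) * π := by
      have h2 : ((P.b * p : ℝ) : ℂ) = ((P.o * r - N : ℝ) : ℂ) := by rw [hbp]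
      push_cast at h2 ⊢
      linear_combination (π : ℂ) * h2
    rw [h1, RPERT_sin, zpow_neg, ← inv_zpow]
    norm_num
    ring
  have s2 : sb P ((P.Q : ℂ) - η) = (-1) ^ ((d : ℤ) - j + N) * so P ((p : ℂ) - P.o) := by
    unfold sb so
    have h1 : (π : ℂ) * P.b * (P.Q - η) = π * P.o * (p - P.o) + (((d : ℤ) - j + N : ℤ) : ℂ) * π := by
      have h2 : P.b * (P.Q - η) = P.o * (p - P.o) + ((d : ℝ) - j + N) := by
        rw [hQe]
        linear_combination -hbe + hrel + hbo1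
      have h3 : ((P.b * (P.Q - η) : ℝ) : ℂ) = ((P.o * (p - P.o) + ((d : ℝ) - j + N) : ℝ) : ℂ) := by
        rw [h2]
      push_cast at h3 ⊢
      linear_combination (π : ℂ) * h3
    rw [h1, RPERT_sin]
    ring
  have e1 : (-1 : ℂ) ^ (N + (d : ℤ)) * (-1) ^ ((d : ℤ) - j + N) = (-1) ^ j := by
    rw [← zpow_add₀ (by norm_num)]
    have h1 : N + (d : ℤ) + ((d : ℤ) - j + N) = 2 * (N + d - j) + j := by ring
    rw [h1, zpow_add₀ (by norm_num), zpow_mul]
    norm_num
  have e2 : (-1 : ℂ) ^ N * (-1) ^ N = 1 := by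
    rw [← zpow_add₀ (by norm_num), ← two_mul, zpow_mul]
    norm_num
  rw [q5, q3, q4, q1, q2, s1, s2]
  linear_combination (so P r * G P r * so P ((p : ℂ) - P.o) * G P ((p : ℂ) - P.o) *
    G P ((P.Q : ℂ) - η)) * (e1 - (-1) ^ j * e2)

end Ghost
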