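import Pool.Agent.Lib_MP_1c78a5_ghost.Dio

/-!
# Piece UNITP: the parameters for every dimension
-/

open Complex Set
open scoped Real ComplexConjugate

namespace Ghost

/-- The quadratic unit `ε = (d - 1 + √((d + 1) (d - 3))) / 2`. -/
noncomputable def epsd (d : ℕ) : ℝ := ((d : ℝ) - 1 + Real.sqrt (((d : ℝ) + 1) * ((d : ℝ) - 3))) / 2

theorem epsd_pos {d : ℕ} (hd : 4 ≤ d) : 1 < epsd d := by
  have h : (4 : ℝ) ≤ d := by exact_mod_cast hd
  have h1 : 0 ≤ Real.sqrt (((d : ℝ) + 1) * ((d : ℝ) - 3)) := Real.sqrt_nonneg _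
  unfold epsd
  linarith

theorem epsd_rel {d : ℕ} (hd : 4 ≤ d) : epsd d ^ 2 - ((d : ℝ) - 1) * epsd d + 1 = 0 := by
  have h : (4 : ℝ) ≤ d := by exact_mod_cast hd
  have h1 : Real.sqrt (((d : ℝ) + 1) * ((d : ℝ) - 3)) ^ 2 = ((d : ℝ) + 1) * ((d : ℝ) - 3) :=
    Real.sq_sqrt (by nlinarith)
  unfold epsd
  linear_combination h1 / 4

/-- The parameters: `b = √ε`, `o = 1 / √ε`. -/
noncomputable def parD (d : ℕ) (hd : 4 ≤ d) : Par where
  b := Real.sqrt (epsd d)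
  o := (Real.sqrt (epsd d))⁻¹
  hb := Real.sqrt_pos.2 (lt_trans one_pos (epsd_pos hd))
  ho := inv_pos.2 (Real.sqrt_pos.2 (lt_trans one_pos (epsd_pos hd)))
  hbo := mul_inv_cancel₀ (Real.sqrt_pos.2 (lt_trans one_pos (epsd_pos hd))).ne'

theorem parD_isUnit (d : ℕ) (hd : 4 ≤ d) : (parD d hd).IsUnit d := by
  have h0 := epsd_pos hd
  have h1 := epsd_rel hd
  have h2 : Real.sqrt (epsd d) ^ 2 = epsd d := Real.sq_sqrt (by linarith)
  refine ⟨hd, ?_, ?_⟩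
  · show 1 < Real.sqrt (epsd d)
    rw [Real.lt_sqrt (by norm_num)]
    simpa using h0
  · show Real.sqrt (epsd d) ^ 2 + (Real.sqrt (epsd d))⁻¹ ^ 2 = (d : ℝ) - 1
    rw [inv_pow, h2]
    have h3 : epsd d ≠ 0 := by linarith
    field_simp
    linear_combination h1

end Ghost
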