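import Pool.Agent.Lib_MP_1c78a5_ghost.GBd
import Pool.Agent.Lib_MP_1c78a5_ghost.CVert
import Pool.Agent.Lib_MP_1c78a5_ghost.CPar

/-!
# Piece VBD: the functions `V` and `W`, convergence
-/

open Complex MeasureTheory Set Filter Topology
open scoped Real ComplexConjugate

namespace Ghost

theorem m_pos {P : Par} {d : ℕ} (hU : P.IsUnit d) : 0 < P.m := by
  have h1 := o_lt_b hU
  have h2 : 0 < P.Q := add_pos P.hb P.ho
  exact div_pos (sub_pos.2 h1) h2

theorem m_lt_one (P : Par) : P.m < 1 := by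
  have h2 : 0 < P.Q := add_pos P.hb P.ho
  unfold Par.m
  rw [div_lt_one h2]
  unfold Par.a Par.Q
  linarith [P.ho]

/-- `V z`. -/
noncomputable def VV (P : Par) (z : ℂ) : ℂ := -I * LInt (Vf P 1 z) P.o 1

/-- `W z`. -/
noncomputable def WW (P : Par) (z : ℂ) : ℂ := -I * LInt (Vf P (-1) z) P.o 1

theorem norm_e (x : ℂ) : ‖e x‖ = Real.exp (-(2 * π * x.im)) := by
  unfold e
  rw [Complex.norm_exp]
  congr 1
  simp [Complex.mul_re, Complex.mul_im]

/-- `im (s m / 4 X ^ 2) = s m / 2 re X im X`. -/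
theorem norm_e_quad (P : Par) (s : ℝ) (z X : ℂ) : ‖e (s * P.m / 4 * X ^ 2 + z * X)‖ =
    Real.exp (-(π * s * P.m * X.re * X.im) - 2 * π * (z.re * X.im + z.im * X.re)) := by
  rw [norm_e]
  congr 1
  have h1 : ((s : ℂ) * P.m / 4 * X ^ 2 + z * X).im =
      s * P.m / 4 * (2 * X.re * X.im) + (z.re * X.im + z.im * X.re) := by
    have h4 : ((s : ℂ) * P.m / 4 * X ^ 2 + z * X) = ((s * P.m / 4 : ℝ) : ℂ) * X ^ 2 + z * X := by
      push_cast
      ring
    rw [h4, Complex.add_im, Complex.im_ofReal_mul]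
    simp only [pow_two, Complex.mul_im]
    ring
  rw [h1]
  ring

theorem VBD_norm_e_quad0 (P : Par) (s : ℝ) (X : ℂ) : ‖e (s * P.m / 4 * X ^ 2)‖ =
    Real.exp (-(π * s * P.m * X.re * X.im)) := by
  have h := norm_e_quad P s 0 X
  rw [zero_mul, add_zero] at h
  rw [h]
  congr 1
  simp

/-- Bound on the horizontal ends. By `G_bound` and `norm_e_quad` (with `z = 0`) the left sides are at most
`C exp (π T (x - Q / 2) ∓ π s m x T)`, and both `1 - s m` and `1 + s m` are at least `1 - m`; for `x ≤ σ`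
the remaining factor `exp (π T (m ± s m) x)` is bounded. -/
theorem Vf_base_bound {P : Par} {d : ℕ} (hU : P.IsUnit d) {s : ℝ} (hs : s = 1 ∨ s = -1)
    {σ T : ℝ} (hT : 0 < T) : ∃ A : ℝ, 0 < A ∧ ∀ x : ℝ, x ≤ σ →
      ‖G P ((x : ℂ) - T * I) * e (s * P.m / 4 * ((x : ℂ) - T * I) ^ 2)‖ ≤
        A * Real.exp (π * T * (1 - P.m) * x) ∧
      ‖G P ((x : ℂ) + T * I) * e (s * P.m / 4 * ((x : ℂ) + T * I) ^ 2)‖ ≤
        A * Real.exp (π * T * (1 - P.m) * x) := by
  obtain ⟨C, hC, hG⟩ := G_bound hU hT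
  have hm := m_pos hU
  have hQ : 0 < P.Q := add_pos P.hb P.ho
  have hpi := Real.pi_pos
  have hpT : 0 < π * T := mul_pos hpi hT
  refine ⟨C * Real.exp (π * T * (2 * P.m * |σ|)), mul_pos hC (Real.exp_pos _), ?_⟩
  intro x hx
  have key : ∀ X : ℂ, X.re = x → ∀ ε : ℝ, (ε = 1 ∨ ε = -1) → X.im = ε * T →
      ‖G P X * e (s * P.m / 4 * X ^ 2)‖ ≤
        C * Real.exp (π * T * (2 * P.m * |σ|)) * Real.exp (π * T * (1 - P.m) * x) := by
    intro X hre ε hε him
    have habs : |X.im| = T := by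
      rw [him, abs_mul, abs_of_pos hT]
      rcases hε with h | h <;> simp [h]
    have h1 := hG X (by rw [habs])
    rw [habs, hre] at h1
    rw [norm_mul, VBD_norm_e_quad0, hre, him, mul_assoc C, ← Real.exp_add]
    have h2 : ‖G P X‖ * Real.exp (-(π * s * P.m * x * (ε * T))) ≤
        C * Real.exp (π * T * (x - P.Q / 2)) * Real.exp (-(π * s * P.m * x * (ε * T))) :=
      mul_le_mul_of_nonneg_right h1 (Real.exp_pos _).le
    refine h2.trans ?_
    rw [mul_assoc C, ← Real.exp_add]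
    refine mul_le_mul_of_nonneg_left (Real.exp_le_exp.2 ?_) hC.le
    have hse : s * ε = 1 ∨ s * ε = -1 := by
      rcases hs with h | h <;> rcases hε with h' | h' <;> simp [h, h']
    have h3 : (P.m - s * ε * P.m) * x ≤ 2 * P.m * |σ| := by
      have hσ : x ≤ |σ| := hx.trans (le_abs_self σ)
      rcases hse with h | h
      · rw [h, one_mul, sub_self, zero_mul]
        exact mul_nonneg (by linarith) (abs_nonneg σ)
      · rw [h]
        have : (P.m - -1 * P.m) * x = 2 * P.m * x := by ring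
        rw [this]
        exact mul_le_mul_of_nonneg_left hσ (by linarith)
    have h4 := mul_le_mul_of_nonneg_left h3 hpT.le
    have h5 : 0 < π * T * (P.Q / 2) := by positivity
    nlinarith [h4, h5]
  constructor
  · exact key _ (by simp) (-1) (Or.inr rfl) (by simp)
  · exact key _ (by simp) 1 (Or.inl rfl) (by simp)

theorem VBD_e_add (x y : ℂ) : e (x + y) = e x * e y := by
  unfold e
  rw [mul_add, Complex.exp_add]

theorem VBD_differentiable_e : Differentiable ℂ e := by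
  unfold e
  fun_prop

theorem VBD_g_diff {P : Par} {d : ℕ} (hU : P.IsUnit d) (s : ℝ) {X : ℂ} (hX : ¬ Pole P X) :
    DifferentiableAt ℂ (fun X => G P X * e (s * P.m / 4 * X ^ 2)) X := by
  refine (G_differentiableAt P (o_lt_b hU) hX).mul ?_
  exact (VBD_differentiable_e _).comp X (by fun_prop)

theorem VBD_Vf_eq (P : Par) (s : ℝ) (z : ℂ) :
    Vf P s z = fun X => (G P X * e (s * P.m / 4 * X ^ 2)) * e (z * X) := by
  funext X
  unfold Vf
  rw [VBD_e_add]
  ring

theorem VBD_Vf_diff {P : Par} {d : ℕ} (hU : P.IsUnit d) (s : ℝ) (z : ℂ) {X : ℂ}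
    (hX : ¬ Pole P X) : DifferentiableAt ℂ (Vf P s z) X := by
  rw [VBD_Vf_eq]
  refine (VBD_g_diff hU s hX).mul ?_
  exact (VBD_differentiable_e _).comp X (by fun_prop)

/-- Convergence and differentiability of the contour integral: `LInt_param` with
`g X = G X e (s m / 4 X ^ 2)`, `κ = π T (1 - m)`; `Vf P s z X = g X * e (z * X)`; `G` is continuous on the
contour (`G_differentiableAt`, `not_pole_of_re_pos`, `not_pole_of_im_ne`). -/
theorem Vf_param {P : Par} {d : ℕ} (hU : P.IsUnit d) {s : ℝ} (hs : s = 1 ∨ s = -1)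
    {σ T : ℝ} (hσ : 0 < σ) (hT : 0 < T) {z : ℂ} (hz : 2 * z.im < T * (1 - P.m)) :
    LGood (Vf P s z) σ T ∧ DifferentiableAt ℂ (fun z : ℂ => LInt (Vf P s z) σ T) z := by
  obtain ⟨A, hA, hb⟩ := Vf_base_bound hU hs (σ := σ) hT
  have hmid : ContinuousOn (fun y : ℝ => (fun X => G P X * e (s * P.m / 4 * X ^ 2))
      ((σ : ℂ) + y * I)) (Icc (-T) T) := by
    intro y _
    have h1 := (VBD_g_diff hU s (X := (σ : ℂ) + y * I)
      (not_pole_of_re_pos P (by simpa using hσ))).continuousAt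
    exact (ContinuousAt.comp (f := fun y : ℝ => (σ : ℂ) + y * I) h1
      (by fun_prop)).continuousWithinAt
  have hlo : ContinuousOn (fun x : ℝ => (fun X => G P X * e (s * P.m / 4 * X ^ 2))
      ((x : ℂ) - T * I)) (Iic σ) := by
    intro x _
    have h1 := (VBD_g_diff hU s (X := (x : ℂ) - T * I)
      (not_pole_of_im_ne P (by simpa using hT.ne'))).continuousAt
    exact (ContinuousAt.comp (f := fun x : ℝ => (x : ℂ) - T * I) h1
      (by fun_prop)).continuousWithinAt
  have hup : ContinuousOn (fun x : ℝ => (fun X => G P X * e (s * P.m / 4 * X ^ 2))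
      ((x : ℂ) + T * I)) (Iic σ) := by
    intro x _
    have h1 := (VBD_g_diff hU s (X := (x : ℂ) + T * I)
      (not_pole_of_im_ne P (by simpa using hT.ne'))).continuousAt
    exact (ContinuousAt.comp (f := fun x : ℝ => (x : ℂ) + T * I) h1
      (by fun_prop)).continuousWithinAt
  have hw : 2 * π * z.im < π * T * (1 - P.m) := by
    have := mul_lt_mul_of_pos_left hz Real.pi_pos
    linarith
  have h := LInt_param (g := fun X => G P X * e (s * P.m / 4 * X ^ 2)) hT hmid hlo hup hb hw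
  simp only [VBD_Vf_eq]
  exact h

/-- Independence of `σ > 0` (`LInt_shift`, no poles with positive real part). -/
theorem Vf_shift {P : Par} {d : ℕ} (hU : P.IsUnit d) {s : ℝ} (hs : s = 1 ∨ s = -1)
    {σ σ' T : ℝ} (hσ : 0 < σ) (hσ' : 0 < σ') (hT : 0 < T) {z : ℂ}
    (hz : 2 * z.im < T * (1 - P.m)) : LInt (Vf P s z) σ T = LInt (Vf P s z) σ' T := by
  have key : ∀ a b : ℝ, 0 < a → 0 < b → a ≤ b →
      LInt (Vf P s z) b T = LInt (Vf P s z) a T := by
    intro a b ha hb hab
    have hg := (Vf_param hU hs hb hT hz).1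
    refine LInt_shift hab hT ?_ hg.lo hg.up
    intro X h1 _ _
    exact VBD_Vf_diff hU s z (not_pole_of_re_pos P (lt_of_lt_of_le ha h1))
  rcases le_total σ σ' with h | h
  · exact (key σ σ' hσ hσ' h).symm
  · exact key σ' σ hσ' hσ h

/-- In the window `|2 z + s m σ| < Q / 2 - σ` the contour integral is an integral over a vertical line.

Proof. `LInt_eq_vertical` with `T = 1`. For `x ≤ σ`, `|y| ≥ 1`, `G_bound` and `norm_e_quad` give
`‖Vf (x + i y)‖ ≤ C exp (π |y| ((1 ∓ s m) x - Q / 2 ∓ 2 z))` (upper signs for `y > 0`), and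
`(1 ∓ s m) x - Q / 2 ∓ 2 z = - (Q / 2 - σ ± (2 z + s m σ)) - (1 ∓ s m) (σ - x)`; take
`c = π (Q / 2 - σ - |2 z + s m σ|)`, `κ = π (1 - m)` (`|y| ≥ 1`). -/
theorem Vf_vertical {P : Par} {d : ℕ} (hU : P.IsUnit d) {s : ℝ} (hs : s = 1 ∨ s = -1)
    {σ : ℝ} (hσ : 0 < σ) {z : ℝ} (hz : |2 * z + s * P.m * σ| < P.Q / 2 - σ) :
    Integrable (fun y : ℝ => Vf P s z ((σ : ℂ) + y * I)) ∧
      LInt (Vf P s z) σ 1 = I * ∫ y : ℝ, Vf P s z ((σ : ℂ) + y * I) := by
  obtain ⟨C, hC, hG⟩ := G_bound hU one_pos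
  have hm := m_pos hU
  have hm1 := m_lt_one P
  have hpi := Real.pi_pos
  have hc : 0 < π * (P.Q / 2 - σ - |2 * z + s * P.m * σ|) := mul_pos hpi (by linarith)
  have hκ : 0 < π * (1 - P.m) := mul_pos hpi (by linarith)
  refine LInt_eq_vertical (A := C) one_pos hc hκ ?_ ?_ ?_
  · intro y _
    exact VBD_Vf_diff hU s z (not_pole_of_re_pos P (by simpa using hσ))
  · intro X _ h
    refine VBD_Vf_diff hU s z (not_pole_of_im_ne P ?_)
    intro h0
    rw [h0, abs_zero] at h
    linarith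
  · intro X hre him
    have h1 := hG X him
    unfold Vf
    rw [norm_mul, norm_e_quad]
    rw [Complex.ofReal_re, Complex.ofReal_im, zero_mul, add_zero]
    have h2 : ‖G P X‖ * Real.exp (-(π * s * P.m * X.re * X.im) - 2 * π * (z * X.im)) ≤
        C * Real.exp (π * |X.im| * (X.re - P.Q / 2)) *
          Real.exp (-(π * s * P.m * X.re * X.im) - 2 * π * (z * X.im)) :=
      mul_le_mul_of_nonneg_right h1 (Real.exp_pos _).le
    refine h2.trans ?_
    rw [mul_assoc C, ← Real.exp_add]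
    refine mul_le_mul_of_nonneg_left (Real.exp_le_exp.2 ?_) hC.le
    obtain ⟨ε, hε, hεy⟩ : ∃ ε : ℝ, (ε = 1 ∨ ε = -1) ∧ X.im = ε * |X.im| := by
      rcases le_total 0 X.im with h | h
      · exact ⟨1, Or.inl rfl, by rw [abs_of_nonneg h, one_mul]⟩
      · exact ⟨-1, Or.inr rfl, by rw [abs_of_nonpos h]; ring⟩
    generalize |X.im| = Y at *
    rw [hεy]
    have hse : s * ε = 1 ∨ s * ε = -1 := by
      rcases hs with h | h <;> rcases hε with h' | h' <;> simp [h, h']
    have h3 : -(|2 * z + s * P.m * σ|) ≤ ε * (2 * z + s * P.m * σ) := by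
      rcases hε with h | h
      · rw [h, one_mul]; exact neg_abs_le _
      · rw [h]
        have := le_abs_self (2 * z + s * P.m * σ)
        linarith
    have h4 : (1 - P.m) * (σ - X.re) ≤ (1 - s * ε * P.m) * (σ - X.re) := by
      refine mul_le_mul_of_nonneg_right ?_ (by linarith)
      rcases hse with h | h
      · rw [h]; linarith
      · rw [h]; linarith
    have h5 : (1 - s * ε * P.m) * X.re - P.Q / 2 - 2 * (ε * z) ≤
        -(P.Q / 2 - σ - |2 * z + s * P.m * σ|) - (1 - P.m) * (σ - X.re) := by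
      have e1 : (1 - s * ε * P.m) * X.re - P.Q / 2 - 2 * (ε * z) =
        -(P.Q / 2 - σ + ε * (2 * z + s * P.m * σ)) - (1 - s * ε * P.m) * (σ - X.re) := by ring
      rw [e1]
      linarith
    have hY : 0 ≤ Y := by linarith
    have h6 := mul_le_mul_of_nonneg_left h5 (mul_nonneg hpi.le hY)
    have h7 : π * (1 - P.m) * (σ - X.re) ≤ π * Y * ((1 - P.m) * (σ - X.re)) := by
      have h8 : 0 ≤ (1 - P.m) * (σ - X.re) := mul_nonneg (by linarith) (by linarith)
      have h9 : π * 1 * ((1 - P.m) * (σ - X.re)) ≤ π * Y * ((1 - P.m) * (σ - X.re)) :=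
        mul_le_mul_of_nonneg_right (mul_le_mul_of_nonneg_left him hpi.le) h8
      linarith
    have e2 : π * Y * (X.re - P.Q / 2) + (-(π * s * P.m * X.re * (ε * Y)) - 2 * π * (z * (ε * Y))) =
        π * Y * ((1 - s * ε * P.m) * X.re - P.Q / 2 - 2 * (ε * z)) := by ring
    rw [e2]
    linarith

end Ghost
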