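import Pool.Agent.Lib_MP_1c78a5_ghost.FinB

/-!
# The Weyl-Heisenberg displacement operators
-/

open Complex Finset
open scoped Real ComplexConjugate

namespace Ghost

/-- The shift operator `X`: `X |j⟩ = |j+1⟩`, indices modulo `d`. -/
noncomputable def shiftOp (d : ℕ) [NeZero d] : Matrix (ZMod d) (ZMod d) ℂ :=
  Matrix.of fun i j => if i = j + 1 then 1 else 0

/-- The clock operator `Z`: `Z |j⟩ = ω^j |j⟩`, `ω = exp (2πi/d)`. -/
noncomputable def clockOp (d : ℕ) [NeZero d] : Matrix (ZMod d) (ZMod d) ℂ :=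
  Matrix.diagonal fun j => Complex.exp (2 * Real.pi * Complex.I / d) ^ j.val

/-- The displacement operator `D_{a,b} = X^a Z^b`. -/
noncomputable def displacement (d : ℕ) [NeZero d] (a b : ZMod d) :
    Matrix (ZMod d) (ZMod d) ℂ :=
  shiftOp d ^ a.val * clockOp d ^ b.val

/-- The number `⟨φ | A | ψ⟩`. -/
noncomputable def braket {d : ℕ} [NeZero d] (φ : ZMod d → ℂ) (A : Matrix (ZMod d) (ZMod d) ℂ)
    (ψ : ZMod d → ℂ) : ℂ :=
  dotProduct (star φ) (A.mulVec ψ)

variable {d : ℕ} [NeZero d]

lemma shift_mulVec (n : ℕ) (ψ : ZMod d → ℂ) :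
    (shiftOp d ^ n).mulVec ψ = fun i => ψ (i - n) := by
  induction n generalizing ψ with
  | zero => simp
  | succ n ih =>
    rw [pow_succ, ← Matrix.mulVec_mulVec, ih]
    funext i
    have h1 : (shiftOp d).mulVec ψ (i - n) = ψ (i - n - 1) := by
      unfold shiftOp Matrix.mulVec dotProduct
      simp only [Matrix.of_apply]
      rw [sum_eq_single (i - n - 1)]
      · simp
      · intro j _ hj
        rw [if_neg, zero_mul]
        intro h
        apply hj
        rw [h]
        ring
      · intro h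
        exact absurd (mem_univ _) h
    rw [h1]
    congr 1
    push_cast
    ring

lemma clock_mulVec (n : ℕ) (ψ : ZMod d → ℂ) (i : ZMod d) :
    (clockOp d ^ n).mulVec ψ i = (Complex.exp (2 * Real.pi * Complex.I / d) ^ n) ^ i.val * ψ i := by
  unfold clockOp
  rw [Matrix.diagonal_pow, Matrix.mulVec_diagonal, Pi.pow_apply, ← pow_mul, ← pow_mul, mul_comm n]

lemma root_pow (b i : ZMod d) : (Complex.exp (2 * Real.pi * Complex.I / d) ^ b.val) ^ i.val =
    ZMod.stdAddChar (b * i) := by
  have h1 : b * i = (((b.val * i.val : ℕ) : ℤ) : ZMod d) := by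
    push_cast
    simp
  rw [h1, ZMod.stdAddChar_coe, ← pow_mul, ← Complex.exp_nat_mul]
  congr 1
  push_cast
  ring

/-- The action of the displacement operators. -/
lemma disp_mulVec (a b : ZMod d) (ψ : ZMod d → ℂ) :
    (displacement d a b).mulVec ψ = fun i => ZMod.stdAddChar (b * (i - a)) * ψ (i - a) := by
  unfold displacement
  rw [← Matrix.mulVec_mulVec, shift_mulVec]
  funext i
  simp only [ZMod.natCast_zmod_val]
  rw [clock_mulVec, root_pow]

lemma braket_disp (φ ψ : ZMod d → ℂ) (a b : ZMod d) :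
    braket φ (displacement d a b) ψ = ovl φ ψ a b := by
  unfold braket ovl
  rw [disp_mulVec]
  unfold dotProduct
  rw [← Equiv.sum_comp (Equiv.addRight a)]
  refine sum_congr rfl fun i _ => ?_
  simp only [Equiv.coe_addRight, add_sub_cancel_right, Pi.star_apply]
  rfl

lemma disp_mul_neg (a b : ZMod d) : displacement d a b *
    ((ZMod.stdAddChar (a * b) : ℂ) • displacement d (-a) (-b)) = 1 := by
  apply Matrix.ext_of_mulVec_single
  intro k
  rw [← Matrix.mulVec_mulVec, Matrix.smul_mulVec, Matrix.mulVec_smul, disp_mulVec, disp_mulVec,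
    Matrix.one_mulVec]
  funext i
  simp only [Pi.smul_apply, smul_eq_mul]
  have h1 : i - a - -a = i := by ring
  rw [h1, ← mul_assoc, ← mul_assoc, ← AddChar.map_add_eq_mul, ← AddChar.map_add_eq_mul]
  have h2 : a * b + b * (i - a) + -b * i = 0 := by ring
  rw [h2, AddChar.map_zero_eq_one, one_mul]

lemma disp_inv (a b : ZMod d) : (displacement d a b)⁻¹ =
    (ZMod.stdAddChar (a * b) : ℂ) • displacement d (-a) (-b) :=
  Matrix.inv_eq_right_inv (disp_mul_neg a b)

lemma braket_disp_inv (φ ψ : ZMod d → ℂ) (a b : ZMod d) :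
    braket φ (displacement d a b)⁻¹ ψ = ZMod.stdAddChar (a * b) * ovl φ ψ (-a) (-b) := by
  rw [disp_inv, ← braket_disp]
  unfold braket
  rw [Matrix.smul_mulVec, dotProduct_smul, smul_eq_mul]

end Ghost
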